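import Pool.Agent.H16.Irr.ModA

/-! Module C: infinitely many parameters with a point (an explicit 3-isogeny). -/

namespace Pool.Agent.H16

open Polynomial

namespace ModC

/-- The constants as a ring homomorphism. -/
noncomputable def cstHom (S : Type*) [CommRing S] : S →+* OB S := (AdjoinRoot.of (hB S)).comp C

theorem cst_eq {S : Type*} [CommRing S] (r : S) : cst r = cstHom S r := rfl

theorem hB_degree : (hB ℂ).degree ≠ 0 := by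
  have : (hB ℂ).natDegree = 2 := by
    unfold hB
    compute_degree!
  intro h
  rw [natDegree_eq_of_degree_eq_some h] at this
  exact absurd this (by norm_num)

theorem of_injective : Function.Injective (AdjoinRoot.of (hB ℂ)) :=
  AdjoinRoot.of.injective_of_degree_ne_zero hB_degree

theorem tt_ne_zero : tt ℂ ≠ 0 := by
  intro h
  have : (X : ℂ[X]) = 0 := of_injective (by rw [map_zero]; exact h)
  exact X_ne_zero this

theorem cstHom_injective : Function.Injective (cstHom ℂ) :=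
  of_injective.comp C_injective

theorem relB (S : Type*) [CommRing S] : ee S ^ 2 + ee S + tt S ^ 12 = 0 := by
  have h : AdjoinRoot.mk (hB S) (X ^ 2 + X + C (X ^ 12)) = 0 := AdjoinRoot.mk_self
  simp only [map_add, map_pow, AdjoinRoot.mk_X, AdjoinRoot.mk_C] at h
  exact h

/-- The isogeny identity. -/
theorem isogeny {A : Type*} [CommRing A] (X Y Z d e f l c m : A)
    (h1 : X ^ 3 + f * Y ^ 3 + e * Z ^ 3 = 3 * l * d * X * Y * Z) (h2 : e * f = d ^ 3)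
    (h3 : m * c = 1) (h4 : (c * (l + 2)) ^ 3 = 9 * (l ^ 2 + l + 1)) :
    (c * (l + 2) * d ^ 2 * X * Y * Z) ^ 3
      + f * (d * X ^ 2 * Y + e * X * Z ^ 2 + d ^ 2 * Y ^ 2 * Z) ^ 3
      + e * (d * X ^ 2 * Z + f * X * Y ^ 2 + d ^ 2 * Y * Z ^ 2) ^ 3
      = 3 * m * d * (c * (l + 2) * d ^ 2 * X * Y * Z)
        * (d * X ^ 2 * Y + e * X * Z ^ 2 + d ^ 2 * Y ^ 2 * Z)
        * (d * X ^ 2 * Z + f * X * Y ^ 2 + d ^ 2 * Y * Z ^ 2) := by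
  linear_combination
    (X^3*Y^3*d^3*f + X^3*Z^3*d^3*e - 3*X^2*Y^2*Z^2*d^5*l + 3*Y^3*Z^3*d^6 - 2*Y^3*Z^3*d^3*e*f) * h1
    + (6*X^5*Y^2*Z^2*d^2 + 3*X^4*Y^4*Z*d*f + 3*X^4*Y*Z^4*d*e + X^3*Y^6*f^2 - 3*X^3*Y^3*Z^3*d^3*l
      + 6*X^3*Y^3*Z^3*d^3 + X^3*Z^6*e^2 + 3*X^2*Y^5*Z^2*d^2*f + 3*X^2*Y^2*Z^5*d^2*e
      - 6*X*Y^4*Z^4*d^4*l + 6*X*Y^4*Z^4*d^4 + 2*Y^6*Z^3*d^3*f + 2*Y^3*Z^6*d^3*e) * h2
    + d ^ 6 * (X * Y * Z) ^ 3 * h4
    - 3 * (l + 2) * d ^ 3 * X * Y * Z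
      * (d * X ^ 2 * Y + e * X * Z ^ 2 + d ^ 2 * Y ^ 2 * Z)
      * (d * X ^ 2 * Z + f * X * Y ^ 2 + d ^ 2 * Y * Z ^ 2) * h3

theorem step (l c : ℝ) (hl : 0 ≤ l) (hc : 0 < c) (h4 : (c * (l + 2)) ^ 3 = 9 * (l ^ 2 + l + 1))
    (h : HasPt ℂ (l : ℂ)) : HasPt ℂ ((c⁻¹ : ℝ) : ℂ) := by
  have : IsDomain (OB ℂ) := OB_isDomain ℂ two_ne_zero
  obtain ⟨X, Y, Z, hX, hY, hZ, h⟩ := h
  have hrel : ee ℂ * (-1 - ee ℂ) = (tt ℂ ^ 4) ^ 3 := by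
    linear_combination (-1 : OB ℂ) * relB ℂ
  have h3' : cst ((c⁻¹ : ℝ) : ℂ) * cst ((c : ℝ) : ℂ) = 1 := by
    rw [cst_eq, cst_eq, ← map_mul, ← Complex.ofReal_mul, inv_mul_cancel₀ hc.ne',
      Complex.ofReal_one, map_one]
  have h4' : (cst (c : ℂ) * (cst (l : ℂ) + 2)) ^ 3
      = 9 * (cst (l : ℂ) ^ 2 + cst (l : ℂ) + 1) := by
    have : ((c : ℂ) * ((l : ℂ) + 2)) ^ 3 = 9 * ((l : ℂ) ^ 2 + (l : ℂ) + 1) := by
      exact_mod_cast congrArg (fun x : ℝ => (x : ℂ)) h4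
    have := congrArg (cstHom ℂ) this
    simp only [map_mul, map_pow, map_add, map_one, map_ofNat] at this
    exact this
  have key := isogeny X Y Z (tt ℂ ^ 4) (ee ℂ) (-1 - ee ℂ) (cst (l : ℂ)) (cst (c : ℂ))
    (cst ((c⁻¹ : ℝ) : ℂ)) (by rw [h]) hrel h3' h4'
  have hX' : cst (c : ℂ) * (cst (l : ℂ) + 2) * (tt ℂ ^ 4) ^ 2 * X * Y * Z ≠ 0 := by
    have hc' : cst (c : ℂ) ≠ 0 := by
      rw [cst_eq]
      intro h0
      have : (c : ℂ) = 0 := cstHom_injective (by rw [h0, map_zero])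
      exact hc.ne' (by exact_mod_cast this)
    have hl' : cst (l : ℂ) + 2 ≠ 0 := by
      intro h0
      have h0' : cstHom ℂ ((l : ℂ) + 2) = 0 := by
        rw [map_add, map_ofNat]
        exact h0
      have : (l : ℂ) + 2 = 0 := cstHom_injective (by rw [h0', map_zero])
      have : l + 2 = 0 := by exact_mod_cast this
      linarith
    have ht : (tt ℂ ^ 4) ^ 2 ≠ 0 := pow_ne_zero _ (pow_ne_zero _ tt_ne_zero)
    exact mul_ne_zero (mul_ne_zero (mul_ne_zero (mul_ne_zero (mul_ne_zero hc' hl') ht) hX) hY) hZ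
  have key' := coords_ne_zero ℂ two_ne_zero three_ne_zero (3 * cst ((c⁻¹ : ℝ) : ℂ) * tt ℂ ^ 4)
    _ _ _ key (Or.inl hX')
  exact ⟨_, _, _, key'.1, key'.2.1, key'.2.2, key⟩

theorem next (l : ℝ) (h0 : 0 ≤ l) (h1 : l < 1) (h : HasPt ℂ (l : ℂ)) :
    ∃ l' : ℝ, l < l' ∧ l' < 1 ∧ HasPt ℂ (l' : ℂ) := by
  -- `c = (9 (l²+l+1))^{1/3} / (l+2)`
  have hpos : 0 < 9 * (l ^ 2 + l + 1) := by positivity
  obtain ⟨r, hr0, hr⟩ : ∃ r : ℝ, 0 < r ∧ r ^ 3 = 9 * (l ^ 2 + l + 1) := by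
    refine ⟨(9 * (l ^ 2 + l + 1)) ^ ((1 : ℝ) / 3), Real.rpow_pos_of_pos hpos _, ?_⟩
    rw [← Real.rpow_natCast, ← Real.rpow_mul hpos.le]
    norm_num
  have hl2 : 0 < l + 2 := by linarith
  have hc : 0 < r / (l + 2) := div_pos hr0 hl2
  have h4 : (r / (l + 2) * (l + 2)) ^ 3 = 9 * (l ^ 2 + l + 1) := by
    rw [div_mul_cancel₀ _ hl2.ne', hr]
  refine ⟨(r / (l + 2))⁻¹, ?_, ?_, step l _ h0 hc h4 h⟩
  · rw [inv_div, lt_div_iff₀ hr0]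
    by_contra hcon
    push Not at hcon
    have h3 : (l + 2) ^ 3 ≤ (l * r) ^ 3 := pow_le_pow_left₀ hl2.le hcon 3
    rw [mul_pow, hr] at h3
    nlinarith [mul_pos (sub_pos.2 h1) (show (0:ℝ) < 9*l^4+18*l^3+26*l^2+20*l+8 by positivity)]
  · rw [inv_div, div_lt_one hr0]
    by_contra hcon
    push Not at hcon
    have h3 : r ^ 3 ≤ (l + 2) ^ 3 := pow_le_pow_left₀ hr0.le hcon 3
    rw [hr] at h3
    have : (1 - l) ^ 3 > 0 := pow_pos (sub_pos.2 h1) 3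
    nlinarith

theorem base : HasPt ℂ ((0 : ℝ) : ℂ) := by
  have : IsDomain (OB ℂ) := OB_isDomain ℂ two_ne_zero
  refine ⟨1, 1, 1, one_ne_zero, one_ne_zero, one_ne_zero, ?_⟩
  rw [Complex.ofReal_zero, cst_eq, map_zero]
  ring

end ModC

theorem hasPt_infinite : Set.Infinite {l : ℂ | l ^ 3 ≠ 1 ∧ HasPt ℂ l} := by
  let S : Set ℝ := {l : ℝ | 0 ≤ l ∧ l < 1 ∧ HasPt ℂ (l : ℂ)}
  have hS : S.Infinite := by
    intro hfin
    have hne : S.Nonempty := ⟨0, le_refl _, zero_lt_one, ModC.base⟩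
    obtain ⟨m, hm, hmax⟩ := hfin.exists_maximal hne
    obtain ⟨l', h1, h2, h3⟩ := ModC.next m hm.1 hm.2.1 hm.2.2
    have := hmax (show l' ∈ S from ⟨hm.1.trans h1.le, h2, h3⟩) h1.le
    exact absurd h1 (not_lt.2 this)
  refine (hS.image (f := fun x : ℝ => (x : ℂ)) (Complex.ofReal_injective.injOn)).mono ?_
  rintro _ ⟨x, ⟨h0, h1, h⟩, rfl⟩
  refine ⟨?_, h⟩
  intro h3
  have h3' : x ^ 3 = 1 := by
    have h4 : ((x : ℂ)) ^ 3 = 1 := h3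
    exact_mod_cast h4
  have : x ^ 3 < 1 := pow_lt_one₀ h0 h1 (by norm_num)
  exact absurd h3' this.ne

end Pool.Agent.H16
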