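import Pool.Agent.H16.Irr.Defs

namespace Pool.Agent.H16

open Polynomial

namespace ModD

/-- polynomial version -/
theorem no_root_poly {k : Type*} [Field k] (h3 : (3 : k) ≠ 0) (b c μ : k) (hb : b ≠ 0)
    (hc : c ≠ 0) (hμ : μ ^ 3 ≠ b * c) (p : k[X])
    (h : 1 + C b * X ^ 3 + C c * p ^ 3 = 3 * C μ * X * p) : False := by
  by_cases hn : p.natDegree ≤ 1
  · obtain ⟨α, β, hp⟩ := Polynomial.exists_eq_X_add_C_of_natDegree_le_one hn
    subst hp
    have h0 := congrArg (fun q => q.coeff 0) h
    have h1 := congrArg (fun q => q.coeff 1) h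
    have h2 := congrArg (fun q => q.coeff 2) h
    have h3' := congrArg (fun q => q.coeff 3) h
    have e1 : (1 + C b * X ^ 3 + C c * (C α * X + C β) ^ 3 : k[X]) =
        C (1 + c * β ^ 3) + C (3 * c * α * β ^ 2) * X + C (3 * c * α ^ 2 * β) * X ^ 2 +
          C (b + c * α ^ 3) * X ^ 3 := by
      simp only [map_add, map_mul, map_pow, map_one, map_ofNat]
      ring
    have e2 : (3 * C μ * X * (C α * X + C β) : k[X]) =
        C (3 * μ * β) * X + C (3 * μ * α) * X ^ 2 := by
      simp only [map_mul, map_ofNat]
      ring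
    rw [e1, e2] at h0 h1 h2 h3'
    simp only [coeff_add, coeff_C_mul, coeff_X_pow, coeff_C, coeff_X] at h0 h1 h2 h3'
    norm_num at h0 h1 h2 h3'
    have hβ : β ≠ 0 := by
      rintro rfl
      simp at h0
    have hα : α ≠ 0 := by
      rintro rfl
      simp at h3'
      exact hb h3'
    have h1' : c * α * β = μ := by
      have h1a : (3 * β) * (c * α * β - μ) = 0 := by linear_combination h1
      rcases mul_eq_zero.mp h1a with h | h
      · exact absurd h (mul_ne_zero h3 hβ)
      · exact sub_eq_zero.mp h
    apply hμ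
    rw [← h1']
    linear_combination (c ^ 2 * α ^ 3) * h0 - c * h3'
  · push Not at hn
    have hp0 : p ≠ 0 := by
      rintro rfl
      simp at hn
    have hl : (1 + C b * X ^ 3 + C c * p ^ 3 : k[X]).natDegree = 3 * p.natDegree := by
      have hq : (C c * p ^ 3 : k[X]).natDegree = 3 * p.natDegree := by
        rw [natDegree_C_mul hc, natDegree_pow]
      rw [natDegree_add_eq_right_of_natDegree_lt]
      · exact hq
      · rw [hq]
        have : (1 + C b * X ^ 3 : k[X]).natDegree ≤ 3 := by
          compute_degree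
        omega
    have hr : (3 * C μ * X * p : k[X]).natDegree ≤ 1 + p.natDegree := by
      have : (3 * C μ * X * p : k[X]) = C (3 * μ) * (X * p) := by
        simp only [map_mul, map_ofNat]
        ring
      rw [this]
      refine (natDegree_C_mul_le _ _).trans ?_
      refine natDegree_mul_le.trans ?_
      simp
    rw [← h, hl] at hr
    omega

end ModD

/-- The cubic `1 + b y³ + c W³ = 3 μ y W` has no solution `W ∈ k(y)`. -/
theorem no_root_ratFunc {k : Type*} [Field k] (h3 : (3 : k) ≠ 0) (b c μ : k) (hb : b ≠ 0)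
    (hc : c ≠ 0) (hμ : μ ^ 3 ≠ b * c) (W : RatFunc k) :
    1 + RatFunc.C b * RatFunc.X ^ 3 + RatFunc.C c * W ^ 3 ≠ 3 * RatFunc.C μ * RatFunc.X * W := by
  intro h
  -- `W` is integral over `k[X]`
  have hint : IsIntegral k[X] W := by
    refine ⟨X ^ 3 + (C (C (c⁻¹) * C (-3 * μ) * X) * X + C (C (c⁻¹) * (1 + C b * X ^ 3))), ?_, ?_⟩
    · monicity!
    · have hcc : RatFunc.C (c⁻¹) * RatFunc.C c = (1 : RatFunc k) := by
        rw [← map_mul, inv_mul_cancel₀ hc, map_one]
      rw [eval₂_add, eval₂_add, eval₂_mul, eval₂_pow, eval₂_X, eval₂_C, eval₂_C]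
      simp only [map_mul, map_add, map_one, map_pow,
        map_neg, map_ofNat, RatFunc.algebraMap_C, RatFunc.algebraMap_X]
      linear_combination (RatFunc.C (c⁻¹)) * h - W ^ 3 * hcc
  obtain ⟨p, rfl⟩ := IsIntegrallyClosed.isIntegral_iff.mp hint
  apply ModD.no_root_poly h3 b c μ hb hc hμ p
  apply RatFunc.algebraMap_injective k
  simpa only [map_mul, map_add, map_one, map_pow, map_ofNat, RatFunc.algebraMap_C,
    RatFunc.algebraMap_X] using h

namespace ModD

open IntermediateField

/-- degree of the function field of the cubic over the line -/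
theorem finrank_eq_three {k K : Type*} [Field k] [Field K] [Algebra k K] (h3 : (3 : k) ≠ 0)
    (b c μ : k) (y w : K) (hb : b ≠ 0) (hc : c ≠ 0) (hμ : μ ^ 3 ≠ b * c)
    (hy : Transcendental k y) (hgen : IntermediateField.adjoin k {y, w} = ⊤)
    (h : 1 + algebraMap k K b * y ^ 3 + algebraMap k K c * w ^ 3 = 3 * algebraMap k K μ * y * w) :
    Module.finrank k⟮y⟯ K = 3 := by
  set y' : k⟮y⟯ := AdjoinSimple.gen k y with hy'
  have hy'' : algebraMap k⟮y⟯ K y' = y := rfl
  set e := RatFunc.algEquivOfTranscendental y hy with he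
  have hsymm : e.symm y' = RatFunc.X := by
    rw [he, hy']
    exact RatFunc.algEquivOfTranscendental_symm_gen y hy
  -- the monic polynomial
  set f : k⟮y⟯[X] := X ^ 3 + (C (algebraMap k k⟮y⟯ (c⁻¹) * (-(3 * algebraMap k k⟮y⟯ μ * y'))) * X +
    C (algebraMap k k⟮y⟯ (c⁻¹) * (1 + algebraMap k k⟮y⟯ b * y' ^ 3))) with hf
  have hfm : f.Monic := by
    rw [hf]
    monicity!
  have hfd : f.natDegree = 3 := by
    rw [hf]
    compute_degree!
  have hcc : algebraMap k k⟮y⟯ c * algebraMap k k⟮y⟯ (c⁻¹) = 1 := by
    rw [← map_mul, mul_inv_cancel₀ hc, map_one]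
  have hfirr : Irreducible f := by
    apply irreducible_of_degree_le_three_of_not_isRoot
    · rw [hfd]
      simp
    · intro W hW
      rw [IsRoot, hf] at hW
      simp only [eval_add, eval_mul, eval_pow, eval_X, eval_C] at hW
      have hW' : 1 + algebraMap k k⟮y⟯ b * y' ^ 3 + algebraMap k k⟮y⟯ c * W ^ 3 =
          3 * algebraMap k k⟮y⟯ μ * y' * W := by
        linear_combination (algebraMap k k⟮y⟯ c) * hW -
          (-(3 * algebraMap k k⟮y⟯ μ * y') * W + (1 + algebraMap k k⟮y⟯ b * y' ^ 3)) * hcc
      have := congrArg e.symm hW'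
      simp only [map_mul, map_add, map_one, map_pow, map_ofNat, AlgEquiv.commutes, hsymm] at this
      exact no_root_ratFunc h3 b c μ hb hc hμ (e.symm W) this
  have hroot : aeval w f = 0 := by
    have hcc' : algebraMap k K c * algebraMap k K (c⁻¹) = 1 := by
      rw [← map_mul, mul_inv_cancel₀ hc, map_one]
    have hc0 : algebraMap k K c ≠ 0 := by
      rw [Ne, map_eq_zero]
      exact hc
    rw [hf]
    simp only [map_mul, map_add, map_one, map_pow, map_neg, map_ofNat, aeval_X, aeval_C, hy'',
      ← IsScalarTower.algebraMap_apply k k⟮y⟯ K]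
    have : algebraMap k K c * (w ^ 3 + (algebraMap k K (c⁻¹) * (-(3 * algebraMap k K μ * y)) * w +
      algebraMap k K (c⁻¹) * (1 + algebraMap k K b * y ^ 3))) = 0 := by
      linear_combination h + ((-(3 * algebraMap k K μ * y)) * w + (1 + algebraMap k K b * y ^ 3)) * hcc'
    exact (mul_eq_zero.mp this).resolve_left hc0
  have hmin : minpoly k⟮y⟯ w = f := (minpoly.eq_of_irreducible_of_monic hfirr hroot hfm).symm
  have hwint : IsIntegral k⟮y⟯ w := ⟨f, hfm, by simpa [aeval_def] using hroot⟩
  have htop : IntermediateField.adjoin k⟮y⟯ {w} = ⊤ := by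
    apply IntermediateField.restrictScalars_injective k
    rw [IntermediateField.restrictScalars_top, IntermediateField.adjoin_simple_adjoin_simple]
    exact hgen
  rw [← IntermediateField.finrank_top', ← htop, IntermediateField.adjoin.finrank hwint, hmin, hfd]

end ModD

/-- `F` is algebraically closed in `K = F(y, w)`. -/
theorem mem_of_isAlgebraic {K : Type*} [Field K] [CharZero K] (F : Subfield K) (b c μ y w : K)
    (hbF : b ∈ F) (hcF : c ∈ F) (hμF : μ ∈ F) (hb : b ≠ 0) (hc : c ≠ 0) (hμ : μ ^ 3 ≠ b * c)
    (hy : Transcendental F y) (hgen : Subfield.closure (F ∪ {y, w}) = ⊤)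
    (h : 1 + b * y ^ 3 + c * w ^ 3 = 3 * μ * y * w) (x : K) (hx : IsAlgebraic F x) : x ∈ F := by
  have hcl : IntermediateField.adjoin F {y, w} = ⊤ := by
    apply IntermediateField.toSubfield_injective
    rw [IntermediateField.adjoin_toSubfield]
    have : Set.range (algebraMap F K) = (F : Set K) := by
      ext z
      constructor
      · rintro ⟨z, rfl⟩
        exact z.2
      · intro hz
        exact ⟨⟨z, hz⟩, rfl⟩
    rw [this, hgen]
    rfl
  have h3F : (3 : F) ≠ 0 := by
    intro h
    have := congrArg (algebraMap F K) h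
    simp at this
  have hd1 : Module.finrank (IntermediateField.adjoin F {y}) K = 3 :=
    ModD.finrank_eq_three h3F ⟨b, hbF⟩ ⟨c, hcF⟩ ⟨μ, hμF⟩ y w (by simpa [Subtype.ext_iff] using hb)
      (by simpa [Subtype.ext_iff] using hc) (by simpa [Subtype.ext_iff] using hμ) hy hcl h
  set F' := IntermediateField.adjoin F {x} with hF'
  have : Algebra.IsAlgebraic F F' := by
    rw [hF']
    exact IntermediateField.isAlgebraic_adjoin_simple hx.isIntegral
  have hy' : Transcendental F' y := by
    intro hya
    exact hy (hya.restrictScalars F)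
  have h3F' : (3 : F') ≠ 0 := by
    intro h
    have := congrArg (algebraMap F' K) h
    simp at this
  have hgen' : IntermediateField.adjoin F' {y, w} = ⊤ := by
    rw [eq_top_iff]
    intro z _
    have hz : z ∈ IntermediateField.adjoin F {y, w} := by rw [hcl]; trivial
    have hle : IntermediateField.adjoin F {y, w} ≤
        (IntermediateField.adjoin F' {y, w}).restrictScalars F := by
      rw [IntermediateField.adjoin_le_iff]
      exact IntermediateField.subset_adjoin F' {y, w}
    exact hle hz
  have hd2 : Module.finrank (IntermediateField.adjoin F' {y}) K = 3 :=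
    ModD.finrank_eq_three h3F' (algebraMap F F' ⟨b, hbF⟩) (algebraMap F F' ⟨c, hcF⟩)
      (algebraMap F F' ⟨μ, hμF⟩) y w (by
        intro h
        exact hb (congrArg (algebraMap F' K) h))
      (by
        intro h
        exact hc (congrArg (algebraMap F' K) h)) (by
        intro h
        exact hμ (congrArg (algebraMap F' K) h)) hy' hgen' h
  have hfd : FiniteDimensional (IntermediateField.adjoin F {y}) K :=
    FiniteDimensional.of_finrank_pos (by rw [hd1]; norm_num)
  have hle : IntermediateField.adjoin F {y} ≤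
      (IntermediateField.adjoin F' {y}).restrictScalars F := by
    rw [IntermediateField.adjoin_le_iff]
    exact IntermediateField.subset_adjoin F' {y}
  have heq := IntermediateField.eq_of_le_of_finrank_eq' hle (hd1.trans hd2.symm)
  have hxy : x ∈ IntermediateField.adjoin F {y} := by
    rw [heq]
    exact (IntermediateField.adjoin F' {y}).algebraMap_mem
      ⟨x, IntermediateField.mem_adjoin_simple_self F x⟩
  -- `F` is algebraically closed in `F(y)`
  set e := RatFunc.algEquivOfTranscendental y hy with he
  by_contra hxF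
  have hne : ¬ ∃ c : F, e.symm ⟨x, hxy⟩ = RatFunc.C c := by
    rintro ⟨c, hc⟩
    apply hxF
    have h1 : (⟨x, hxy⟩ : IntermediateField.adjoin F {y}) = e (RatFunc.C c) := by
      rw [← hc, AlgEquiv.apply_symm_apply]
    have h2 : e (RatFunc.C c) = algebraMap F _ c := by
      rw [← RatFunc.algebraMap_eq_C]
      exact e.commutes c
    rw [h2] at h1
    have h3 := congrArg Subtype.val h1
    have h4 : x = (c : K) := h3
    rw [h4]
    exact c.2
  apply RatFunc.transcendental_of_ne_C _ hne
  have hxa : IsAlgebraic F (⟨x, hxy⟩ : IntermediateField.adjoin F {y}) := by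
    rw [← isAlgebraic_algebraMap_iff (algebraMap (IntermediateField.adjoin F {y}) K).injective]
    exact hx
  exact hxa.algHom e.symm.toAlgHom

end Pool.Agent.H16
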