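import Pool.Agent.H16.Irr.ModA

namespace Pool.Agent.H16

open Polynomial

namespace ModE

theorem hB_monic (S : Type*) [CommRing S] [Nontrivial S] : (hB S).Monic := by
  unfold hB
  monicity!

/-- The evaluation of `OB ℂ` at a point of the curve. -/
noncomputable def ev {K : Type*} [Field K] [Algebra ℂ K] (t ε : K)
    (hε : ε ^ 2 + ε + t ^ 12 = 0) : OB ℂ →+* K :=
  AdjoinRoot.lift (aeval t : ℂ[X] →ₐ[ℂ] K).toRingHom ε (by
    rw [hB, eval₂_add, eval₂_add, eval₂_pow, eval₂_X, eval₂_C]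
    simpa using hε)

variable {K : Type*} [Field K] [Algebra ℂ K] (t ε : K) (hε : ε ^ 2 + ε + t ^ 12 = 0)

theorem ev_tt : ev t ε hε (tt ℂ) = t := by
  simp [ev, tt]

theorem ev_ee : ev t ε hε (ee ℂ) = ε := by
  simp [ev, ee]

theorem ev_cst (r : ℂ) : ev t ε hε (cst r) = algebraMap ℂ K r := by
  simp [ev, cst]

theorem ev_injective (ht : Transcendental ℂ t) : Function.Injective (ev t ε hε) := by
  have hdom : IsDomain (OB ℂ) := OB_isDomain ℂ two_ne_zero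
  rw [injective_iff_map_eq_zero]
  intro z hz
  by_contra hz0
  have hint : IsIntegral ℂ[X] z := by
    have : Module.Finite ℂ[X] (AdjoinRoot (hB ℂ)) := (hB_monic ℂ).finite_adjoinRoot
    exact Algebra.IsIntegral.isIntegral z
  have hker : z ∈ RingHom.ker (ev t ε hε) := hz
  apply Ideal.comap_ne_bot_of_integral_mem hz0 hker hint
  rw [eq_bot_iff]
  intro p hp
  have hp' : ev t ε hε (AdjoinRoot.of (hB ℂ) p) = 0 := hp
  have hp'' : aeval t p = 0 := by
    simpa [ev] using hp'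
  by_contra hpn
  exact ht ⟨p, hpn, hp''⟩

theorem exists_ev {z : K} (hz : z ∈ Algebra.adjoin ℂ {t, ε}) : ∃ x : OB ℂ, ev t ε hε x = z := by
  induction hz using Algebra.adjoin_induction with
  | mem x hx =>
    rcases hx with rfl | hx
    · exact ⟨tt ℂ, ev_tt _ _ _⟩
    · have : x = ε := hx
      subst this
      exact ⟨ee ℂ, ev_ee _ _ _⟩
  | algebraMap r => exact ⟨cst r, ev_cst _ _ _ r⟩
  | add x y _ _ hx hy =>
    obtain ⟨x', rfl⟩ := hx
    obtain ⟨y', rfl⟩ := hy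
    exact ⟨x' + y', map_add _ _ _⟩
  | mul x y _ _ hx hy =>
    obtain ⟨x', rfl⟩ := hx
    obtain ⟨y', rfl⟩ := hy
    exact ⟨x' * y', map_mul _ _ _⟩

theorem exists_div {z : K} (hz : z ∈ IntermediateField.adjoin ℂ {t, ε}) :
    ∃ x s : OB ℂ, ev t ε hε s ≠ 0 ∧ z = ev t ε hε x / ev t ε hε s := by
  obtain ⟨r, hr, s, hs, rfl⟩ := IntermediateField.mem_adjoin_iff_div.mp hz
  obtain ⟨r', rfl⟩ := exists_ev t ε hε hr
  obtain ⟨s', rfl⟩ := exists_ev t ε hε hs
  by_cases h0 : ev t ε hε s' = 0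
  · refine ⟨0, 1, ?_, ?_⟩
    · simp
    · simp [h0]
  · exact ⟨r', s', h0, rfl⟩

theorem ev_mem (z : OB ℂ) : ev t ε hε z ∈ IntermediateField.adjoin ℂ {t, ε} := by
  have ht : t ∈ IntermediateField.adjoin ℂ {t, ε} :=
    IntermediateField.subset_adjoin _ _ (by simp)
  have he : ε ∈ IntermediateField.adjoin ℂ {t, ε} :=
    IntermediateField.subset_adjoin _ _ (by simp)
  obtain ⟨p, rfl⟩ := AdjoinRoot.mk_surjective z
  have hp : ev t ε hε (AdjoinRoot.mk (hB ℂ) p) =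
      eval₂ (aeval t : ℂ[X] →ₐ[ℂ] K).toRingHom ε p := by
    simp [ev]
  rw [hp, eval₂_eq_sum]
  refine sum_mem fun i _ => mul_mem ?_ (pow_mem he i)
  have : (aeval t : ℂ[X] →ₐ[ℂ] K).toRingHom (p.coeff i) = aeval t (p.coeff i) := rfl
  rw [this, aeval_eq_sum_range]
  exact sum_mem fun j _ => (IntermediateField.adjoin ℂ {t, ε}).smul_mem (pow_mem ht j)

end ModE

theorem hasPt_of_point {K : Type*} [Field K] [Algebra ℂ K] (l : ℂ) (t ε : K)
    (hε : ε ^ 2 + ε + t ^ 12 = 0) (ht : Transcendental ℂ t) (X Y Z : K)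
    (hX : X ∈ IntermediateField.adjoin ℂ {t, ε}) (hY : Y ∈ IntermediateField.adjoin ℂ {t, ε})
    (hZ : Z ∈ IntermediateField.adjoin ℂ {t, ε}) (hne : X ≠ 0 ∨ Y ≠ 0 ∨ Z ≠ 0)
    (h : X ^ 3 + (-1 - ε) * Y ^ 3 + ε * Z ^ 3 = 3 * algebraMap ℂ K l * t ^ 4 * X * Y * Z) :
    HasPt ℂ l := by
  obtain ⟨x, s, hs, rfl⟩ := ModE.exists_div t ε hε hX
  obtain ⟨y, u, hu, rfl⟩ := ModE.exists_div t ε hε hY
  obtain ⟨z, v, hv, rfl⟩ := ModE.exists_div t ε hε hZ
  have hinj := ModE.ev_injective t ε hε ht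
  have heq : (x * (u * v)) ^ 3 + (-1 - ee ℂ) * (y * (s * v)) ^ 3 + ee ℂ * (z * (s * u)) ^ 3 =
      3 * cst l * tt ℂ ^ 4 * (x * (u * v)) * (y * (s * v)) * (z * (s * u)) := by
    apply hinj
    simp only [map_add, map_mul, map_pow, map_sub, map_neg, map_one, map_ofNat, ModE.ev_ee,
      ModE.ev_tt, ModE.ev_cst]
    field_simp at h
    linear_combination h
  obtain ⟨h1, h2, h3⟩ := coords_ne_zero ℂ two_ne_zero three_ne_zero _ _ _ _ heq (by
    by_contra hcon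
    push Not at hcon
    obtain ⟨e1, e2, e3⟩ := hcon
    have f1 := congrArg (ModE.ev t ε hε) e1
    have f2 := congrArg (ModE.ev t ε hε) e2
    have f3 := congrArg (ModE.ev t ε hε) e3
    simp only [map_mul, map_zero, mul_eq_zero, hs, hu, hv, or_false] at f1 f2 f3
    rcases hne with h | h | h
    · exact h (by rw [f1, zero_div])
    · exact h (by rw [f2, zero_div])
    · exact h (by rw [f3, zero_div]))
  exact ⟨_, _, _, h1, h2, h3, heq⟩

theorem point_of_hasPt {K : Type*} [Field K] [Algebra ℂ K] (l : ℂ) (t ε : K)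
    (hε : ε ^ 2 + ε + t ^ 12 = 0) (ht : Transcendental ℂ t) (h : HasPt ℂ l) :
    ∃ y w : K, y ∈ IntermediateField.adjoin ℂ {t, ε} ∧ w ∈ IntermediateField.adjoin ℂ {t, ε} ∧
      1 + (-1 - ε) * y ^ 3 + ε * w ^ 3 = 3 * algebraMap ℂ K l * t ^ 4 * y * w := by
  obtain ⟨X, Y, Z, hX, hY, hZ, heq⟩ := h
  have hinj := ModE.ev_injective t ε hε ht
  have hX' : ModE.ev t ε hε X ≠ 0 := by
    intro h
    exact hX (hinj (by rw [h, map_zero]))
  refine ⟨ModE.ev t ε hε Y / ModE.ev t ε hε X, ModE.ev t ε hε Z / ModE.ev t ε hε X,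
    div_mem (ModE.ev_mem _ _ _ _) (ModE.ev_mem _ _ _ _),
    div_mem (ModE.ev_mem _ _ _ _) (ModE.ev_mem _ _ _ _), ?_⟩
  have h' := congrArg (ModE.ev t ε hε) heq
  simp only [map_add, map_mul, map_pow, map_sub, map_neg, map_one, map_ofNat, ModE.ev_ee,
      ModE.ev_tt, ModE.ev_cst] at h'
  field_simp
  linear_combination h'

end Pool.Agent.H16
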