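import Pool.Agent.H16.Irr.Defs

namespace Pool.Agent.H16

open Polynomial KaehlerDifferential

namespace ModF

theorem finrank_le_of_root {F K : Type*} [Field F] [Field K] [Algebra F K] (x : K) (p : F[X])
    (hp : p ≠ 0) (hroot : aeval x p = 0) (n : ℕ) (hn : p.natDegree ≤ n) :
    FiniteDimensional F (IntermediateField.adjoin F {x}) ∧
      Module.finrank F (IntermediateField.adjoin F {x}) ≤ n := by
  have hx : IsIntegral F x := (isAlgebraic_iff_isIntegral).mp ⟨p, hp, hroot⟩
  refine ⟨IntermediateField.adjoin.finiteDimensional hx, ?_⟩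
  rw [IntermediateField.adjoin.finrank hx]
  exact (Polynomial.natDegree_le_of_dvd (minpoly.dvd F x hroot) hp).trans hn

theorem finrank_le_two {F K : Type*} [Field F] [Field K] [Algebra F K] (x : K) (a b c : F)
    (h : a ≠ 0 ∨ b ≠ 0)
    (hroot : algebraMap F K a * x ^ 2 + algebraMap F K b * x + algebraMap F K c = 0) :
    FiniteDimensional F (IntermediateField.adjoin F {x}) ∧
      Module.finrank F (IntermediateField.adjoin F {x}) ≤ 2 := by
  refine finrank_le_of_root x (C a * X ^ 2 + C b * X + C c) ?_ ?_ 2 ?_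
  · intro h0
    rcases h with h | h
    · apply h
      have := congrArg (fun p => p.coeff 2) h0
      simpa [coeff_X, coeff_C] using this
    · apply h
      have := congrArg (fun p => p.coeff 1) h0
      simpa [coeff_X, coeff_C] using this
  · simpa using hroot
  · exact natDegree_quadratic_le

theorem key_nonzero {K : Type*} [Field K] [CharZero K] (b c μ y₀ w₀ m : K) (hb : b ≠ 0)
    (hne : μ ^ 3 ≠ b * c) (h₀ : 1 + b * y₀ ^ 3 + c * w₀ ^ 3 = 3 * μ * y₀ * w₀)
    (h3 : b + c * m ^ 3 = 0) (h2 : 3 * b * y₀ + 3 * c * m ^ 2 * w₀ - 3 * μ * m = 0) : False := by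
  have hm : m ≠ 0 := by
    rintro rfl
    apply hb
    simpa using h3
  have hb' : b = - (c * m ^ 3) := eq_neg_of_add_eq_zero_left h3
  subst hb'
  have hμ : μ = c * m * (w₀ - m * y₀) := by
    have h4 : 3 * m * (μ - c * m * (w₀ - m * y₀)) = 0 := by linear_combination -h2
    have h5 : (3 * m : K) ≠ 0 := mul_ne_zero three_ne_zero hm
    exact sub_eq_zero.mp ((mul_eq_zero.mp h4).resolve_left h5)
  subst hμ
  apply hne
  have h6 : 1 + c * (w₀ - m * y₀) ^ 3 = 0 := by linear_combination h₀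
  linear_combination (c ^ 2 * m ^ 3) * h6

end ModF

theorem irrLE_four_of_point {K : Type*} [Field K] [Algebra ℂ K] (l : ℂ) (hl : l ^ 3 ≠ 1)
    (t ε y w : K) (hε : ε ^ 2 + ε + t ^ 12 = 0)
    (h : 1 + (-1 - ε) * y ^ 3 + ε * w ^ 3 = 3 * algebraMap ℂ K l * t ^ 4 * y * w)
    (hgen : IntermediateField.adjoin ℂ {t, ε, y, w} = ⊤)
    (hind : AlgebraicIndependent ℂ ![t, y])
    (y₀ w₀ : K) (hy₀ : y₀ ∈ IntermediateField.adjoin ℂ {t, ε})
    (hw₀ : w₀ ∈ IntermediateField.adjoin ℂ {t, ε})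
    (h₀ : 1 + (-1 - ε) * y₀ ^ 3 + ε * w₀ ^ 3 = 3 * algebraMap ℂ K l * t ^ 4 * y₀ * w₀) :
    IrrLE K 4 := by
  have : CharZero K := charZero_of_injective_algebraMap (algebraMap ℂ K).injective
  -- basic facts
  have htr : Transcendental ℂ t := by simpa using hind.transcendental 0
  have ht0 : t ≠ 0 := fun h0 => htr (h0 ▸ isAlgebraic_zero)
  have hbc : (-1 - ε) * ε = t ^ 12 := by linear_combination -hε
  have hb0 : (-1 - ε) ≠ 0 := fun h0 => pow_ne_zero 12 ht0 (by rw [← hbc, h0, zero_mul])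
  have hne : (algebraMap ℂ K l * t ^ 4) ^ 3 ≠ (-1 - ε) * ε := by
    intro h1
    rw [hbc, mul_pow, ← pow_mul] at h1
    have h2 : algebraMap ℂ K l ^ 3 = 1 := by
      have := mul_right_cancel₀ (pow_ne_zero 12 ht0) (h1.trans (one_mul (t ^ 12)).symm)
      exact this
    rw [← map_pow, ← map_one (algebraMap ℂ K)] at h2
    exact hl ((algebraMap ℂ K).injective h2)
  -- `y` is transcendental over `ℂ(t, ε)`
  have hs0 : y - y₀ ≠ 0 := by
    intro h0
    have hy : y ∈ IntermediateField.adjoin ℂ {t, ε} := by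
      rw [sub_eq_zero.mp h0]; exact hy₀
    have hty : Transcendental (IntermediateField.adjoin ℂ {t}) y := by
      rw [IntermediateField.transcendental_adjoin_iff]
      have := (AlgebraicIndependent.iff_transcendental_adjoin_image (x := ![t, y]) (R := ℂ) 1).mp
        hind
      have h2 := this.2
      have h3 : (![t, y] '' {1}ᶜ) = {t} := by
        ext z
        simp only [Set.mem_image, Set.mem_compl_iff, Set.mem_singleton_iff]
        constructor
        · rintro ⟨i, hi, rfl⟩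
          fin_cases i
          · rfl
          · exact absurd rfl hi
        · rintro rfl
          exact ⟨0, by decide, rfl⟩
      rw [h3] at h2
      exact h2
    have hfin := (ModF.finrank_le_two (F := IntermediateField.adjoin ℂ {t}) ε 1 1
      ⟨t ^ 12, pow_mem (IntermediateField.mem_adjoin_simple_self ℂ t) 12⟩
      (Or.inl one_ne_zero) (by simpa [add_assoc] using hε)).1
    have hmem : y ∈ IntermediateField.adjoin (IntermediateField.adjoin ℂ {t}) {ε} := by
      have h1 : IntermediateField.adjoin ℂ {t, ε} ≤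
          (IntermediateField.adjoin (IntermediateField.adjoin ℂ {t}) {ε}).restrictScalars ℂ := by
        rw [IntermediateField.adjoin_le_iff]
        intro z hz
        rcases hz with rfl | hz
        · exact IntermediateField.algebraMap_mem _
            (⟨z, IntermediateField.mem_adjoin_simple_self ℂ z⟩ : IntermediateField.adjoin ℂ {z})
        · rw [Set.mem_singleton_iff] at hz
          rw [hz]
          exact IntermediateField.mem_adjoin_simple_self _ ε
      exact h1 hy
    have : IsAlgebraic (IntermediateField.adjoin ℂ {t})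
        (⟨y, hmem⟩ : IntermediateField.adjoin (IntermediateField.adjoin ℂ {t}) {ε}) :=
      Algebra.IsAlgebraic.isAlgebraic _
    exact hty (this.algebraMap (A := K))
  set s := y - y₀ with hs
  set m := (w - w₀) / s with hm
  have hw : w = w₀ + m * s := by rw [hm, div_mul_cancel₀ _ hs0]; ring
  have hy : y = y₀ + s := by rw [hs]; ring
  set μ := algebraMap ℂ K l * t ^ 4 with hμ
  have hquad : ((-1 - ε) + ε * m ^ 3) * s ^ 2 +
      (3 * (-1 - ε) * y₀ + 3 * ε * m ^ 2 * w₀ - 3 * μ * m) * s +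
      (3 * (-1 - ε) * y₀ ^ 2 + 3 * ε * m * w₀ ^ 2 - 3 * μ * (w₀ + m * y₀)) = 0 := by
    have h1 : s * (((-1 - ε) + ε * m ^ 3) * s ^ 2 +
      (3 * (-1 - ε) * y₀ + 3 * ε * m ^ 2 * w₀ - 3 * μ * m) * s +
      (3 * (-1 - ε) * y₀ ^ 2 + 3 * ε * m * w₀ ^ 2 - 3 * μ * (w₀ + m * y₀))) = 0 := by
      rw [hy, hw] at h
      rw [hμ]
      linear_combination h - h₀
    exact (mul_eq_zero.mp h1).resolve_left hs0
  have hcoef : ((-1 - ε) + ε * m ^ 3) ≠ 0 ∨
      (3 * (-1 - ε) * y₀ + 3 * ε * m ^ 2 * w₀ - 3 * μ * m) ≠ 0 := by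
    by_contra hcon
    push Not at hcon
    refine ModF.key_nonzero (-1 - ε) ε μ y₀ w₀ m hb0 hne ?_ hcon.1 hcon.2
    rw [h₀, hμ]; ring
  -- the tower
  set G := IntermediateField.adjoin ℂ (Set.range ![t, m]) with hG
  have htG : t ∈ G := IntermediateField.subset_adjoin _ _ ⟨0, rfl⟩
  have hmG : m ∈ G := IntermediateField.subset_adjoin _ _ ⟨1, rfl⟩
  set G1 := IntermediateField.adjoin G {ε} with hG1
  have hεG1 : ε ∈ G1 := IntermediateField.mem_adjoin_simple_self _ ε
  have hGG1 : ∀ x ∈ G, x ∈ G1 := fun x hx => IntermediateField.algebraMap_mem G1 (⟨x, hx⟩ : G)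
  have hle : IntermediateField.adjoin ℂ {t, ε} ≤ G1.restrictScalars ℂ := by
    rw [IntermediateField.adjoin_le_iff]
    rintro z (rfl | hz)
    · exact hGG1 _ htG
    · rw [Set.mem_singleton_iff] at hz
      rw [hz]
      exact hεG1
  have hy₀G1 : y₀ ∈ G1 := hle hy₀
  have hw₀G1 : w₀ ∈ G1 := hle hw₀
  have hmG1 := hGG1 _ hmG
  have htG1 := hGG1 _ htG
  have hlG1 : algebraMap ℂ K l ∈ G1 := hGG1 _ (G.algebraMap_mem l)
  have h3G1 : (3 : K) ∈ G1 := ofNat_mem G1 3
  have hμG1 : μ ∈ G1 := mul_mem hlG1 (pow_mem htG1 4)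
  have hbG1 : (-1 - ε) ∈ G1 := sub_mem (neg_mem (one_mem _)) hεG1
  have hc3 : ((-1 - ε) + ε * m ^ 3) ∈ G1 := add_mem hbG1 (mul_mem hεG1 (pow_mem hmG1 3))
  have hc2 : (3 * (-1 - ε) * y₀ + 3 * ε * m ^ 2 * w₀ - 3 * μ * m) ∈ G1 :=
    sub_mem (add_mem (mul_mem (mul_mem h3G1 hbG1) hy₀G1)
      (mul_mem (mul_mem (mul_mem h3G1 hεG1) (pow_mem hmG1 2)) hw₀G1))
      (mul_mem (mul_mem h3G1 hμG1) hmG1)
  have hc1 : (3 * (-1 - ε) * y₀ ^ 2 + 3 * ε * m * w₀ ^ 2 - 3 * μ * (w₀ + m * y₀)) ∈ G1 :=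
    sub_mem (add_mem (mul_mem (mul_mem h3G1 hbG1) (pow_mem hy₀G1 2))
      (mul_mem (mul_mem (mul_mem h3G1 hεG1) hmG1) (pow_mem hw₀G1 2)))
      (mul_mem (mul_mem h3G1 hμG1) (add_mem hw₀G1 (mul_mem hmG1 hy₀G1)))
  have hfin1 := ModF.finrank_le_two (F := G) ε 1 1 ⟨t ^ 12, pow_mem htG 12⟩
      (Or.inl one_ne_zero) (by simpa [add_assoc] using hε)
  have hfin2 := ModF.finrank_le_two (F := G1) s ⟨_, hc3⟩ ⟨_, hc2⟩ ⟨_, hc1⟩
    (by
      rcases hcoef with h1 | h1
      · exact Or.inl fun h2 => h1 (congrArg Subtype.val h2)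
      · exact Or.inr fun h2 => h1 (congrArg Subtype.val h2)) hquad
  have htop : IntermediateField.adjoin G1 {s} = ⊤ := by
    rw [eq_top_iff]
    intro z _
    have hle2 : IntermediateField.adjoin ℂ {t, ε, y, w} ≤
        ((IntermediateField.adjoin G1 {s}).restrictScalars G).restrictScalars ℂ := by
      have hsub : ∀ x ∈ G1, x ∈ IntermediateField.adjoin G1 {s} := fun x hx =>
        IntermediateField.algebraMap_mem _ (⟨x, hx⟩ : G1)
      have hsmem : s ∈ IntermediateField.adjoin G1 {s} :=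
        IntermediateField.mem_adjoin_simple_self _ s
      rw [IntermediateField.adjoin_le_iff]
      rintro x (hx | hx | hx | hx)
      · rw [hx]; exact hsub _ htG1
      · rw [hx]; exact hsub _ hεG1
      · rw [hx]; change y ∈ IntermediateField.adjoin G1 {s}
        rw [hy]; exact add_mem (hsub _ hy₀G1) hsmem
      · rw [Set.mem_singleton_iff] at hx
        rw [hx]; change w ∈ IntermediateField.adjoin G1 {s}
        rw [hw]; exact add_mem (hsub _ hw₀G1) (mul_mem (hsub _ hmG1) hsmem)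
    rw [hgen] at hle2
    exact hle2 IntermediateField.mem_top
  rw [htop] at hfin2
  obtain ⟨hfd1, hr1⟩ := hfin1
  obtain ⟨hfd2, hr2⟩ := hfin2
  rw [IntermediateField.finrank_top'] at hr2
  have hfd2' : FiniteDimensional G1 K := by
    have := LinearEquiv.finiteDimensional
      (IntermediateField.topEquiv (F := G1) (E := K)).toLinearEquiv
    exact this
  have hfd : FiniteDimensional G K := FiniteDimensional.trans G G1 K
  refine ⟨2, ![t, m], ?_, ?_, ?_⟩
  · have halg : Algebra.IsAlgebraic (Algebra.adjoin ℂ (Set.range ![t, m])) K := by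
      rw [← IntermediateField.isAlgebraic_adjoin_iff_top]
      exact Algebra.IsAlgebraic.of_finite G K
    have htb := Algebra.IsAlgebraic.isTranscendenceBasis_of_lift_le_trdeg_of_finite ℂ ![t, m]
      hind.lift_cardinalMk_le_trdeg
    exact htb.1
  · exact Module.finrank_pos
  · change Module.finrank G K ≤ 4
    rw [← Module.finrank_mul_finrank G G1 K]
    calc _ ≤ 2 * 2 := Nat.mul_le_mul hr1 hr2
      _ = 4 := rfl

end Pool.Agent.H16
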