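import Pool.Agent.H16.Irr.Defs

/-!
# Module J: the explicit forms are regular
-/

namespace Pool.Agent.H16

open Polynomial KaehlerDifferential

namespace ModJ

/-! ### Forms on a subring -/

section Forms

variable {K : Type*} [Field K] [Algebra ℂ K]

lemma mem_basic {A : Subring K} {a b : K} (ha : a ∈ A) (hb : b ∈ A) :
    a • D ℂ K b ∈ FormsOn A :=
  AddSubmonoid.subset_closure ⟨a, ha, b, hb, rfl⟩

lemma mem_smul {A : Subring K} {s : K} (hs : s ∈ A) {ω : Ω[K⁄ℂ]} (h : ω ∈ FormsOn A) :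
    s • ω ∈ FormsOn A := by
  unfold FormsOn at h
  induction h using AddSubmonoid.closure_induction with
  | mem x hx =>
    obtain ⟨a, ha, b, hb, rfl⟩ := hx
    rw [smul_smul]
    exact mem_basic (A.mul_mem hs ha) hb
  | zero => rw [smul_zero]; exact AddSubmonoid.zero_mem _
  | add x y _ _ hx hy => rw [smul_add]; exact AddSubmonoid.add_mem _ hx hy

lemma mem_neg {A : Subring K} {ω : Ω[K⁄ℂ]} (h : ω ∈ FormsOn A) : -ω ∈ FormsOn A := by
  have := mem_smul (s := -1) (A.neg_mem A.one_mem) h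
  rwa [neg_one_smul] at this

lemma mem_add {A : Subring K} {ω ω' : Ω[K⁄ℂ]} (h : ω ∈ FormsOn A) (h' : ω' ∈ FormsOn A) :
    ω + ω' ∈ FormsOn A := AddSubmonoid.add_mem _ h h'

lemma mem_sub {A : Subring K} {ω ω' : Ω[K⁄ℂ]} (h : ω ∈ FormsOn A) (h' : ω' ∈ FormsOn A) :
    ω - ω' ∈ FormsOn A := by
  rw [sub_eq_add_neg]; exact mem_add h (mem_neg h')

end Forms

/-- An element satisfying `x² + p x + q = 0` with `p, q ∈ V` is in `V`. -/
lemma mem_of_quadratic {K : Type*} [Field K] (V : ValuationSubring K) {x p q : K} (hp : p ∈ V)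
    (hq : q ∈ V) (h : x ^ 2 + p * x + q = 0) : x ∈ V := by
  by_contra hx
  have hx0 : x ≠ 0 := by
    rintro rfl
    exact hx V.zero_mem
  have hi : x⁻¹ ∈ V := (V.mem_or_inv_mem x).resolve_left hx
  apply hx
  have h1 : x = -(p + q * x⁻¹) := by
    field_simp
    linear_combination h
  rw [h1]
  exact V.neg_mem _ (V.add_mem _ _ hp (V.mul_mem _ _ hq hi))

section Const

variable {K : Type*} [Field K] [Algebra ℂ K]

lemma const_mem {V : ValuationSubring K} (hV : ∀ c : ℂ, algebraMap ℂ K c ∈ V) (n : ℕ) :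
    (n : K) ∈ V := by
  have := hV n
  rwa [map_natCast] at this

lemma const_inv_mem {V : ValuationSubring K} (hV : ∀ c : ℂ, algebraMap ℂ K c ∈ V) (n : ℕ) :
    (n : K)⁻¹ ∈ V := by
  have := hV (n : ℂ)⁻¹
  rwa [map_inv₀, map_natCast] at this

theorem charZero' (K : Type*) [Field K] [Algebra ℂ K] : CharZero K :=
  charZero_of_injective_algebraMap (algebraMap ℂ K).injective

end Const

/-! ### Logarithmic differentials -/

section Lg

variable {K : Type*} [Field K] [Algebra ℂ K]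

/-- The logarithmic differential `dx / x`. -/
noncomputable def Lg (x : K) : Ω[K⁄ℂ] := x⁻¹ • D ℂ K x

lemma smul_Lg {x : K} (hx : x ≠ 0) : x • Lg x = D ℂ K x := by
  unfold Lg
  rw [smul_smul, mul_inv_cancel₀ hx, one_smul]

lemma Lg_mul {x y : K} (hx : x ≠ 0) (hy : y ≠ 0) : Lg (x * y) = Lg x + Lg y := by
  unfold Lg
  rw [Derivation.leibniz, smul_add, smul_smul, smul_smul, add_comm]
  congr 2
  · field_simp
  · field_simp

lemma Lg_inv {x : K} (hx : x ≠ 0) : Lg x⁻¹ = -Lg x := by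
  unfold Lg
  rw [Derivation.leibniz_inv, smul_smul, ← neg_smul]
  congr 1
  field_simp

lemma Lg_div {x y : K} (hx : x ≠ 0) (hy : y ≠ 0) : Lg (x / y) = Lg x - Lg y := by
  rw [div_eq_mul_inv, Lg_mul hx (inv_ne_zero hy), Lg_inv hy, sub_eq_add_neg]

lemma Lg_one : Lg (1 : K) = 0 := by
  unfold Lg
  simp

lemma Lg_sq {x : K} (hx : x ≠ 0) : Lg (x ^ 2) = (2 : K) • Lg x := by
  rw [pow_two, Lg_mul hx hx, two_smul]

lemma Lg_pow_four {x : K} (hx : x ≠ 0) : Lg (x ^ 4) = (4 : K) • Lg x := by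
  have h : x ^ 4 = (x ^ 2) ^ 2 := by ring
  rw [h, Lg_sq (pow_ne_zero 2 hx), Lg_sq hx, smul_smul]
  norm_num

/-- The characterization of the invariant form in terms of the invariants `p, q, r`. -/
structure InvForm (l p q r : K) (ω : Ω[K⁄ℂ]) : Prop where
  h1 : (p - l) • ω = (3⁻¹ : K) • (Lg r - Lg q)
  h2 : (q - l) • ω = (3⁻¹ : K) • (Lg p - Lg r)
  h3 : (r - l) • ω = (3⁻¹ : K) • (Lg q - Lg p)

lemma InvForm.rot {l p q r : K} {ω : Ω[K⁄ℂ]} (h : InvForm l p q r ω) : InvForm l q r p ω :=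
  ⟨h.h2, h.h3, h.h1⟩

lemma InvForm_of {l p q r : K} {ω : Ω[K⁄ℂ]} (hl : ∃ l' : ℂ, algebraMap ℂ K l' = l) (hp : p ≠ 0)
    (hq : q ≠ 0) (hr : r ≠ 0) (hpqr : p * q * r = 1) (hsum : p + q + r = 3 * l) (hrl : r ≠ l)
    (h3 : (r - l) • ω = (3⁻¹ : K) • (Lg q - Lg p)) : InvForm l p q r ω := by
  have _ : CharZero K := charZero' K
  have E1 : Lg p + Lg q + Lg r = 0 := by
    rw [← Lg_mul hp hq, ← Lg_mul (mul_ne_zero hp hq) hr, hpqr, Lg_one]
  have E2 : p • Lg p + q • Lg q + r • Lg r = 0 := by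
    rw [smul_Lg hp, smul_Lg hq, smul_Lg hr, ← map_add, ← map_add, hsum]
    obtain ⟨l', rfl⟩ := hl
    have : (3 : K) * algebraMap ℂ K l' = algebraMap ℂ K (3 * l') := by
      rw [map_mul]; congr 1; exact (map_ofNat (algebraMap ℂ K) 3).symm
    rw [this, Derivation.map_algebraMap]
  have hp' : p = 3 * l - q - r := by linear_combination hsum
  have hrl' : r - l ≠ 0 := sub_ne_zero.mpr hrl
  have E2' : (3 * l - q - r) • Lg p + q • Lg q + r • Lg r = 0 := by rw [← hp']; exact E2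
  refine ⟨?_, ?_, h3⟩
  · apply smul_right_injective _ hrl'
    show (r - l) • ((p - l) • ω) = (r - l) • ((3⁻¹ : K) • (Lg r - Lg q))
    have e : (p - l) = (3 * l - q - r - l) := by rw [← hp']
    rw [e]
    linear_combination (norm := module) (3 * l - q - r - l) • h3 - (3⁻¹ : K) • E2' +
      ((3 : K)⁻¹ * l) • E1
  · apply smul_right_injective _ hrl'
    show (r - l) • ((q - l) • ω) = (r - l) • ((3⁻¹ : K) • (Lg p - Lg r))
    linear_combination (norm := module) (q - l) • h3 + (3⁻¹ : K) • E2' -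
      ((3 : K)⁻¹ * l) • E1

lemma chart {V : ValuationSubring K} (hV : ∀ c : ℂ, algebraMap ℂ K c ∈ V) {l : ℂ}
    (hl : l ^ 3 ≠ 1) {a b c x y : K} (habc : a * b * c = 1) (ha : a ∈ V) (hb : b ∈ V) (hc : c ∈ V)
    (ha' : a⁻¹ ∈ V) (hb' : b⁻¹ ∈ V) (hc' : c⁻¹ ∈ V) (hx : x ∈ V) (hy : y ∈ V) (hx0 : x ≠ 0)
    (hy0 : y ≠ 0) {ω : Ω[K⁄ℂ]}
    (hI : InvForm (algebraMap ℂ K l) (a * x ^ 2 / y) (b * y ^ 2 / x) (c / (x * y)) ω) :
    ω ∈ FormsOn V.toSubring := by
  have _ : CharZero K := charZero' K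
  obtain ⟨h1, h2, h3⟩ := hI
  have ha0 : a ≠ 0 := by rintro rfl; simp at habc
  have hb0 : b ≠ 0 := by rintro rfl; simp at habc
  have hc0 : c ≠ 0 := by rintro rfl; simp at habc
  have h3V : (3 : K)⁻¹ ∈ V := by have := const_inv_mem hV 3; exact_mod_cast this
  have h2V : (2 : K) ∈ V := by have := const_mem hV 2; exact_mod_cast this
  have hlV := hV l
  set m := algebraMap ℂ K l with hm
  have hm3 : 1 - m ^ 3 ≠ 0 := by
    rw [hm, ← map_pow, ← map_one (algebraMap ℂ K), ← map_sub]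
    intro h
    rw [map_eq_zero] at h
    exact hl (sub_eq_zero.mp h).symm
  have hm3V : (1 - m ^ 3)⁻¹ ∈ V := by
    have := hV (1 - l ^ 3)⁻¹
    rwa [map_inv₀, map_sub, map_pow, map_one] at this
  have Lp : Lg (a * x ^ 2 / y) = Lg a + (2 : K) • Lg x - Lg y := by
    rw [Lg_div (mul_ne_zero ha0 (pow_ne_zero 2 hx0)) hy0, Lg_mul ha0 (pow_ne_zero 2 hx0), Lg_sq hx0]
  have Lq : Lg (b * y ^ 2 / x) = Lg b + (2 : K) • Lg y - Lg x := by
    rw [Lg_div (mul_ne_zero hb0 (pow_ne_zero 2 hy0)) hx0, Lg_mul hb0 (pow_ne_zero 2 hy0), Lg_sq hy0]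
  have Lr : Lg (c / (x * y)) = Lg c - Lg x - Lg y := by
    rw [Lg_div hc0 (mul_ne_zero hx0 hy0), Lg_mul hx0 hy0]; module
  rw [Lr, Lq] at h1
  rw [Lp, Lr] at h2
  rw [Lq, Lp] at h3
  have Lgm : ∀ {z : K}, z ∈ V → z⁻¹ ∈ V → Lg z ∈ FormsOn V.toSubring := fun hz hz' =>
    mem_basic (A := V.toSubring) hz' hz
  have Dm : ∀ {z : K}, z ∈ V → D ℂ K z ∈ FormsOn V.toSubring := fun {z} hz => by
    have := mem_basic (A := V.toSubring) V.one_mem hz
    rwa [one_smul] at this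
  have B1 : (a * x ^ 2 - m * y) • ω ∈ FormsOn V.toSubring := by
    have e : (a * x ^ 2 - m * y) • ω = (3⁻¹ * y) • (Lg c - Lg b) - D ℂ K y := by
      have e1 : a * x ^ 2 - m * y = y * (a * x ^ 2 / y - m) := by field_simp
      rw [e1, mul_smul, h1, ← smul_Lg hy0]
      module
    rw [e]
    exact mem_sub (mem_smul (V.mul_mem _ _ h3V hy) (mem_sub (Lgm hc hc') (Lgm hb hb'))) (Dm hy)
  have B2 : (b * y ^ 2 - m * x) • ω ∈ FormsOn V.toSubring := by
    have e : (b * y ^ 2 - m * x) • ω = (3⁻¹ * x) • (Lg a - Lg c) + D ℂ K x := by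
      have e1 : b * y ^ 2 - m * x = x * (b * y ^ 2 / x - m) := by field_simp
      rw [e1, mul_smul, h2, ← smul_Lg hx0]
      module
    rw [e]
    exact mem_add (mem_smul (V.mul_mem _ _ h3V hx) (mem_sub (Lgm ha ha') (Lgm hc hc'))) (Dm hx)
  have B3 : (c - m * x * y) • ω ∈ FormsOn V.toSubring := by
    have e : (c - m * x * y) • ω = (3⁻¹ * (x * y)) • (Lg b - Lg a) + (x • D ℂ K y - y • D ℂ K x) := by
      have e1 : c - m * x * y = (x * y) * (c / (x * y) - m) := by field_simp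
      rw [e1, mul_smul, h3, ← smul_Lg hx0, ← smul_Lg hy0]
      module
    rw [e]
    exact mem_add (mem_smul (V.mul_mem _ _ h3V (V.mul_mem _ _ hx hy))
      (mem_sub (Lgm hb hb') (Lgm ha ha'))) (mem_sub (mem_basic hx hy) (mem_basic hy hx))
  have total : ω = ((1 - m ^ 3)⁻¹ * c⁻¹) •
      ((m ^ 2 * (b * y ^ 2 - m * x) + m ^ 3 * x) • ((a * x ^ 2 - m * y) • ω) +
      (m ^ 3 * y) • ((b * y ^ 2 - m * x) • ω) +
      (a * b * (c - m * x * y + 2 * m * x * y) - m ^ 3) • ((c - m * x * y) • ω)) := by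
    rw [smul_smul, smul_smul, smul_smul, ← add_smul, ← add_smul, smul_smul]
    have e : (m ^ 2 * (b * y ^ 2 - m * x) + m ^ 3 * x) * (a * x ^ 2 - m * y) +
        (m ^ 3 * y) * (b * y ^ 2 - m * x) +
        (a * b * (c - m * x * y + 2 * m * x * y) - m ^ 3) * (c - m * x * y) =
        c * (1 - m ^ 3) := by
      linear_combination c * habc
    rw [e]
    have e' : (1 - m ^ 3)⁻¹ * c⁻¹ * (c * (1 - m ^ 3)) = 1 := by field_simp
    rw [e', one_smul]
  rw [total]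
  have hm2 : m ^ 2 ∈ V := V.pow_mem hlV 2
  have hm3' : m ^ 3 ∈ V := V.pow_mem hlV 3
  apply mem_smul (V.mul_mem _ _ hm3V hc')
  apply mem_add
  · apply mem_add
    · apply mem_smul _ B1
      exact V.add_mem _ _ (V.mul_mem _ _ hm2 (V.sub_mem (V.mul_mem _ _ hb (V.pow_mem hy 2))
        (V.mul_mem _ _ hlV hx))) (V.mul_mem _ _ hm3' hx)
    · exact mem_smul (V.mul_mem _ _ hm3' hy) B2
  · apply mem_smul _ B3
    apply V.sub_mem _ hm3'
    apply V.mul_mem _ _ (V.mul_mem _ _ ha hb)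
    apply V.add_mem
    · exact V.sub_mem hc (V.mul_mem _ _ (V.mul_mem _ _ hlV hx) hy)
    · exact V.mul_mem _ _ (V.mul_mem _ _ (V.mul_mem _ _ h2V hlV) hx) hy

lemma chart3 {V : ValuationSubring K} (hV : ∀ c : ℂ, algebraMap ℂ K c ∈ V) {l : ℂ}
    (hl : l ^ 3 ≠ 1) {a b c X Y Z : K} (habc : a * b * c = 1) (ha : a ∈ V) (hb : b ∈ V) (hc : c ∈ V)
    (ha' : a⁻¹ ∈ V) (hb' : b⁻¹ ∈ V) (hc' : c⁻¹ ∈ V) (hX : X ≠ 0) (hY : Y ≠ 0) (hZ : Z ≠ 0)
    {ω : Ω[K⁄ℂ]}
    (hI : InvForm (algebraMap ℂ K l) (a * X ^ 2 / (Y * Z)) (b * Y ^ 2 / (Z * X)) (c * Z ^ 2 / (X * Y)) ω) :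
    ω ∈ FormsOn V.toSubring := by
  have key : (X / Z ∈ V ∧ Y / Z ∈ V) ∨ (Y / X ∈ V ∧ Z / X ∈ V) ∨ (Z / Y ∈ V ∧ X / Y ∈ V) := by
    rcases V.mem_or_inv_mem (X / Z) with h1 | h1
    · rcases V.mem_or_inv_mem (Y / Z) with h2 | h2
      · exact Or.inl ⟨h1, h2⟩
      · rw [inv_div] at h2
        refine Or.inr (Or.inr ⟨h2, ?_⟩)
        have := V.mul_mem _ _ h1 h2
        rwa [div_mul_div_cancel₀ hZ] at this
    · rw [inv_div] at h1
      rcases V.mem_or_inv_mem (Y / X) with h2 | h2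
      · exact Or.inr (Or.inl ⟨h2, h1⟩)
      · rw [inv_div] at h2
        refine Or.inr (Or.inr ⟨?_, h2⟩)
        have := V.mul_mem _ _ h1 h2
        rwa [div_mul_div_cancel₀ hX] at this
  rcases key with ⟨h1, h2⟩ | ⟨h1, h2⟩ | ⟨h1, h2⟩
  · apply chart hV hl habc ha hb hc ha' hb' hc' h1 h2 (div_ne_zero hX hZ) (div_ne_zero hY hZ)
    have e1 : a * (X / Z) ^ 2 / (Y / Z) = a * X ^ 2 / (Y * Z) := by field_simp
    have e2 : b * (Y / Z) ^ 2 / (X / Z) = b * Y ^ 2 / (Z * X) := by field_simp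
    have e3 : c / (X / Z * (Y / Z)) = c * Z ^ 2 / (X * Y) := by field_simp
    rw [e1, e2, e3]
    exact hI
  · apply chart hV hl (a := b) (b := c) (c := a) (by rw [← habc]; ring) hb hc ha hb' hc' ha' h1 h2
      (div_ne_zero hY hX) (div_ne_zero hZ hX)
    have e1 : b * (Y / X) ^ 2 / (Z / X) = b * Y ^ 2 / (Z * X) := by field_simp
    have e2 : c * (Z / X) ^ 2 / (Y / X) = c * Z ^ 2 / (X * Y) := by field_simp
    have e3 : a / (Y / X * (Z / X)) = a * X ^ 2 / (Y * Z) := by field_simp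
    rw [e1, e2, e3]
    exact hI.rot
  · apply chart hV hl (a := c) (b := a) (c := b) (by rw [← habc]; ring) hc ha hb hc' ha' hb' h1 h2
      (div_ne_zero hZ hY) (div_ne_zero hX hY)
    have e1 : c * (Z / Y) ^ 2 / (X / Y) = c * Z ^ 2 / (X * Y) := by field_simp
    have e2 : a * (X / Y) ^ 2 / (Z / Y) = a * X ^ 2 / (Y * Z) := by field_simp
    have e3 : b / (Z / Y * (X / Y)) = b * Y ^ 2 / (Z * X) := by field_simp
    rw [e1, e2, e3]
    exact hI.rot.rot

end Lg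

end ModJ

open ModJ

theorem theta_regular {K : Type*} [Field K] [Algebra ℂ K] (t ε : K)
    (hε : ε ^ 2 + ε + t ^ 12 = 0) (i : ℕ) (hi : i ≤ 4) :
    Regular ((t ^ i / (2 * ε + 1)) • D ℂ K t) := by
  intro V hV
  have _ : CharZero K := charZero' K
  by_cases hg : 2 * ε + 1 = 0
  · rw [hg, div_zero, zero_smul]
    exact AddSubmonoid.zero_mem _
  have h3 : (3 : K)⁻¹ ∈ V := by have := const_inv_mem hV 3; exact_mod_cast this
  have h2V : (2 : K) ∈ V := by have := const_mem hV 2; exact_mod_cast this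
  by_cases ht : t ∈ V
  · have hεV : ε ∈ V := by
      apply mem_of_quadratic V (p := 1) (q := t ^ 12) V.one_mem (V.pow_mem ht 12)
      rw [one_mul]; exact hε
    obtain ⟨g, hgdef⟩ : ∃ g, g = 2 * ε + 1 := ⟨_, rfl⟩
    have hD : g • D ℂ K ε = (-12 * t ^ 11) • D ℂ K t := by
      have h1 : D ℂ K (ε ^ 2 + ε + t ^ 12) = 0 := by rw [hε]; simp
      simp only [map_add, Derivation.leibniz_pow] at h1
      simp only [Nat.reduceSub, pow_one] at h1
      rw [hgdef]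
      linear_combination (norm := module) h1
    have h2 : g ^ 2 = 1 - 4 * t ^ 12 := by rw [hgdef]; linear_combination 4 * hε
    have key : (t ^ i / (2 * ε + 1)) • D ℂ K t =
        (t ^ i * (2 * ε + 1)) • D ℂ K t - (t ^ (i + 1) * 3⁻¹) • D ℂ K ε := by
      rw [← hgdef] at hg ⊢
      have e1 : (t ^ (i + 1) * 3⁻¹) • D ℂ K ε =
          (t ^ (i + 1) * 3⁻¹ * g⁻¹ * (-12 * t ^ 11)) • D ℂ K t := by
        rw [mul_smul _ (-12 * t ^ 11), ← hD, smul_smul]
        congr 1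
        field_simp
      rw [e1, ← sub_smul]
      congr 1
      field_simp
      rw [h2]
      ring
    rw [key]
    apply mem_sub
    · exact mem_basic (V.mul_mem _ _ (V.pow_mem ht i)
        (V.add_mem _ _ (V.mul_mem _ _ h2V hεV) V.one_mem)) ht
    · exact mem_basic (V.mul_mem _ _ (V.pow_mem ht (i + 1)) h3) hεV
  · have ht0 : t ≠ 0 := by
      rintro rfl
      exact ht V.zero_mem
    have hs : t⁻¹ ∈ V := (V.mem_or_inv_mem t).resolve_left ht
    obtain ⟨s, rfl⟩ : ∃ s, t = s⁻¹ := ⟨t⁻¹, (inv_inv t).symm⟩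
    rw [inv_inv] at hs
    have hs0 : s ≠ 0 := by rintro rfl; exact ht0 inv_zero
    obtain ⟨e, rfl⟩ : ∃ e, ε = e * (s⁻¹) ^ 6 :=
      ⟨ε * s ^ 6, by rw [mul_assoc, ← mul_pow, mul_inv_cancel₀ hs0, one_pow, mul_one]⟩
    have he : e ^ 2 + s ^ 6 * e + 1 = 0 := by
      have h1 : s ^ 12 * ((e * (s⁻¹) ^ 6) ^ 2 + e * (s⁻¹) ^ 6 + (s⁻¹) ^ 12) =
          e ^ 2 + s ^ 6 * e + 1 := by
        field_simp
      rw [← h1, hε, mul_zero]
    have heV : e ∈ V := mem_of_quadratic V (V.pow_mem hs 6) V.one_mem he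
    obtain ⟨g, hgdef⟩ : ∃ g, g = 2 * e + s ^ 6 := ⟨_, rfl⟩
    have hgg : 2 * (e * (s⁻¹) ^ 6) + 1 = g * (s⁻¹) ^ 6 := by
      rw [hgdef]; field_simp
    have hg' : g ≠ 0 := by
      rintro rfl
      apply hg
      rw [hgg, zero_mul]
    have hDe : g • D ℂ K e = (-6 * s ^ 5 * e) • D ℂ K s := by
      have h1 : D ℂ K (e ^ 2 + s ^ 6 * e + 1) = 0 := by rw [he]; simp
      simp only [map_add, Derivation.leibniz_pow, Derivation.leibniz,
        Derivation.map_one_eq_zero] at h1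
      simp only [Nat.reduceSub, pow_one] at h1
      rw [hgdef]
      linear_combination (norm := module) h1
    have hg2 : g ^ 2 = s ^ 12 - 4 := by rw [hgdef]; linear_combination 4 * he
    have key : ((s⁻¹) ^ i / (2 * (e * (s⁻¹) ^ 6) + 1)) • D ℂ K s⁻¹ =
        (s ^ (4 - i) * (4⁻¹ * g)) • D ℂ K s -
          (s ^ (4 - i) * (s ^ 7 * (s ^ 6 + e) * 24⁻¹)) • D ℂ K e := by
      have e1 : (s ^ (4 - i) * (s ^ 7 * (s ^ 6 + e) * 24⁻¹)) • D ℂ K e =
          (s ^ (4 - i) * (s ^ 7 * (s ^ 6 + e) * 24⁻¹) * g⁻¹ * (-6 * s ^ 5 * e)) • D ℂ K s := by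
        rw [mul_smul _ (-6 * s ^ 5 * e), ← hDe, smul_smul]
        congr 1
        field_simp
      have e2 : D ℂ K s⁻¹ = (-(s⁻¹) ^ 2) • D ℂ K s := by
        rw [Derivation.leibniz_inv]
      rw [e1, e2, ← sub_smul, smul_smul, hgg]
      congr 1
      have h6 : (s⁻¹) ^ i = s ^ (4 - i) * (s⁻¹) ^ 4 := by
        have h7 : s ^ (4 - i) * s ^ i = s ^ 4 := by rw [← pow_add]; congr 1; omega
        have h8 : s ^ 4 ≠ 0 := pow_ne_zero 4 hs0
        have h9 : s ^ i ≠ 0 := pow_ne_zero i hs0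
        rw [inv_pow, inv_pow, ← h7]
        field_simp
      rw [h6]
      have h10 : s ^ (4 - i) ≠ 0 := pow_ne_zero _ hs0
      field_simp
      linear_combination (-24) * hg2 - (24 : K) * s ^ 12 * he
    rw [key]
    have h4V : (4 : K)⁻¹ ∈ V := by have := const_inv_mem hV 4; exact_mod_cast this
    have h24V : (24 : K)⁻¹ ∈ V := by have := const_inv_mem hV 24; exact_mod_cast this
    have hgV : g ∈ V := by
      rw [hgdef]
      exact V.add_mem _ _ (V.mul_mem _ _ h2V heV) (V.pow_mem hs 6)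
    apply mem_sub
    · exact mem_basic (V.mul_mem _ _ (V.pow_mem hs _) (V.mul_mem _ _ h4V hgV)) hs
    · exact mem_basic (V.mul_mem _ _ (V.pow_mem hs _) (V.mul_mem _ _ (V.mul_mem _ _ (V.pow_mem hs 7)
        (V.add_mem _ _ (V.pow_mem hs 6) heV)) h24V)) heV

theorem omega_regular {K : Type*} [Field K] [Algebra ℂ K] (l : ℂ) (hl : l ^ 3 ≠ 1)
    (t ε y w : K) (ht : t ≠ 0) (hy : y ≠ 0) (hw : w ≠ 0) (hε : ε ^ 2 + ε + t ^ 12 = 0)
    (h : 1 + (-1 - ε) * y ^ 3 + ε * w ^ 3 = 3 * algebraMap ℂ K l * t ^ 4 * y * w)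
    (hden : ε * w ^ 2 - algebraMap ℂ K l * t ^ 4 * y ≠ 0) :
    Regular ((t ^ 4 / (ε * w ^ 2 - algebraMap ℂ K l * t ^ 4 * y)) •
      (D ℂ K y + (y / (3 * (-1 - ε))) • D ℂ K (-1 - ε))) := by
  have _ : CharZero K := charZero' K
  intro V hV
  have hprod : ε * (-1 - ε) = t ^ 12 := by linear_combination -hε
  have ht12 : t ^ 12 ≠ 0 := pow_ne_zero 12 ht
  have hε0 : ε ≠ 0 := by rintro rfl; rw [zero_mul] at hprod; exact ht12 hprod.symm
  have hε0' : -1 - ε ≠ 0 := by intro h0; rw [h0, mul_zero] at hprod; exact ht12 hprod.symm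
  obtain ⟨ε', hε'⟩ : ∃ ε', ε' = -1 - ε := ⟨_, rfl⟩
  rw [← hε'] at hprod hε0' h ⊢
  set m := algebraMap ℂ K l with hm
  set ω := (t ^ 4 / (ε * w ^ 2 - m * t ^ 4 * y)) • (D ℂ K y + (y / (3 * ε')) • D ℂ K ε') with hω
  have ht4 : t ^ 4 ≠ 0 := pow_ne_zero 4 ht
  -- the invariants
  have hI : InvForm m (1 / (t ^ 4 * y * w)) (ε' * y ^ 2 / (t ^ 4 * w)) (ε * w ^ 2 / (t ^ 4 * y)) ω := by
    have hy2 : y ^ 2 ≠ 0 := pow_ne_zero 2 hy
    have hw2 : w ^ 2 ≠ 0 := pow_ne_zero 2 hw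
    have hty : t ^ 4 * y ≠ 0 := mul_ne_zero ht4 hy
    have htw : t ^ 4 * w ≠ 0 := mul_ne_zero ht4 hw
    have htyw : t ^ 4 * y * w ≠ 0 := mul_ne_zero hty hw
    apply InvForm_of ⟨l, rfl⟩
    · exact div_ne_zero one_ne_zero htyw
    · exact div_ne_zero (mul_ne_zero hε0' hy2) htw
    · exact div_ne_zero (mul_ne_zero hε0 hw2) hty
    · field_simp
      linear_combination hprod
    · field_simp
      linear_combination h
    · intro h0
      apply hden
      rw [div_eq_iff hty] at h0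
      rw [h0]; ring
    · have e1 : ε * w ^ 2 / (t ^ 4 * y) - m = (t ^ 4 * y)⁻¹ * (ε * w ^ 2 - m * t ^ 4 * y) := by
        field_simp
      rw [e1, hω, smul_smul]
      have e2 : (t ^ 4 * y)⁻¹ * (ε * w ^ 2 - m * t ^ 4 * y) * (t ^ 4 / (ε * w ^ 2 - m * t ^ 4 * y)) =
          y⁻¹ := by
        generalize ε * w ^ 2 - m * t ^ 4 * y = den at hden
        field_simp
      rw [e2, Lg_div (mul_ne_zero hε0' hy2) htw, Lg_mul hε0' hy2, Lg_sq hy, Lg_mul ht4 hw,
        Lg_div one_ne_zero htyw, Lg_one, Lg_mul hty hw, Lg_mul ht4 hy, smul_add, smul_smul]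
      have e3 : y⁻¹ * (y / (3 * ε')) = 3⁻¹ * ε'⁻¹ := by field_simp
      rw [e3, mul_smul]
      show Lg y + (3⁻¹ : K) • Lg ε' = _
      module
  have h1V : (1 : K) ∈ V := V.one_mem
  have h1V' : (1 : K)⁻¹ ∈ V := by rw [inv_one]; exact V.one_mem
  by_cases htV : t ∈ V
  · have hεV : ε ∈ V := by
      apply mem_of_quadratic V (p := 1) (q := t ^ 12) V.one_mem (V.pow_mem htV 12)
      rw [one_mul]; exact hε
    have hεV' : ε' ∈ V := by
      rw [hε']; exact V.sub_mem (V.neg_mem _ V.one_mem) hεV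
    have key : ε⁻¹ ∈ V ∨ ε'⁻¹ ∈ V := by
      rcases V.mem_or_inv_mem (ε / ε') with h1 | h1
      · right
        have e : ε'⁻¹ = -(ε / ε' + 1) := by
          field_simp
          rw [hε']; ring
        rw [e]
        exact V.neg_mem _ (V.add_mem _ _ h1 V.one_mem)
      · left
        rw [inv_div] at h1
        have e : ε⁻¹ = -(ε' / ε + 1) := by
          field_simp
          rw [hε']; ring
        rw [e]
        exact V.neg_mem _ (V.add_mem _ _ h1 V.one_mem)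
    rcases key with hu | hu
    · apply chart3 hV hl (a := 1) (b := ε⁻¹) (c := ε) (X := 1) (Y := t ^ 4 * y) (Z := w)
        (by field_simp) h1V hu hεV h1V' (by rw [inv_inv]; exact hεV) hu one_ne_zero
        (mul_ne_zero ht4 hy) hw
      have e1 : 1 * 1 ^ 2 / (t ^ 4 * y * w) = 1 / (t ^ 4 * y * w) := by ring
      have e2 : ε⁻¹ * (t ^ 4 * y) ^ 2 / (w * 1) = ε' * y ^ 2 / (t ^ 4 * w) := by
        field_simp
        linear_combination -hprod
      have e3 : ε * w ^ 2 / (1 * (t ^ 4 * y)) = ε * w ^ 2 / (t ^ 4 * y) := by rw [one_mul]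
      rw [e1, e2, e3]
      exact hI
    · apply chart3 hV hl (a := 1) (b := ε') (c := ε'⁻¹) (X := 1) (Y := y) (Z := t ^ 4 * w)
        (by field_simp) h1V hεV' hu h1V' hu (by rw [inv_inv]; exact hεV') one_ne_zero
        hy (mul_ne_zero ht4 hw)
      have e1 : 1 * 1 ^ 2 / (y * (t ^ 4 * w)) = 1 / (t ^ 4 * y * w) := by
        field_simp
      have e2 : ε' * y ^ 2 / (t ^ 4 * w * 1) = ε' * y ^ 2 / (t ^ 4 * w) := by rw [mul_one]
      have e3 : ε'⁻¹ * (t ^ 4 * w) ^ 2 / (1 * y) = ε * w ^ 2 / (t ^ 4 * y) := by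
        field_simp
        linear_combination -hprod
      rw [e1, e2, e3]
      exact hI
  · have hs : t⁻¹ ∈ V := (V.mem_or_inv_mem t).resolve_left htV
    obtain ⟨e, hedef⟩ : ∃ e, e = ε * (t⁻¹) ^ 6 := ⟨_, rfl⟩
    obtain ⟨e', hedef'⟩ : ∃ e', e' = ε' * (t⁻¹) ^ 6 := ⟨_, rfl⟩
    have hee : e * e' = 1 := by
      rw [hedef, hedef']
      field_simp
      linear_combination hprod
    have he : e ^ 2 + (t⁻¹) ^ 6 * e + 1 = 0 := by
      rw [hedef]
      field_simp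
      linear_combination hε
    have heV : e ∈ V := mem_of_quadratic V (V.pow_mem hs 6) V.one_mem he
    have heV' : e' ∈ V := by
      have : e' = -((t⁻¹) ^ 6 + e) := by rw [hedef', hedef, hε']; ring
      rw [this]
      exact V.neg_mem _ (V.add_mem _ _ (V.pow_mem hs 6) heV)
    have hi : e⁻¹ = e' := inv_eq_of_mul_eq_one_right hee
    have hi' : e'⁻¹ = e := by rw [← hi, inv_inv]
    have ht2 : t ^ 2 ≠ 0 := pow_ne_zero 2 ht
    apply chart3 hV hl (a := 1) (b := e') (c := e) (X := 1) (Y := t ^ 2 * y) (Z := t ^ 2 * w)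
      (by rw [one_mul, mul_comm]; exact hee) h1V heV' heV h1V' (by rw [hi']; exact heV)
      (by rw [hi]; exact heV') one_ne_zero (mul_ne_zero ht2 hy) (mul_ne_zero ht2 hw)
    have e1 : 1 * 1 ^ 2 / (t ^ 2 * y * (t ^ 2 * w)) = 1 / (t ^ 4 * y * w) := by
      field_simp
    have e2 : e' * (t ^ 2 * y) ^ 2 / (t ^ 2 * w * 1) = ε' * y ^ 2 / (t ^ 4 * w) := by
      rw [hedef']
      field_simp
    have e3 : e * (t ^ 2 * w) ^ 2 / (1 * (t ^ 2 * y)) = ε * w ^ 2 / (t ^ 4 * y) := by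
      rw [hedef]
      field_simp
    rw [e1, e2, e3]
    exact hI

end Pool.Agent.H16
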