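import Pool.Agent.H16.Irr.Defs

/-! Module K: the third collinear point. -/

set_option autoImplicit false

namespace Pool.Agent.H16

open Polynomial KaehlerDifferential

namespace ModK

/-- the cubic contains no line and the two points are different unless `ω = 0` -/
theorem nondeg {K : Type*} [Field K] [CharZero K] (b c μ : K) (hb0 : b ≠ 0) (hc0 : c ≠ 0)
    (hne : μ ^ 3 ≠ b * c) (y₁ z₁ y₂ z₂ : K)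
    (h₁ : 1 + b * y₁ ^ 3 + c * z₁ ^ 3 = 3 * μ * y₁ * z₁)
    (h₂ : 1 + b * y₂ ^ 3 + c * z₂ ^ 3 = 3 * μ * y₂ * z₂)
    (hA : 1 + b * y₁ ^ 2 * y₂ + c * z₁ ^ 2 * z₂ - μ * (y₁ * z₂ + z₁ * y₂ + y₁ * z₁) = 0)
    (hB : 1 + b * y₁ * y₂ ^ 2 + c * z₁ * z₂ ^ 2 - μ * (y₂ * z₁ + z₂ * y₁ + y₂ * z₂) = 0)
    (hd : ¬ (y₁ = y₂ ∧ z₁ = z₂)) : False := by
  -- the direction `(0, p, q)` of the line
  have e3 : b * (y₁ - y₂) ^ 3 + c * (z₁ - z₂) ^ 3 = 0 := by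
    linear_combination h₁ - h₂ - 3 * hA + 3 * hB
  have e2 : b * (y₁ - y₂) ^ 2 * y₁ + c * (z₁ - z₂) ^ 2 * z₁
      - μ * (y₁ - y₂) * (z₁ - z₂) = 0 := by
    linear_combination h₁ - 2 * hA + hB
  have e1 : b * y₁ ^ 2 * (y₁ - y₂) + c * z₁ ^ 2 * (z₁ - z₂)
      - μ * (y₁ * (z₁ - z₂) + z₁ * (y₁ - y₂)) = 0 := by
    linear_combination h₁ - hA
  set p := y₁ - y₂ with hp
  set q := z₁ - z₂ with hq
  have hp0 : p ≠ 0 := by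
    intro h
    rw [h] at e3
    have h3 : c * q ^ 3 = 0 := by linear_combination e3
    have hq0 : q = 0 := by
      rcases mul_eq_zero.1 h3 with h4 | h4
      · exact absurd h4 hc0
      · exact pow_eq_zero_iff (by norm_num) |>.1 h4
    exact hd ⟨sub_eq_zero.1 h, sub_eq_zero.1 hq0⟩
  have hq0 : q ≠ 0 := by
    intro h
    rw [h] at e3
    have h3 : b * p ^ 3 = 0 := by linear_combination e3
    rcases mul_eq_zero.1 h3 with h4 | h4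
    · exact hb0 h4
    · exact hp0 (pow_eq_zero_iff (by norm_num) |>.1 h4)
  -- `r = q / p`, `n = z₁ - r y₁`
  obtain ⟨r, hr⟩ : ∃ r, q = r * p := ⟨q / p, by field_simp⟩
  have hb : b = -c * r ^ 3 := by
    have : (b + c * r ^ 3) * p ^ 3 = 0 := by rw [hr] at e3; linear_combination e3
    rcases mul_eq_zero.1 this with h | h
    · linear_combination h
    · exact absurd (pow_eq_zero_iff (by norm_num) |>.1 h) hp0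
  have hr0 : r ≠ 0 := by
    intro h; rw [h] at hb; exact hb0 (by rw [hb]; ring)
  have hμ : μ = c * r * (z₁ - r * y₁) := by
    have : (c * r * (z₁ - r * y₁) - μ) * (r * p ^ 2) = 0 := by
      rw [hr, hb] at e2; linear_combination e2
    rcases mul_eq_zero.1 this with h | h
    · linear_combination -h
    · rcases mul_eq_zero.1 h with h | h
      · exact absurd h hr0
      · exact absurd (pow_eq_zero_iff (by norm_num) |>.1 h) hp0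
  have hn : 1 + c * (z₁ - r * y₁) ^ 3 = 0 := by
    rw [hb] at h₁
    have h5 := h₁
    rw [hμ] at h5
    linear_combination h5
  apply hne
  rw [hμ, hb]
  linear_combination (c ^ 2 * r ^ 3) * hn

theorem const_of_cross {K : Type*} [Field K] (δ : Derivation ℤ K K) (X Y : K)
    (h : X * δ Y = Y * δ X) : δ (Y / X) = 0 := by
  rw [Derivation.leibniz_div]
  simp only [smul_eq_mul]
  rw [h, sub_self, mul_zero]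

theorem normalize {K : Type*} [Field K] (δ : Derivation ℤ K K) (b c μ X Y Z : K)
    (hne : X ≠ 0 ∨ Y ≠ 0 ∨ Z ≠ 0) (h1 : X * δ Y = Y * δ X) (h2 : X * δ Z = Z * δ X)
    (h3 : Y * δ Z = Z * δ Y) (h : X ^ 3 + b * Y ^ 3 + c * Z ^ 3 = 3 * μ * X * Y * Z) :
    ∃ X Y Z : K, (X ≠ 0 ∨ Y ≠ 0 ∨ Z ≠ 0) ∧ δ X = 0 ∧ δ Y = 0 ∧ δ Z = 0 ∧
      X ^ 3 + b * Y ^ 3 + c * Z ^ 3 = 3 * μ * X * Y * Z := by
  rcases hne with h0 | h0 | h0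
  · refine ⟨1, Y / X, Z / X, Or.inl one_ne_zero, δ.map_one_eq_zero, const_of_cross δ X Y h1,
      const_of_cross δ X Z h2, ?_⟩
    field_simp
    linear_combination h
  · refine ⟨X / Y, 1, Z / Y, Or.inr (Or.inl one_ne_zero), const_of_cross δ Y X h1.symm,
      δ.map_one_eq_zero, const_of_cross δ Y Z h3, ?_⟩
    field_simp
    linear_combination h
  · refine ⟨X / Z, Y / Z, 1, Or.inr (Or.inr one_ne_zero), const_of_cross δ Z X h2.symm,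
      const_of_cross δ Z Y h3.symm, δ.map_one_eq_zero, ?_⟩
    field_simp
    linear_combination h

end ModK

/-! ### Module K (the third collinear point) -/

theorem third_point {K : Type*} [Field K] [CharZero K] (δ : Derivation ℤ K K) (b c μ : K)
    (hb : δ b = 0) (hc : δ c = 0) (hμ : δ μ = 0) (hb0 : b ≠ 0) (hc0 : c ≠ 0)
    (hne : μ ^ 3 ≠ b * c) (y₁ z₁ y₂ z₂ ω : K)
    (h₁ : 1 + b * y₁ ^ 3 + c * z₁ ^ 3 = 3 * μ * y₁ * z₁)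
    (h₂ : 1 + b * y₂ ^ 3 + c * z₂ ^ 3 = 3 * μ * y₂ * z₂)
    (dy₁ : δ y₁ = ω * (c * z₁ ^ 2 - μ * y₁)) (dz₁ : δ z₁ = -ω * (b * y₁ ^ 2 - μ * z₁))
    (dy₂ : δ y₂ = -ω * (c * z₂ ^ 2 - μ * y₂)) (dz₂ : δ z₂ = ω * (b * y₂ ^ 2 - μ * z₂)) :
    ∃ X Y Z : K, (X ≠ 0 ∨ Y ≠ 0 ∨ Z ≠ 0) ∧ δ X = 0 ∧ δ Y = 0 ∧ δ Z = 0 ∧
      X ^ 3 + b * Y ^ 3 + c * Z ^ 3 = 3 * μ * X * Y * Z := by
  by_cases hω : ω = 0
  · refine ⟨1, y₁, z₁, Or.inl one_ne_zero, δ.map_one_eq_zero, by rw [dy₁, hω]; ring,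
      by rw [dz₁, hω]; ring, ?_⟩
    linear_combination h₁
  have dA : δ (1 + b * y₁ ^ 2 * y₂ + c * z₁ ^ 2 * z₂ - μ * (y₁ * z₂ + z₁ * y₂ + y₁ * z₁))
      = b * (2 * y₁ * δ y₁ * y₂ + y₁ ^ 2 * δ y₂) + c * (2 * z₁ * δ z₁ * z₂ + z₁ ^ 2 * δ z₂)
        - μ * (δ y₁ * z₂ + y₁ * δ z₂ + δ z₁ * y₂ + z₁ * δ y₂ + δ y₁ * z₁ + y₁ * δ z₁) := by
    simp only [map_add, map_sub, Derivation.leibniz, Derivation.leibniz_pow, hb, hc, hμ,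
      Derivation.map_one_eq_zero, smul_eq_mul, nsmul_eq_mul]
    push_cast
    ring
  have dB : δ (1 + b * y₁ * y₂ ^ 2 + c * z₁ * z₂ ^ 2 - μ * (y₂ * z₁ + z₂ * y₁ + y₂ * z₂))
      = b * (2 * y₂ * δ y₂ * y₁ + y₂ ^ 2 * δ y₁) + c * (2 * z₂ * δ z₂ * z₁ + z₂ ^ 2 * δ z₁)
        - μ * (δ y₂ * z₁ + y₂ * δ z₁ + δ z₂ * y₁ + z₂ * δ y₁ + δ y₂ * z₂ + y₂ * δ z₂) := by
    simp only [map_add, map_sub, Derivation.leibniz, Derivation.leibniz_pow, hb, hc, hμ,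
      Derivation.map_one_eq_zero, smul_eq_mul, nsmul_eq_mul]
    push_cast
    ring
  set A := 1 + b * y₁ ^ 2 * y₂ + c * z₁ ^ 2 * z₂ - μ * (y₁ * z₂ + z₁ * y₂ + y₁ * z₁) with hA
  set B := 1 + b * y₁ * y₂ ^ 2 + c * z₁ * z₂ ^ 2 - μ * (y₂ * z₁ + z₂ * y₁ + y₂ * z₂) with hB
  rw [dy₁, dy₂, dz₁, dz₂] at dA dB
  have dX : δ (B - A) = δ B - δ A := map_sub _ _ _
  have dY : δ (B * y₁ - A * y₂) = δ B * y₁ + B * δ y₁ - (δ A * y₂ + A * δ y₂) := by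
    simp only [map_sub, Derivation.leibniz, smul_eq_mul]; ring
  have dZ : δ (B * z₁ - A * z₂) = δ B * z₁ + B * δ z₁ - (δ A * z₂ + A * δ z₂) := by
    simp only [map_sub, Derivation.leibniz, smul_eq_mul]; ring
  rw [dA, dB] at dX dY dZ
  rw [dy₁, dy₂] at dY
  rw [dz₁, dz₂] at dZ
  by_cases h0 : B - A = 0 ∧ B * y₁ - A * y₂ = 0 ∧ B * z₁ - A * z₂ = 0
  · exfalso
    obtain ⟨hx, hy, hz⟩ := h0
    have hBA : B = A := sub_eq_zero.1 hx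
    by_cases hd : y₁ = y₂ ∧ z₁ = z₂
    · obtain ⟨rfl, rfl⟩ := hd
      have k1 : c * z₁ ^ 2 = μ * y₁ := by
        have h5 : 2 * ω * (c * z₁ ^ 2 - μ * y₁) = 0 := by linear_combination dy₂ - dy₁
        rcases mul_eq_zero.1 h5 with h6 | h6
        · exact absurd (by simpa using h6) hω
        · exact sub_eq_zero.1 h6
      have k2 : b * y₁ ^ 2 = μ * z₁ := by
        have h5 : 2 * ω * (b * y₁ ^ 2 - μ * z₁) = 0 := by linear_combination dz₁ - dz₂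
        rcases mul_eq_zero.1 h5 with h6 | h6
        · exact absurd (by simpa using h6) hω
        · exact sub_eq_zero.1 h6
      have k3 : μ * y₁ * z₁ = 1 := by
        linear_combination y₁ * k2 + z₁ * k1 - h₁
      apply hne
      -- b c (y z)^2 = μ^2 y z, so b c = μ^3
      have k4 : b * c * (y₁ * z₁) ^ 2 = μ ^ 2 * (y₁ * z₁) := by
        linear_combination c * z₁ ^ 2 * k2 + μ * z₁ * k1
      have k5 : μ ^ 2 * (b * c * (y₁ * z₁) ^ 2) = b * c := by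
        linear_combination b * c * (μ * y₁ * z₁ + 1) * k3
      rw [← k5, k4]
      linear_combination (-μ ^ 3) * k3
    · have hA0 : A = 0 := by
        by_contra hA0
        apply hd
        rw [hBA] at hy hz
        refine ⟨?_, ?_⟩
        · have : A * (y₁ - y₂) = 0 := by linear_combination hy
          exact sub_eq_zero.1 ((mul_eq_zero.1 this).resolve_left hA0)
        · have : A * (z₁ - z₂) = 0 := by linear_combination hz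
          exact sub_eq_zero.1 ((mul_eq_zero.1 this).resolve_left hA0)
      exact ModK.nondeg b c μ hb0 hc0 hne y₁ z₁ y₂ z₂ h₁ h₂ (hA ▸ hA0) (hB ▸ hBA.trans hA0) hd
  · refine ModK.normalize δ b c μ (B - A) (B * y₁ - A * y₂) (B * z₁ - A * z₂) ?_ ?_ ?_ ?_ ?_
    · by_contra hcon
      push Not at hcon
      exact h0 hcon
    · rw [dX, dY, hA, hB]
      linear_combination
        (ω * (y₁^2 * z₂^2 * b * c * y₂ - y₁^2 * z₂ * μ^2 - y₁ * z₂^2 * b * c * y₂^2 + 2 * y₁ *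
          z₂^2 * c * μ * z₁ - 2 * y₁ * z₂ * b * c * z₁ * y₂^2 - 2 * y₁ * z₂ * μ^2 * y₂ + 2 *
          y₁ * b * μ * y₂^3 + y₁ * μ - z₂^4 * c^2 * z₁ - z₂^3 * c^2 * z₁^2 - z₂^3 * c * μ * y₂
          + 4 * z₂^2 * c * μ * z₁ * y₂ + z₂ * c * μ * z₁^2 * y₂ - 2 * z₂ * c * z₁ + 4 * z₂ *
          μ^2 * y₂^2 - 2 * b * μ * y₂^4 - μ^2 * z₁ * y₂^2 - μ * y₂)) * h₁ + (ω * (2 * y₁^2 * z₂ * b * c * z₁ * y₂ + y₁^2 * z₂ * μ^2 + y₁^2 * b * c * z₁^2 * y₂ + 2 *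
          y₁^2 * μ^2 * z₁ - y₁ * z₂^2 * c * μ * z₁ - 4 * y₁ * z₂ * c * μ * z₁^2 - y₁ * b * c *
          z₁^2 * y₂^2 - y₁ * c * μ * z₁^3 - 4 * y₁ * μ^2 * z₁ * y₂ - y₁ * μ + z₂^2 * c^2 *
          z₁^3 + z₂ * c^2 * z₁^4 - 2 * z₂ * c * μ * z₁^2 * y₂ + 2 * z₂ * c * z₁ + 2 * c * μ *
          z₁^3 * y₂ + μ^2 * z₁ * y₂^2 + μ * y₂)) * h₂
    · rw [dX, dZ, hA, hB]
      linear_combination
        (-ω * (y₁^2 * z₂ * b * μ * y₂ - y₁^2 * b^2 * y₂^3 + y₁ * z₂^3 * b * c * y₂ - 2 * y₁ * z₂^2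
          * b * c * z₁ * y₂ - y₁ * z₂^2 * μ^2 + y₁ * z₂ * b * μ * y₂^2 + 2 * y₁ * b * μ * z₁ *
          y₂^2 - y₁ * b * y₂ + z₂^3 * b * c * y₂^2 + z₂^3 * c * μ * z₁ - z₂^2 * b * c * z₁ *
          y₂^2 - 2 * z₂^2 * μ^2 * y₂ + z₂ * b * c * z₁^2 * y₂^2 - 2 * z₂ * b * μ * y₂^3 + z₂ *
          μ^2 * z₁ * y₂ + z₂ * μ + b^2 * y₂^5 - b * μ * z₁ * y₂^3 + b * y₂^2 - μ^2 * z₁^2 * y₂)) * h₁ - (ω * (- y₁^2 * z₂^2 * b * c * z₁ + y₁^2 * z₂ * b * c * z₁^2 - 2 * y₁^2 * z₂ * b * μ * y₂ -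
          y₁^2 * b * μ * z₁ * y₂ + y₁ * z₂^2 * μ^2 + 2 * y₁ * z₂ * b * c * z₁^2 * y₂ + 2 * y₁
          * z₂ * μ^2 * z₁ - y₁ * b * c * z₁^3 * y₂ + 2 * y₁ * b * μ * z₁ * y₂^2 + y₁ * b * y₂
          - y₁ * μ^2 * z₁^2 - 2 * z₂ * c * μ * z₁^3 - z₂ * μ - b * c * z₁^3 * y₂^2 - b * y₂^2
          + c * μ * z₁^4 + μ^2 * z₁^2 * y₂)) * h₂
    · rw [dY, dZ, hA, hB]
      linear_combination
        (ω * (- y₁^2 * z₂^3 * b * c * y₂ + y₁^2 * z₂ * b * μ * y₂^2 + 2 * y₁ * z₂^2 * b * c * z₁ *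
          y₂^2 + y₁ * z₂^2 * μ^2 * y₂ - y₁ * z₂ * b * μ * y₂^3 - 2 * y₁ * z₂ * μ^2 * z₁ * y₂ +
          y₁ * z₂ * μ - y₁ * b * y₂^2 + z₂^5 * c^2 * z₁ - 3 * z₂^3 * c * μ * z₁ * y₂ + z₂^2 *
          b * c * z₁ * y₂^3 + z₂^2 * c * μ * z₁^2 * y₂ - z₂ * b * c * z₁^2 * y₂^3 - 2 * z₂ *
          μ^2 * z₁ * y₂^2 + z₂ * μ * y₂ + b * μ * z₁ * y₂^4 + 2 * μ * z₁ * y₂ - 1)) * h₁ + (ω * (- 2 * y₁^2 * z₂ * b * c * z₁^2 * y₂ - y₁^2 * z₂ * μ^2 * z₁ - y₁^2 * b * μ * z₁ *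
          y₂^2 + y₁^2 * b * y₂ + 2 * y₁ * z₂^2 * c * μ * z₁^2 + y₁ * z₂ * c * μ * z₁^3 + 2 *
          y₁ * z₂ * μ^2 * z₁ * y₂ - y₁ * z₂ * μ + y₁ * b * c * z₁^3 * y₂^2 + 2 * y₁ * μ^2 *
          z₁^2 * y₂ - y₁ * μ * z₁ - z₂^2 * c^2 * z₁^4 - z₂^2 * c * z₁ + z₂ * c * z₁^2 - c * μ
          * z₁^4 * y₂ - 2 * μ * z₁ * y₂ + 1)) * h₂
    · rw [hA, hB]
      linear_combination
        (- y₁^3 * z₂^3 * b^2 * c * y₂^3 - y₁^3 * z₂^3 * μ^3 + 3 * y₁^3 * z₂^2 * b * μ^2 *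
          y₂^2 - y₁^3 * b^2 * y₂^3 + 3 * y₁^2 * z₂^4 * b * c * μ * y₂^2 + 3 * y₁^2 * z₂^4 * c
          * μ^2 * z₁ - 3 * y₁^2 * z₂^3 * b * c * μ * z₁ * y₂^2 - 3 * y₁^2 * z₂^3 * μ^3 * y₂ +
          3 * y₁^2 * z₂^2 * b^2 * c * z₁ * y₂^4 - 3 * y₁^2 * z₂^2 * b * μ^2 * y₂^3 - 3 * y₁^2
          * z₂^2 * μ^3 * z₁ * y₂ + 3 * y₁^2 * z₂^2 * μ^2 - 3 * y₁^2 * z₂ * b * μ^2 * z₁ * y₂^3
          - 3 * y₁^2 * z₂ * b * μ * y₂^2 + 3 * y₁^2 * b^2 * y₂^4 + 3 * y₁^2 * b * μ * z₁ *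
          y₂^2 - 3 * y₁ * z₂^5 * c^2 * μ * z₁^2 - 3 * y₁ * z₂^5 * c * μ^2 * y₂ - 6 * y₁ * z₂^3
          * b * c * μ * z₁ * y₂^3 - 3 * y₁ * z₂^3 * b * c * y₂^2 + 3 * y₁ * z₂^3 * c * μ^2 *
          z₁^2 * y₂ - 6 * y₁ * z₂^3 * c * μ * z₁ + 6 * y₁ * z₂^3 * μ^3 * y₂^2 + 3 * y₁ * z₂^2
          * b * c * μ * z₁^2 * y₂^3 + 6 * y₁ * z₂^2 * b * c * z₁ * y₂^2 + 12 * y₁ * z₂^2 * μ^3
          * z₁ * y₂^2 + 3 * y₁ * z₂^2 * μ^2 * y₂ - 3 * y₁ * z₂ * b^2 * c * z₁^2 * y₂^5 - 3 *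
          y₁ * z₂ * b * c * z₁^2 * y₂^2 + 3 * y₁ * z₂ * b * μ * y₂^3 + 6 * y₁ * z₂ * μ^3 *
          z₁^2 * y₂^2 - 3 * y₁ * z₂ * μ - 3 * y₁ * b^2 * y₂^5 - 6 * y₁ * b * μ * z₁ * y₂^3 - 3
          * y₁ * μ^2 * z₁^2 * y₂ + z₂^6 * c^3 * z₁^3 + 3 * z₂^5 * c^2 * μ * z₁^2 * y₂ + 3 *
          z₂^4 * c^2 * μ * z₁^3 * y₂ + 3 * z₂^4 * c^2 * z₁^2 + 6 * z₂^4 * c * μ^2 * z₁ * y₂^2
          + 6 * z₂^4 * c * μ * y₂ + z₂^3 * b * c^2 * z₁^3 * y₂^3 + z₂^3 * b * c * y₂^3 - 9 *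
          z₂^3 * c * μ^2 * z₁^2 * y₂^2 - z₂^3 * μ^3 * y₂^3 + 6 * z₂^2 * b * c * μ * z₁^2 *
          y₂^4 - 15 * z₂^2 * c * μ^2 * z₁^3 * y₂^2 + 3 * z₂^2 * c * z₁ - 12 * z₂^2 * μ^3 * z₁
          * y₂^3 - 15 * z₂^2 * μ^2 * y₂^2 + 3 * z₂ * b * c * μ * z₁^3 * y₂^4 + 3 * z₂ * b *
          μ^2 * z₁ * y₂^5 + 3 * z₂ * b * μ * y₂^4 + 6 * z₂ * c * μ * z₁^3 * y₂ - 12 * z₂ * μ^3
          * z₁^2 * y₂^3 - 9 * z₂ * μ^2 * z₁ * y₂^2 + 3 * z₂ * μ * y₂ + b^2 * c * z₁^3 * y₂^6 +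
          b^2 * y₂^6 + b * c * z₁^3 * y₂^3 + 3 * b * μ^2 * z₁^2 * y₂^5 + 6 * b * μ * z₁ * y₂^4
          + b * y₂^3 - μ^3 * z₁^3 * y₂^3 + 6 * μ^2 * z₁^2 * y₂^2 + 3 * μ * z₁ * y₂ + 1) * h₁ + (y₁^3 * z₂^3 * μ^3 + 3 * y₁^3 * z₂^2 * μ^3 * z₁ + 3 * y₁^3 * z₂ * μ^3 * z₁^2 + y₁^3 *
          μ^3 * z₁^3 - 3 * y₁^2 * z₂^3 * c * μ^2 * z₁^2 - 3 * y₁^2 * z₂^2 * b * c^2 * z₁^4 *
          y₂ - 6 * y₁^2 * z₂^2 * c * μ^2 * z₁^3 - 6 * y₁^2 * z₂^2 * μ^3 * z₁ * y₂ - 3 * y₁^2 *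
          z₂^2 * μ^2 - 6 * y₁^2 * z₂ * b * c * μ * z₁^3 * y₂^2 - 6 * y₁^2 * z₂ * b * c * z₁^2
          * y₂ - 3 * y₁^2 * z₂ * b * μ * y₂^2 - 3 * y₁^2 * z₂ * c * μ^2 * z₁^4 - 12 * y₁^2 *
          z₂ * μ^3 * z₁^2 * y₂ - 6 * y₁^2 * z₂ * μ^2 * z₁ - 3 * y₁^2 * b * c * μ * z₁^4 * y₂^2
          - 3 * y₁^2 * b * μ^2 * z₁^2 * y₂^3 - 6 * y₁^2 * b * μ * z₁ * y₂^2 - 3 * y₁^2 * b *
          y₂ - 6 * y₁^2 * μ^3 * z₁^3 * y₂ - 3 * y₁^2 * μ^2 * z₁^2 + 3 * y₁ * z₂^3 * c^2 * μ *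
          z₁^4 + 3 * y₁ * z₂^2 * c^2 * μ * z₁^5 + 15 * y₁ * z₂^2 * c * μ^2 * z₁^3 * y₂ + 6 *
          y₁ * z₂^2 * c * μ * z₁^2 + 3 * y₁ * z₂^2 * μ^2 * y₂ + 3 * y₁ * z₂ * b * c^2 * z₁^5 *
          y₂^2 + 3 * y₁ * z₂ * b * c * z₁^2 * y₂^2 + 18 * y₁ * z₂ * c * μ^2 * z₁^4 * y₂ + 6 *
          y₁ * z₂ * c * μ * z₁^3 + 12 * y₁ * z₂ * μ^3 * z₁^2 * y₂^2 + 18 * y₁ * z₂ * μ^2 * z₁
          * y₂ + 3 * y₁ * z₂ * μ + 3 * y₁ * b * c * μ * z₁^4 * y₂^3 + 3 * y₁ * b * c * z₁^3 *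
          y₂^2 + 3 * y₁ * b * μ * z₁ * y₂^3 + 3 * y₁ * b * y₂^2 + 3 * y₁ * c * μ^2 * z₁^5 * y₂
          + 12 * y₁ * μ^3 * z₁^3 * y₂^2 + 15 * y₁ * μ^2 * z₁^2 * y₂ + 3 * y₁ * μ * z₁ - z₂^3 *
          c^3 * z₁^6 - 3 * z₂^2 * c^2 * μ * z₁^5 * y₂ - 3 * z₂^2 * c^2 * z₁^4 - 6 * z₂^2 * c *
          μ * z₁^2 * y₂ - 6 * z₂ * c^2 * μ * z₁^6 * y₂ - 6 * z₂ * c * μ^2 * z₁^4 * y₂^2 - 6 *
          z₂ * c * μ * z₁^3 * y₂ - 3 * z₂ * c * z₁^2 - 3 * z₂ * μ^2 * z₁ * y₂^2 - 6 * z₂ * μ *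
          y₂ - b * c^2 * z₁^6 * y₂^3 - 2 * b * c * z₁^3 * y₂^3 - b * y₂^3 - 3 * c * μ^2 * z₁^5
          * y₂^2 - 6 * c * μ * z₁^4 * y₂ + μ^3 * z₁^3 * y₂^3 - 6 * μ^2 * z₁^2 * y₂^2 - 3 * μ *
          z₁ * y₂ - 1) * h₂

end Pool.Agent.H16
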