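import Pool.Agent.H16.Irr.ModI
import Pool.Agent.H16.Irr.ModD
import Pool.Agent.H16.Irr.ModE
import Pool.Agent.H16.Irr.ModF
import Pool.Agent.H16.Irr.ModJ
import Pool.Agent.H16.Irr.ModK

namespace Pool.Agent.H16

open Polynomial KaehlerDifferential

namespace ModL

theorem exists_invol {M K : Type*} [Field M] [Field K] [Algebra M K] [CharZero M]
    (h : Module.finrank M K = 2) :
    ∃ ι : K ≃ₐ[M] K, (∀ x, algebraMap M K (Algebra.trace M K x) = x + ι x) := by
  have : FiniteDimensional M K := Module.finite_of_finrank_pos (by omega)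
  have : Algebra.IsQuadraticExtension M K := ⟨h⟩
  have hc : Nat.card (K ≃ₐ[M] K) = 2 := by rw [IsGalois.card_aut_eq_finrank, h]
  have hc' : Fintype.card (K ≃ₐ[M] K) = 2 := by rw [← Nat.card_eq_fintype_card, hc]
  classical
  have hex : ∃ ι : K ≃ₐ[M] K, ι ≠ 1 := by
    by_contra hno
    push Not at hno
    have : Fintype.card (K ≃ₐ[M] K) ≤ 1 := Fintype.card_le_one_iff.mpr fun a b => by
      rw [hno a, hno b]
    omega
  obtain ⟨ι, hι⟩ := hex
  refine ⟨ι, fun x => ?_⟩
  rw [trace_eq_sum_automorphisms]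
  have huniv : (Finset.univ : Finset (K ≃ₐ[M] K)) = {1, ι} := by
    symm
    apply Finset.eq_univ_of_card
    rw [hc', Finset.card_pair hι.symm]
  rw [huniv, Finset.sum_pair hι.symm]
  rfl

/-- If `Tr (tⁱ a) = 0` for `i ≤ 3` and the degree is at most `4`, then the trace of `a` to `L(t)`
vanishes. -/
theorem trace_adjoin_eq_zero {L K : Type*} [Field L] [Field K] [Algebra L K] [CharZero L]
    [FiniteDimensional L K] (h4 : Module.finrank L K ≤ 4) (t a : K)
    (h : ∀ i ≤ 3, Algebra.trace L K (t ^ i * a) = 0) :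
    Algebra.trace (IntermediateField.adjoin L {t}) K a = 0 := by
  set L₁ := IntermediateField.adjoin L {t} with hL₁
  have ht : IsIntegral L t := Algebra.IsIntegral.isIntegral t
  have hnd := traceForm_nondegenerate L L₁
  have key : ∀ z : L₁, Algebra.traceForm L L₁ (Algebra.trace L₁ K a) z = 0 := by
    intro z
    let pb := IntermediateField.adjoin.powerBasis ht
    have hdim : pb.dim ≤ 4 := by
      rw [← pb.finrank]
      calc Module.finrank L L₁ ≤ Module.finrank L K := by
            rw [← Module.finrank_mul_finrank L L₁ K]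
            exact Nat.le_mul_of_pos_right _ Module.finrank_pos
        _ ≤ 4 := h4
    have : (Algebra.traceForm L L₁ (Algebra.trace L₁ K a)) = 0 := by
      apply pb.basis.ext
      intro i
      rw [PowerBasis.basis_eq_pow, IntermediateField.adjoin.powerBasis_gen,
        Algebra.traceForm_apply, mul_comm]
      have h1 : (IntermediateField.AdjoinSimple.gen L t) ^ (i : ℕ) * Algebra.trace L₁ K a =
          Algebra.trace L₁ K ((IntermediateField.AdjoinSimple.gen L t) ^ (i : ℕ) • a) := by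
        rw [map_smul, smul_eq_mul]
      rw [h1, Algebra.trace_trace]
      have h2 := h i (by have := i.2; omega)
      have h3 : (IntermediateField.AdjoinSimple.gen L t) ^ (i : ℕ) • a = t ^ (i : ℕ) * a := by
        rw [Algebra.smul_def]
        simp
      rw [h3, h2]
      rfl
    rw [this]; rfl
  have := hnd.1 (Algebra.trace L₁ K a) key
  exact this

/-- The constants of a derivation are algebraically closed (characteristic zero). -/
theorem der_eq_zero_of_isAlgebraic {C K : Type*} [Field C] [Field K] [Algebra C K] [CharZero K]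
    (δ : Derivation ℤ K K) (hδ : ∀ c : C, δ (algebraMap C K c) = 0) (z : K)
    (hz : IsAlgebraic C z) : δ z = 0 := by
  let δ' : Derivation C K K := { toFun := δ, map_add' := δ.map_add, map_smul' := by
                                  intro c x
                                  simp [Algebra.smul_def, hδ]
                                 map_one_eq_zero' := δ.map_one_eq_zero
                                 leibniz' := δ.leibniz }
  have h1 : δ' (aeval z (minpoly C z)) = aeval z (derivative (minpoly C z)) • δ' z :=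
    Derivation.map_aeval _ _ _
  rw [minpoly.aeval, map_zero] at h1
  have : CharZero C := (algebraMap C K).charZero
  have h2 : aeval z (derivative (minpoly C z)) ≠ 0 :=
    (minpoly.irreducible hz.isIntegral).separable.aeval_derivative_ne_zero (minpoly.aeval C z)
  have h3 := (smul_eq_zero.mp h1.symm).resolve_left h2
  exact h3

/-- A derivation preserving `L` preserves `L(t)`, `t` algebraic over `L`. -/
theorem der_mem_adjoin {L K : Type*} [Field L] [Field K] [Algebra L K] [CharZero L]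
    (δ : Derivation ℤ K K) (hδ : ∀ x : L, ∃ y : L, δ (algebraMap L K x) = algebraMap L K y)
    (t : K) (ht : IsAlgebraic L t) : δ t ∈ IntermediateField.adjoin L {t} := by
  have htm : t ∈ IntermediateField.adjoin L {t} := IntermediateField.mem_adjoin_simple_self L t
  have key : ∀ p : L[X], ∃ q ∈ IntermediateField.adjoin L {t},
      δ (aeval t p) = q + aeval t (derivative p) * δ t := by
    intro p
    induction p using Polynomial.induction_on' with
    | add p q hp hq =>
      obtain ⟨a, ha, ha'⟩ := hp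
      obtain ⟨b, hb, hb'⟩ := hq
      refine ⟨a + b, add_mem ha hb, ?_⟩
      rw [map_add, map_add, ha', hb', derivative_add, map_add]
      ring
    | monomial n c =>
      obtain ⟨c', hc'⟩ := hδ c
      refine ⟨algebraMap L K c' * t ^ n, mul_mem (IntermediateField.algebraMap_mem _ _)
        (pow_mem htm n), ?_⟩
      rw [aeval_monomial, Derivation.leibniz, Derivation.leibniz_pow, hc', derivative_monomial,
        aeval_monomial]
      simp only [smul_eq_mul, nsmul_eq_mul, map_mul, map_natCast]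
      ring
  obtain ⟨q, hq, h⟩ := key (minpoly L t)
  rw [minpoly.aeval, map_zero] at h
  have h2 : aeval t (derivative (minpoly L t)) ≠ 0 :=
    (minpoly.irreducible ht.isIntegral).separable.aeval_derivative_ne_zero (minpoly.aeval L t)
  have h3 : δ t = -q / aeval t (derivative (minpoly L t)) := by
    field_simp
    linear_combination -h
  rw [h3]
  refine div_mem (neg_mem hq) ?_
  exact IntermediateField.algebra_adjoin_le_adjoin L {t} (aeval_mem_adjoin_singleton L t)


theorem der_eqOn_adjoin {K : Type*} [Field K] [Algebra ℂ K] (D₁ D₂ : Derivation ℂ K K) (S : Set K)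
    (h : ∀ x ∈ S, D₁ x = D₂ x) : ∀ x ∈ IntermediateField.adjoin ℂ S, D₁ x = D₂ x := by
  intro x hx
  induction hx using IntermediateField.adjoin_induction with
  | mem x hx => exact h x hx
  | algebraMap x => rw [D₁.map_algebraMap, D₂.map_algebraMap]
  | add x y _ _ hx hy => rw [map_add, map_add, hx, hy]
  | inv x _ hx => rw [D₁.leibniz_inv, D₂.leibniz_inv, hx]
  | mul x y _ _ hx hy => rw [D₁.leibniz, D₂.leibniz, hx, hy]

theorem der_mem_adjoin_of_mem {K : Type*} [Field K] [Algebra ℂ K] (D : Derivation ℂ K K) (S : Set K)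
    (h : ∀ x ∈ S, D x ∈ IntermediateField.adjoin ℂ S) :
    ∀ x ∈ IntermediateField.adjoin ℂ S, D x ∈ IntermediateField.adjoin ℂ S := by
  intro x hx
  induction hx using IntermediateField.adjoin_induction with
  | mem x hx => exact h x hx
  | algebraMap x => rw [D.map_algebraMap]; exact zero_mem _
  | add x y _ _ hx hy => rw [map_add]; exact add_mem hx hy
  | inv x hx' hx =>
    rw [D.leibniz_inv]
    exact mul_mem (neg_mem (pow_mem (inv_mem hx') 2)) hx
  | mul x y hx' hy' hx hy =>
    rw [D.leibniz]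
    exact add_mem (mul_mem hx' hy) (mul_mem hy' hx)

/-- The relations of the surface. -/
structure Rel {K : Type*} [Field K] [Algebra ℂ K] (l : ℂ) (t ε y w : K) : Prop where
  hε : ε ^ 2 + ε + t ^ 12 = 0
  h : 1 + (-1 - ε) * y ^ 3 + ε * w ^ 3 = 3 * algebraMap ℂ K l * t ^ 4 * y * w
  hgen : IntermediateField.adjoin ℂ {t, ε, y, w} = ⊤
  hind : AlgebraicIndependent ℂ ![t, y]

section

variable {K : Type*} [Field K] [Algebra ℂ K] {l : ℂ} {t ε y w : K}

theorem Rel.t_tr (h : Rel l t ε y w) : Transcendental ℂ t := by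
  simpa using h.hind.transcendental 0

theorem Rel.t_ne (h : Rel l t ε y w) : t ≠ 0 := fun h0 => h.t_tr (h0 ▸ isAlgebraic_zero)

theorem Rel.mul_eq (h : Rel l t ε y w) : (-1 - ε) * ε = t ^ 12 := by linear_combination -h.hε

theorem Rel.ε_ne (h : Rel l t ε y w) : ε ≠ 0 := fun h0 =>
  pow_ne_zero 12 h.t_ne (by rw [← h.mul_eq, h0, mul_zero])

theorem Rel.ε'_ne (h : Rel l t ε y w) : -1 - ε ≠ 0 := fun h0 =>
  pow_ne_zero 12 h.t_ne (by rw [← h.mul_eq, h0, zero_mul])

theorem Rel.y_ne (h : Rel l t ε y w) : y ≠ 0 := fun h0 => by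
  have := h.hind.transcendental 1
  simp only [Matrix.cons_val_one, Matrix.cons_val_fin_one] at this
  exact this (h0 ▸ isAlgebraic_zero)

omit [Algebra ℂ K] in
theorem isAlg_ε {L : Type*} [Field L] [Algebra L K] (hε : ε ^ 2 + ε + t ^ 12 = 0)
    (ht : ∃ t' : L, algebraMap L K t' = t) : IsAlgebraic L ε := by
  obtain ⟨t', ht'⟩ := ht
  refine ⟨X ^ 2 + X + C (t' ^ 12), ?_, ?_⟩
  · intro h0
    have := congrArg (fun p => p.coeff 2) h0
    simp only [coeff_add, coeff_X_pow, coeff_X, coeff_C, coeff_zero] at this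
    norm_num at this
  · simp [ht', hε]

theorem isAlg_w {L : Type*} [Field L] [Algebra L K] (h : Rel l t ε y w)
    (ht : ∃ t' : L, algebraMap L K t' = t) (hy : ∃ y' : L, algebraMap L K y' = y)
    (hl : ∃ l' : L, algebraMap L K l' = algebraMap ℂ K l) : IsAlgebraic L w := by
  have hε := isAlg_ε h.hε ht
  obtain ⟨t', ht'⟩ := ht
  obtain ⟨y', hy'⟩ := hy
  obtain ⟨l', hl'⟩ := hl
  have h1 : IsAlgebraic (IntermediateField.adjoin L {ε}) w := by
    let e : IntermediateField.adjoin L {ε} := ⟨ε, IntermediateField.mem_adjoin_simple_self L ε⟩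
    have he : (algebraMap (IntermediateField.adjoin L {ε}) K) e = ε := rfl
    have hA : ∀ x : L, algebraMap (IntermediateField.adjoin L {ε}) K
      (algebraMap L (IntermediateField.adjoin L {ε}) x) = algebraMap L K x := fun x => rfl
    refine ⟨C e * X ^ 3 - C (3 * algebraMap L _ l' * algebraMap L _ t' ^ 4 * algebraMap L _ y') * X
      + C (1 + (-1 - e) * algebraMap L _ y' ^ 3), ?_, ?_⟩
    · intro h0
      have := congrArg (fun p => p.coeff 3) h0
      simp only [coeff_add, coeff_sub, coeff_C_mul, coeff_X_pow, coeff_X, coeff_C, coeff_zero] at this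
      norm_num at this
      exact h.ε_ne (by rw [← he, this, map_zero])
    · simp only [map_add, map_sub, map_mul, aeval_C, map_pow, aeval_X, he, hA, ht', hy', hl',
        map_one, map_neg, map_ofNat]
      linear_combination h.h
  have h2 : Algebra.IsAlgebraic L (IntermediateField.adjoin L {ε}) :=
    IntermediateField.isAlgebraic_adjoin_simple (isAlgebraic_iff_isIntegral.mp hε)
  exact h1.restrictScalars L


/-- `K` is finite over `ℂ(t, y)`. -/
theorem Rel.finite (h : Rel l t ε y w) (L : IntermediateField ℂ K) (ht : t ∈ L) (hy : y ∈ L) :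
    FiniteDimensional L K := by
  have hε : IsIntegral L ε := isAlgebraic_iff_isIntegral.mp (isAlg_ε h.hε ⟨⟨t, ht⟩, rfl⟩)
  have hw : IsIntegral L w := isAlgebraic_iff_isIntegral.mp (isAlg_w h ⟨⟨t, ht⟩, rfl⟩
    ⟨⟨y, hy⟩, rfl⟩ ⟨⟨_, L.algebraMap_mem l⟩, rfl⟩)
  have hfin : FiniteDimensional L (IntermediateField.adjoin L ({ε, w} : Set K)) := by
    have : Finite (({ε, w} : Set K)) := inferInstance
    apply IntermediateField.finiteDimensional_adjoin
    rintro x (rfl | hx)
    · exact hε
    · rw [Set.mem_singleton_iff] at hx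
      rw [hx]; exact hw
  have htop : IntermediateField.adjoin L ({ε, w} : Set K) = ⊤ := by
    rw [eq_top_iff]
    intro z _
    set G := IntermediateField.adjoin L ({ε, w} : Set K) with hG
    have h1 : t ∈ G := IntermediateField.algebraMap_mem G (⟨t, ht⟩ : L)
    have h2 : y ∈ G := IntermediateField.algebraMap_mem G (⟨y, hy⟩ : L)
    have h3 : ε ∈ G := IntermediateField.subset_adjoin L {ε, w} (Or.inl rfl)
    have h4 : w ∈ G := IntermediateField.subset_adjoin L {ε, w} (Or.inr rfl)
    have hle : IntermediateField.adjoin ℂ {t, ε, y, w} ≤ G.restrictScalars ℂ := by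
      rw [IntermediateField.adjoin_le_iff]
      rintro x (hx | hx | hx | hx)
      · rw [hx]; exact h1
      · rw [hx]; exact h3
      · rw [hx]; exact h2
      · rw [Set.mem_singleton_iff] at hx
        rw [hx]; exact h4
    rw [h.hgen] at hle
    exact hle IntermediateField.mem_top
  rw [htop] at hfin
  exact LinearEquiv.finiteDimensional
      (IntermediateField.topEquiv (F := L) (E := K)).toLinearEquiv

theorem Rel.isTB (h : Rel l t ε y w) : IsTranscendenceBasis ℂ ![t, y] := by
  rw [h.hind.isTranscendenceBasis_iff_isAlgebraic, ← IntermediateField.isAlgebraic_adjoin_iff_top]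
  have := h.finite (IntermediateField.adjoin ℂ (Set.range ![t, y]))
    (IntermediateField.subset_adjoin _ _ ⟨0, rfl⟩) (IntermediateField.subset_adjoin _ _ ⟨1, rfl⟩)
  exact Algebra.IsAlgebraic.of_finite _ K

theorem isAlg_mono {L M : IntermediateField ℂ K} {x : K} (hx : IsAlgebraic L x) (hLM : L ≤ M) :
    IsAlgebraic M x := by
  obtain ⟨p, hp, hpx⟩ := hx
  refine ⟨p.map (IntermediateField.inclusion hLM).toRingHom, ?_, ?_⟩
  · rwa [Ne, Polynomial.map_eq_zero]
  · rw [aeval_def, eval₂_map]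
    exact hpx

/-- A constant of a nonzero derivation killing `t` is algebraic over `ℂ(t, ε)`. -/
theorem Rel.isAlgebraic_of_der (h : Rel l t ε y w) (D : Derivation ℂ K K) (hDt : D t = 0)
    (hD : D ≠ 0) (x : K) (hx : D x = 0) : IsAlgebraic (IntermediateField.adjoin ℂ {t, ε}) x := by
  by_contra hcon
  have hchar : CharZero K := charZero_of_injective_algebraMap (algebraMap ℂ K).injective
  -- `t, x` algebraically independent
  have hind : AlgebraicIndependent ℂ ![t, x] := by
    rw [AlgebraicIndependent.iff_transcendental_adjoin_image (i := 1)]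
    refine ⟨?_, ?_⟩
    · have : Subsingleton {j : Fin 2 // j ≠ 1} :=
        ⟨fun a b => Subtype.ext (by have := a.2; have := b.2; omega)⟩
      rw [algebraicIndependent_singleton_iff (⟨0, by decide⟩ : {j : Fin 2 // j ≠ 1})]
      exact h.t_tr
    · have h3 : (![t, x] '' {1}ᶜ) = {t} := by
        ext z
        simp only [Set.mem_image, Set.mem_compl_iff, Set.mem_singleton_iff]
        constructor
        · rintro ⟨i, hi, rfl⟩
          fin_cases i
          · rfl
          · exact absurd rfl hi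
        · rintro rfl
          exact ⟨0, by decide, rfl⟩
      rw [h3, ← IntermediateField.transcendental_adjoin_iff]
      intro hx'
      apply hcon
      exact isAlg_mono hx' (IntermediateField.adjoin.mono ℂ _ _ (by
        rintro z hz
        rw [Set.mem_singleton_iff] at hz
        rw [hz]; exact Or.inl rfl))
  have hTB : IsTranscendenceBasis ℂ ![t, x] :=
    hind.isTranscendenceBasis_of_lift_trdeg_le_of_finite h.isTB.lift_cardinalMk_eq_trdeg.ge
  have halg : IsAlgebraic (IntermediateField.adjoin ℂ {t, x}) y := by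
    have h1 := hTB.isAlgebraic_field
    have h2 : Set.range ![t, x] = {t, x} := by
      ext z; simp [eq_comm, or_comm]
    rw [h2] at h1
    exact h1.isAlgebraic y
  have hyD : D y = 0 := by
    refine der_eq_zero_of_isAlgebraic (C := IntermediateField.adjoin ℂ {t, x})
      (D.restrictScalars ℤ) ?_ y halg
    intro c
    have := der_eqOn_adjoin D 0 {t, x} (by
      rintro z (rfl | hz)
      · simpa using hDt
      · rw [Set.mem_singleton_iff] at hz
        rw [hz]; simpa using hx) c c.2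
    exact this
  apply hD
  have hfin := h.finite (IntermediateField.adjoin ℂ {t, y})
    (IntermediateField.subset_adjoin _ _ (Or.inl rfl))
    (IntermediateField.subset_adjoin _ _ (Or.inr rfl))
  refine derivation_eq_of_eqOn (IntermediateField.adjoin ℂ {t, y}) D 0 ?_
  apply der_eqOn_adjoin
  rintro z (rfl | hz)
  · simpa using hDt
  · rw [Set.mem_singleton_iff] at hz
    rw [hz]; simpa using hyD


theorem Rel.der_ε (h : Rel l t ε y w) (D : Derivation ℂ K K) :
    (2 * ε + 1) * D ε = - (12 * t ^ 11 * D t) := by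
  have h1 := congrArg D h.hε
  rw [map_add, map_add, D.leibniz_pow, D.leibniz_pow, map_zero] at h1
  simp only [smul_eq_mul, nsmul_eq_mul, Nat.cast_ofNat, Nat.add_one_sub_one, pow_one] at h1
  linear_combination h1

theorem Rel.g_ne (h : Rel l t ε y w) : 2 * ε + 1 ≠ 0 := by
  intro h0
  have h1 : 4 * t ^ 12 = 1 := by linear_combination (2 * ε + 1) * h0 * (-1) + 4 * h.hε
  apply h.t_tr
  refine ⟨4 * X ^ 12 - 1, ?_, ?_⟩
  · intro h2
    have := congrArg (fun p => p.coeff 0) h2
    simp at this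
  · simp [h1, map_ofNat]

theorem Rel.der_ε_zero (h : Rel l t ε y w) (D : Derivation ℂ K K) (hD : D t = 0) : D ε = 0 := by
  have h1 := h.der_ε D
  rw [hD, mul_zero, neg_zero] at h1
  exact (mul_eq_zero.mp h1).resolve_left h.g_ne

theorem Rel.der_F_zero (h : Rel l t ε y w) (D : Derivation ℂ K K) (hD : D t = 0) :
    ∀ x ∈ IntermediateField.adjoin ℂ {t, ε}, D x = 0 := by
  apply der_eqOn_adjoin D 0
  rintro z (rfl | hz)
  · simpa using hD
  · rw [Set.mem_singleton_iff] at hz
    rw [hz]; simpa using h.der_ε_zero D hD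

theorem Rel.exists_der (h : Rel l t ε y w) :
    ∃ D₁ D₂ : Derivation ℂ K K, D₁ t = 1 ∧ D₁ y = 0 ∧ D₂ t = 0 ∧ D₂ y = 1 := by
  have hfin := h.finite (IntermediateField.adjoin ℂ {t, y})
    (IntermediateField.subset_adjoin _ _ (Or.inl rfl))
    (IntermediateField.subset_adjoin _ _ (Or.inr rfl))
  exact exists_derivations t y h.hind _ rfl

theorem Rel.y_tr (h : Rel l t ε y w) :
    Transcendental (IntermediateField.adjoin ℂ {t, ε}) y := by
  have hchar : CharZero K := charZero_of_injective_algebraMap (algebraMap ℂ K).injective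
  obtain ⟨D₁, D₂, -, -, h3, h4⟩ := h.exists_der
  intro halg
  have := der_eq_zero_of_isAlgebraic (C := IntermediateField.adjoin ℂ {t, ε})
      (D₂.restrictScalars ℤ) (fun c => h.der_F_zero D₂ h3 c c.2) y halg
  have h5 : D₂ y = 0 := this
  rw [h4] at h5
  exact one_ne_zero h5

theorem Rel.den_ne (h : Rel l t ε y w) : ε * w ^ 2 - algebraMap ℂ K l * t ^ 4 * y ≠ 0 := by
  intro h0
  set F := IntermediateField.adjoin ℂ {t, ε} with hF
  have htF : t ∈ F := IntermediateField.subset_adjoin _ _ (Or.inl rfl)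
  have hεF : ε ∈ F := IntermediateField.subset_adjoin _ _ (Or.inr rfl)
  set μ := algebraMap ℂ K l * t ^ 4 with hμ
  have hμF : μ ∈ F := mul_mem (F.algebraMap_mem l) (pow_mem htF 4)
  have h1 : 1 + (-1 - ε) * y ^ 3 = 2 * μ * y * w := by
    linear_combination h.h - w * h0
  have h2 : ε * (1 + (-1 - ε) * y ^ 3) ^ 2 - 4 * μ ^ 3 * y ^ 3 = 0 := by
    rw [h1]; linear_combination 4 * μ ^ 2 * y ^ 2 * h0
  apply h.y_tr
  let e : F := ⟨ε, hεF⟩
  let m : F := ⟨μ, hμF⟩
  refine ⟨C e * (1 + C (-1 - e) * X ^ 3) ^ 2 - C (4 * m ^ 3) * X ^ 3, ?_, ?_⟩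
  · intro h3
    have h4 := congrArg (eval 0) h3
    simp at h4
    exact h.ε_ne (congrArg Subtype.val h4)
  · have he : algebraMap F K e = ε := rfl
    have hm : algebraMap F K m = μ := rfl
    simp only [map_add, map_sub, map_mul, aeval_C, map_pow, aeval_X, map_one, map_neg,
      map_ofNat]
    exact h2


theorem notMem_adjoin (h : Rel l t ε y w) {L : IntermediateField ℂ K} [FiniteDimensional L K]
    (δ : Derivation ℂ K K) (hδL : ∀ x ∈ L, δ x ∈ L) (hδt : δ t ≠ 0)
    (htr : Algebra.trace (IntermediateField.adjoin L {t}) K (δ t / (2 * ε + 1)) = 0) :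
    ε ∉ IntermediateField.adjoin L {t} := by
  intro hε
  have hchar : CharZero K := charZero_of_injective_algebraMap (algebraMap ℂ K).injective
  set L₁ := IntermediateField.adjoin L {t} with hL₁
  have h1 : δ t ∈ L₁ := by
    refine der_mem_adjoin (δ.restrictScalars ℤ) ?_ t (Algebra.IsAlgebraic.isAlgebraic t)
    intro x
    exact ⟨⟨δ x, hδL x x.2⟩, rfl⟩
  have h2 : δ t / (2 * ε + 1) ∈ L₁ :=
    div_mem h1 (add_mem (mul_mem (ofNat_mem L₁ 2) hε) (one_mem _))
  have h3 : algebraMap L₁ K ⟨_, h2⟩ = δ t / (2 * ε + 1) := rfl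
  rw [← h3, Algebra.trace_algebraMap] at htr
  have h4 : Module.finrank L₁ K ≠ 0 := Module.finrank_pos.ne'
  have hc : CharZero L₁ := (algebraMap L₁ K).charZero
  rw [nsmul_eq_mul, mul_eq_zero] at htr
  rcases htr with h5 | h5
  · exact h4 (by exact_mod_cast h5)
  · have h6 := congrArg Subtype.val h5
    exact (div_ne_zero hδt h.g_ne) h6

theorem comm_of_fix {L : IntermediateField ℂ K} [FiniteDimensional L K] (δ : Derivation ℂ K K)
    (hδL : ∀ x ∈ L, δ x ∈ L) (ι : K ≃+* K) (hι : ∀ x ∈ L, ι x = x) (x : K) :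
    ι (δ x) = δ (ι x) := by
  have hιs : ∀ x ∈ L, ι.symm x = x := fun x hx => by
    rw [RingEquiv.symm_apply_eq, hι x hx]
  let δ' : Derivation ℂ K K :=
    { toFun := fun x => ι (δ (ι.symm x))
      map_add' := fun a b => by simp
      map_smul' := fun c a => by
        simp only [RingHom.id_apply, Algebra.smul_def, map_mul]
        rw [hιs _ (L.algebraMap_mem c), Derivation.leibniz, Derivation.map_algebraMap]
        rw [smul_eq_mul, smul_eq_mul, mul_zero, add_zero, map_mul, hι _ (L.algebraMap_mem c)]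
      map_one_eq_zero' := by simp
      leibniz' := fun a b => by simp [Derivation.leibniz] }
  have h1 : δ' = δ := by
    apply derivation_eq_of_eqOn L
    intro z hz
    change ι (δ (ι.symm z)) = δ z
    rw [hιs z hz, hι _ (hδL z hz)]
  have h2 : δ' (ι x) = ι (δ x) := by
    change ι (δ (ι.symm (ι x))) = ι (δ x)
    rw [RingEquiv.symm_apply_apply]
  rw [← h2, h1]


theorem Rel.der_w (h : Rel l t ε y w) (D : Derivation ℂ K K) (hDt : D t = 0) :
    D w = -(D y / (ε * w ^ 2 - algebraMap ℂ K l * t ^ 4 * y)) *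
      ((-1 - ε) * y ^ 2 - algebraMap ℂ K l * t ^ 4 * w) := by
  have hchar : CharZero K := charZero_of_injective_algebraMap (algebraMap ℂ K).injective
  set μ := algebraMap ℂ K l * t ^ 4 with hμ
  have htF : t ∈ IntermediateField.adjoin ℂ {t, ε} := IntermediateField.subset_adjoin _ _ (Or.inl rfl)
  have hεF : ε ∈ IntermediateField.adjoin ℂ {t, ε} := IntermediateField.subset_adjoin _ _ (Or.inr rfl)
  have hμF : μ ∈ IntermediateField.adjoin ℂ {t, ε} :=
    mul_mem (IntermediateField.algebraMap_mem _ l) (pow_mem htF 4)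
  have hDF := h.der_F_zero D hDt
  have hDε : D ε = 0 := hDF ε hεF
  have hDε' : D (-1 - ε) = 0 := hDF _ (sub_mem (neg_mem (one_mem _)) hεF)
  have hDμ : D μ = 0 := hDF μ hμF
  have hden := h.den_ne
  rw [← hμ] at hden
  have dw : ((-1 - ε) * y ^ 2 - μ * w) * D y + (ε * w ^ 2 - μ * y) * D w = 0 := by
    have h1 := congrArg D h.h
    have h3 : 3 * algebraMap ℂ K l * t ^ 4 * y * w = 3 * (μ * (y * w)) := by rw [hμ]; ring
    rw [h3] at h1
    simp only [map_add, D.leibniz, D.leibniz_pow, hDε, hDε', hDμ, D.map_one_eq_zero, smul_eq_mul,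
      nsmul_eq_mul, Nat.cast_ofNat, Nat.add_one_sub_one] at h1
    have h4 : D (3 : K) = 0 := by
      have := D.map_natCast 3
      simpa using this
    rw [h4] at h1
    linear_combination h1 / 3
  have h1 : D y = D y / (ε * w ^ 2 - μ * y) * (ε * w ^ 2 - μ * y) := by
    rw [div_mul_cancel₀ _ hden]
  have h2 : (ε * w ^ 2 - μ * y) * (D w + D y / (ε * w ^ 2 - μ * y) * ((-1 - ε) * y ^ 2 - μ * w)) = 0 := by
    linear_combination dw + ((-1 - ε) * y ^ 2 - μ * w) * (-h1)
  have h3 := (mul_eq_zero.mp h2).resolve_left hden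
  linear_combination h3

/-- Conclusion from the vanishing of the sum of the two values of the invariant differential. -/
theorem Rel.conclude (h : Rel l t ε y w) (hl : l ^ 3 ≠ 1) (D : Derivation ℂ K K) (hDt : D t = 0)
    (hD : D ≠ 0) (W y₂ z₂ : K) (hW : W = D y / (ε * w ^ 2 - algebraMap ℂ K l * t ^ 4 * y))
    (h₂ : 1 + (-1 - ε) * y₂ ^ 3 + ε * z₂ ^ 3 = 3 * algebraMap ℂ K l * t ^ 4 * y₂ * z₂)
    (dy₂ : D y₂ = -W * (ε * z₂ ^ 2 - algebraMap ℂ K l * t ^ 4 * y₂))
    (dz₂ : D z₂ = W * ((-1 - ε) * y₂ ^ 2 - algebraMap ℂ K l * t ^ 4 * z₂)) :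
    HasPt ℂ l := by
  have hchar : CharZero K := charZero_of_injective_algebraMap (algebraMap ℂ K).injective
  set μ := algebraMap ℂ K l * t ^ 4 with hμ
  set F := IntermediateField.adjoin ℂ {t, ε} with hF
  have htF : t ∈ F := IntermediateField.subset_adjoin _ _ (Or.inl rfl)
  have hεF : ε ∈ F := IntermediateField.subset_adjoin _ _ (Or.inr rfl)
  have hμF : μ ∈ F := mul_mem (F.algebraMap_mem l) (pow_mem htF 4)
  have hDF := h.der_F_zero D hDt
  have hDε : D ε = 0 := hDF ε hεF
  have hDε' : D (-1 - ε) = 0 := hDF _ (sub_mem (neg_mem (one_mem _)) hεF)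
  have hDμ : D μ = 0 := hDF μ hμF
  have hne : μ ^ 3 ≠ (-1 - ε) * ε := by
    intro h1
    rw [h.mul_eq, hμ, mul_pow, ← pow_mul] at h1
    have h2 : algebraMap ℂ K l ^ 3 = 1 :=
      mul_right_cancel₀ (pow_ne_zero 12 h.t_ne) (h1.trans (one_mul (t ^ 12)).symm)
    rw [← map_pow, ← map_one (algebraMap ℂ K)] at h2
    exact hl ((algebraMap ℂ K).injective h2)
  have hden := h.den_ne
  rw [← hμ] at hden
  have dy₁ : D y = W * (ε * w ^ 2 - μ * y) := by
    rw [hW, div_mul_cancel₀ _ hden]
  have dz₁ : D w = -W * ((-1 - ε) * y ^ 2 - μ * w) := hW ▸ h.der_w D hDt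
  obtain ⟨A, B, C, hne0, hA, hB, hC, hrel⟩ := third_point (D.restrictScalars ℤ) (-1 - ε) ε μ
    hDε' hDε hDμ h.ε'_ne h.ε_ne hne y w y₂ z₂ W
    (by rw [h.h, hμ]; ring) (by rw [h₂, hμ]; ring) dy₁ dz₁ dy₂ dz₂
  have hmem : ∀ x : K, D x = 0 → x ∈ F := by
    intro x hx
    have halg := h.isAlgebraic_of_der D hDt hD x hx
    have := mem_of_isAlgebraic F.toSubfield (-1 - ε) ε μ y w
      (sub_mem (neg_mem (one_mem _)) hεF) hεF hμF h.ε'_ne h.ε_ne hne h.y_tr ?_
      (by rw [h.h, hμ]; ring) x halg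
    · exact this
    · rw [eq_top_iff]
      have h1 : IntermediateField.adjoin ℂ {t, ε, y, w} ≤ (Subfield.closure
          ((F.toSubfield : Set K) ∪ {y, w})).toIntermediateField (fun c =>
            Subfield.subset_closure (Or.inl (F.algebraMap_mem c))) := by
        rw [IntermediateField.adjoin_le_iff]
        rintro x (hx | hx | hx | hx)
        · rw [hx]; exact Subfield.subset_closure (Or.inl htF)
        · rw [hx]; exact Subfield.subset_closure (Or.inl hεF)
        · rw [hx]; exact Subfield.subset_closure (Or.inr (Or.inl rfl))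
        · rw [Set.mem_singleton_iff] at hx
          rw [hx]; exact Subfield.subset_closure (Or.inr (Or.inr rfl))
      rw [h.hgen] at h1
      intro z _
      exact h1 (IntermediateField.mem_top (x := z))
  refine hasPt_of_point l t ε h.hε h.t_tr A B C (hmem A hA) (hmem B hB) (hmem C hC) hne0 ?_
  rw [hrel, hμ]; ring


theorem Rel.core (h : Rel l t ε y w) (hl : l ^ 3 ≠ 1) (u v : K)
    (huv : AlgebraicIndependent ℂ ![u, v]) (L : IntermediateField ℂ K)
    (hL : L = IntermediateField.adjoin ℂ {u, v}) [FiniteDimensional L K]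
    (h4 : Module.finrank L K ≤ 4) : HasPt ℂ l := by
  have hchar : CharZero K := charZero_of_injective_algebraMap (algebraMap ℂ K).injective
  have hcharL : CharZero L := (algebraMap L K).charZero
  obtain ⟨δ₁, δ₂, hu₁, hv₁, hu₂, hv₂⟩ := exists_derivations u v huv L hL
  obtain ⟨D₁, D₂, hD₁t, hD₁y, hD₂t, hD₂y⟩ := h.exists_der
  -- the derivations preserve `L`
  have hδL : ∀ δ : Derivation ℂ K K, δ u ∈ L → δ v ∈ L → ∀ x ∈ L, δ x ∈ L := by
    intro δ h1 h2
    rw [hL] at h1 h2 ⊢
    apply der_mem_adjoin_of_mem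
    rintro x (rfl | hx)
    · exact h1
    · rw [Set.mem_singleton_iff] at hx
      rw [hx]; exact h2
  have hδ₁L : ∀ x ∈ L, δ₁ x ∈ L := hδL δ₁ (hu₁ ▸ one_mem L) (hv₁ ▸ zero_mem L)
  have hδ₂L : ∀ x ∈ L, δ₂ x ∈ L := hδL δ₂ (hu₂ ▸ zero_mem L) (hv₂ ▸ one_mem L)
  -- `δ₁ t` and `δ₂ t` are not both zero
  have hnz : δ₁ t ≠ 0 ∨ δ₂ t ≠ 0 := by
    by_contra hcon
    push Not at hcon
    have h1 : D₁ = (D₁ u) • δ₁ + (D₁ v) • δ₂ := by
      apply derivation_eq_of_eqOn L
      rw [hL]
      apply der_eqOn_adjoin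
      rintro x (rfl | hx)
      · simp [hu₁, hu₂]
      · rw [Set.mem_singleton_iff] at hx
        rw [hx]; simp [hv₁, hv₂]
    have h2 : D₁ t = (D₁ u) * δ₁ t + (D₁ v) * δ₂ t := by
      conv_lhs => rw [h1]
      simp
    rw [hcon.1, hcon.2, hD₁t] at h2
    simp at h2
  -- the derivation along the fibres
  set D : Derivation ℂ K K := (δ₁ t) • δ₂ - (δ₂ t) • δ₁ with hDdef
  have hDx : ∀ x, D x = δ₁ t * δ₂ x - δ₂ t * δ₁ x := fun x => by
    simp [hDdef]
  have hDt : D t = 0 := by rw [hDx]; ring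
  have hDne : D ≠ 0 := by
    intro h0
    have h1 : D u = 0 := by rw [h0]; rfl
    have h2 : D v = 0 := by rw [h0]; rfl
    rw [hDx, hu₁, hu₂] at h1
    rw [hDx, hv₁, hv₂] at h2
    rcases hnz with h3 | h3
    · apply h3; simpa using h2
    · apply h3; simpa using h1
  have hDε : D ε = 0 := h.der_ε_zero D hDt
  set μ := algebraMap ℂ K l * t ^ 4 with hμ
  set den := ε * w ^ 2 - algebraMap ℂ K l * t ^ 4 * y with hden
  set g := 2 * ε + 1 with hg
  have hg0 : g ≠ 0 := h.g_ne
  have hw0 : w ≠ 0 := by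
    intro h0
    have h1 := h.h
    rw [h0] at h1
    apply h.y_tr
    set F := IntermediateField.adjoin ℂ {t, ε} with hF
    have hεF : ε ∈ F := IntermediateField.subset_adjoin _ _ (Or.inr rfl)
    refine ⟨1 + C (⟨-1 - ε, sub_mem (neg_mem (one_mem _)) hεF⟩ : F) * X ^ 3, ?_, ?_⟩
    · intro h3
      have h4 := congrArg (eval 0) h3
      simp at h4
    · simp only [map_add, map_mul, aeval_C, map_pow, aeval_X, map_one]
      change 1 + (-1 - ε) * y ^ 3 = 0
      linear_combination h1
  have hΩreg := omega_regular l hl t ε y w h.t_ne h.y_ne hw0 h.hε h.h h.den_ne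
  set Ω := ((t ^ 4 / (ε * w ^ 2 - algebraMap ℂ K l * t ^ 4 * y)) •
      (KaehlerDifferential.D ℂ K y +
        (y / (3 * (-1 - ε))) • KaehlerDifferential.D ℂ K (-1 - ε))) with hΩ
  have hΩδ : ∀ δ : Derivation ℂ K K, δ.liftKaehlerDifferential Ω =
      t ^ 4 / den * (δ y + y / (3 * (-1 - ε)) * δ (-1 - ε)) := by
    intro δ
    simp [hΩ, hden]
    ring
  have hθδ : ∀ (i : ℕ) (δ : Derivation ℂ K K), δ.liftKaehlerDifferential
      ((t ^ i / (2 * ε + 1)) • KaehlerDifferential.D ℂ K t) = t ^ i / g * δ t := by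
    intro i δ
    simp [hg]
  set W := D y / den with hW
  have hD' : δ₁ t * δ₂ (-1 - ε) - δ₂ t * δ₁ (-1 - ε) = 0 := by
    rw [← hDx]
    simp [hDε, D.map_one_eq_zero]
  -- the traces
  have hT2 : ∀ i ≤ 3, Algebra.trace L K (t ^ i * (t ^ 4 * W / g)) = 0 := by
    intro i hi
    have h1 := trace_form_two u v huv L hL δ₁ δ₂ hu₁ hv₁ hu₂ hv₂ _ _
      (theta_regular t ε h.hε i (by omega)) hΩreg
    rw [hθδ, hθδ, hΩδ, hΩδ] at h1
    rw [← h1]
    congr 1
    rw [hW, hDx y]
    have h2 : t ^ i / g * δ₁ t * (t ^ 4 / den * (δ₂ y + y / (3 * (-1 - ε)) * δ₂ (-1 - ε))) -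
        t ^ i / g * δ₂ t * (t ^ 4 / den * (δ₁ y + y / (3 * (-1 - ε)) * δ₁ (-1 - ε))) =
        t ^ i / g * (t ^ 4 / den) * ((δ₁ t * δ₂ y - δ₂ t * δ₁ y) + y / (3 * (-1 - ε)) *
          (δ₁ t * δ₂ (-1 - ε) - δ₂ t * δ₁ (-1 - ε))) := by ring
    rw [h2, hD']
    ring
  have hT1 : ∀ δ : Derivation ℂ K K, (δ = δ₁ ∨ δ = δ₂) → ∀ i ≤ 3,
      Algebra.trace L K (t ^ i * (δ t / g)) = 0 := by
    intro δ hδ i hi
    have hreg := theta_regular t ε h.hε i (by omega)
    have h1 : Algebra.trace L K (δ.liftKaehlerDifferential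
        ((t ^ i / (2 * ε + 1)) • KaehlerDifferential.D ℂ K t)) = 0 := by
      rcases hδ with rfl | rfl
      · exact trace_form_one u v huv L hL δ hu₁ hv₁ _ hreg
      · refine trace_form_one v u ?_ L (by rw [hL, Set.pair_comm]) δ hv₂ hu₂ _ hreg
        have := huv.comp ![1, 0] (by decide)
        convert! this using 1
        ext i; fin_cases i <;> rfl
    rw [hθδ] at h1
    rw [← h1]
    congr 1
    ring
  have hT1Ω : ∀ δ : Derivation ℂ K K, (δ = δ₁ ∨ δ = δ₂) →
      Algebra.trace L K (δ.liftKaehlerDifferential Ω) = 0 := by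
    intro δ hδ
    rcases hδ with rfl | rfl
    · exact trace_form_one u v huv L hL δ hu₁ hv₁ _ hΩreg
    · refine trace_form_one v u ?_ L (by rw [hL, Set.pair_comm]) δ hv₂ hu₂ _ hΩreg
      have := huv.comp ![1, 0] (by decide)
      convert! this using 1
      ext i; fin_cases i <;> rfl
  -- the tower
  set L₁ := IntermediateField.adjoin L {t} with hL₁
  have hcharL₁ : CharZero L₁ := (algebraMap L₁ K).charZero
  have htr2 : Algebra.trace L₁ K (t ^ 4 * W / g) = 0 := trace_adjoin_eq_zero h4 t _ hT2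
  have hεL₁ : ε ∉ L₁ := by
    rcases hnz with h1 | h1
    · exact notMem_adjoin h δ₁ hδ₁L h1 (trace_adjoin_eq_zero h4 t _ (hT1 δ₁ (Or.inl rfl)))
    · exact notMem_adjoin h δ₂ hδ₂L h1 (trace_adjoin_eq_zero h4 t _ (hT1 δ₂ (Or.inr rfl)))
  have htL₁ : t ∈ L₁ := IntermediateField.mem_adjoin_simple_self L t
  have hLL₁ : ∀ x ∈ L, x ∈ L₁ := fun x hx => IntermediateField.algebraMap_mem L₁ (⟨x, hx⟩ : L)
  set L₂ := IntermediateField.adjoin L₁ {ε} with hL₂
  have hcharL₂ : CharZero L₂ := (algebraMap L₂ K).charZero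
  have hr12 : Module.finrank L₁ L₂ = 2 := by
    have h1 : Module.finrank L₁ L₂ ≤ 2 :=
      (ModF.finrank_le_two (F := L₁) ε 1 1 ⟨t ^ 12, pow_mem htL₁ 12⟩
      (Or.inl one_ne_zero) (by simpa [add_assoc] using h.hε)).2
    have h2 : Module.finrank L₁ L₂ ≠ 0 := Module.finrank_pos.ne'
    have h3 : Module.finrank L₁ L₂ ≠ 1 := by
      intro h5
      rw [IntermediateField.finrank_eq_one_iff] at h5
      apply hεL₁
      have h6 : ε ∈ L₂ := IntermediateField.mem_adjoin_simple_self L₁ ε
      rw [h5, IntermediateField.mem_bot] at h6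
      obtain ⟨z, hz⟩ := h6
      rw [← hz]; exact z.2
    omega
  have hm1 := Module.finrank_mul_finrank L L₁ K
  have hm2 := Module.finrank_mul_finrank L₁ L₂ K
  have hp1 : 0 < Module.finrank L L₁ := Module.finrank_pos
  have hp2 : 0 < Module.finrank L₂ K := Module.finrank_pos
  rw [hr12] at hm2
  -- quadratic relation for conjugates of `ε`
  have hconj : ∀ x : K, x ^ 2 + x + t ^ 12 = 0 → x ≠ ε → x = -1 - ε := by
    intro x hx hxε
    have h1 : (x - ε) * (x + ε + 1) = 0 := by linear_combination hx - h.hε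
    have h2 := (mul_eq_zero.mp h1).resolve_left (sub_ne_zero.mpr hxε)
    linear_combination h2
  by_cases hcase : Module.finrank L₂ K = 1
  · -- case A : `[K : L₁] = 2`
    rw [hcase] at hm2
    obtain ⟨ι, hι⟩ := exists_invol (M := L₁) (K := K) (by omega)
    have hιt : ι t = t := ι.commutes ⟨t, htL₁⟩
    have hιc : ∀ c : ℂ, ι (algebraMap ℂ K c) = algebraMap ℂ K c := fun c =>
      ι.commutes ⟨_, hLL₁ _ (L.algebraMap_mem c)⟩
    have hιε : ι ε = -1 - ε := by
      apply hconj
      · have := congrArg ι h.hε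
        simpa [hιt] using this
      · intro h0
        apply hεL₁
        have h1 := hι ε
        rw [h0] at h1
        have h2 : ε = algebraMap L₁ K (Algebra.trace L₁ K ε) / 2 := by rw [h1]; ring
        rw [h2]
        exact div_mem (SetLike.coe_mem _) (ofNat_mem L₁ 2)
    have hιg : ι g = -g := by
      rw [hg]; simp only [map_add, map_mul, map_ofNat, map_one, hιε]; ring
    have hιW : ι W = W := by
      have h1 := hι (t ^ 4 * W / g)
      rw [htr2, map_zero] at h1
      simp only [map_mul, map_div₀, map_pow, hιt, hιg] at h1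
      have h2 : t ^ 4 / g * (W - ι W) = 0 := by
        rw [h1]; field_simp; ring
      have h3 := (mul_eq_zero.mp h2).resolve_left (div_ne_zero (pow_ne_zero 4 h.t_ne) hg0)
      exact (sub_eq_zero.mp h3).symm
    have hcomm : ∀ x, ι (D x) = D (ι x) := by
      intro x
      have h1 : ∀ z, ι (δ₁ z) = δ₁ (ι z) := comm_of_fix δ₁ hδ₁L ι.toRingEquiv (fun z hz =>
        ι.commutes ⟨z, hLL₁ z hz⟩)
      have h2 : ∀ z, ι (δ₂ z) = δ₂ (ι z) := comm_of_fix δ₂ hδ₂L ι.toRingEquiv (fun z hz =>
        ι.commutes ⟨z, hLL₁ z hz⟩)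
      rw [hDx, hDx, map_sub, map_mul, map_mul, h1, h2, h1, h2, hιt]
    have hιε' : ι (-1 - ε) = ε := by
      simp only [map_sub, map_neg, map_one, hιε]; ring
    have dy : D y = W * (ε * w ^ 2 - algebraMap ℂ K l * t ^ 4 * y) := by
      rw [hW, div_mul_cancel₀ _ h.den_ne]
    have dw := h.der_w D hDt
    rw [← hden, ← hW] at dw
    refine h.conclude hl D hDt hDne W (ι w) (ι y) rfl ?_ ?_ ?_
    · have h1 := congrArg ι h.h
      simp only [map_add, map_mul, map_pow, map_one, map_ofNat, hιε', hιε, hιc, hιt] at h1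
      linear_combination h1
    · rw [← hcomm, dw]
      simp only [map_mul, map_neg, map_sub, map_pow, hιε', hιW, hιc, hιt]
    · rw [← hcomm, dy]
      simp only [map_mul, map_sub, map_pow, hιε, hιW, hιc, hιt]
  · -- case B : `t ∈ L` and `[K : L₂] = 2`
    have hK2 : Module.finrank L₂ K = 2 := by
      rw [← hm1, ← hm2] at h4
      have h5 : Module.finrank L L₁ * (2 * Module.finrank L₂ K) ≤ 4 := h4
      have h6 : 2 * Module.finrank L₂ K ≤ 4 := le_trans (Nat.le_mul_of_pos_left _ hp1) h5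
      omega
    have hL1 : Module.finrank L L₁ = 1 := by
      rw [← hm1, ← hm2, hK2] at h4
      omega
    have htL : t ∈ L := by
      rw [IntermediateField.finrank_eq_one_iff] at hL1
      have h6 : t ∈ L₁ := IntermediateField.mem_adjoin_simple_self L t
      rw [hL1, IntermediateField.mem_bot] at h6
      obtain ⟨z, hz⟩ := h6
      rw [← hz]; exact z.2
    obtain ⟨ι, hι⟩ := exists_invol (M := L₂) (K := K) hK2
    obtain ⟨σ, hσ⟩ := exists_invol (M := L₁) (K := L₂) hr12
    have hL₁L₂ : ∀ x ∈ L₁, x ∈ L₂ := fun x hx =>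
      IntermediateField.algebraMap_mem L₂ (⟨x, hx⟩ : L₁)
    have hεL₂ : ε ∈ L₂ := IntermediateField.mem_adjoin_simple_self L₁ ε
    have hgL₂ : g ∈ L₂ := add_mem (mul_mem (ofNat_mem L₂ 2) hεL₂) (one_mem _)
    have hιt : ι t = t := ι.commutes ⟨t, hL₁L₂ t htL₁⟩
    have hιε : ι ε = ε := ι.commutes ⟨ε, hεL₂⟩
    have hιc : ∀ c : ℂ, ι (algebraMap ℂ K c) = algebraMap ℂ K c := fun c =>
      ι.commutes ⟨_, hL₁L₂ _ (hLL₁ _ (L.algebraMap_mem c))⟩
    have hcomm : ∀ x, ι (D x) = D (ι x) := by
      intro x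
      have h1 : ∀ z, ι (δ₁ z) = δ₁ (ι z) := comm_of_fix δ₁ hδ₁L ι.toRingEquiv (fun z hz =>
        ι.commutes ⟨z, hL₁L₂ z (hLL₁ z hz)⟩)
      have h2 : ∀ z, ι (δ₂ z) = δ₂ (ι z) := comm_of_fix δ₂ hδ₂L ι.toRingEquiv (fun z hz =>
        ι.commutes ⟨z, hL₁L₂ z (hLL₁ z hz)⟩)
      rw [hDx, hDx, map_sub, map_mul, map_mul, h1, h2, h1, h2, hιt]
    -- the trace of `t⁴ W`
    set P := t ^ 4 * W with hP
    have hPeq : P = δ₁ t * δ₂.liftKaehlerDifferential Ω - δ₂ t * δ₁.liftKaehlerDifferential Ω := by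
      rw [hΩδ, hΩδ, hP, hW, hDx y]
      have h2 : δ₁ t * (t ^ 4 / den * (δ₂ y + y / (3 * (-1 - ε)) * δ₂ (-1 - ε))) -
        δ₂ t * (t ^ 4 / den * (δ₁ y + y / (3 * (-1 - ε)) * δ₁ (-1 - ε))) =
        (t ^ 4 / den) * ((δ₁ t * δ₂ y - δ₂ t * δ₁ y) + y / (3 * (-1 - ε)) *
          (δ₁ t * δ₂ (-1 - ε) - δ₂ t * δ₁ (-1 - ε))) := by ring
      rw [h2, hD']
      ring
    have htrL : ∀ (a x : K), a ∈ L → Algebra.trace L K x = 0 → Algebra.trace L K (a * x) = 0 := by
      intro a x ha hx
      have h1 : a * x = (⟨a, ha⟩ : L) • x := rfl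
      rw [h1, map_smul, hx, smul_zero]
    have htr3 : Algebra.trace L₁ K P = 0 := by
      apply trace_adjoin_eq_zero h4 t
      intro i _
      have h1 : t ^ i * P = t ^ i * δ₁ t * δ₂.liftKaehlerDifferential Ω -
          t ^ i * δ₂ t * δ₁.liftKaehlerDifferential Ω := by rw [hPeq]; ring
      rw [h1, map_sub, htrL _ _ (mul_mem (pow_mem htL i) (hδ₁L t htL)) (hT1Ω δ₂ (Or.inr rfl)),
        htrL _ _ (mul_mem (pow_mem htL i) (hδ₂L t htL)) (hT1Ω δ₁ (Or.inl rfl)), sub_zero]
    set s := Algebra.trace L₂ K P with hs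
    have hs1 : Algebra.trace L₁ L₂ s = 0 := by
      rw [hs, Algebra.trace_trace, htr3]
    let g' : L₂ := ⟨g, hgL₂⟩
    let e' : L₂ := ⟨ε, hεL₂⟩
    have hg'0 : g' ≠ 0 := fun h0 => hg0 (congrArg Subtype.val h0)
    have hs2 : Algebra.trace L₁ L₂ (g'⁻¹ * s) = 0 := by
      have h1 : g'⁻¹ * s = Algebra.trace L₂ K (P / g) := by
        have h2 : P / g = g'⁻¹ • P := by
          rw [Algebra.smul_def, map_inv₀, mul_comm, div_eq_mul_inv]
          rfl
        rw [h2, map_smul, smul_eq_mul]
      rw [h1, Algebra.trace_trace, htr2]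
    have hσe : σ e' = -1 - e' := by
      have hrel : e' ^ 2 + e' + (⟨t, hL₁L₂ t htL₁⟩ : L₂) ^ 12 = 0 := Subtype.ext h.hε
      have hσt : σ (⟨t, hL₁L₂ t htL₁⟩ : L₂) = ⟨t, hL₁L₂ t htL₁⟩ := σ.commutes ⟨t, htL₁⟩
      have h1 := congrArg σ hrel
      rw [map_add, map_add, map_pow, map_pow, hσt, map_zero] at h1
      have h2 : (σ e' - e') * (σ e' + e' + 1) = 0 := by linear_combination h1 - hrel
      have h3 : σ e' ≠ e' := by
        intro h0
        apply hεL₁
        have h5 := hσ e'
        rw [h0] at h5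
        have h6 : e' = algebraMap L₁ L₂ (Algebra.trace L₁ L₂ e') / 2 := by rw [h5]; ring
        have h7 : ε = algebraMap L₁ K (Algebra.trace L₁ L₂ e') / 2 := congrArg Subtype.val h6
        rw [h7]
        exact div_mem (SetLike.coe_mem _) (ofNat_mem L₁ 2)
      have h5 := (mul_eq_zero.mp h2).resolve_left (sub_ne_zero.mpr h3)
      linear_combination h5
    have hg'e : g' = 2 * e' + 1 := rfl
    have hσg : σ g' = -g' := by
      rw [hg'e]; simp only [map_add, map_mul, map_ofNat, map_one, hσe]; ring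
    have hs0 : s = 0 := by
      have h1 := hσ s
      have h2 := hσ (g'⁻¹ * s)
      rw [hs1, map_zero] at h1
      rw [hs2, map_zero, map_mul, map_inv₀, hσg] at h2
      have h3 : g'⁻¹ * (2 * s) = 0 := by
        have h5 : (-g')⁻¹ = -(g'⁻¹) := by rw [inv_neg]
        rw [h5] at h2
        linear_combination -h2 - g'⁻¹ * h1
      have h6 := (mul_eq_zero.mp h3).resolve_left (inv_ne_zero hg'0)
      exact (mul_eq_zero.mp h6).resolve_left two_ne_zero
    have hιP : P + ι P = 0 := by rw [← hι P, ← hs, hs0, map_zero]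
    have hιW : ι W = -W := by
      rw [hP] at hιP
      simp only [map_mul, map_pow, hιt] at hιP
      have h2 : t ^ 4 * (W + ι W) = 0 := by linear_combination hιP
      have h3 := (mul_eq_zero.mp h2).resolve_left (pow_ne_zero 4 h.t_ne)
      linear_combination h3
    have dy : D y = W * (ε * w ^ 2 - algebraMap ℂ K l * t ^ 4 * y) := by
      rw [hW, div_mul_cancel₀ _ h.den_ne]
    have dw := h.der_w D hDt
    rw [← hden, ← hW] at dw
    refine h.conclude hl D hDt hDne W (ι y) (ι w) rfl ?_ ?_ ?_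
    · have h1 := congrArg ι h.h
      simp only [map_add, map_mul, map_pow, map_one, map_ofNat, map_sub, map_neg, hιε, hιc, hιt] at h1
      linear_combination h1
    · rw [← hcomm, dy]
      simp only [map_mul, map_sub, map_pow, hιε, hιW, hιc, hιt]
    · rw [← hcomm, dw]
      simp only [map_mul, map_neg, map_sub, map_pow, map_one, hιε, hιW, hιc, hιt, neg_neg]

end

end ModL


theorem hasPt_of_irrLE_four {K : Type*} [Field K] [Algebra ℂ K] (l : ℂ) (hl : l ^ 3 ≠ 1)
    (t ε y w : K) (hε : ε ^ 2 + ε + t ^ 12 = 0)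
    (h : 1 + (-1 - ε) * y ^ 3 + ε * w ^ 3 = 3 * algebraMap ℂ K l * t ^ 4 * y * w)
    (hgen : IntermediateField.adjoin ℂ {t, ε, y, w} = ⊤)
    (hind : AlgebraicIndependent ℂ ![t, y]) (hirr : IrrLE K 4) : HasPt ℂ l := by
  obtain ⟨n, x, hx, hpos, hle⟩ := hirr
  have R : ModL.Rel l t ε y w := ⟨hε, h, hgen, hind⟩
  have hfin : FiniteDimensional (IntermediateField.adjoin ℂ (Set.range x)) K :=
    Module.finite_of_finrank_pos hpos
  have hTB : IsTranscendenceBasis ℂ x := by
    rw [hx.isTranscendenceBasis_iff_isAlgebraic, ← IntermediateField.isAlgebraic_adjoin_iff_top]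
    exact Algebra.IsAlgebraic.of_finite _ K
  have hn : n = 2 := by
    have := hTB.lift_cardinalMk_eq R.isTB
    simp only [Cardinal.mk_fin, Cardinal.lift_natCast] at this
    exact_mod_cast this
  subst hn
  have hxuv : x = ![x 0, x 1] := by ext i; fin_cases i <;> rfl
  have hr : Set.range x = {x 0, x 1} := by
    rw [hxuv]; ext z; simp [or_comm]
  exact R.core hl (x 0) (x 1) (by rwa [← hxuv]) (IntermediateField.adjoin ℂ (Set.range x))
    (by rw [hr]) hle

end Pool.Agent.H16
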