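import Pool.Agent.H16.Irr.ChartDefs

/-!
# Proj models

The scheme `Proj` of the graded algebra `⨁ Mⁿ`, where `M` is the module generated by finitely many
elements of a field.
-/

open AlgebraicGeometry CategoryTheory CategoryTheory.Limits Polynomial

namespace Pool.Agent.H16

namespace ModP

section algebra

variable (R : Type) [CommRing R] {K : Type} [Field K] [Algebra R K] {J : Type} (m : J → K)

/-- The module spanned by the `m j`. -/
abbrev spanM : Submodule R K := Submodule.span R (Set.range m)

/-- The graded algebra `⨁ Mⁿ Xⁿ ⊆ K[X]`. -/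
noncomputable def rees : Subalgebra R K[X] where
  carrier := {f | ∀ n, f.coeff n ∈ spanM R m ^ n}
  mul_mem' := by
    intro f g hf hg n
    rw [Polynomial.coeff_mul]
    refine Submodule.sum_mem _ ?_
    rintro ⟨a, b⟩ hab
    obtain rfl : a + b = n := Finset.HasAntidiagonal.mem_antidiagonal.mp hab
    rw [pow_add]
    exact Submodule.mul_mem_mul (hf a) (hg b)
  one_mem' := by
    intro n
    rw [Polynomial.coeff_one]
    split_ifs with h
    · subst h
      rw [pow_zero]
      exact Submodule.one_le.mp le_rfl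
    · exact zero_mem _
  add_mem' := by
    intro f g hf hg n
    rw [Polynomial.coeff_add]
    exact add_mem (hf n) (hg n)
  zero_mem' := by
    intro n
    rw [Polynomial.coeff_zero]
    exact zero_mem _
  algebraMap_mem' := by
    intro r n
    rw [Polynomial.algebraMap_apply, Polynomial.coeff_C]
    split_ifs with h
    · subst h
      rw [pow_zero]
      exact Submodule.algebraMap_mem r
    · exact zero_mem _

theorem mem_rees {f : K[X]} : f ∈ rees R m ↔ ∀ n, f.coeff n ∈ spanM R m ^ n := Iff.rfl

/-- The homogeneous elements of degree `n`. -/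
noncomputable def gr (n : ℕ) : Submodule R (rees R m) where
  carrier := {f | ∀ k, k ≠ n → (f : K[X]).coeff k = 0}
  add_mem' := by
    intro f g hf hg k hk
    rw [Subalgebra.coe_add, Polynomial.coeff_add, hf k hk, hg k hk, add_zero]
  zero_mem' := by
    intro k _
    simp
  smul_mem' := by
    intro r f hf k hk
    rw [Subalgebra.coe_smul, Polynomial.coeff_smul, hf k hk, smul_zero]

variable {R m}

theorem mem_gr {n : ℕ} {f : rees R m} :
    f ∈ gr R m n ↔ ∀ k, k ≠ n → (f : K[X]).coeff k = 0 := Iff.rfl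

theorem eq_monomial {n : ℕ} {f : rees R m} (hf : f ∈ gr R m n) :
    (f : K[X]) = monomial n ((f : K[X]).coeff n) := by
  ext k
  rw [Polynomial.coeff_monomial]
  split_ifs with h
  · rw [h]
  · exact hf k (Ne.symm h)

variable (R m) in
/-- The element `a Xⁿ` of the Rees algebra. -/
noncomputable def mon (n : ℕ) (a : K) (ha : a ∈ spanM R m ^ n) : rees R m :=
  ⟨monomial n a, by
    intro k
    rw [Polynomial.coeff_monomial]
    split_ifs with h
    · subst h; exact ha
    · exact zero_mem _⟩

theorem mon_mem (n : ℕ) (a : K) (ha : a ∈ spanM R m ^ n) : mon R m n a ha ∈ gr R m n := by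
  intro k hk
  show (monomial n a).coeff k = 0
  rw [Polynomial.coeff_monomial, if_neg (Ne.symm hk)]

instance : SetLike.GradedMonoid (gr R m) where
  one_mem := by
    intro k hk
    show (1 : K[X]).coeff k = 0
    rw [Polynomial.coeff_one, if_neg hk]
  mul_mem := by
    intro i j f g hf hg k hk
    show ((f : K[X]) * (g : K[X])).coeff k = 0
    rw [eq_monomial hf, eq_monomial hg, Polynomial.monomial_mul_monomial,
      Polynomial.coeff_monomial, if_neg (Ne.symm hk)]

open DirectSum in
theorem coeff_coe (x : ⨁ n, gr R m n) (n : ℕ) :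
    ((DirectSum.coeAddMonoidHom (gr R m) x : rees R m) : K[X]).coeff n =
      ((x n : rees R m) : K[X]).coeff n := by
  induction x using DirectSum.induction_on with
  | zero => simp
  | of i y =>
    rw [DirectSum.coeAddMonoidHom_of]
    by_cases h : i = n
    · subst h
      rw [DirectSum.of_eq_same]
    · rw [DirectSum.of_eq_of_ne _ _ _ (Ne.symm h)]
      exact y.2 n (Ne.symm h)
  | add x y hx hy =>
    rw [map_add, DirectSum.add_apply, Subalgebra.coe_add, Polynomial.coeff_add, hx, hy]
    simp

theorem isInternal : DirectSum.IsInternal (gr R m) := by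
  constructor
  · intro x y hxy
    ext n k
    by_cases h : k = n
    · subst h
      rw [← coeff_coe, ← coeff_coe, hxy]
    · rw [(x n).2 k h, (y n).2 k h]
  · intro f
    refine ⟨∑ n ∈ (f : K[X]).support,
      DirectSum.of (fun n => gr R m n) n ⟨mon R m n ((f : K[X]).coeff n) (f.2 n), mon_mem _ _ _⟩, ?_⟩
    rw [map_sum]
    apply Subtype.ext
    rw [AddSubmonoidClass.coe_finsetSum]
    conv_rhs => rw [← Polynomial.sum_monomial_eq (f : K[X])]
    rw [Polynomial.sum_def]
    refine Finset.sum_congr rfl fun n _ => ?_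
    rw [DirectSum.coeAddMonoidHom_of]
    rfl

noncomputable instance : GradedAlgebra (gr R m) :=
  { (inferInstance : SetLike.GradedMonoid (gr R m)), isInternal.chooseDecomposition with }

/-! ### Evaluation -/

variable (R m) in
/-- Evaluation at `X = 1`. -/
noncomputable def ev : rees R m →+* K := (Polynomial.evalRingHom (1 : K)).comp (rees R m).val.toRingHom

theorem ev_apply (f : rees R m) : ev R m f = (f : K[X]).eval 1 := rfl

theorem ev_eq_coeff {n : ℕ} {f : rees R m} (hf : f ∈ gr R m n) :
    ev R m f = (f : K[X]).coeff n := by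
  rw [ev_apply, eq_monomial hf]
  simp

theorem eq_zero_of_ev {n : ℕ} {f : rees R m} (hf : f ∈ gr R m n) (h : ev R m f = 0) : f = 0 := by
  apply Subtype.ext
  rw [eq_monomial hf, ← ev_eq_coeff hf, h]
  simp

theorem ev_mon (n : ℕ) (a : K) (ha : a ∈ spanM R m ^ n) : ev R m (mon R m n a ha) = a := by
  rw [ev_eq_coeff (mon_mem n a ha)]
  exact Polynomial.coeff_monomial_same n a

theorem ev_mem {n : ℕ} {f : rees R m} (hf : f ∈ gr R m n) : ev R m f ∈ spanM R m ^ n := by
  rw [ev_eq_coeff hf]
  exact f.2 n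

/-- The map `A_{(f)} → K` that sends `a/fⁿ` to `a(1)/f(1)ⁿ`. -/
noncomputable def phi (f : rees R m) (hf : ev R m f ≠ 0) :
    HomogeneousLocalization.Away (gr R m) f →+* K :=
  (IsLocalization.Away.lift (S := Localization.Away f) f
    (isUnit_iff_ne_zero.mpr hf : IsUnit (ev R m f))).comp
    (algebraMap (HomogeneousLocalization.Away (gr R m) f) (Localization.Away f))

theorem phi_mk {d : ℕ} {f : rees R m} (hf : ev R m f ≠ 0) (hd : f ∈ gr R m d) (n : ℕ)
    (a : rees R m) (ha : a ∈ gr R m (n • d)) :
    phi f hf (HomogeneousLocalization.Away.mk (gr R m) hd n a ha) = ev R m a / ev R m f ^ n := by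
  rw [eq_div_iff (pow_ne_zero _ hf), ← map_pow]
  show IsLocalization.Away.lift (S := Localization.Away f) f
    (isUnit_iff_ne_zero.mpr hf : IsUnit (ev R m f)) (Localization.mk a ⟨f ^ n, _⟩) * _ = _
  have h1 : Localization.mk a (⟨f ^ n, ⟨n, rfl⟩⟩ : Submonoid.powers f) *
    algebraMap (rees R m) (Localization.Away f) (f ^ n) =
      algebraMap (rees R m) (Localization.Away f) a := by
    rw [← Localization.mk_one_eq_algebraMap, ← Localization.mk_one_eq_algebraMap,
      Localization.mk_mul, mul_one]
    exact Localization.mk_eq_mk_iff.mpr (Localization.r_iff_exists.mpr ⟨1, by simp; ring⟩)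
  have h2 := congrArg (IsLocalization.Away.lift (S := Localization.Away f) f
    (isUnit_iff_ne_zero.mpr hf : IsUnit (ev R m f))) h1
  rw [map_mul, IsLocalization.Away.lift_eq, IsLocalization.Away.lift_eq] at h2
  exact h2

theorem phi_awayMap {d e : ℕ} {f g x : rees R m} (hf : ev R m f ≠ 0) (hx : x = f * g)
    (hx' : ev R m x ≠ 0) (hd : f ∈ gr R m d)
    (he : g ∈ gr R m e) (z : HomogeneousLocalization.Away (gr R m) f) :
    phi x hx' (HomogeneousLocalization.awayMap (gr R m) he hx z) = phi f hf z := by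
  obtain ⟨n, a, ha, rfl⟩ := HomogeneousLocalization.Away.mk_surjective (gr R m) hd z
  rw [HomogeneousLocalization.awayMap_mk, phi_mk, phi_mk]
  subst hx
  have hg : ev R m g ≠ 0 := fun h => hx' (by rw [map_mul, h, mul_zero])
  rw [map_mul, map_mul, map_pow, mul_pow]
  field_simp

theorem phi_injective {d : ℕ} {f : rees R m} (hf : ev R m f ≠ 0) (hd : f ∈ gr R m d) :
    Function.Injective (phi f hf) := by
  rw [injective_iff_map_eq_zero]
  intro z hz
  obtain ⟨n, a, ha, rfl⟩ := HomogeneousLocalization.Away.mk_surjective (gr R m) hd z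
  rw [phi_mk, div_eq_zero_iff] at hz
  have h0 : a = 0 := by
    rcases hz with hz | hz
    · exact eq_zero_of_ev ha hz
    · exact absurd hz (pow_ne_zero _ hf)
  subst h0
  ext
  rw [HomogeneousLocalization.Away.val_mk, HomogeneousLocalization.val_zero,
    Localization.mk_zero]

theorem phi_fromZero (f : rees R m) (hf : ev R m f ≠ 0) (a : gr R m 0) :
    phi f hf (HomogeneousLocalization.fromZeroRingHom (gr R m) _ a) = ev R m a := by
  show IsLocalization.Away.lift (S := Localization.Away f) f
    (isUnit_iff_ne_zero.mpr hf : IsUnit (ev R m f)) (Localization.mk (a : rees R m) 1) = _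
  rw [Localization.mk_one_eq_algebraMap, IsLocalization.Away.lift_eq]

/-! ### The generators -/

variable (R m) in
/-- The generator `m j X`. -/
noncomputable def gen (j : J) : rees R m :=
  mon R m 1 (m j) (by rw [pow_one]; exact Submodule.subset_span ⟨j, rfl⟩)

theorem gen_mem (j : J) : gen R m j ∈ gr R m 1 := mon_mem _ _ _

theorem ev_gen (j : J) : ev R m (gen R m j) = m j := ev_mon _ _ _

theorem pow_spanM_le (i : J) (hi : m i ≠ 0) (n : ℕ) (a : K) (ha : a ∈ spanM R m ^ n) :
    a / m i ^ n ∈ chartAlg R m i := by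
  induction n generalizing a with
  | zero =>
    rw [pow_zero] at ha
    rw [pow_zero, div_one]
    obtain ⟨r, hr⟩ := Submodule.mem_one.mp ha
    rw [← hr]
    exact Subalgebra.algebraMap_mem _ r
  | succ n ih =>
    rw [pow_succ] at ha
    induction ha using Submodule.mul_induction_on' with
    | mem_mul_mem b hb c hc =>
      have h1 : b * c / m i ^ (n + 1) = (b / m i ^ n) * (c / m i) := by
        field_simp
        ring
      rw [h1]
      clear h1
      refine Subalgebra.mul_mem _ (ih b hb) ?_
      induction hc using Submodule.span_induction with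
      | mem x hx =>
        obtain ⟨j, rfl⟩ := hx
        exact Algebra.subset_adjoin ⟨j, rfl⟩
      | zero => rw [zero_div]; exact Subalgebra.zero_mem _
      | add x y _ _ hx hy => rw [add_div]; exact Subalgebra.add_mem _ hx hy
      | smul r x _ hx => rw [smul_div_assoc]; exact Subalgebra.smul_mem _ hx r
    | add x _ y _ hx hy => rw [add_div]; exact Subalgebra.add_mem _ hx hy

theorem mem_range_phi (i : J) (hi : m i ≠ 0) (z : K) :
    (∃ y, phi (gen R m i) (by rw [ev_gen]; exact hi) y = z) ↔ z ∈ chartAlg R m i := by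
  have hi' : ev R m (gen R m i) ≠ 0 := by rw [ev_gen]; exact hi
  constructor
  · rintro ⟨z, rfl⟩
    obtain ⟨n, a, ha, rfl⟩ := HomogeneousLocalization.Away.mk_surjective (gr R m) (gen_mem i) z
    rw [phi_mk, ev_gen]
    refine pow_spanM_le i hi n _ ?_
    have := ev_mem ha
    rwa [smul_eq_mul, mul_one] at this
  · intro hz
    induction hz using Algebra.adjoin_induction with
    | mem x hx =>
      obtain ⟨j, rfl⟩ := hx
      refine ⟨HomogeneousLocalization.Away.mk (gr R m) (gen_mem i) 1 (gen R m j) (gen_mem j), ?_⟩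
      rw [phi_mk, ev_gen, ev_gen, pow_one]
    | algebraMap r =>
      refine ⟨HomogeneousLocalization.fromZeroRingHom (gr R m) _ (algebraMap R (gr R m 0) r), ?_⟩
      rw [phi_fromZero]
      show Polynomial.eval 1 (algebraMap R K[X] r) = algebraMap R K r
      rw [Polynomial.algebraMap_apply, Polynomial.eval_C]
    | add x y _ _ hx hy =>
      obtain ⟨a, ha⟩ := hx
      obtain ⟨b, hb⟩ := hy
      exact ⟨a + b, by rw [map_add, ha, hb]⟩
    | mul x y _ _ hx hy =>
      obtain ⟨a, ha⟩ := hx
      obtain ⟨b, hb⟩ := hy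
      exact ⟨a * b, by rw [map_mul, ha, hb]⟩

/-- The isomorphism of `A_{(m i X)}` with the chart algebra. -/
noncomputable def eqv (i : J) (hi : m i ≠ 0) :
    HomogeneousLocalization.Away (gr R m) (gen R m i) →+* chartAlg R m i :=
  (phi (gen R m i) (by rw [ev_gen]; exact hi)).codRestrict (chartAlg R m i)
      (fun z => (mem_range_phi i hi _).mp ⟨z, rfl⟩)

theorem eqv_apply (i : J) (hi : m i ≠ 0)
    (z : HomogeneousLocalization.Away (gr R m) (gen R m i)) :
    (eqv i hi z : K) = phi (gen R m i) (by rw [ev_gen]; exact hi) z := rfl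

theorem eqv_bijective (i : J) (hi : m i ≠ 0) : Function.Bijective (eqv (R := R) i hi) :=
  ⟨fun a b hab => phi_injective (by rw [ev_gen]; exact hi) (gen_mem i)
      (congrArg Subtype.val hab), fun z => by
        obtain ⟨y, hy⟩ := (mem_range_phi i hi z.1).mpr z.2
        exact ⟨y, Subtype.ext hy⟩⟩

/-! ### The irrelevant ideal -/

theorem mem_span_gen {n : ℕ} (hn : 0 < n) (x : rees R m) (hx : x ∈ gr R m n) :
    x ∈ Ideal.span (Set.range (gen R m)) := by
  obtain ⟨n, rfl⟩ : ∃ k, n = k + 1 := ⟨n - 1, by omega⟩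
  have key : ∀ a (ha : a ∈ spanM R m ^ (n + 1)),
      mon R m (n + 1) a ha ∈ Ideal.span (Set.range (gen R m)) := by
    intro a ha
    have ha' := ha
    rw [pow_succ'] at ha'
    induction ha' using Submodule.mul_induction_on' with
    | mem_mul_mem c hc b hb =>
      have hcb : ∀ c ∈ spanM R m, c * b ∈ spanM R m ^ (n + 1) := by
        intro c hc
        rw [pow_succ']
        exact Submodule.mul_mem_mul hc hb
      have : ∀ c (hc : c ∈ spanM R m),
          mon R m (n + 1) (c * b) (hcb c hc) ∈ Ideal.span (Set.range (gen R m)) := by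
        intro c hc
        induction hc using Submodule.span_induction with
        | mem x hx =>
          obtain ⟨j, rfl⟩ := hx
          have h1 : mon R m (n + 1) (m j * b) (hcb _ (Submodule.subset_span ⟨j, rfl⟩)) =
              mon R m n b hb * gen R m j := by
            apply Subtype.ext
            show monomial (n + 1) (m j * b) = monomial n b * monomial 1 (m j)
            rw [Polynomial.monomial_mul_monomial, mul_comm]
          rw [h1]
          exact Ideal.mul_mem_left _ _ (Ideal.subset_span ⟨j, rfl⟩)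
        | zero =>
          have h1 : mon R m (n + 1) (0 * b) (hcb 0 (zero_mem _)) = 0 := by
            apply Subtype.ext
            show monomial (n + 1) (0 * b) = 0
            simp
          rw [h1]
          exact zero_mem _
        | add x y hx hy hx' hy' =>
          have h1 : mon R m (n + 1) ((x + y) * b) (hcb _ (add_mem hx hy)) =
              mon R m (n + 1) (x * b) (hcb _ hx) + mon R m (n + 1) (y * b) (hcb _ hy) := by
            apply Subtype.ext
            show monomial (n + 1) ((x + y) * b) = monomial (n + 1) (x * b) + monomial (n + 1) (y * b)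
            rw [add_mul, map_add]
          rw [h1]
          exact add_mem hx' hy'
        | smul r x hx hx' =>
          have h1 : mon R m (n + 1) ((r • x) * b) (hcb _ (Submodule.smul_mem _ r hx)) =
              algebraMap R (rees R m) r * mon R m (n + 1) (x * b) (hcb _ hx) := by
            apply Subtype.ext
            show monomial (n + 1) ((r • x) * b) = algebraMap R K[X] r * monomial (n + 1) (x * b)
            rw [Polynomial.algebraMap_apply, Polynomial.C_mul_monomial, smul_mul_assoc,
              Algebra.smul_def]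
          rw [h1]
          exact Ideal.mul_mem_left _ _ hx'
      exact this c hc
    | add x hx y hy hx' hy' =>
      rw [← pow_succ'] at hx hy
      have h1 : mon R m (n + 1) (x + y) ha = mon R m (n + 1) x hx + mon R m (n + 1) y hy := by
        apply Subtype.ext
        show monomial (n + 1) (x + y) = monomial (n + 1) x + monomial (n + 1) y
        rw [map_add]
      rw [h1]
      exact add_mem (hx' hx) (hy' hy)
  have h2 : x = mon R m (n + 1) ((x : K[X]).coeff (n + 1)) (x.2 _) :=
    Subtype.ext (eq_monomial hx)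
  rw [h2]
  exact key _ _

theorem irrelevant_le :
    (HomogeneousIdeal.irrelevant (gr R m)).toIdeal ≤ Ideal.span (Set.range (gen R m)) := by
  rw [HomogeneousIdeal.toIdeal_irrelevant_le]
  intro n hn x hx
  exact mem_span_gen hn x hx

end algebra

section geometry

variable (R : Type) [CommRing R] {K : Type} [Field K] [Algebra R K] {J : Type} (m : J → K)

/-- The chart. -/
noncomputable def iota (hm : ∀ j, m j ≠ 0) (i : J) :
    Spec (.of (chartAlg R m i)) ⟶ Proj (gr R m) :=
  Spec.map (CommRingCat.ofHom (eqv i (hm i))) ≫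
    Proj.awayι (gr R m) (gen R m i) (gen_mem i) one_pos

/-- The structure morphism. -/
noncomputable def str : Proj (gr R m) ⟶ Spec (.of R) :=
  Proj.toSpecZero (gr R m) ≫ Spec.map (CommRingCat.ofHom (algebraMap R (gr R m 0)))

theorem isIso_SpecMap_eqv (hm : ∀ j, m j ≠ 0) (i : J) :
    IsIso (Spec.map (CommRingCat.ofHom (eqv (R := R) i (hm i)))) := by
  have : IsIso (CommRingCat.ofHom (eqv (R := R) i (hm i))) :=
    (ConcreteCategory.isIso_iff_bijective _).mpr (eqv_bijective i (hm i))
  infer_instance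

theorem openImm (hm : ∀ j, m j ≠ 0) (i : J) : IsOpenImmersion (iota R m hm i) := by
  have := isIso_SpecMap_eqv R m hm i
  unfold iota
  infer_instance

theorem iota_str (hm : ∀ j, m j ≠ 0) (i : J) :
    iota R m hm i ≫ str R m = Spec.map (CommRingCat.ofHom (algebraMap R (chartAlg R m i))) := by
  unfold iota str
  rw [Category.assoc, Proj.awayι_toSpecZero_assoc, ← Spec.map_comp, ← Spec.map_comp,
    ← CommRingCat.ofHom_comp, ← CommRingCat.ofHom_comp]
  congr 2
  ext r
  show (eqv i (hm i) (HomogeneousLocalization.fromZeroRingHom (gr R m) _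
    (algebraMap R (gr R m 0) r)) : K) = algebraMap R K r
  rw [eqv_apply, phi_fromZero]
  show Polynomial.eval 1 (algebraMap R K[X] r) = algebraMap R K r
  rw [Polynomial.algebraMap_apply, Polynomial.eval_C]

theorem opensRange_iota (hm : ∀ j, m j ≠ 0) (i : J) :
    Set.range (iota R m hm i) = (Proj.basicOpen (gr R m) (gen R m i) : Set (Proj (gr R m))) := by
  have := isIso_SpecMap_eqv R m hm i
  have h := Scheme.Hom.opensRange_comp_of_isIso (Spec.map (CommRingCat.ofHom
    (eqv (R := R) i (hm i)))) (Proj.awayι (gr R m) (gen R m i) (gen_mem i) one_pos)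
  rw [Proj.opensRange_awayι] at h
  exact congrArg (fun U : (Proj (gr R m)).Opens => (U : Set (Proj (gr R m)))) h

theorem exists_basicOpen (x : Proj (gr R m)) :
    ∃ k, x ∈ Proj.basicOpen (gr R m) (gen R m k) := by
  have h := Proj.iSup_basicOpen_eq_top (gr R m) (gen R m) irrelevant_le
  have hx : x ∈ (⊤ : (Proj (gr R m)).Opens) := trivial
  rw [← h] at hx
  exact TopologicalSpace.Opens.mem_iSup.mp hx

theorem cover (hm : ∀ j, m j ≠ 0) (I₀ : Set J)
    (hval : ∀ V : ValuationSubring K, (∀ r : R, algebraMap R K r ∈ V) →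
      ∃ i ∈ I₀, ∀ j, m j / m i ∈ V) (x : Proj (gr R m)) :
    ∃ i ∈ I₀, x ∈ Set.range (iota R m hm i) := by
  obtain ⟨k, hk⟩ := exists_basicOpen R m x
  have hx : x ∈ Set.range (iota R m hm k) := by
    rw [opensRange_iota]; exact hk
  obtain ⟨p, rfl⟩ := hx
  -- a valuation ring dominating the chart at `p`
  have hp : p.asIdeal ≠ ⊤ := p.isPrime.ne_top
  obtain ⟨V, hV, hV'⟩ := Ideal.image_subset_nonunits_valuationSubring
    (A := (chartAlg R m k).toSubring) p.asIdeal hp
  obtain ⟨i, hi, hij⟩ := hval V (fun r => hV (Subalgebra.algebraMap_mem (chartAlg R m k) r))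
  refine ⟨i, hi, ?_⟩
  have hik : m i / m k ∈ chartAlg R m k := Algebra.subset_adjoin ⟨i, rfl⟩
  have hnot : (⟨m i / m k, hik⟩ : chartAlg R m k) ∉ p.asIdeal := by
    intro hmem
    have h1 : m i / m k ∈ V.nonunits := hV' ⟨⟨m i / m k, hik⟩, hmem, rfl⟩
    have h2 : m i / m k ∈ V := hV hik
    have h3 : (m i / m k)⁻¹ ∈ V := by
      rw [inv_div]; exact hij k
    rw [ValuationSubring.mem_nonunits_iff_exists_mem_maximalIdeal] at h1
    obtain ⟨h4, h5⟩ := h1
    apply h5
    refine IsUnit.of_mul_eq_one ⟨(m i / m k)⁻¹, h3⟩ ?_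
    apply Subtype.ext
    exact mul_inv_cancel₀ (div_ne_zero (hm i) (hm k))
  rw [opensRange_iota]
  have h6 : iota R m hm k p = Proj.awayι (gr R m) (gen R m k) (gen_mem k) one_pos
      (Spec.map (CommRingCat.ofHom (eqv (R := R) k (hm k))) p) := rfl
  rw [h6]
  have h7 : (Spec.map (CommRingCat.ofHom (eqv (R := R) k (hm k))) p) ∈
      Proj.awayι (gr R m) (gen R m k) (gen_mem k) one_pos ⁻¹ᵁ
        Proj.basicOpen (gr R m) (gen R m i) := by
    rw [Proj.awayι_preimage_basicOpen (gr R m) (gen_mem k) one_pos (gen_mem i) one_pos]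
    have h8 : eqv (R := R) k (hm k) (HomogeneousLocalization.Away.isLocalizationElem
        (gen_mem k) (gen_mem i)) = ⟨m i / m k, hik⟩ := by
      apply Subtype.ext
      rw [eqv_apply]
      unfold HomogeneousLocalization.Away.isLocalizationElem
      rw [phi_mk, ev_gen, map_pow, ev_gen, pow_one, pow_one]
    intro h9
    apply hnot
    rw [← h8]
    exact h9
  exact h7

theorem compat (hm : ∀ j, m j ≠ 0) (i j : J) (B : Subalgebra R K)
    (hi : chartAlg R m i ≤ B) (hj : chartAlg R m j ≤ B) :
    Spec.map (CommRingCat.ofHom (Subalgebra.inclusion hi).toRingHom) ≫ iota R m hm i =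
      Spec.map (CommRingCat.ofHom (Subalgebra.inclusion hj).toRingHom) ≫ iota R m hm j := by
  -- the intersection of the two charts
  have hx : ev R m (gen R m i * gen R m j) ≠ 0 := by
    rw [map_mul, ev_gen, ev_gen]
    exact mul_ne_zero (hm i) (hm j)
  have hd : gen R m i * gen R m j ∈ gr R m (1 + 1) :=
    SetLike.mul_mem_graded (gen_mem i) (gen_mem j)
  have hB : ∀ z, phi (gen R m i * gen R m j) hx z ∈ B := by
    intro z
    obtain ⟨n, a, ha, rfl⟩ := HomogeneousLocalization.Away.mk_surjective (gr R m) hd z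
    rw [phi_mk, map_mul, ev_gen, ev_gen]
    have h1 := ev_mem ha
    have h2 := pow_spanM_le i (hm i) _ _ h1
    have h3 : ev R m a / (m i * m j) ^ n = ev R m a / m i ^ (n • (1 + 1)) * (m i / m j) ^ n := by
      have h4 := hm i
      have h5 := hm j
      rw [smul_eq_mul, mul_pow, div_pow, mul_comm n (1 + 1), pow_mul]
      have h6 : m i ^ n ≠ 0 := pow_ne_zero _ h4
      have h7 : m j ^ n ≠ 0 := pow_ne_zero _ h5
      have h8 : (m i ^ (1 + 1)) ^ n = m i ^ n * m i ^ n := by
        rw [← pow_mul, ← pow_add]; congr 1; ring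
      rw [h8]
      field_simp
    rw [h3]
    exact Subalgebra.mul_mem _ (hi h2)
      (Subalgebra.pow_mem _ (hj (Algebra.subset_adjoin ⟨i, rfl⟩)) n)
  let ψ : HomogeneousLocalization.Away (gr R m) (gen R m i * gen R m j) →+* B :=
    (phi (gen R m i * gen R m j) hx).codRestrict B hB
  have h1 : (Subalgebra.inclusion hi).toRingHom.comp (eqv (R := R) i (hm i)) =
      ψ.comp (HomogeneousLocalization.awayMap (gr R m) (gen_mem j) rfl) := by
    ext z
    show phi _ _ z = phi _ _ _
    rw [phi_awayMap _ _ _ (gen_mem i)]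
  have h2 : (Subalgebra.inclusion hj).toRingHom.comp (eqv (R := R) j (hm j)) =
      ψ.comp (HomogeneousLocalization.awayMap (gr R m) (gen_mem i) (mul_comm _ _)) := by
    ext z
    show phi _ _ z = phi _ _ _
    rw [phi_awayMap _ _ _ (gen_mem j)]
  unfold iota
  rw [← Spec.map_comp_assoc, ← Spec.map_comp_assoc, ← CommRingCat.ofHom_comp,
    ← CommRingCat.ofHom_comp, h1, h2, CommRingCat.ofHom_comp, CommRingCat.ofHom_comp,
    Spec.map_comp_assoc, Spec.map_comp_assoc, Proj.SpecMap_awayMap_awayι,
    Proj.SpecMap_awayMap_awayι]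

end geometry

section proj

open MvPolynomial (homogeneousSubmodule)

attribute [local instance] MvPolynomial.gradedAlgebra

variable (R : Type) [CommRing R] {K : Type} [Field K] [Algebra R K] {J : Type} (m : J → K)
  {n : ℕ} (e : Fin (n + 1) → J)

/-- The map from the polynomial ring to the graded algebra. -/
noncomputable def homZ : MvPolynomial (Fin (n + 1)) ℤ →+* rees R m :=
  MvPolynomial.eval₂Hom (Int.castRingHom _) (fun k => gen R m (e k))

theorem homZ_X (k : Fin (n + 1)) : homZ R m e (MvPolynomial.X k) = gen R m (e k) :=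
  MvPolynomial.eval₂Hom_X' _ _ _

theorem homZ_mem {d : ℕ} {x : MvPolynomial (Fin (n + 1)) ℤ}
    (hx : x ∈ homogeneousSubmodule (Fin (n + 1)) ℤ d) : homZ R m e x ∈ gr R m d := by
  rw [MvPolynomial.as_sum x, map_sum]
  refine Submodule.sum_mem _ fun s hs => ?_
  have hs' : Finsupp.degree s = d := by
    rw [MvPolynomial.mem_homogeneousSubmodule] at hx
    have := hx (MvPolynomial.mem_support_iff.mp hs)
    rw [Finsupp.degree_eq_weight_one]
    exact this
  have h1 : homZ R m e (MvPolynomial.monomial s (MvPolynomial.coeff s x)) =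
      (MvPolynomial.coeff s x) • ∏ k ∈ s.support, gen R m (e k) ^ s k := by
    unfold homZ
    rw [MvPolynomial.eval₂Hom_monomial, zsmul_eq_mul]
    rfl
  rw [h1]
  refine zsmul_mem ?_ _
  have h2 := SetLike.prod_pow_mem_graded (gr R m) (fun _ => 1) (fun k => gen R m (e k)) s
    (F := s.support) (fun k _ => gen_mem (e k))
  have h3 : ∑ k ∈ s.support, s k • 1 = d := by
    rw [← hs', Finsupp.degree_apply]
    simp
  rw [h3] at h2
  exact h2

/-- The map from the polynomial ring to the graded algebra, as a graded homomorphism. -/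
noncomputable def ghom : GradedRingHom (homogeneousSubmodule (Fin (n + 1)) ℤ) (gr R m) where
  __ := homZ R m e
  map_mem := homZ_mem R m e

theorem ghom_X (k : Fin (n + 1)) : ghom R m e (MvPolynomial.X k) = gen R m (e k) :=
  homZ_X R m e k

theorem X_mem (k : Fin (n + 1)) :
    (MvPolynomial.X k : MvPolynomial (Fin (n + 1)) ℤ) ∈ homogeneousSubmodule (Fin (n + 1)) ℤ 1 :=
  MvPolynomial.isHomogeneous_X ℤ k

theorem irrelevant_le_map (he : Function.Surjective e) :
    HomogeneousIdeal.irrelevant (gr R m) ≤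
      (HomogeneousIdeal.irrelevant (homogeneousSubmodule (Fin (n + 1)) ℤ)).map (ghom R m e) := by
  show (HomogeneousIdeal.irrelevant (gr R m)).toIdeal ≤ Ideal.map (ghom R m e)
    (HomogeneousIdeal.irrelevant (homogeneousSubmodule (Fin (n + 1)) ℤ)).toIdeal
  refine irrelevant_le.trans ?_
  rw [Ideal.span_le]
  rintro _ ⟨j, rfl⟩
  obtain ⟨k, rfl⟩ := he j
  rw [← ghom_X]
  exact Ideal.mem_map_of_mem _ (HomogeneousIdeal.mem_irrelevant_of_mem _ one_pos (X_mem k))

/-- The map to projective space over `ℤ`. -/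
noncomputable def toPP (he : Function.Surjective e) : Proj (gr R m) ⟶ PP n :=
  Proj.map (ghom R m e) (irrelevant_le_map R m e he)

/-- The map to projective space over `R`. -/
noncomputable def toPPR (he : Function.Surjective e) :
    Proj (gr R m) ⟶ pullback (terminal.from (Spec (.of R))) (terminal.from (PP n)) :=
  pullback.lift (str R m) (toPP R m e he) (Subsingleton.elim _ _)

theorem surj_aux (i : J) (hi : m i ≠ 0) (f : rees R m) (hf : f = gen R m i)
    (hf' : ev R m f ≠ 0)
    (S' : Subring (HomogeneousLocalization.Away (gr R m) f))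
    (h1 : ∀ r : R, HomogeneousLocalization.fromZeroRingHom (gr R m) _
      (algebraMap R (gr R m 0) r) ∈ S')
    (h2 : ∀ j, ∃ z ∈ S', phi f hf' z = m j / m i) : S' = ⊤ := by
  subst hf
  rw [eq_top_iff]
  intro z _
  have h3 : ∀ x ∈ chartAlg R m i, ∃ s ∈ S', phi (gen R m i) hf' s = x := by
    intro x hx
    induction hx using Algebra.adjoin_induction with
    | mem x hx =>
      obtain ⟨j, rfl⟩ := hx
      exact h2 j
    | algebraMap r =>
      refine ⟨_, h1 r, ?_⟩
      rw [phi_fromZero]
      show Polynomial.eval 1 (algebraMap R K[X] r) = algebraMap R K r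
      rw [Polynomial.algebraMap_apply, Polynomial.eval_C]
    | add x y _ _ hx hy =>
      obtain ⟨a, ha, ha'⟩ := hx
      obtain ⟨b, hb, hb'⟩ := hy
      exact ⟨a + b, add_mem ha hb, by rw [map_add, ha', hb']⟩
    | mul x y _ _ hx hy =>
      obtain ⟨a, ha, ha'⟩ := hx
      obtain ⟨b, hb, hb'⟩ := hy
      exact ⟨a * b, mul_mem ha hb, by rw [map_mul, ha', hb']⟩
  obtain ⟨s, hs, hs'⟩ := h3 _ ((mem_range_phi i hi _).mp ⟨z, rfl⟩)
  have h4 := phi_injective hf' (gen_mem i) hs'
  rw [← h4]
  exact hs

theorem isClosedImmersion_of_gen {B R₁ R₂ : Type} [CommRing B] [CommRing R₁] [CommRing R₂]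
    {W : Scheme.{0}} [IsAffine W] (q : Spec (.of B) ⟶ W) (φ₁ : R₁ →+* B) (φ₂ : R₂ →+* B)
    (g₁ : W ⟶ Spec (.of R₁)) (g₂ : W ⟶ Spec (.of R₂))
    (h₁ : q ≫ g₁ = Spec.map (CommRingCat.ofHom φ₁))
    (h₂ : q ≫ g₂ = Spec.map (CommRingCat.ofHom φ₂))
    (hgen : ∀ S : Subring B, (∀ r, φ₁ r ∈ S) → (∀ r, φ₂ r ∈ S) → S = ⊤) :
    IsClosedImmersion q := by
  apply IsClosedImmersion.of_surjective_of_isAffine
  have key : ∀ {R₁ : Type} [CommRing R₁] (φ₁ : R₁ →+* B) (g₁ : W ⟶ Spec (.of R₁))
      (h₁ : q ≫ g₁ = Spec.map (CommRingCat.ofHom φ₁)) (r : R₁),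
      (Scheme.ΓSpecIso (.of B)).inv (φ₁ r) ∈ q.appTop.hom.range := by
    intro R₁ _ φ₁ g₁ h₁ r
    refine ⟨g₁.appTop ((Scheme.ΓSpecIso (.of R₁)).inv r), ?_⟩
    have h3 : g₁.appTop ≫ q.appTop = (Spec.map (CommRingCat.ofHom φ₁)).appTop := by
      rw [← h₁, Scheme.Hom.comp_appTop]
    have h4 := Scheme.ΓSpecIso_inv_naturality (CommRingCat.ofHom φ₁)
    rw [← h3] at h4
    exact (congrArg (fun f => f.hom r) h4).symm
  have hS := hgen (q.appTop.hom.range.comap (Scheme.ΓSpecIso (.of B)).inv.hom)
    (key φ₁ g₁ h₁) (key φ₂ g₂ h₂)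
  intro z
  have h5 : (Scheme.ΓSpecIso (.of B)).hom z ∈
      q.appTop.hom.range.comap (Scheme.ΓSpecIso (.of B)).inv.hom := by
    rw [hS]; trivial
  have h6 : (Scheme.ΓSpecIso (.of B)).inv ((Scheme.ΓSpecIso (.of B)).hom z) = z := by
    have := (Scheme.ΓSpecIso (.of B)).hom_inv_id
    exact congrArg (fun f => f.hom z) this
  obtain ⟨y, hy⟩ := h5
  exact ⟨y, hy.trans h6⟩

theorem irrelevant_le_X :
    (HomogeneousIdeal.irrelevant (homogeneousSubmodule (Fin (n + 1)) ℤ)).toIdeal ≤
      Ideal.span (Set.range (fun k => (MvPolynomial.X k : MvPolynomial (Fin (n + 1)) ℤ))) := by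
  rw [HomogeneousIdeal.toIdeal_irrelevant_le]
  intro d hd x hx
  show x ∈ Ideal.span (Set.range (fun k => (MvPolynomial.X k : MvPolynomial (Fin (n + 1)) ℤ)))
  rw [← Set.image_univ, MvPolynomial.mem_ideal_span_X_image]
  intro s hs
  by_contra hcon
  push Not at hcon
  have hx' : x ∈ homogeneousSubmodule (Fin (n + 1)) ℤ d := hx
  rw [MvPolynomial.mem_homogeneousSubmodule] at hx'
  have h1 := hx' (MvPolynomial.mem_support_iff.mp hs)
  have h2 : s = 0 := by
    ext k
    exact hcon k trivial
  rw [h2, map_zero] at h1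
  omega

/-- The map of the charts. -/
noncomputable def awayX (k : Fin (n + 1)) :
    HomogeneousLocalization.Away (homogeneousSubmodule (Fin (n + 1)) ℤ) (MvPolynomial.X k) →+*
      HomogeneousLocalization.Away (gr R m) (ghom R m e (MvPolynomial.X k)) :=
  HomogeneousLocalization.Away.map (ghom R m e) (MvPolynomial.X k)

variable (n) in
/-- The charts of projective space. -/
noncomputable def awayPP (k : Fin (n + 1)) :
    Spec (.of (HomogeneousLocalization.Away (homogeneousSubmodule (Fin (n + 1)) ℤ)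
      (MvPolynomial.X k))) ⟶ PP n :=
  Proj.awayι (homogeneousSubmodule (Fin (n + 1)) ℤ) (MvPolynomial.X k) (X_mem k) one_pos

variable (n) in
/-- The cover of projective space by its charts. -/
noncomputable def coverPP : (PP n).OpenCover :=
  (Proj.affineOpenCoverOfIrrelevantLESpan
    (homogeneousSubmodule (Fin (n + 1)) ℤ) (fun k => MvPolynomial.X k) X_mem
    (fun _ => one_pos) irrelevant_le_X).openCover

theorem isPullback_chart (he : Function.Surjective e) (k : Fin (n + 1)) :
    IsPullback (Spec.map (CommRingCat.ofHom (awayX R m e k)))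
      (Proj.awayι (gr R m) (ghom R m e (MvPolynomial.X k)) ((ghom R m e).2 (X_mem k)) one_pos)
      (awayPP n k) (toPP R m e he) := by
  have h1 : IsOpenImmersion (awayPP n k) := inferInstanceAs (IsOpenImmersion
    (Proj.awayι (homogeneousSubmodule (Fin (n + 1)) ℤ) (MvPolynomial.X k) (X_mem k) one_pos))
  apply IsOpenImmersion.isPullback
  · exact Proj.awayι_comp_map _ _ one_pos _ _
  · have h2 : (awayPP n k).opensRange = Proj.basicOpen (homogeneousSubmodule (Fin (n + 1)) ℤ)
        (MvPolynomial.X k) := Proj.opensRange_awayι _ _ (X_mem k) one_pos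
    rw [Proj.opensRange_awayι, h2]
    rfl

theorem gen_chart (he : Function.Surjective e) (hm : ∀ j, m j ≠ 0) (k : Fin (n + 1))
    (S : Subring (HomogeneousLocalization.Away (gr R m) (ghom R m e (MvPolynomial.X k))))
    (h1 : ∀ r : R, HomogeneousLocalization.fromZeroRingHom (gr R m) _
      (algebraMap R (gr R m 0) r) ∈ S)
    (h2 : ∀ r, awayX R m e k r ∈ S) : S = ⊤ := by
  have hne : ev R m (ghom R m e (MvPolynomial.X k)) ≠ 0 := by
    rw [ghom_X, ev_gen]
    exact hm _
  refine surj_aux R m (e k) (hm _) _ (ghom_X R m e k) hne S h1 ?_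
  intro j
  obtain ⟨l, rfl⟩ := he j
  refine ⟨awayX R m e k (HomogeneousLocalization.Away.mk
    (homogeneousSubmodule (Fin (n + 1)) ℤ) (X_mem k) 1 (MvPolynomial.X l) (X_mem l)), h2 _, ?_⟩
  have h3 : awayX R m e k (HomogeneousLocalization.Away.mk
      (homogeneousSubmodule (Fin (n + 1)) ℤ) (X_mem k) 1 (MvPolynomial.X l) (X_mem l)) =
      HomogeneousLocalization.Away.mk (gr R m) ((ghom R m e).2 (X_mem k)) 1
        (ghom R m e (MvPolynomial.X l)) ((ghom R m e).2 (X_mem l)) := by
    unfold awayX
    exact HomogeneousLocalization.Away.map_mk (ghom R m e) (MvPolynomial.X k) (X_mem k) 1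
      (MvPolynomial.X l) (X_mem l)
  rw [h3, phi_mk, ghom_X, ghom_X, ev_gen, ev_gen, pow_one]

theorem awayι_str (f : rees R m) {d : ℕ} (hf : f ∈ gr R m d) (hd : 0 < d) :
    Proj.awayι (gr R m) f hf hd ≫ str R m =
      Spec.map (CommRingCat.ofHom ((HomogeneousLocalization.fromZeroRingHom (gr R m) _).comp
        (algebraMap R (gr R m 0)))) := by
  unfold str
  rw [Proj.awayι_toSpecZero_assoc, ← Spec.map_comp, ← CommRingCat.ofHom_comp]

theorem closed_chart {X P Y U A : Scheme.{0}} (F : X ⟶ P) (g : P ⟶ Y) (b : U ⟶ Y) (a : A ⟶ X)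
    (c : A ⟶ U) (big : IsPullback c a b (F ≫ g)) (hw : (a ≫ F) ≫ g = c ≫ b)
    (hq : IsClosedImmersion (pullback.lift (a ≫ F) c hw)) :
    IsClosedImmersion (pullback.snd F (pullback.fst g b)) := by
  have h1 : IsPullback (pullback.lift (a ≫ F) c hw) a (pullback.fst g b) F := by
    refine IsPullback.of_right (h₁₂ := pullback.snd _ _) (h₂₂ := g)
      (v₁₃ := b) ?_ (pullback.lift_fst _ _ _) (IsPullback.of_hasPullback _ _).flip
    rw [pullback.lift_snd]
    exact big
  rw [← h1.flip.isoPullback_inv_snd]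
  infer_instance

theorem isClosedImmersion_of_cover {X P Y : Scheme.{0}} (F : X ⟶ P) (g : P ⟶ Y)
    (𝒰 : Y.OpenCover) (h : ∀ k, IsClosedImmersion (pullback.snd F (pullback.fst g (𝒰.f k)))) :
    IsClosedImmersion F := by
  have h' : ∀ k, IsClosedImmersion (Scheme.Cover.pullbackHom (𝒰.pullback₁ g) F k) := h
  exact IsZariskiLocalAtTarget.of_openCover _ h'

set_option backward.isDefEq.respectTransparency.types false in
theorem isAffineHom_snd {X Y T : Scheme.{0}} (t : X ⟶ T) (t' : Y ⟶ T) (h : IsAffineHom t) :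
    IsAffineHom (pullback.snd t t') :=
  MorphismProperty.pullback_snd _ _ h

theorem isClosedImmersion_q {B R₁ R₂ : Type} [CommRing B] [CommRing R₁] [CommRing R₂]
    {Y T : Scheme.{0}} [IsAffine T] (b : Spec (.of R₂) ⟶ Y) (t : Spec (.of R₁) ⟶ T) (t' : Y ⟶ T)
    (α : Spec (.of B) ⟶ pullback t t') (φ₁ : R₁ →+* B) (φ₂ : R₂ →+* B)
    (h₁ : α ≫ pullback.fst t t' = Spec.map (CommRingCat.ofHom φ₁))
    (h₂ : α ≫ pullback.snd t t' = Spec.map (CommRingCat.ofHom φ₂) ≫ b)
    (hgen : ∀ S : Subring B, (∀ r, φ₁ r ∈ S) → (∀ r, φ₂ r ∈ S) → S = ⊤) :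
    IsClosedImmersion (pullback.lift α (Spec.map (CommRingCat.ofHom φ₂)) h₂) := by
  have hW : IsAffine (pullback (pullback.snd t t') b) :=
    have h3 : IsAffineHom t := isAffineHom_of_isAffine t
    have h4 : IsAffineHom (pullback.snd t t') := isAffineHom_snd _ _ h3
    have h5 : IsAffineHom (pullback.snd (pullback.snd t t') b) := isAffineHom_snd _ _ h4
    isAffine_of_isAffineHom (pullback.snd (pullback.snd t t') b)
  refine isClosedImmersion_of_gen _ φ₁ φ₂ (pullback.fst _ _ ≫ pullback.fst _ _)
    (pullback.snd _ _) ?_ ?_ hgen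
  · rw [pullback.lift_fst_assoc]
    exact h₁
  · exact pullback.lift_snd _ _ _

theorem isClosedImmersion_toPPR (hm : ∀ j, m j ≠ 0) (he : Function.Surjective e) :
    IsClosedImmersion (toPPR R m e he) := by
  refine isClosedImmersion_of_cover _ (pullback.snd (terminal.from (Spec (.of R)))
    (terminal.from (PP n))) (coverPP n) fun k => ?_
  have big := isPullback_chart R m e he k
  have hw : (Proj.awayι (gr R m) (ghom R m e (MvPolynomial.X k)) ((ghom R m e).2 (X_mem k))
        one_pos ≫ toPPR R m e he) ≫ pullback.snd (terminal.from (Spec (.of R)))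
        (terminal.from (PP n)) = Spec.map (CommRingCat.ofHom (awayX R m e k)) ≫ awayPP n k := by
    rw [Category.assoc]
    unfold toPPR
    rw [pullback.lift_snd]
    exact big.w.symm
  refine closed_chart (toPPR R m e he) _ (awayPP n k)
    (Proj.awayι (gr R m) (ghom R m e (MvPolynomial.X k))
    ((ghom R m e).2 (X_mem k)) one_pos) (Spec.map (CommRingCat.ofHom (awayX R m e k))) ?_ hw ?_
  · unfold toPPR
    rw [pullback.lift_snd]
    exact big
  · refine isClosedImmersion_q (awayPP n k) _ _ _
      ((HomogeneousLocalization.fromZeroRingHom (gr R m) _).comp (algebraMap R (gr R m 0)))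
      (awayX R m e k) ?_ hw ?_
    · rw [Category.assoc]
      unfold toPPR
      rw [pullback.lift_fst]
      exact awayι_str R m _ _ _
    · intro S h1 h2
      exact gen_chart R m e he hm k S h1 h2

end proj

end ModP

/-! ### Module P (Proj model) -/

theorem nonempty_projModel (R : Type) [CommRing R] {K : Type} [Field K] [Algebra R K] {J : Type}
    [Finite J] (m : J → K) (hm : ∀ j, m j ≠ 0) (I₀ : Set J)
    (hval : ∀ V : ValuationSubring K, (∀ r : R, algebraMap R K r ∈ V) →
      ∃ i ∈ I₀, ∀ j, m j / m i ∈ V) : Nonempty (ProjModel R m I₀) := by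
  obtain ⟨i₀, -, -⟩ := hval ⊤ (fun _ => trivial)
  have hJ : Nonempty J := ⟨i₀⟩
  obtain ⟨n, ⟨e⟩⟩ : ∃ n, Nonempty (Fin (n + 1) ≃ J) := by
    have h0 : Nat.card J ≠ 0 := Nat.card_pos.ne'
    refine ⟨Nat.card J - 1, ⟨?_⟩⟩
    rw [show Nat.card J - 1 + 1 = Nat.card J by omega]
    exact (Finite.equivFin J).symm
  exact ⟨{
    X := Proj (ModP.gr R m)
    π := ModP.str R m
    ι := ModP.iota R m hm
    proj := ⟨n, ModP.toPPR R m e e.surjective,
      ModP.isClosedImmersion_toPPR R m e hm e.surjective, pullback.lift_fst _ _ _⟩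
    openImm := ModP.openImm R m hm
    ι_π := ModP.iota_str R m hm
    cover := ModP.cover R m hm I₀ hval
    compat := ModP.compat R m hm }⟩

end Pool.Agent.H16
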