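import Pool.Agent.H16.Irr.ChartDefs

/-!
# Module Q: integrality and smoothness of the total space from its charts
-/

open AlgebraicGeometry CategoryTheory CategoryTheory.Limits Polynomial

namespace Pool.Agent.H16

namespace ModQ

variable {R : Type} [CommRing R] {K : Type} [Field K] [Algebra R K] {J : Type} {m : J → K}
  {I₀ : Set J}

theorem surj (M : ProjModel R m I₀) (x : M.X) : ∃ (i : I₀) (y : _), M.ι i y = x := by
  obtain ⟨i, hi, y, hy⟩ := M.cover x
  exact ⟨⟨i, hi⟩, y, hy⟩

theorem isReduced_X (M : ProjModel R m I₀) : IsReduced M.X := by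
  have : ∀ z : M.X, _root_.IsReduced (M.X.presheaf.stalk z) := by
    intro z
    obtain ⟨i, y, rfl⟩ := surj M z
    have := M.openImm i
    have h1 : _root_.IsReduced ((Spec (.of (chartAlg R m i))).presheaf.stalk y) := inferInstance
    exact isReduced_of_injective ((M.ι i).stalkMap y).hom
      (ConcreteCategory.bijective_of_isIso ((M.ι i).stalkMap y)).1
  exact isReduced_of_isReduced_stalk M.X

theorem comap_bot (i : J) (B : Subalgebra R K) (hi : chartAlg R m i ≤ B) :
    Spec.map (CommRingCat.ofHom (Subalgebra.inclusion hi).toRingHom)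
      (⊥ : PrimeSpectrum B) = (⊥ : PrimeSpectrum (chartAlg R m i)) := by
  apply PrimeSpectrum.ext
  change Ideal.comap (Subalgebra.inclusion hi).toRingHom ⊥ = ⊥
  rw [← RingHom.ker_eq_comap_bot]
  exact (RingHom.injective_iff_ker_eq_bot _).1 (Subalgebra.inclusion_injective hi)

theorem generic_eq (M : ProjModel R m I₀) (i j : J) :
    M.ι i (⊥ : PrimeSpectrum (chartAlg R m i)) = M.ι j (⊥ : PrimeSpectrum (chartAlg R m j)) := by
  have h := M.compat i j ⊤ le_top le_top
  have h2 : ∀ p : Spec (.of (⊤ : Subalgebra R K)),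
      M.ι i (Spec.map (CommRingCat.ofHom (Subalgebra.inclusion
        (le_top : chartAlg R m i ≤ ⊤)).toRingHom) p) =
      M.ι j (Spec.map (CommRingCat.ofHom (Subalgebra.inclusion
        (le_top : chartAlg R m j ≤ ⊤)).toRingHom) p) := by
    intro p
    rw [← Scheme.Hom.comp_apply, ← Scheme.Hom.comp_apply, h]
  have h3 := h2 (⊥ : PrimeSpectrum (⊤ : Subalgebra R K))
  have h4 := comap_bot (m := m) i (⊤ : Subalgebra R K) le_top
  have h5 := comap_bot (m := m) j (⊤ : Subalgebra R K) le_top
  exact ((congrArg (M.ι i) h4).symm.trans h3).trans (congrArg (M.ι j) h5)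

theorem exists_generic (M : ProjModel R m I₀) (i₀ : J) (z : M.X) :
    M.ι i₀ (⊥ : PrimeSpectrum (chartAlg R m i₀)) ⤳ z := by
  obtain ⟨i, y, rfl⟩ := surj M z
  rw [generic_eq M i₀ i]
  have h1 : (⊥ : PrimeSpectrum (chartAlg R m i)) ⤳ y := by
    exact (PrimeSpectrum.le_iff_specializes (R := chartAlg R m i) ⊥ y).1 bot_le
  exact h1.map (M.ι i).continuous

end ModQ

open ModQ

theorem ProjModel.isIntegral_X {R : Type} [CommRing R] {K : Type} [Field K] [Algebra R K]
    {J : Type} {m : J → K} {I₀ : Set J} (M : ProjModel R m I₀) (hI : I₀.Nonempty) :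
    IsIntegral M.X := by
  have h1 : IsReduced M.X := isReduced_X M
  have h2 : IrreducibleSpace M.X := by
    obtain ⟨i₀, -⟩ := hI
    have h : closure {M.ι i₀ (⊥ : PrimeSpectrum (chartAlg R m i₀))} =
        (Set.univ : Set M.X) := by
      rw [Set.eq_univ_iff_forall]
      intro z
      exact (exists_generic M i₀ z).mem_closure
    have h2 : IsIrreducible (Set.univ : Set M.X) := by
      rw [← h]
      exact isIrreducible_singleton.closure
    rw [irreducibleSpace_def]
    exact h2
  exact isIntegral_of_irreducibleSpace_of_isReduced M.X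

theorem ProjModel.smooth_π {R : Type} [CommRing R] {K : Type} [Field K] [Algebra R K]
    {J : Type} {m : J → K} {I₀ : Set J} (M : ProjModel R m I₀) (n : ℕ)
    (h : ∀ i ∈ I₀, SmoothOfRelativeDimension n
      (Spec.map (CommRingCat.ofHom (algebraMap R (chartAlg R m i))))) :
    SmoothOfRelativeDimension n M.π := by
  let 𝒰 : M.X.OpenCover :=
    { I₀ := I₀
      X := fun i => Spec (.of (chartAlg R m i))
      f := fun i => M.ι i
      mem₀ := by
        rw [Scheme.presieve₀_mem_precoverage_iff]
        refine ⟨fun x => ?_, fun i => M.openImm i⟩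
        exact surj M x }
  have : IsZariskiLocalAtSource (@SmoothOfRelativeDimension n) :=
    HasRingHomProperty.instIsZariskiLocalAtSource (P := @SmoothOfRelativeDimension n)
      (Q := RingHom.Locally (RingHom.IsStandardSmoothOfRelativeDimension n))
  rw [IsZariskiLocalAtSource.iff_of_openCover (P := @SmoothOfRelativeDimension n) 𝒰]
  intro i
  change SmoothOfRelativeDimension n (M.ι i ≫ M.π)
  rw [M.ι_π]
  exact h i i.2

end Pool.Agent.H16
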