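import Pool.Agent.H16.Irr.ChartDefs

/-!
# Module S: the fibres of the family

The first part (stalks through charts, integrality, function field) follows a module of helper23's
project.
-/

open AlgebraicGeometry CategoryTheory CategoryTheory.Limits Polynomial

noncomputable section

namespace Pool.Agent.H16

namespace ModS

/-! ### Stalks through an affine chart -/

section chart

variable {B : Type} [CommRing B] {Z : Scheme.{0}} (f : Spec (.of B) ⟶ Z) [IsOpenImmersion f]

/-- The isomorphism of a localisation of the coordinate ring of a chart with the local ring. -/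
def locTo (p : Spec (.of B)) :
    CommRingCat.of (Localization.AtPrime p.asIdeal) ⟶ Z.presheaf.stalk (f p) :=
  (Spec.stalkIso (.of B) p).inv ≫ inv (f.stalkMap p)

instance (p : Spec (.of B)) : IsIso (locTo f p) := by
  unfold locTo
  infer_instance

/-- From the coordinate ring of a chart to a local ring. -/
def toSt (p : Spec (.of B)) : CommRingCat.of B ⟶ Z.presheaf.stalk (f p) :=
  CommRingCat.ofHom (algebraMap B (Localization.AtPrime p.asIdeal)) ≫ locTo f p

theorem toSt_eq (p : Spec (.of B)) :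
    toSt f p = ((Scheme.ΓSpecIso (.of B)).inv ≫ (Spec (.of B)).presheaf.germ ⊤ p trivial) ≫
      inv (f.stalkMap p) := by
  have := Spec.algebraMap_stalkIso_inv (R := .of B) p
  unfold toSt locTo
  rw [← this]
  rfl

theorem SpecMap_toSt (p : Spec (.of B)) :
    Spec.map (toSt f p) ≫ f = Z.fromSpecStalk (f p) := by
  rw [toSt_eq, Spec.map_comp, ← Spec.fromSpecStalk_eq, Category.assoc,
    ← Scheme.SpecMap_stalkMap_fromSpecStalk,
    ← Category.assoc, ← Spec.map_comp, IsIso.hom_inv_id, Spec.map_id, Category.id_comp]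

/-- Elements of the local ring are fractions. -/
theorem exists_frac (p : Spec (.of B)) (s : Z.presheaf.stalk (f p)) :
    ∃ a b : B, b ∉ p.asIdeal ∧ s * (toSt f p).hom b = (toSt f p).hom a := by
  obtain ⟨t, rfl⟩ : ∃ t, (locTo f p).hom t = s :=
    ⟨(inv (locTo f p)).hom s, by
      rw [← CommRingCat.comp_apply, IsIso.inv_hom_id, CommRingCat.id_apply]⟩
  obtain ⟨⟨a, b⟩, h⟩ := IsLocalization.surj p.asIdeal.primeCompl t
  refine ⟨a, b, b.2, ?_⟩
  unfold toSt
  simp only [CommRingCat.hom_comp, RingHom.comp_apply, CommRingCat.hom_ofHom]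
  rw [← map_mul]
  exact congrArg _ h

theorem isUnit_toSt (p : Spec (.of B)) (b : B) (hb : b ∉ p.asIdeal) :
    IsUnit ((toSt f p).hom b) := by
  have h : IsUnit (algebraMap B (Localization.AtPrime p.asIdeal) b) :=
    IsLocalization.map_units (M := p.asIdeal.primeCompl) _ ⟨b, hb⟩
  exact h.map (locTo f p).hom

end chart

/-! ### The scheme is integral -/

section integral

variable {R : Type} [CommRing R] [IsDomain R] [Algebra ℂ R] {I : Type} [Nonempty I]
    {A : I → Subalgebra ℂ R}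
    {Z : Scheme.{0}}
    {ι : ∀ i, Spec (.of (A i)) ⟶ Z} [∀ i, IsOpenImmersion (ι i)]

omit [Nonempty I] in
theorem isReduced_Z (hsurj : ∀ z : Z, ∃ i, ∃ y, ι i y = z) : IsReduced Z := by
  have : ∀ z : Z, _root_.IsReduced (Z.presheaf.stalk z) := by
    intro z
    obtain ⟨i, y, rfl⟩ := hsurj z
    have h1 : _root_.IsReduced ((Spec (.of (A i))).presheaf.stalk y) := inferInstance
    exact isReduced_of_injective ((ι i).stalkMap y).hom
      (ConcreteCategory.bijective_of_isIso ((ι i).stalkMap y)).1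
  exact isReduced_of_isReduced_stalk Z

omit [Nonempty I] [∀ i, IsOpenImmersion (ι i)] in
theorem exists_generic (hsurj : ∀ z : Z, ∃ i, ∃ y, ι i y = z)
    (hcompat : ∀ i j, Spec.map (CommRingCat.ofHom (A i).val.toRingHom) ≫ ι i =
      Spec.map (CommRingCat.ofHom (A j).val.toRingHom) ≫ ι j) (i₀ : I) (z : Z) :
    ι i₀ (⊥ : PrimeSpectrum (A i₀)) ⤳ z := by
  have hbot : ∀ i, Spec.map (CommRingCat.ofHom (A i).val.toRingHom) (⊥ : PrimeSpectrum R) =
      (⊥ : PrimeSpectrum (A i)) := by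
    intro i
    apply PrimeSpectrum.ext
    change Ideal.comap (A i).val.toRingHom ⊥ = ⊥
    rw [← RingHom.ker_eq_comap_bot]
    exact (RingHom.injective_iff_ker_eq_bot _).1 Subtype.val_injective
  have heq : ∀ i j, ι i (⊥ : PrimeSpectrum (A i)) = ι j (⊥ : PrimeSpectrum (A j)) := by
    intro i j
    rw [← hbot i, ← hbot j, ← Scheme.Hom.comp_apply, ← Scheme.Hom.comp_apply, hcompat i j]
  obtain ⟨i, y, rfl⟩ := hsurj z
  rw [heq i₀ i]
  have h1 : (⊥ : PrimeSpectrum (A i)) ⤳ y := by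
    rw [← PrimeSpectrum.le_iff_specializes]
    exact bot_le
  exact h1.map (ι i).continuous

omit [∀ i, IsOpenImmersion (ι i)] in
theorem irreducible_Z (hsurj : ∀ z : Z, ∃ i, ∃ y, ι i y = z)
    (hcompat : ∀ i j, Spec.map (CommRingCat.ofHom (A i).val.toRingHom) ≫ ι i =
      Spec.map (CommRingCat.ofHom (A j).val.toRingHom) ≫ ι j) : IrreducibleSpace Z := by
  obtain ⟨i₀⟩ := ‹Nonempty I›
  have h : closure {ι i₀ (⊥ : PrimeSpectrum (A i₀))} = (Set.univ : Set Z) := by
    rw [Set.eq_univ_iff_forall]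
    intro z
    exact (exists_generic hsurj hcompat i₀ z).mem_closure
  have h2 : IsIrreducible (Set.univ : Set Z) := by
    rw [← h]
    exact isIrreducible_singleton.closure
  rw [irreducibleSpace_def]
  exact h2

theorem isIntegral_Z (hsurj : ∀ z : Z, ∃ i, ∃ y, ι i y = z)
    (hcompat : ∀ i j, Spec.map (CommRingCat.ofHom (A i).val.toRingHom) ≫ ι i =
      Spec.map (CommRingCat.ofHom (A j).val.toRingHom) ≫ ι j) : IsIntegral Z := by
  have h1 := isReduced_Z hsurj
  have h2 := irreducible_Z hsurj hcompat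
  exact isIntegral_of_irreducibleSpace_of_isReduced Z

end integral

/-! ### The function field -/

section ff

variable {B : Type} [CommRing B] {Z : Scheme.{0}} (f : Spec (.of B) ⟶ Z) [IsOpenImmersion f]

theorem SpecMap_toFF (p : Spec (.of B)) {x : Z} (h : x ⤳ f p) :
    Spec.map (toSt f p ≫ Z.presheaf.stalkSpecializes h) ≫ f = Z.fromSpecStalk x := by
  rw [Spec.map_comp, Category.assoc, SpecMap_toSt, Scheme.SpecMap_stalkSpecializes_fromSpecStalk]

theorem eq_of_SpecMap {T : CommRingCat.{0}} {u v : CommRingCat.of B ⟶ T}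
    (h : Spec.map u ≫ f = Spec.map v ≫ f) : u = v :=
  Spec.map_injective ((cancel_mono f).1 h)

theorem fromSpecStalk_str (str : Z ⟶ Spec (.of ℂ)) (x : Z) :
    Z.fromSpecStalk x ≫ str = Spec.map ((Scheme.ΓSpecIso (.of ℂ)).inv ≫ str.appTop ≫
      Z.presheaf.germ ⊤ x (TopologicalSpace.Opens.mem_top _)) := by
  have h1 : str = Z.toSpecΓ ≫ Spec.map str.appTop ≫ Spec.map (Scheme.ΓSpecIso (.of ℂ)).inv := by
    rw [← Scheme.toSpecΓ_naturality_assoc, ← SpecMap_ΓSpecIso_hom, ← Spec.map_comp,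
      Iso.inv_hom_id, Spec.map_id, Category.comp_id]
  conv_lhs => rw [h1]
  rw [Scheme.fromSpecStalk_toSpecΓ_assoc, ← Spec.map_comp, ← Spec.map_comp, Category.assoc]

end ff

section main

variable {R : Type} [CommRing R] [IsDomain R] [Algebra ℂ R] {I : Type} [Nonempty I]
    {A : I → Subalgebra ℂ R}
    {Z : Scheme.{0}} [IsIntegral Z]
    {ι : ∀ i, Spec (.of (A i)) ⟶ Z} [∀ i, IsOpenImmersion (ι i)]

/-- From a coordinate ring to the function field. -/
def phi (i : I) : CommRingCat.of (A i) ⟶ Z.functionField :=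
  toSt (ι i) (⊥ : PrimeSpectrum (A i)) ≫
    Z.presheaf.stalkSpecializes ((genericPoint_spec Z).specializes trivial)

omit [Nonempty I] in
theorem SpecMap_phi (i : I) :
    Spec.map (phi (ι := ι) i) ≫ ι i = Z.fromSpecStalk (genericPoint Z) :=
  SpecMap_toFF (ι i) _ _

omit [Nonempty I] in
theorem phi_eq (i : I) (p : Spec (.of (A i))) :
    phi (ι := ι) i = toSt (ι i) p ≫
      Z.presheaf.stalkSpecializes ((genericPoint_spec Z).specializes trivial) := by
  apply eq_of_SpecMap (ι i)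
  rw [SpecMap_phi, SpecMap_toFF]

theorem exists_S (hsurj : ∀ z : Z, ∃ i, ∃ y, ι i y = z)
    (hcompat : ∀ i j, Spec.map (CommRingCat.ofHom (A i).val.toRingHom) ≫ ι i =
      Spec.map (CommRingCat.ofHom (A j).val.toRingHom) ≫ ι j) :
    ∃ S : Z.functionField ⟶ .of (FractionRing R), ∀ i, phi (ι := ι) i ≫ S =
      CommRingCat.ofHom (A i).val.toRingHom ≫ CommRingCat.ofHom (algebraMap R (FractionRing R)) := by
  obtain ⟨i₀⟩ := ‹Nonempty I›
  let g : Spec (.of (FractionRing R)) ⟶ Z :=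
    Spec.map (CommRingCat.ofHom (algebraMap R (FractionRing R))) ≫
      Spec.map (CommRingCat.ofHom (A i₀).val.toRingHom) ≫ ι i₀
  have hg : ∀ i, g = Spec.map (CommRingCat.ofHom (algebraMap R (FractionRing R))) ≫
      Spec.map (CommRingCat.ofHom (A i).val.toRingHom) ≫ ι i := by
    intro i
    simp only [g]
    rw [hcompat i₀ i]
  let c : Spec (.of (FractionRing R)) := IsLocalRing.closedPoint (FractionRing R)
  have hc : g c ⤳ genericPoint Z := by
    have h1 : g c = ι i₀ (⊥ : PrimeSpectrum (A i₀)) := by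
      simp only [g]
      rw [Scheme.Hom.comp_apply, Scheme.Hom.comp_apply]
      congr 1
      apply PrimeSpectrum.ext
      change Ideal.comap (A i₀).val.toRingHom
        (Ideal.comap (algebraMap R (FractionRing R)) c.asIdeal) = ⊥
      have h2 : c.asIdeal = ⊥ := IsLocalRing.maximalIdeal_eq_bot
      rw [h2, ← RingHom.ker_eq_comap_bot,
        (RingHom.injective_iff_ker_eq_bot _).1 (IsFractionRing.injective R (FractionRing R)),
        ← RingHom.ker_eq_comap_bot]
      exact (RingHom.injective_iff_ker_eq_bot _).1 Subtype.val_injective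
    rw [h1]
    exact exists_generic hsurj hcompat i₀ _
  refine ⟨Z.presheaf.stalkSpecializes hc ≫ Scheme.stalkClosedPointTo g, ?_⟩
  intro i
  apply eq_of_SpecMap (ι i)
  rw [Spec.map_comp, Category.assoc, SpecMap_phi, Spec.map_comp, Category.assoc,
    Scheme.SpecMap_stalkSpecializes_fromSpecStalk]
  have h3 : Spec.map (Scheme.stalkClosedPointTo g) ≫ Z.fromSpecStalk (g c) = g :=
    Scheme.Spec_stalkClosedPointTo_fromSpecStalk g
  rw [h3, hg i, Spec.map_comp, Category.assoc]

end main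


/-- An integral scheme over `ℂ` covered by spectra of subalgebras of a field `K₀` which all have
`K₀` as field of fractions and which are glued inside `K₀`. -/
theorem functionField_equiv {K₀ : Type} [Field K₀] [Algebra ℂ K₀] {I : Type} [Nonempty I]
    (A : I → Subalgebra ℂ K₀) (hfrac : ∀ i, ∀ r : K₀, ∃ a ∈ A i, ∃ b ∈ A i, b ≠ 0 ∧ r * b = a)
    {Z : Scheme.{0}} (str : Z ⟶ Spec (.of ℂ))
    (ι : ∀ i, Spec (.of (A i)) ⟶ Z) [∀ i, IsOpenImmersion (ι i)]
    (hstr : ∀ i, ι i ≫ str = Spec.map (CommRingCat.ofHom (algebraMap ℂ (A i))))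
    (hsurj : ∀ z : Z, ∃ i, ∃ y, ι i y = z)
    (hcompat : ∀ i j, Spec.map (CommRingCat.ofHom (A i).val.toRingHom) ≫ ι i =
      Spec.map (CommRingCat.ofHom (A j).val.toRingHom) ≫ ι j) :
    ∃ _ : IsIntegral Z, letI := (constants Z str).toAlgebra
      Nonempty (Z.functionField ≃ₐ[ℂ] K₀) := by
  have hint := isIntegral_Z hsurj hcompat
  refine ⟨hint, ?_⟩
  obtain ⟨i₀⟩ := ‹Nonempty I›
  have : Nonempty I := ⟨i₀⟩
  obtain ⟨S, hS⟩ := exists_S hsurj hcompat
  let K := FractionRing K₀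
  let S' : Z.functionField →+* K := S.hom
  have hS' : ∀ (i : I) (a : A i), S' ((phi (ι := ι) i).hom a) = algebraMap K₀ K (a : K₀) := by
    intro i a
    have := congrArg (fun u => u.hom a) (hS i)
    exact this
  have hinj : Function.Injective S' := S'.injective
  have hsur : Function.Surjective S' := by
    intro x
    obtain ⟨⟨r, r'⟩, hr⟩ := IsLocalization.surj (nonZeroDivisors K₀) x
    have hr' : (r' : K₀) ≠ 0 := nonZeroDivisors.ne_zero r'.2
    obtain ⟨a, ha, b, hb, hb0, hab⟩ := hfrac i₀ r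
    obtain ⟨a', ha', b', hb', hb0', hab'⟩ := hfrac i₀ r'
    have ha0' : a' ≠ 0 := by
      rw [← hab']
      exact mul_ne_zero hr' hb0'
    refine ⟨(phi (ι := ι) i₀).hom ⟨a * b', (A i₀).mul_mem ha hb'⟩ /
      (phi (ι := ι) i₀).hom ⟨b * a', (A i₀).mul_mem hb ha'⟩, ?_⟩
    rw [map_div₀, hS', hS']
    have h1 : algebraMap K₀ K (b * a') ≠ 0 := by
      rw [Ne, IsFractionRing.to_map_eq_zero_iff]
      exact mul_ne_zero hb0 ha0'
    rw [div_eq_iff h1]
    simp only
    simp only at hr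
    have h2 : (algebraMap K₀ K) r' ≠ 0 := by
      rw [Ne, IsFractionRing.to_map_eq_zero_iff]; exact hr'
    rw [← hab, ← hab', map_mul, map_mul, map_mul, map_mul, ← hr]
    ring
  have hbij : Function.Bijective (algebraMap K₀ K) := by
    refine ⟨IsFractionRing.injective K₀ K, ?_⟩
    intro x
    obtain ⟨a, b, hb, rfl⟩ := IsFractionRing.div_surjective (A := K₀) x
    exact ⟨a / b, by rw [map_div₀]⟩
  let e : Z.functionField ≃+* K := RingEquiv.ofBijective S' ⟨hinj, hsur⟩
  let e' : K₀ ≃+* K := RingEquiv.ofBijective (algebraMap K₀ K) hbij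
  let _ := (constants Z str).toAlgebra
  have hC : ∀ c : ℂ, e (algebraMap ℂ Z.functionField c) = e' (algebraMap ℂ K₀ c) := by
    intro c
    have h2 : CommRingCat.ofHom (algebraMap ℂ (A i₀)) ≫ phi (ι := ι) i₀ =
        (Scheme.ΓSpecIso (.of ℂ)).inv ≫ str.appTop ≫
          Z.presheaf.germ ⊤ (genericPoint Z) (TopologicalSpace.Opens.mem_top _) := by
      apply Spec.map_injective
      rw [← fromSpecStalk_str, Spec.map_comp, ← hstr, ← Category.assoc, SpecMap_phi]
    have h3 : (phi (ι := ι) i₀).hom (algebraMap ℂ (A i₀) c) = algebraMap ℂ Z.functionField c :=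
      congrArg (fun u => u.hom c) h2
    rw [← h3]
    exact hS' i₀ _
  refine ⟨{ (e.trans e'.symm) with commutes' := ?_ }⟩
  intro c
  change e'.symm (e (algebraMap ℂ Z.functionField c)) = algebraMap ℂ K₀ c
  rw [hC, RingEquiv.symm_apply_apply]

/-! ### The fibre product of a chart -/

theorem exists_lift {A G T : Type} [CommRing A] [CommRing G] [CommRing T] (g : A →+* G)
    (hg : Function.Surjective g) (s : A →+* T) (h : RingHom.ker g ≤ RingHom.ker s) :
    ∃ t : G →+* T, ∀ a, t (g a) = s a :=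
  ⟨RingHom.liftOfRightInverse g (Function.surjInv hg) (Function.rightInverse_surjInv hg) ⟨s, h⟩,
    fun a => RingHom.liftOfRightInverse_comp_apply g (Function.surjInv hg)
      (Function.rightInverse_surjInv hg) ⟨s, h⟩ a⟩

theorem isPushout_of_ker {R A C G : Type} [CommRing R] [CommRing A] [CommRing C] [CommRing G]
    (α : R →+* A) (ψ : R →+* C) (g : A →+* G) (c : C →+* G) (hψ : Function.Surjective ψ)
    (hg : Function.Surjective g) (hc : g.comp α = c.comp ψ)
    (hker : RingHom.ker g ≤ (RingHom.ker ψ).map α) :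
    IsPushout (CommRingCat.ofHom α) (CommRingCat.ofHom ψ) (CommRingCat.ofHom g)
      (CommRingCat.ofHom c) := by
  have hle : ∀ s : PushoutCocone (CommRingCat.ofHom α) (CommRingCat.ofHom ψ),
      RingHom.ker g ≤ RingHom.ker s.inl.hom := by
    intro s
    refine hker.trans ?_
    rw [Ideal.map_le_iff_le_comap]
    intro r hr
    rw [RingHom.mem_ker] at hr
    rw [Ideal.mem_comap, RingHom.mem_ker]
    have h1 := congrArg (fun u => u.hom r) s.condition
    have h2 : s.inl.hom (α r) = s.inr.hom (ψ r) := h1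
    rw [h2, hr, map_zero]
  have hlift : ∀ s : PushoutCocone (CommRingCat.ofHom α) (CommRingCat.ofHom ψ),
      ∃ t : G →+* s.pt, ∀ a, t (g a) = s.inl.hom a := fun s => exists_lift g hg s.inl.hom (hle s)
  choose t ht using hlift
  refine ⟨⟨?_⟩, ⟨?_⟩⟩
  · rw [← CommRingCat.ofHom_comp, ← CommRingCat.ofHom_comp, hc]
  · refine PushoutCocone.IsColimit.mk _ (fun s => CommRingCat.ofHom (t s)) ?_ ?_ ?_
    · intro s
      ext a
      exact ht s a
    · intro s
      ext x
      obtain ⟨r, rfl⟩ := hψ x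
      have h1 : c (ψ r) = g (α r) := (RingHom.congr_fun hc r).symm
      have h2 : s.inl.hom (α r) = s.inr.hom (ψ r) := congrArg (fun u => u.hom r) s.condition
      change t s (c (ψ r)) = s.inr.hom (ψ r)
      rw [h1, ← h2]
      exact ht s (α r)
    · intro s m h1 h2
      ext x
      obtain ⟨a, rfl⟩ := hg x
      have h3 : m.hom (g a) = s.inl.hom a := congrArg (fun u => u.hom a) h1
      exact h3.trans (ht s a).symm

/-! ### Gluing inside `K₀` -/

section glue

variable {R : Type} [CommRing R] {K : Type} [Field K] [Algebra R K] {J : Type} {m : J → K}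

theorem mem_chartAlg (i j : J) : m j / m i ∈ chartAlg R m i :=
  Algebra.subset_adjoin ⟨j, rfl⟩

theorem sup_frac (hm : ∀ j, m j ≠ 0) (i i' : J) (b : K)
    (hb : b ∈ (chartAlg R m i ⊔ chartAlg R m i' : Subalgebra R K)) :
    ∃ n : ℕ, b * (m i' / m i) ^ n ∈ chartAlg R m i := by
  rw [chartAlg, chartAlg, ← Algebra.adjoin_union] at hb
  have hu : m i' / m i ∈ chartAlg R m i := mem_chartAlg i i'
  induction hb using Algebra.adjoin_induction with
  | mem x hx =>
    rcases hx with ⟨j, rfl⟩ | ⟨j, rfl⟩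
    · refine ⟨0, ?_⟩
      rw [pow_zero, mul_one]
      exact mem_chartAlg i j
    · refine ⟨1, ?_⟩
      have h1 : m j / m i' * (m i' / m i) ^ 1 = m j / m i := by
        have := hm i'
        have := hm i
        field_simp
      simp only at h1 ⊢
      rw [h1]
      exact mem_chartAlg i j
  | algebraMap r =>
    refine ⟨0, ?_⟩
    rw [pow_zero, mul_one]
    exact (chartAlg R m i).algebraMap_mem r
  | add x y _ _ hx hy =>
    obtain ⟨n, hn⟩ := hx
    obtain ⟨k, hk⟩ := hy
    refine ⟨n + k, ?_⟩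
    have h1 : (x + y) * (m i' / m i) ^ (n + k) =
        x * (m i' / m i) ^ n * (m i' / m i) ^ k + y * (m i' / m i) ^ k * (m i' / m i) ^ n := by
      ring
    rw [h1]
    exact add_mem (mul_mem hn (pow_mem hu k)) (mul_mem hk (pow_mem hu n))
  | mul x y _ _ hx hy =>
    obtain ⟨n, hn⟩ := hx
    obtain ⟨k, hk⟩ := hy
    refine ⟨n + k, ?_⟩
    have h1 : (x * y) * (m i' / m i) ^ (n + k) =
        (x * (m i' / m i) ^ n) * (y * (m i' / m i) ^ k) := by
      ring
    rw [h1]
    exact mul_mem hn hk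

theorem exists_common (hm : ∀ j, m j ≠ 0) (i i' : J) {K₀ : Type} [Field K₀] (m₀ : J → K₀)
    (hm₀ : ∀ j, m₀ j ≠ 0) (f : chartAlg R m i →+* K₀) (f' : chartAlg R m i' →+* K₀)
    (hR : ∀ r : R, f (algebraMap R _ r) = f' (algebraMap R _ r))
    (hf : ∀ j, f ⟨m j / m i, mem_chartAlg i j⟩ = m₀ j / m₀ i)
    (hf' : ∀ j, f' ⟨m j / m i', mem_chartAlg i' j⟩ = m₀ j / m₀ i') :
    ∃ Φ : (chartAlg R m i ⊔ chartAlg R m i' : Subalgebra R K) →+* K₀,
      Φ.comp (Subalgebra.inclusion le_sup_left).toRingHom = f ∧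
        Φ.comp (Subalgebra.inclusion le_sup_right).toRingHom = f' := by
  let A := chartAlg R m i
  let A' := chartAlg R m i'
  let B : Subalgebra R K := A ⊔ A'
  have hAB : A ≤ B := le_sup_left
  have hAB' : A' ≤ B := le_sup_right
  let _ : Algebra A B := (Subalgebra.inclusion hAB).toRingHom.toAlgebra
  have hmap : ∀ a : A, ((algebraMap A B a : B) : K) = (a : K) := fun _ => rfl
  let u : A := ⟨m i' / m i, mem_chartAlg i i'⟩
  have hu0 : m i' / m i ≠ 0 := div_ne_zero (hm i') (hm i)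
  have hloc : IsLocalization.Away u B := by
    rw [IsLocalization.Away, isLocalization_iff]
    refine ⟨?_, ?_, ?_⟩
    · rintro ⟨_, n, rfl⟩
      have h1 : IsUnit (algebraMap A B u) := by
        refine IsUnit.of_mul_eq_one (⟨m i / m i', hAB' (mem_chartAlg i' i)⟩ : B) ?_
        apply Subtype.ext
        change (m i' / m i) * (m i / m i') = 1
        have := hm i'
        have := hm i
        field_simp
      simp only [map_pow]
      exact h1.pow n
    · rintro ⟨b, hb⟩
      obtain ⟨n, hn⟩ := sup_frac hm i i' b hb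
      refine ⟨(⟨_, hn⟩, ⟨u ^ n, n, rfl⟩), ?_⟩
      apply Subtype.ext
      change b * ((u ^ n : A) : K) = b * (m i' / m i) ^ n
      rfl
    · intro x y hxy
      refine ⟨1, ?_⟩
      have h1 : (x : K) = (y : K) := congrArg (fun z : B => (z : K)) hxy
      rw [Subtype.ext h1]
  have hfu : IsUnit (f u) := by
    rw [isUnit_iff_ne_zero]
    have h1 : f u = m₀ i' / m₀ i := hf i'
    rw [h1]
    exact div_ne_zero (hm₀ i') (hm₀ i)
  let Φ : B →+* K₀ := IsLocalization.Away.lift u hfu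
  have hΦ : ∀ a : A, Φ (algebraMap A B a) = f a := IsLocalization.Away.lift_eq u hfu
  refine ⟨Φ, ?_, ?_⟩
  · ext a
    exact hΦ a
  · have key : ∀ x (hx : x ∈ A'), Φ ⟨x, hAB' hx⟩ = f' ⟨x, hx⟩ := by
      intro x hx
      have hx2 : x ∈ Algebra.adjoin R (Set.range fun j => m j / m i') := hx
      induction hx2 using Algebra.adjoin_induction with
      | mem x hx3 =>
        obtain ⟨j, rfl⟩ := hx3
        have h1 : (⟨m j / m i', hAB' hx⟩ : B) * algebraMap A B u =
            algebraMap A B ⟨m j / m i, mem_chartAlg i j⟩ := by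
          apply Subtype.ext
          change m j / m i' * (m i' / m i) = m j / m i
          have := hm i'
          have := hm i
          field_simp
        have h2 := congrArg Φ h1
        rw [map_mul, hΦ, hΦ, hf, hf] at h2
        have h4 := hf' j
        have h5 : f' ⟨m j / m i', hx⟩ = m₀ j / m₀ i' := h4
        rw [h5]
        have h6 := hm₀ i'
        have h7 := hm₀ i
        field_simp at h2
        rw [eq_div_iff h6]
        exact h2
      | algebraMap r =>
        have h1 : Φ (algebraMap A B (algebraMap R A r)) = f (algebraMap R A r) := hΦ _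
        rw [hR] at h1
        exact h1
      | add x y hx' hy' ihx ihy =>
        have h1 : (⟨x + y, hAB' hx⟩ : B) = ⟨x, hAB' hx'⟩ + ⟨y, hAB' hy'⟩ := rfl
        have h2 : (⟨x + y, hx⟩ : A') = ⟨x, hx'⟩ + ⟨y, hy'⟩ := rfl
        rw [h1, map_add, ihx hx', ihy hy']
        exact (map_add f' ⟨x, hx'⟩ ⟨y, hy'⟩).symm
      | mul x y hx' hy' ihx ihy =>
        have h1 : (⟨x * y, hAB' hx⟩ : B) = ⟨x, hAB' hx'⟩ * ⟨y, hAB' hy'⟩ := rfl
        rw [h1, map_mul, ihx hx', ihy hy']
        exact (map_mul f' ⟨x, hx'⟩ ⟨y, hy'⟩).symm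
    ext ⟨x, hx⟩
    exact key x hx

end glue

/-! ### The fibre -/

section fibre

variable {R : Type} [CommRing R] {K : Type} [Field K] [Algebra R K] {J : Type} {m : J → K}

/-- The range of a chart map, as a subalgebra of `K₀`. -/
def rangeAlg {A : Type} [CommRing A] {K₀ : Type} [Field K₀] [Algebra ℂ K₀] (f : A →+* K₀)
    (h : ∀ c : ℂ, ∃ a, f a = algebraMap ℂ K₀ c) : Subalgebra ℂ K₀ where
  carrier := Set.range f
  mul_mem' := by
    rintro _ _ ⟨a, rfl⟩ ⟨b, rfl⟩
    exact ⟨a * b, map_mul f a b⟩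
  add_mem' := by
    rintro _ _ ⟨a, rfl⟩ ⟨b, rfl⟩
    exact ⟨a + b, map_add f a b⟩
  algebraMap_mem' := h

/-- The chart map onto its range. -/
def toRange {A : Type} [CommRing A] {K₀ : Type} [Field K₀] [Algebra ℂ K₀] (f : A →+* K₀)
    (h : ∀ c : ℂ, ∃ a, f a = algebraMap ℂ K₀ c) : A →+* rangeAlg f h :=
  f.codRestrict (rangeAlg f h) (fun a => ⟨a, rfl⟩)

theorem toRange_surjective {A : Type} [CommRing A] {K₀ : Type} [Field K₀] [Algebra ℂ K₀]
    (f : A →+* K₀) (h : ∀ c : ℂ, ∃ a, f a = algebraMap ℂ K₀ c) :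
    Function.Surjective (toRange f h) := by
  rintro ⟨_, a, rfl⟩
  exact ⟨a, rfl⟩

theorem ker_toRange {A : Type} [CommRing A] {K₀ : Type} [Field K₀] [Algebra ℂ K₀]
    (f : A →+* K₀) (h : ∀ c : ℂ, ∃ a, f a = algebraMap ℂ K₀ c) :
    RingHom.ker (toRange f h) = RingHom.ker f := by
  ext a
  rw [RingHom.mem_ker, RingHom.mem_ker, ← Subtype.val_inj]
  rfl

/-- A chart of the fibre. -/
theorem exists_chart {I₀ : Set J} (M : ProjModel R m I₀) (i : J)
    (ψ : R →+* ℂ) (hψ : Function.Surjective ψ) {K₀ : Type} [Field K₀] [Algebra ℂ K₀]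
    (f : chartAlg R m i →+* K₀)
    (hf₁ : ∀ r : R, f (algebraMap R _ r) = algebraMap ℂ K₀ (ψ r))
    (hf₃ : RingHom.ker f = (RingHom.ker ψ).map (algebraMap R (chartAlg R m i)))
    (h : ∀ c : ℂ, ∃ a, f a = algebraMap ℂ K₀ c) :
    ∃ κ : Spec (.of (rangeAlg f h)) ⟶ pullback M.π (Spec.map (CommRingCat.ofHom ψ)),
      IsOpenImmersion κ ∧
      κ ≫ pullback.snd _ _ = Spec.map (CommRingCat.ofHom (algebraMap ℂ (rangeAlg f h))) ∧
      κ ≫ pullback.fst _ _ = Spec.map (CommRingCat.ofHom (toRange f h)) ≫ M.ι i ∧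
      ∀ y : ↥(pullback M.π (Spec.map (CommRingCat.ofHom ψ))),
        (pullback.fst M.π (Spec.map (CommRingCat.ofHom ψ))) y ∈ Set.range (M.ι i) →
          ∃ z, κ z = y := by
  have hpush := isPushout_of_ker (algebraMap R (chartAlg R m i)) ψ (toRange f h)
    (algebraMap ℂ (rangeAlg f h)) hψ (toRange_surjective f h)
    (by
      ext r
      exact hf₁ r)
    (by rw [ker_toRange, hf₃])
  have hP := isPullback_SpecMap_of_isPushout _ _ _ _ hpush
  have hQ := (IsPullback.of_hasPullback M.π (Spec.map (CommRingCat.ofHom ψ)))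
  let κ : Spec (.of (rangeAlg f h)) ⟶ pullback M.π (Spec.map (CommRingCat.ofHom ψ)) :=
    pullback.lift (Spec.map (CommRingCat.ofHom (toRange f h)) ≫ M.ι i)
      (Spec.map (CommRingCat.ofHom (algebraMap ℂ (rangeAlg f h))))
      (by rw [Category.assoc, M.ι_π]; exact hP.w)
  have h1 : κ ≫ pullback.fst _ _ = Spec.map (CommRingCat.ofHom (toRange f h)) ≫ M.ι i :=
    pullback.lift_fst _ _ _
  have h2 : κ ≫ pullback.snd _ _ = Spec.map (CommRingCat.ofHom (algebraMap ℂ (rangeAlg f h))) :=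
    pullback.lift_snd _ _ _
  have hsq : IsPullback κ (Spec.map (CommRingCat.ofHom (toRange f h)))
      (pullback.fst M.π (Spec.map (CommRingCat.ofHom ψ))) (M.ι i) := by
    apply IsPullback.of_right (h₁₂ := pullback.snd M.π (Spec.map (CommRingCat.ofHom ψ)))
      (h₂₂ := M.π) (v₁₃ := Spec.map (CommRingCat.ofHom ψ)) _ h1 hQ.flip
    rw [h2, M.ι_π]
    exact hP.flip
  have hopen := M.openImm i
  refine ⟨κ, ?_, h2, h1, ?_⟩
  · exact MorphismProperty.of_isPullback (P := @IsOpenImmersion) hsq.flip hopen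
  · intro y hy
    obtain ⟨x, hx⟩ := hy
    obtain ⟨z, hz, -⟩ := Scheme.Pullback.exists_preimage_pullback y x hx.symm
    refine ⟨hsq.isoPullback.inv z, ?_⟩
    rw [← Scheme.Hom.comp_apply, hsq.isoPullback_inv_fst]
    exact hz

end fibre

end ModS

open ModS in
theorem ProjModel.fibre {R : Type} [CommRing R] {K : Type} [Field K] [Algebra R K]
    {J : Type} {m : J → K} (hm : ∀ j, m j ≠ 0) {I₀ : Set J} (M : ProjModel R m I₀)
    (i₀ : J) (hi₀ : i₀ ∈ I₀)
    (ψ : R →+* ℂ) (hψ : Function.Surjective ψ) (K₀ : Type) [Field K₀] [Algebra ℂ K₀] (m₀ : J → K₀)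
    (hm₀ : ∀ j, m₀ j ≠ 0) (hgen : IntermediateField.adjoin ℂ (Set.range fun j => m₀ j / m₀ i₀) = ⊤)
    (φ : ∀ i ∈ I₀, chartAlg R m i →+* K₀)
    (hφ₁ : ∀ i (hi : i ∈ I₀) (r : R), φ i hi (algebraMap R _ r) = algebraMap ℂ K₀ (ψ r))
    (hφ₂ : ∀ i (hi : i ∈ I₀) (j : J) (hj : m j / m i ∈ chartAlg R m i),
      φ i hi ⟨m j / m i, hj⟩ = m₀ j / m₀ i)
    (hφ₃ : ∀ i (hi : i ∈ I₀), RingHom.ker (φ i hi) =
      (RingHom.ker ψ).map (algebraMap R (chartAlg R m i))) :
    ∃ _ : IsIntegral (pullback M.π (Spec.map (CommRingCat.ofHom ψ))),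
      letI := (constants (pullback M.π (Spec.map (CommRingCat.ofHom ψ)))
        (pullback.snd M.π (Spec.map (CommRingCat.ofHom ψ)))).toAlgebra
      Nonempty ((pullback M.π (Spec.map (CommRingCat.ofHom ψ))).functionField ≃ₐ[ℂ] K₀) := by
  have hc : ∀ i (hi : i ∈ I₀) (c : ℂ), ∃ a, φ i hi a = algebraMap ℂ K₀ c := by
    intro i hi c
    obtain ⟨r, rfl⟩ := hψ c
    exact ⟨algebraMap R _ r, hφ₁ i hi r⟩
  have hchart := fun (i : I₀) => exists_chart M i.1 ψ hψ (φ i.1 i.2) (hφ₁ i.1 i.2) (hφ₃ i.1 i.2)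
    (hc i.1 i.2)
  choose κ hopen hsnd hfst hcov using hchart
  have : Nonempty I₀ := ⟨⟨i₀, hi₀⟩⟩
  refine functionField_equiv (fun i : I₀ => rangeAlg (φ i.1 i.2) (hc i.1 i.2)) ?_
    (pullback.snd M.π (Spec.map (CommRingCat.ofHom ψ))) κ hsnd ?_ ?_
  · -- fractions
    intro i r
    have hle : ∀ j, m₀ j / m₀ i₀ ∈ IntermediateField.adjoin ℂ
        (rangeAlg (φ i.1 i.2) (hc i.1 i.2) : Set K₀) := by
      intro j
      have h1 : ∀ j, m₀ j / m₀ i.1 ∈ IntermediateField.adjoin ℂ
          (rangeAlg (φ i.1 i.2) (hc i.1 i.2) : Set K₀) := fun j =>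
        IntermediateField.subset_adjoin _ _ ⟨⟨m j / m i.1, mem_chartAlg i.1 j⟩, hφ₂ i.1 i.2 j _⟩
      have h2 := div_mem (h1 j) (h1 i₀)
      have h3 : m₀ j / m₀ i.1 / (m₀ i₀ / m₀ i.1) = m₀ j / m₀ i₀ := by
        have := hm₀ i.1
        have := hm₀ i₀
        field_simp
      rw [h3] at h2
      exact h2
    have htop : r ∈ IntermediateField.adjoin ℂ
        (rangeAlg (φ i.1 i.2) (hc i.1 i.2) : Set K₀) := by
      have h1 : IntermediateField.adjoin ℂ (Set.range fun j => m₀ j / m₀ i₀) ≤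
          IntermediateField.adjoin ℂ (rangeAlg (φ i.1 i.2) (hc i.1 i.2) : Set K₀) := by
        rw [IntermediateField.adjoin_le_iff]
        rintro _ ⟨j, rfl⟩
        exact hle j
      rw [hgen] at h1
      exact h1 IntermediateField.mem_top
    rw [IntermediateField.mem_adjoin_iff_div, Algebra.adjoin_eq] at htop
    obtain ⟨a, ha, b, hb, rfl⟩ := htop
    by_cases hb0 : b = 0
    · refine ⟨0, zero_mem _, 1, one_mem _, one_ne_zero, ?_⟩
      rw [hb0, div_zero, zero_mul]
    · exact ⟨a, ha, b, hb, hb0, div_mul_cancel₀ a hb0⟩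
  · -- covering
    intro y
    obtain ⟨i, hi, hx⟩ := M.cover ((pullback.fst M.π (Spec.map (CommRingCat.ofHom ψ))) y)
    exact ⟨⟨i, hi⟩, hcov ⟨i, hi⟩ y hx⟩
  · -- compatibility
    intro i j
    have hX : Spec.map (CommRingCat.ofHom (φ i.1 i.2)) ≫ M.ι i.1 =
        Spec.map (CommRingCat.ofHom (φ j.1 j.2)) ≫ M.ι j.1 := by
      obtain ⟨Φ, h1, h2⟩ := exists_common hm i.1 j.1 m₀ hm₀ (φ i.1 i.2) (φ j.1 j.2)
        (fun r => by rw [hφ₁, hφ₁]) (fun k => hφ₂ i.1 i.2 k _) (fun k => hφ₂ j.1 j.2 k _)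
      have h3 := M.compat i.1 j.1 _ le_sup_left le_sup_right
      rw [← h1, ← h2, CommRingCat.ofHom_comp, CommRingCat.ofHom_comp, Spec.map_comp,
        Spec.map_comp, Category.assoc, Category.assoc, h3]
    have hval : ∀ i : I₀, ((rangeAlg (φ i.1 i.2) (hc i.1 i.2)).val.toRingHom).comp
        (toRange (φ i.1 i.2) (hc i.1 i.2)) = φ i.1 i.2 := fun _ => rfl
    apply pullback.hom_ext
    · rw [Category.assoc, Category.assoc, hfst, hfst, ← Category.assoc, ← Category.assoc,
        ← Spec.map_comp, ← Spec.map_comp, ← CommRingCat.ofHom_comp, ← CommRingCat.ofHom_comp,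
        hval, hval]
      exact hX
    · rw [Category.assoc, Category.assoc, hsnd, hsnd, ← Spec.map_comp, ← Spec.map_comp]
      rfl

end Pool.Agent.H16
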