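import Pool.Agent.H16.Irr.ChartDefs

/-!
# Kernels of base change maps
-/

open Polynomial

namespace Pool.Agent.H16

theorem adjoinRoot_map_ker {S S' : Type*} [CommRing S] [CommRing S'] (ψ : S →+* S')
    (hψ : Function.Surjective ψ) (f : S[X][X]) (f' : S'[X][X]) (hf : f' = f.map (mapRingHom ψ)) :
    ∃ Φ : AdjoinRoot f →+* AdjoinRoot f', Function.Surjective Φ ∧
      (∀ p : S[X][X], Φ (AdjoinRoot.mk f p) = AdjoinRoot.mk f' (p.map (mapRingHom ψ))) ∧
      RingHom.ker Φ = (RingHom.ker ψ).map (algebraMap S (AdjoinRoot f)) := by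
  have hψ1 : Function.Surjective (mapRingHom ψ) := Polynomial.map_surjective ψ hψ
  have hψ2 : Function.Surjective (mapRingHom (mapRingHom ψ)) :=
    Polynomial.map_surjective (mapRingHom ψ) hψ1
  let Φ : AdjoinRoot f →+* AdjoinRoot f' :=
    Ideal.Quotient.lift (Ideal.span {f}) ((AdjoinRoot.mk f').comp (mapRingHom (mapRingHom ψ)))
      (by
        intro p hp
        obtain ⟨q, rfl⟩ := Ideal.mem_span_singleton.1 hp
        simp only [RingHom.comp_apply, map_mul, coe_mapRingHom]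
        rw [← hf, AdjoinRoot.mk_self, zero_mul])
  have hΦ : ∀ p : S[X][X], Φ (AdjoinRoot.mk f p) = AdjoinRoot.mk f' (p.map (mapRingHom ψ)) :=
    fun p => rfl
  refine ⟨Φ, ?_, hΦ, ?_⟩
  · intro z
    obtain ⟨p', rfl⟩ := AdjoinRoot.mk_surjective z
    obtain ⟨p, rfl⟩ := hψ2 p'
    exact ⟨AdjoinRoot.mk f p, hΦ p⟩
  · have hmap : (RingHom.ker ψ).map (algebraMap S (AdjoinRoot f)) =
        (RingHom.ker (mapRingHom (mapRingHom ψ))).map (AdjoinRoot.mk f) := by
      rw [Polynomial.ker_mapRingHom, Polynomial.ker_mapRingHom, Ideal.map_map, Ideal.map_map]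
      rfl
    rw [hmap]
    apply le_antisymm
    · intro z hz
      obtain ⟨p, rfl⟩ := AdjoinRoot.mk_surjective z
      rw [RingHom.mem_ker, hΦ, AdjoinRoot.mk_eq_zero] at hz
      obtain ⟨q', hq'⟩ := hz
      obtain ⟨q, rfl⟩ := hψ2 q'
      have h1 : p - f * q ∈ RingHom.ker (mapRingHom (mapRingHom ψ)) := by
        rw [RingHom.mem_ker, map_sub, map_mul, coe_mapRingHom, ← hf, hq']
        simp
      have h2 : AdjoinRoot.mk f p = AdjoinRoot.mk f (p - f * q) := by
        rw [map_sub, map_mul, AdjoinRoot.mk_self, zero_mul, sub_zero]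
      rw [h2]
      exact Ideal.mem_map_of_mem _ h1
    · rw [Ideal.map_le_iff_le_comap]
      intro p hp
      rw [Ideal.mem_comap, RingHom.mem_ker, hΦ]
      have : p.map (mapRingHom ψ) = 0 := hp
      rw [this, map_zero]

end Pool.Agent.H16
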