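import Pool.Agent.H16.Irr.ChartDefs

/-!
# The base rings embed in the function field
-/

open Polynomial

namespace Pool.Agent.H16

namespace ModX4

theorem not_square {k : Type*} [Field k] [CharZero k] (α β : k) (hα : α ≠ 0) (hβ : β ≠ 0)
    (q : k[X]) (h : q ^ 2 = C α * X ^ 12 + C β) : False := by
  have h0 : q.coeff 0 ≠ 0 := by
    intro h0
    have h1 := congrArg (fun p => p.eval 0) h
    simp only [eval_pow, eval_add, eval_mul, eval_C, eval_X] at h1
    rw [← coeff_zero_eq_eval_zero, h0] at h1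
    apply hβ
    simpa using h1.symm
  have hd : 2 * q * derivative q = C (12 * α) * X ^ 11 := by
    have h1 := congrArg derivative h
    simp only [derivative_pow, derivative_add, derivative_mul, derivative_C] at h1
    norm_num at h1
    have e2 : (C 2 : k[X]) = 2 := map_ofNat C 2
    have e12 : (C 12 : k[X]) = 12 := map_ofNat C 12
    rw [e2, e12] at h1
    rw [map_mul, e12]
    linear_combination h1
  have hdvd : q ∣ X ^ 11 := by
    have h1 : q ∣ C (12 * α) * X ^ 11 := ⟨2 * derivative q, by rw [← hd]; ring⟩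
    have hu : IsUnit (C (12 * α) : k[X]) := by
      rw [isUnit_C, isUnit_iff_ne_zero]
      exact mul_ne_zero (by norm_num) hα
    exact (hu.dvd_mul_left).1 h1
  have hcop : IsCoprime q (X ^ 11) := by
    apply IsCoprime.pow_right
    apply IsCoprime.symm
    rw [irreducible_X.coprime_iff_not_dvd, X_dvd_iff]
    exact h0
  have hunit : IsUnit q := hcop.isUnit_of_dvd' dvd_rfl hdvd
  have h2 : (q ^ 2).natDegree = 12 := by
    rw [h]
    compute_degree!
  rw [natDegree_pow, natDegree_eq_zero_of_isUnit hunit] at h2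
  omega

theorem lin {S : Type*} [CommRing S] [IsDomain S] [CharZero S] (A B : S[X]) (α β : S) (hα : α ≠ 0)
    (hβ : β ≠ 0) (hD : A ^ 2 - 4 * B = C α * X ^ 12 + C β) (c₀ c₁ : S[X])
    (h : c₁ ^ 2 - A * c₀ * c₁ + B * c₀ ^ 2 = 0) : c₀ = 0 ∧ c₁ = 0 := by
  by_cases h0 : c₀ = 0
  · subst h0
    simpa using h
  · exfalso
    let k := FractionRing S
    have hSk : Function.Injective (algebraMap S k) := IsFractionRing.injective S k
    have : CharZero k := charZero_of_injective_algebraMap hSk
    let ρ : S[X] →+* k[X] := mapRingHom (algebraMap S k)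
    have hρ : Function.Injective ρ := Polynomial.map_injective _ hSk
    have h1 : (2 * ρ c₁ - ρ A * ρ c₀) ^ 2 = (ρ c₀) ^ 2 * ρ (A ^ 2 - 4 * B) := by
      have h2 := congrArg ρ h
      simp only [map_add, map_sub, map_mul, map_pow, map_zero] at h2
      simp only [map_sub, map_mul, map_pow, map_ofNat]
      linear_combination 4 * h2
    have h3 : (ρ c₀) ^ 2 ∣ (2 * ρ c₁ - ρ A * ρ c₀) ^ 2 := ⟨_, h1⟩
    rw [IsIntegrallyClosed.pow_dvd_pow_iff two_ne_zero] at h3
    obtain ⟨q, hq⟩ := h3
    have h4 : ρ c₀ ≠ 0 := fun h5 => h0 (hρ (by rw [h5, map_zero]))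
    have h6 : q ^ 2 = ρ (A ^ 2 - 4 * B) := by
      rw [hq, mul_pow] at h1
      exact mul_left_cancel₀ (pow_ne_zero 2 h4) h1
    rw [hD] at h6
    simp only [ρ, coe_mapRingHom, Polynomial.map_add, Polynomial.map_mul, Polynomial.map_pow,
      map_C, map_X] at h6
    exact not_square _ _ (fun h7 => hα (hSk (by rw [h7, map_zero])))
      (fun h7 => hβ (hSk (by rw [h7, map_zero]))) q h6

end ModX4

open ModX4

theorem pB_injective {S : Type*} [CommRing S] [CharZero S] {K : Type*} [Field K]
    [Algebra S K] (hinj : Function.Injective (algebraMap S K)) (t ε : K)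
    (hε : ε ^ 2 + ε + t ^ 12 = 0) (ht : Transcendental S t) :
    ∃ Φ : AdjoinRoot (pB S) →ₐ[S] K, Function.Injective Φ ∧
      Φ (AdjoinRoot.of _ X) = t ∧ Φ (AdjoinRoot.root _) = ε⁻¹ := by
  have : IsDomain S := hinj.isDomain (algebraMap S K)
  have ht0 : t ≠ 0 := by
    rintro rfl
    exact ht isAlgebraic_zero
  have hε0 : ε ≠ 0 := by
    rintro rfl
    apply ht0
    simpa using hε
  let ev : S[X] →+* K := (aeval t : S[X] →ₐ[S] K).toRingHom
  have hev : ∀ p : S[X], ev p = aeval t p := fun p => rfl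
  have hevX : ev X = t := by rw [hev, aeval_X]
  have hevinj : ∀ p : S[X], ev p = 0 → p = 0 := fun p hp => (transcendental_iff.1 ht) p hp
  have hroot : (pB S).eval₂ ev ε⁻¹ = 0 := by
    simp only [pB, eval₂_add, eval₂_mul, eval₂_C, eval₂_pow, eval₂_X, eval₂_one, hev, map_pow,
      aeval_X]
    field_simp
    linear_combination hε
  let Φ₀ : AdjoinRoot (pB S) →+* K := AdjoinRoot.lift ev ε⁻¹ hroot
  let Φ : AdjoinRoot (pB S) →ₐ[S] K :=
    { Φ₀ with
      commutes' := by
        intro r
        have : algebraMap S (AdjoinRoot (pB S)) r = AdjoinRoot.of (pB S) (C r) := rfl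
        change Φ₀ _ = _
        rw [this, AdjoinRoot.lift_of, hev, aeval_C] }
  have hΦmk : ∀ p : S[X][X], Φ (AdjoinRoot.mk _ p) = p.eval₂ ev ε⁻¹ :=
    fun p => AdjoinRoot.lift_mk hroot p
  have hlin : ∀ c₀ c₁ : S[X], ev c₀ * ε + ev c₁ = 0 → c₀ = 0 ∧ c₁ = 0 := by
    intro c₀ c₁ h
    refine lin 1 (X ^ 12) (-4) 1 (by norm_num) one_ne_zero (by
      simp only [map_neg, map_ofNat, map_one]
      ring) c₀ c₁ ?_
    apply hevinj
    simp only [map_add, map_sub, map_mul, map_pow, map_one, hevX]
    linear_combination (ev c₀) ^ 2 * hε - (ev c₀ * ε + ev c₀ - ev c₁) * h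
  have hkey : ∀ (n : ℕ) (p : S[X][X]), p.natDegree ≤ n → p.eval₂ ev ε⁻¹ = 0 → pB S ∣ p := by
    intro n
    induction n with
    | zero =>
      intro p hp h
      obtain ⟨c, rfl⟩ := natDegree_eq_zero.1 (Nat.le_zero.1 hp)
      rw [eval₂_C] at h
      rw [hevinj c h, map_zero]
      exact dvd_zero _
    | succ n ih =>
      intro p hp h
      by_cases h1 : p.natDegree ≤ 1
      · obtain ⟨a, b, rfl⟩ := exists_eq_X_add_C_of_natDegree_le_one h1
        simp only [eval₂_add, eval₂_mul, eval₂_C, eval₂_X] at h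
        have h2 : ev b * ε + ev a = 0 := by
          have h3 : (ev a * ε⁻¹ + ev b) * ε = 0 := by rw [h, zero_mul]
          rw [add_mul, mul_assoc, inv_mul_cancel₀ hε0, mul_one] at h3
          linear_combination h3
        obtain ⟨rfl, rfl⟩ := hlin b a h2
        simp
      · set P : S[X][X] := p - C (p.coeff 0) * pB S with hP
        have hP0 : P.coeff 0 = 0 := by
          rw [hP, coeff_sub, coeff_C_mul]
          simp [pB]
        have hPd : P.natDegree ≤ n + 1 := by
          rw [hP]
          refine (natDegree_sub_le _ _).trans (max_le hp ?_)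
          refine (natDegree_C_mul_le _ _).trans ?_
          have : (pB S).natDegree ≤ 2 := by
            rw [pB]
            compute_degree!
          omega
        have hPX : divX P * X = P := by
          have := divX_mul_X_add P
          rwa [hP0, map_zero, add_zero] at this
        have hPev : P.eval₂ ev ε⁻¹ = 0 := by
          rw [hP, eval₂_sub, eval₂_mul, hroot, mul_zero, sub_zero, h]
        have hdev : (divX P).eval₂ ev ε⁻¹ = 0 := by
          rw [← hPX, eval₂_mul, eval₂_X] at hPev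
          exact (mul_eq_zero.1 hPev).resolve_right (inv_ne_zero hε0)
        have hdd : (divX P).natDegree ≤ n := by
          rw [natDegree_divX_eq_natDegree_tsub_one]
          omega
        have h3 : pB S ∣ P := by
          rw [← hPX]
          exact (ih _ hdd hdev).mul_right _
        have h4 : p = P + C (p.coeff 0) * pB S := by
          rw [hP]
          ring
        rw [h4]
        exact dvd_add h3 (dvd_mul_left _ _)
  refine ⟨Φ, ?_, ?_, ?_⟩
  · rw [injective_iff_map_eq_zero]
    intro z hz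
    obtain ⟨p, rfl⟩ := AdjoinRoot.mk_surjective z
    rw [hΦmk] at hz
    rw [AdjoinRoot.mk_eq_zero]
    exact hkey _ p le_rfl hz
  · have : Φ (AdjoinRoot.of _ X) = ev X := AdjoinRoot.lift_of hroot
    rw [this, hevX]
  · exact AdjoinRoot.lift_root hroot

theorem qB_injective {S : Type*} [CommRing S] [CharZero S] {K : Type*} [Field K]
    [Algebra S K] (hinj : Function.Injective (algebraMap S K)) (t ε : K)
    (hε : ε ^ 2 + ε + t ^ 12 = 0) (ht : Transcendental S t) :
    ∃ Φ : AdjoinRoot (qB S) →ₐ[S] K, Function.Injective Φ ∧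
      Φ (AdjoinRoot.of _ X) = t⁻¹ ∧ Φ (AdjoinRoot.root _) = ε / t ^ 6 := by
  have : IsDomain S := hinj.isDomain (algebraMap S K)
  have ht0 : t ≠ 0 := by
    rintro rfl
    exact ht isAlgebraic_zero
  have hs : Transcendental S t⁻¹ := fun h => ht (by simpa using h.inv)
  let ev : S[X] →+* K := (aeval t⁻¹ : S[X] →ₐ[S] K).toRingHom
  have hev : ∀ p : S[X], ev p = aeval t⁻¹ p := fun p => rfl
  have hevX : ev X = t⁻¹ := by rw [hev, aeval_X]
  have hevinj : ∀ p : S[X], ev p = 0 → p = 0 := fun p hp => (transcendental_iff.1 hs) p hp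
  have hee : (ε / t ^ 6) ^ 2 + t⁻¹ ^ 6 * (ε / t ^ 6) + 1 = 0 := by
    field_simp
    linear_combination hε
  have hroot : (qB S).eval₂ ev (ε / t ^ 6) = 0 := by
    simp only [qB, eval₂_add, eval₂_mul, eval₂_C, eval₂_pow, eval₂_X, eval₂_one, hev, map_pow,
      aeval_X]
    exact hee
  let Φ₀ : AdjoinRoot (qB S) →+* K := AdjoinRoot.lift ev (ε / t ^ 6) hroot
  let Φ : AdjoinRoot (qB S) →ₐ[S] K :=
    { Φ₀ with
      commutes' := by
        intro r
        have : algebraMap S (AdjoinRoot (qB S)) r = AdjoinRoot.of (qB S) (C r) := rfl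
        change Φ₀ _ = _
        rw [this, AdjoinRoot.lift_of, hev, aeval_C] }
  have hΦmk : ∀ p : S[X][X], Φ (AdjoinRoot.mk _ p) = p.eval₂ ev (ε / t ^ 6) :=
    fun p => AdjoinRoot.lift_mk hroot p
  have hlin : ∀ c₀ c₁ : S[X], ev c₀ * (ε / t ^ 6) + ev c₁ = 0 → c₀ = 0 ∧ c₁ = 0 := by
    intro c₀ c₁ h
    refine lin (X ^ 6) 1 1 (-4) one_ne_zero (by norm_num) (by
      simp only [map_neg, map_ofNat, map_one]
      ring) c₀ c₁ ?_
    apply hevinj
    simp only [map_add, map_sub, map_mul, map_pow, map_one, hevX]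
    linear_combination (ev c₀) ^ 2 * hee -
      (ev c₀ * (ε / t ^ 6) + t⁻¹ ^ 6 * ev c₀ - ev c₁) * h
  have hm : (qB S).Monic := by
    rw [qB]
    monicity!
  have hd : (qB S).natDegree = 2 := by
    rw [qB]
    compute_degree!
  refine ⟨Φ, ?_, ?_, ?_⟩
  · rw [injective_iff_map_eq_zero]
    intro z hz
    obtain ⟨p, rfl⟩ := AdjoinRoot.mk_surjective z
    have hpr : AdjoinRoot.mk (qB S) p = AdjoinRoot.mk (qB S) (p %ₘ qB S) := by
      conv_lhs => rw [← modByMonic_add_div p (qB S)]
      rw [map_add, map_mul, AdjoinRoot.mk_self, zero_mul, add_zero]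
    have hrd : (p %ₘ qB S).natDegree ≤ 1 := by
      have h1 := natDegree_modByMonic_lt p hm (by
        intro h1
        rw [h1] at hd
        simp at hd)
      omega
    rw [hpr, hΦmk] at hz
    rw [hpr]
    obtain ⟨a, b, hab⟩ := exists_eq_X_add_C_of_natDegree_le_one hrd
    rw [hab] at hz ⊢
    simp only [eval₂_add, eval₂_mul, eval₂_C, eval₂_X] at hz
    obtain ⟨rfl, rfl⟩ := hlin a b hz
    simp
  · have : Φ (AdjoinRoot.of _ X) = ev X := AdjoinRoot.lift_of hroot
    rw [this, hevX]
  · exact AdjoinRoot.lift_root hroot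

end Pool.Agent.H16
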