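import Pool.Agent.H16.Irr.ModX5

/-!
# General facts on charts and generic points (used by the modules X6 and X7)
-/

open AlgebraicGeometry CategoryTheory CategoryTheory.Limits Polynomial

namespace Pool.Agent.H16

namespace ModX6


/-! ### Transcendence -/

lemma algInd_two {S K : Type*} [CommRing S] [Field K] [Algebra S K] (t y : K) :
    AlgebraicIndependent S ![t, y] ↔
      Transcendental S t ∧ Transcendental (Algebra.adjoin S {t}) y := by
  rw [← algebraicIndependent_equiv (finSuccEquivLast (n := 1)).symm]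
  have h1 : (![t, y] : Fin 2 → K) ∘ (finSuccEquivLast (n := 1)).symm =
      fun o : Option (Fin 1) => o.elim y (![t] : Fin 1 → K) := by
    funext o
    rcases o with _ | k
    · rw [Function.comp_apply, finSuccEquivLast_symm_none]; rfl
    · have hk : k = 0 := Subsingleton.elim _ _
      subst hk
      rw [Function.comp_apply, finSuccEquivLast_symm_some]; rfl
  rw [h1, AlgebraicIndependent.option_iff, algebraicIndependent_iff_transcendental]
  have h2 : Set.range (![t] : Fin 1 → K) = {t} := by simp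
  rw [h2]

/-- an element of `K` algebraic over a set of algebraic elements is algebraic -/
lemma isAlgebraic_of_subalgebra {S K : Type*} [CommRing S] [Field K] [Algebra S K]
    (R₀ : Subalgebra S K) (B : Set K) (hB : ∀ b ∈ B, IsAlgebraic R₀ b) (z : K)
    (p : K[X]) (hp : ∀ n, p.coeff n ∈ B) (hp0 : p ≠ 0) (hz : p.eval z = 0) : IsAlgebraic R₀ z := by
  let L := Subalgebra.algebraicClosure R₀ K
  have hL : ∀ b ∈ B, b ∈ L := hB
  obtain ⟨q, hq⟩ : ∃ q : L[X], q.map (algebraMap L K) = p := by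
    have h1 : p ∈ Polynomial.lifts (algebraMap L K) := by
      rw [Polynomial.lifts_iff_coeff_lifts]
      intro n
      exact ⟨⟨_, hL _ (hp n)⟩, rfl⟩
    obtain ⟨q, hq⟩ := h1
    exact ⟨q, hq⟩
  have h2 : IsAlgebraic L z := by
    refine ⟨q, ?_, ?_⟩
    · rintro rfl
      apply hp0
      rw [← hq, Polynomial.map_zero]
    · rw [← Polynomial.eval_map_algebraMap, hq, hz]
  exact h2.restrictScalars R₀

lemma range_eq_adjoin {S K : Type*} [CommRing S] [CommRing K] [Algebra S K] (f : S[X][X])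
    (Φ : AdjoinRoot f →ₐ[S] K) :
    Φ.range = Algebra.adjoin S {Φ (AdjoinRoot.of f X), Φ (AdjoinRoot.root f)} := by
  apply le_antisymm
  · rintro _ ⟨z, rfl⟩
    change Φ z ∈ _
    obtain ⟨p, rfl⟩ := AdjoinRoot.mk_surjective z
    have hof : ∀ c : S[X], Φ (AdjoinRoot.of f c) ∈
        Algebra.adjoin S {Φ (AdjoinRoot.of f X), Φ (AdjoinRoot.root f)} := by
      intro c
      induction c using Polynomial.induction_on' with
      | add p q hp hq => rw [map_add, map_add]; exact add_mem hp hq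
      | monomial n a =>
        have h1 : AdjoinRoot.of f (monomial n a) =
            algebraMap S (AdjoinRoot f) a * AdjoinRoot.of f X ^ n := by
          rw [← C_mul_X_pow_eq_monomial, map_mul, map_pow]
          rfl
        rw [h1, map_mul, map_pow, AlgHom.commutes]
        exact mul_mem (Subalgebra.algebraMap_mem _ _)
          (pow_mem (Algebra.subset_adjoin (Set.mem_insert _ _)) _)
    induction p using Polynomial.induction_on' with
    | add p q hp hq => rw [map_add, map_add]; exact add_mem hp hq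
    | monomial n a =>
      have h1 : AdjoinRoot.mk f (monomial n a) = AdjoinRoot.of f a * AdjoinRoot.root f ^ n := by
        rw [← C_mul_X_pow_eq_monomial, map_mul, map_pow]
        rfl
      rw [h1, map_mul, map_pow]
      exact mul_mem (hof a) (pow_mem (Algebra.subset_adjoin
        (Set.mem_insert_of_mem _ (Set.mem_singleton _))) _)
  · rw [Algebra.adjoin_le_iff]
    rintro z (hz | hz)
    · rw [hz]; exact ⟨_, rfl⟩
    · rw [Set.mem_singleton_iff.1 hz]; exact ⟨_, rfl⟩

/-! ### Consequences of the equations of a generic point -/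

section genPt

variable {S K : Type*} [CommRing S] [Field K] [Algebra S K] {l : S} {t ε y w : K}

lemma t_ne (h : GenPt S l K t ε y w) : t ≠ 0 := by
  rintro rfl
  have h1 := ((algInd_two _ _).1 h.indep).1
  have h2 := h.indep.algebraMap_injective
  have h3 : Nontrivial S := (algebraMap S K).domain_nontrivial
  exact h1 isAlgebraic_zero

lemma e_ne (h : GenPt S l K t ε y w) : ε ≠ 0 := by
  rintro rfl
  have h1 := h.rel1
  have h2 := t_ne h
  have h3 : t ^ 12 = 0 := by linear_combination h1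
  exact h2 (pow_eq_zero_iff (by norm_num) |>.1 h3)

lemma e'_ne (h : GenPt S l K t ε y w) : -1 - ε ≠ 0 := by
  intro h0
  have h1 := h.rel1
  have h2 := t_ne h
  have h3 : t ^ 12 = 0 := by linear_combination h1 + ε * h0
  exact h2 (pow_eq_zero_iff (by norm_num) |>.1 h3)

lemma e_alg (h : GenPt S l K t ε y w) : IsAlgebraic (Algebra.adjoin S {t}) ε := by
  have h2 := h.indep.algebraMap_injective
  have h3 : Nontrivial S := (algebraMap S K).domain_nontrivial
  let T : Algebra.adjoin S {t} := ⟨t, Algebra.subset_adjoin rfl⟩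
  have hne : ∀ a : Algebra.adjoin S {t}, (X ^ 2 + X + C a) ≠ 0 := by
    intro a h0
    have := congrArg (fun p => coeff p 2) h0
    simp [coeff_X, coeff_C] at this
  refine ⟨X ^ 2 + X + C (T ^ 12), hne _, ?_⟩
  · have h1 := h.rel1
    simp only [map_add, map_pow, aeval_X, aeval_C]
    exact h1

lemma y_transc (h : GenPt S l K t ε y w) : ¬ IsAlgebraic (Algebra.adjoin S {t}) y :=
  ((algInd_two _ _).1 h.indep).2

lemma cubic_ne_zero (a b c : K) (ha : a ≠ 0) : C a * X ^ 3 - C b * X + C c ≠ 0 := by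
  intro h0
  have := congrArg (fun p => coeff p 3) h0
  simp only [coeff_add, coeff_sub, coeff_C_mul, coeff_X_pow, coeff_C, coeff_X, coeff_zero] at this
  norm_num at this
  exact ha this

lemma w_transc (h : GenPt S l K t ε y w) : ¬ IsAlgebraic (Algebra.adjoin S {t}) w := by
  intro hw
  apply y_transc h
  have h2 := h.indep.algebraMap_injective
  have h3 : Nontrivial S := (algebraMap S K).domain_nontrivial
  have hal : ∀ a : Algebra.adjoin S {t}, IsAlgebraic (Algebra.adjoin S {t}) (a : K) := fun a =>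
    isAlgebraic_algebraMap a
  have ht : IsAlgebraic (Algebra.adjoin S {t}) t := hal ⟨t, Algebra.subset_adjoin rfl⟩
  have hl : IsAlgebraic (Algebra.adjoin S {t}) (3 * algebraMap S K l) :=
    hal ⟨_, mul_mem (Subalgebra.natCast_mem _ 3) (Subalgebra.algebraMap_mem _ l)⟩
  have h1 : IsAlgebraic (Algebra.adjoin S {t}) (1 : K) := hal 1
  refine isAlgebraic_of_subalgebra _ {z | IsAlgebraic (Algebra.adjoin S {t}) z} (fun _ hb => hb) y
    (C (-1 - ε) * X ^ 3 - C (3 * algebraMap S K l * t ^ 4 * w) * X + C (1 + ε * w ^ 3)) ?_ ?_ ?_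
  · have hset : ∀ p q : K[X], (∀ n, IsAlgebraic (Algebra.adjoin S {t}) (p.coeff n)) →
        (∀ n, IsAlgebraic (Algebra.adjoin S {t}) (q.coeff n)) →
        ∀ n, IsAlgebraic (Algebra.adjoin S {t}) ((p + q).coeff n) := by
      intro p q hp hq n
      rw [coeff_add]
      exact (hp n).add (hq n)
    have hmono : ∀ (a : K) (k : ℕ), IsAlgebraic (Algebra.adjoin S {t}) a →
        ∀ n, IsAlgebraic (Algebra.adjoin S {t}) ((C a * X ^ k).coeff n) := by
      intro a k ha n
      rw [coeff_C_mul_X_pow]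
      split_ifs
      · exact ha
      · exact isAlgebraic_zero
    have e1 : (C (-1 - ε) * X ^ 3 - C (3 * algebraMap S K l * t ^ 4 * w) * X +
        C (1 + ε * w ^ 3) : K[X]) = C (-1 - ε) * X ^ 3 +
        C (-(3 * algebraMap S K l * t ^ 4 * w)) * X ^ 1 + C (1 + ε * w ^ 3) * X ^ 0 := by
      simp only [map_neg]
      ring
    rw [e1]
    refine hset _ _ (hset _ _ (hmono _ _ ?_) (hmono _ _ ?_)) (hmono _ _ ?_)
    · exact (h1.neg).sub (e_alg h)
    · exact (((hl.mul (ht.pow 4)).mul hw)).neg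
    · exact h1.add ((e_alg h).mul (hw.pow 3))
  · exact cubic_ne_zero _ _ _ (e'_ne h)
  · have := h.rel2
    simp only [eval_add, eval_sub, eval_mul, eval_C, eval_pow, eval_X]
    linear_combination this

lemma y_ne (h : GenPt S l K t ε y w) : y ≠ 0 := by
  rintro rfl
  have h3 : Nontrivial S := (algebraMap S K).domain_nontrivial
  exact y_transc h isAlgebraic_zero

lemma w_ne (h : GenPt S l K t ε y w) : w ≠ 0 := by
  rintro rfl
  have h3 : Nontrivial S := (algebraMap S K).domain_nontrivial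
  exact w_transc h isAlgebraic_zero

/-- the involution -/
lemma flip (h : GenPt S l K t ε y w) : GenPt S l K t (-1 - ε) w y where
  rel1 := by linear_combination h.rel1
  rel2 := by linear_combination h.rel2
  indep := (algInd_two _ _).2 ⟨((algInd_two _ _).1 h.indep).1, w_transc h⟩

end genPt


/-! ### General facts on charts -/

lemma chartAlg_eq {S K J : Type} [CommRing S] [Field K] [Algebra S K] (m : J → K) (i : J)
    (f : S[X][X]) (Φ : AdjoinRoot f →ₐ[S] K) (x y : K)
    (h1 : ∀ j, m j / m i ∈ Φ.range ⊔ Algebra.adjoin S {x, y})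
    (ht : Φ (AdjoinRoot.of f X) ∈ chartAlg S m i) (hη : Φ (AdjoinRoot.root f) ∈ chartAlg S m i)
    (hx : x ∈ chartAlg S m i) (hy : y ∈ chartAlg S m i) :
    chartAlg S m i = Φ.range ⊔ Algebra.adjoin S {x, y} := by
  apply le_antisymm
  · rw [Algebra.adjoin_le_iff]
    rintro _ ⟨j, rfl⟩
    exact h1 j
  · refine sup_le ?_ ?_
    · rw [range_eq_adjoin, Algebra.adjoin_le_iff]
      rintro z (hz | hz)
      · rw [hz]; exact ht
      · rw [Set.mem_singleton_iff.1 hz]; exact hη
    · rw [Algebra.adjoin_le_iff]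
      rintro z (hz | hz)
      · rw [hz]; exact hx
      · rw [Set.mem_singleton_iff.1 hz]; exact hy

lemma transc_range {S K : Type*} [CommRing S] [Field K] [Algebra S K] (R₀ : Subalgebra S K)
    (B : Subalgebra S K) (hB : ∀ b ∈ B, IsAlgebraic R₀ b) (z : K) (hz : ¬ IsAlgebraic R₀ z) :
    Transcendental B z := by
  rintro ⟨p, hp0, hp⟩
  apply hz
  refine isAlgebraic_of_subalgebra R₀ B hB z (p.map (algebraMap B K)) ?_ ?_ ?_
  · intro n
    rw [coeff_map]
    exact (p.coeff n).2
  · intro h0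
    exact hp0 ((Polynomial.map_eq_zero_iff Subtype.val_injective).1 h0)
  · rw [Polynomial.eval_map_algebraMap]
    exact hp

lemma range_alg {S K : Type*} [CommRing S] [Field K] [Algebra S K] (R₀ : Subalgebra S K)
    (f : S[X][X]) (Φ : AdjoinRoot f →ₐ[S] K)
    (ht : IsAlgebraic R₀ (Φ (AdjoinRoot.of f X))) (hη : IsAlgebraic R₀ (Φ (AdjoinRoot.root f))) :
    ∀ b ∈ Φ.range, IsAlgebraic R₀ b := by
  intro b hb
  rw [range_eq_adjoin] at hb
  induction hb using Algebra.adjoin_induction with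
  | mem x hx =>
    rcases hx with hx | hx
    · rw [hx]; exact ht
    · rw [Set.mem_singleton_iff.1 hx]; exact hη
  | algebraMap r => exact isAlgebraic_algebraMap (⟨_, Subalgebra.algebraMap_mem _ r⟩ : R₀)
  | add x y _ _ hx hy => exact hx.add hy
  | mul x y _ _ hx hy => exact hx.mul hy

/-- the general form of the specialisation lemma of a chart -/
lemma chart_spec_gen {S K J : Type} [CommRing S] [Algebra ℂ S] [Field K] [Algebra S K]
    (m : J → K) (i : J) (f₁ : S[X][X]) (Φ₁ : AdjoinRoot f₁ →ₐ[S] K)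
    (hΦ₁ : Function.Injective Φ₁)
    (a b c μ : AdjoinRoot f₁) (habc : a * b * c = 1) (hμ : μ ^ 3 ≠ 1) (x y : K)
    (hx : Transcendental Φ₁.range x)
    (hrel : Φ₁ a * x ^ 3 + Φ₁ b * y ^ 3 + Φ₁ c = 3 * Φ₁ μ * x * y)
    (hA : chartAlg S m i = Φ₁.range ⊔ Algebra.adjoin S {x, y})
    (ψ : S →+* ℂ) (hψ : Function.Surjective ψ) (f₀ : ℂ[X][X]) (hf₀ : f₀ = f₁.map (mapRingHom ψ))
    (Ψ : AdjoinRoot f₁ →+* AdjoinRoot f₀)
    (hΨ : ∀ p : S[X][X], Ψ (AdjoinRoot.mk f₁ p) = AdjoinRoot.mk f₀ (p.map (mapRingHom ψ)))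
    {K₀ : Type} [Field K₀] [Algebra ℂ K₀] (Φ₀ : AdjoinRoot f₀ →ₐ[ℂ] K₀)
    (hΦ₀ : Function.Injective Φ₀) (x₀ y₀ : K₀) (hx₀ : Transcendental Φ₀.range x₀)
    (hμ₀ : Ψ μ ^ 3 ≠ 1)
    (hrel₀ : Φ₀ (Ψ a) * x₀ ^ 3 + Φ₀ (Ψ b) * y₀ ^ 3 + Φ₀ (Ψ c) = 3 * Φ₀ (Ψ μ) * x₀ * y₀)
    (m₀ : J → K₀) (P : J → MvPolynomial (Fin 2) (AdjoinRoot f₁))
    (hP : ∀ j, m j / m i = MvPolynomial.eval₂Hom Φ₁.toRingHom ![x, y] (P j))
    (hP₀ : ∀ j, m₀ j / m₀ i = MvPolynomial.eval₂Hom (Φ₀.toRingHom.comp Ψ) ![x₀, y₀] (P j)) :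
    ∃ φ : chartAlg S m i →+* K₀,
      (∀ r : S, φ (algebraMap S _ r) = algebraMap ℂ K₀ (ψ r)) ∧
      (∀ (j : J) (hj : m j / m i ∈ chartAlg S m i), φ ⟨m j / m i, hj⟩ = m₀ j / m₀ i) ∧
      RingHom.ker φ = (RingHom.ker ψ).map (algebraMap S (chartAlg S m i)) := by
  obtain ⟨φ, hφ1, hφx, hφy, hker⟩ := core_spec f₁ Φ₁ hΦ₁ a b c μ habc hμ x y hx hrel
    (chartAlg S m i) hA ψ hψ f₀ hf₀ Ψ hΨ Φ₀ hΦ₀ x₀ y₀ hx₀ hμ₀ hrel₀
  have hmemΦ : ∀ z, Φ₁ z ∈ chartAlg S m i := by
    intro z
    rw [hA]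
    exact (le_sup_left : Φ₁.range ≤ _) ⟨z, rfl⟩
  have hmemx : x ∈ chartAlg S m i := by
    rw [hA]
    exact (le_sup_right : Algebra.adjoin S {x, y} ≤ _)
      (Algebra.subset_adjoin (Set.mem_insert _ _))
  have hmemy : y ∈ chartAlg S m i := by
    rw [hA]
    exact (le_sup_right : Algebra.adjoin S {x, y} ≤ _)
      (Algebra.subset_adjoin (Set.mem_insert_of_mem _ (Set.mem_singleton _)))
  refine ⟨φ, ?_, ?_, hker⟩
  · intro r
    have h1 : algebraMap S (chartAlg S m i) r =
        ⟨Φ₁ (algebraMap S (AdjoinRoot f₁) r), hmemΦ _⟩ := by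
      apply Subtype.ext
      change algebraMap S K r = Φ₁ (algebraMap S (AdjoinRoot f₁) r)
      rw [AlgHom.commutes]
    have h2 : Ψ (algebraMap S (AdjoinRoot f₁) r) = algebraMap ℂ (AdjoinRoot f₀) (ψ r) := by
      have h3 := hΨ (C (C r))
      rw [map_C, coe_mapRingHom, map_C] at h3
      exact h3
    rw [h1, hφ1, h2, AlgHom.commutes]
  · intro j hj
    let g : AdjoinRoot f₁ →+* chartAlg S m i := Φ₁.toRingHom.codRestrict _ hmemΦ
    let v : Fin 2 → chartAlg S m i := ![⟨x, hmemx⟩, ⟨y, hmemy⟩]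
    have h1 : (⟨m j / m i, hj⟩ : chartAlg S m i) = MvPolynomial.eval₂Hom g v (P j) := by
      apply Subtype.ext
      change m j / m i = (chartAlg S m i).val.toRingHom (MvPolynomial.eval₂Hom g v (P j))
      rw [hP j]
      have h2 : ((chartAlg S m i).val.toRingHom.comp (MvPolynomial.eval₂Hom g v)) =
          MvPolynomial.eval₂Hom Φ₁.toRingHom ![x, y] := by
        apply MvPolynomial.ringHom_ext
        · intro z
          rw [RingHom.comp_apply, MvPolynomial.eval₂Hom_C, MvPolynomial.eval₂Hom_C]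
          rfl
        · intro k
          rw [RingHom.comp_apply, MvPolynomial.eval₂Hom_X', MvPolynomial.eval₂Hom_X']
          fin_cases k
          · rfl
          · rfl
      rw [← h2]
      rfl
    rw [h1, hP₀ j]
    have h2 : φ.comp (MvPolynomial.eval₂Hom g v) =
        MvPolynomial.eval₂Hom (Φ₀.toRingHom.comp Ψ) ![x₀, y₀] := by
      apply MvPolynomial.ringHom_ext
      · intro z
        rw [RingHom.comp_apply, MvPolynomial.eval₂Hom_C, MvPolynomial.eval₂Hom_C]
        exact hφ1 z (hmemΦ z)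
      · intro k
        rw [RingHom.comp_apply, MvPolynomial.eval₂Hom_X', MvPolynomial.eval₂Hom_X']
        fin_cases k
        · exact hφx hmemx
        · exact hφy hmemy
    rw [← h2]
    rfl

end ModX6

end Pool.Agent.H16
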