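import Pool.Agent.H16.Irr.ModX1
import Pool.Agent.H16.Irr.ModX2
import Pool.Agent.H16.Irr.ModX4
import Pool.Agent.H16.Irr.ModX6Gen

/-!
# The six charts over the finite part of the base curve
-/

open AlgebraicGeometry CategoryTheory CategoryTheory.Limits Polynomial

namespace Pool.Agent.H16


namespace ModX6

lemma eval_mem {S K : Type} [CommRing S] [Field K] [Algebra S K]
    (f : S[X][X]) (Φ : AdjoinRoot f →ₐ[S] K) (x y : K)
    (P : MvPolynomial (Fin 2) (AdjoinRoot f)) :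
    MvPolynomial.eval₂Hom Φ.toRingHom ![x, y] P ∈ Φ.range ⊔ Algebra.adjoin S {x, y} := by
  induction P using MvPolynomial.induction_on with
  | C a =>
    rw [MvPolynomial.eval₂Hom_C]
    exact (le_sup_left : Φ.range ≤ _) ⟨a, rfl⟩
  | add p q hp hq => rw [map_add]; exact add_mem hp hq
  | mul_X p k hp =>
    rw [map_mul, MvPolynomial.eval₂Hom_X']
    refine mul_mem hp ?_
    apply (le_sup_right : Algebra.adjoin S {x, y} ≤ _)
    fin_cases k
    · exact Algebra.subset_adjoin (Set.mem_insert _ _)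
    · exact Algebra.subset_adjoin (Set.mem_insert_of_mem _ (Set.mem_singleton _))

/-! ### Monomial expressions -/

/-- the sections `MB j / ε` -/
def PB {Q : Type} [CommRing Q] (T H : Q) : Fin 9 → Q :=
  ![H, T ^ 12 * H, T ^ 11 * H, T ^ 6, T ^ 18 * H ^ 2, 1, T ^ 12 * H ^ 2, T, T ^ 13 * H ^ 2]

/-- the sections `MP j` -/
def PP0 {Q : Type} [CommRing Q] (T H U V : Q) : Fin 8 → Q :=
  ![1, T ^ 4, U, T ^ 4 * V, T ^ 8 * H * U, (-1 - T ^ 12 * H) * V, T ^ 2 * U, T ^ 6 * V]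

/-- the sections `MP j / (t⁴ y)` -/
def PP2 {Q : Type} [CommRing Q] (T H U V : Q) : Fin 8 → Q :=
  ![U, T ^ 4 * U, 1, T ^ 4 * V, T ^ 8 * H, (-1 - T ^ 12 * H) * V, T ^ 2, T ^ 6 * V]

/-- the sections `MP j / (ε w)` -/
def PP5 {Q : Type} [CommRing Q] (T H U V : Q) : Fin 8 → Q :=
  ![H * U, T ^ 4 * H * U, H * V, T ^ 4 * H, T ^ 8 * H ^ 2 * V, 1, T ^ 2 * H * V, T ^ 6 * H]

lemma map_PB {Q Q' : Type} [CommRing Q] [CommRing Q'] (g : Q →+* Q') (T H : Q) (j : Fin 9) :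
    g (PB T H j) = PB (g T) (g H) j := by
  fin_cases j <;> simp [PB]

lemma map_PP0 {Q Q' : Type} [CommRing Q] [CommRing Q'] (g : Q →+* Q') (T H U V : Q) (j : Fin 8) :
    g (PP0 T H U V j) = PP0 (g T) (g H) (g U) (g V) j := by
  fin_cases j <;> simp [PP0]

lemma map_PP2 {Q Q' : Type} [CommRing Q] [CommRing Q'] (g : Q →+* Q') (T H U V : Q) (j : Fin 8) :
    g (PP2 T H U V j) = PP2 (g T) (g H) (g U) (g V) j := by
  fin_cases j <;> simp [PP2]

lemma map_PP5 {Q Q' : Type} [CommRing Q] [CommRing Q'] (g : Q →+* Q') (T H U V : Q) (j : Fin 8) :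
    g (PP5 T H U V j) = PP5 (g T) (g H) (g U) (g V) j := by
  fin_cases j <;> simp [PP5]

section field

variable {K : Type} [Field K] {t ε y w : K}

lemma e_eq (he : ε ≠ 0) (h : ε ^ 2 + ε + t ^ 12 = 0) : -1 - t ^ 12 * ε⁻¹ = ε := by
  field_simp
  linear_combination -h

lemma MB_div (he : ε ≠ 0) (h : ε ^ 2 + ε + t ^ 12 = 0) (j : Fin 9) :
    MB t ε j / MB t ε 5 = PB t ε⁻¹ j := by
  have h5 : MB t ε 5 = ε := rfl
  have h1 : (-1 - ε) = t ^ 12 * ε⁻¹ := by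
    have := e_eq he h
    linear_combination this
  rw [h5]
  fin_cases j
  · simp [MB, PB]
  · simp [MB, PB, div_eq_mul_inv]
  · simp [MB, PB, div_eq_mul_inv]
  · simp [MB, PB]; field_simp
  · simp only [MB, PB, h1]; simp; field_simp
  · simp [MB, PB, he]
  · simp only [MB, PB, h1]; simp; field_simp
  · simp [MB, PB]; field_simp
  · simp only [MB, PB, h1]; simp; field_simp

lemma MP_div0 (he : ε ≠ 0) (h : ε ^ 2 + ε + t ^ 12 = 0) (j : Fin 8) :
    MP t ε y w j / MP t ε y w 0 = PP0 t ε⁻¹ (t ^ 4 * y) w j := by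
  have h5 : MP t ε y w 0 = 1 := rfl
  have h1 : (-1 - ε) = t ^ 12 * ε⁻¹ := by
    have := e_eq he h
    linear_combination this
  rw [h5, div_one]
  fin_cases j
  · simp [MP, PP0]
  · simp [MP, PP0]
  · simp [MP, PP0]
  · simp [MP, PP0]
  · simp only [MP, PP0, h1]; simp; ring
  · simp only [MP, PP0, e_eq he h]; simp
  · simp [MP, PP0]; ring
  · simp [MP, PP0]

lemma MP_div2 (he : ε ≠ 0) (ht : t ≠ 0) (hy : y ≠ 0) (h : ε ^ 2 + ε + t ^ 12 = 0) (j : Fin 8) :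
    MP t ε y w j / MP t ε y w 2 = PP2 t ε⁻¹ (t ^ 4 * y)⁻¹ (w / (t ^ 4 * y)) j := by
  have h5 : MP t ε y w 2 = t ^ 4 * y := rfl
  have h1 : (-1 - ε) = t ^ 12 * ε⁻¹ := by
    have := e_eq he h
    linear_combination this
  rw [h5]
  fin_cases j
  · simp [MP, PP2]
  · simp [MP, PP2, div_eq_mul_inv]
  · simp [MP, PP2, ht, hy]
  · simp [MP, PP2]; field_simp
  · simp only [MP, PP2, h1]; simp; field_simp
  · simp only [MP, PP2, e_eq he h]; simp; field_simp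
  · simp [MP, PP2]; field_simp
  · simp [MP, PP2]; field_simp

lemma MP_div5 (he : ε ≠ 0) (hw : w ≠ 0) (h : ε ^ 2 + ε + t ^ 12 = 0) (j : Fin 8) :
    MP t ε y w j / MP t ε y w 5 = PP5 t ε⁻¹ w⁻¹ (t ^ 4 * y / w) j := by
  have h5 : MP t ε y w 5 = ε * w := rfl
  have h1 : (-1 - ε) = t ^ 12 * ε⁻¹ := by
    have := e_eq he h
    linear_combination this
  rw [h5]
  fin_cases j
  · simp [MP, PP5]; field_simp
  · simp [MP, PP5]; field_simp
  · simp [MP, PP5]; field_simp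
  · simp [MP, PP5]; field_simp
  · simp only [MP, PP5, h1]; simp; field_simp
  · simp [MP, PP5, he, hw]
  · simp [MP, PP5]; field_simp
  · simp [MP, PP5]; field_simp

end field

/-! ### The polynomials giving the sections in the three charts -/

section poly

variable {O : Type} [CommRing O]

noncomputable def P0 (T H : O) (j : Fin 9 × Fin 8) : MvPolynomial (Fin 2) O :=
  PB (MvPolynomial.C T) (MvPolynomial.C H) j.1 *
    PP0 (MvPolynomial.C T) (MvPolynomial.C H) (MvPolynomial.X 0) (MvPolynomial.X 1) j.2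

noncomputable def P2 (T H : O) (j : Fin 9 × Fin 8) : MvPolynomial (Fin 2) O :=
  PB (MvPolynomial.C T) (MvPolynomial.C H) j.1 *
    PP2 (MvPolynomial.C T) (MvPolynomial.C H) (MvPolynomial.X 0) (MvPolynomial.X 1) j.2

noncomputable def P5 (T H : O) (j : Fin 9 × Fin 8) : MvPolynomial (Fin 2) O :=
  PB (MvPolynomial.C T) (MvPolynomial.C H) j.1 *
    PP5 (MvPolynomial.C T) (MvPolynomial.C H) (MvPolynomial.X 0) (MvPolynomial.X 1) j.2

variable {K : Type} [Field K] {t ε y w : K} (g : O →+* K) (T H : O)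

lemma eval_P0 (hT : g T = t) (hH : g H = ε⁻¹) (he : ε ≠ 0) (h : ε ^ 2 + ε + t ^ 12 = 0)
    (j : Fin 9 × Fin 8) : mm t ε y w j / mm t ε y w (5, 0) =
      MvPolynomial.eval₂Hom g ![t ^ 4 * y, w] (P0 T H j) := by
  rw [P0, map_mul, map_PB, map_PP0, MvPolynomial.eval₂Hom_C, MvPolynomial.eval₂Hom_C, hT, hH,
    MvPolynomial.eval₂Hom_X', MvPolynomial.eval₂Hom_X']
  change mm t ε y w j / mm t ε y w (5, 0) = PB t ε⁻¹ j.1 * PP0 t ε⁻¹ (t ^ 4 * y) w j.2
  rw [← MB_div he h, ← MP_div0 he h, mm, mm, mul_div_mul_comm]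

lemma eval_P2 (hT : g T = t) (hH : g H = ε⁻¹) (he : ε ≠ 0) (ht : t ≠ 0) (hy : y ≠ 0)
    (h : ε ^ 2 + ε + t ^ 12 = 0)
    (j : Fin 9 × Fin 8) : mm t ε y w j / mm t ε y w (5, 2) =
      MvPolynomial.eval₂Hom g ![(t ^ 4 * y)⁻¹, w / (t ^ 4 * y)] (P2 T H j) := by
  rw [P2, map_mul, map_PB, map_PP2, MvPolynomial.eval₂Hom_C, MvPolynomial.eval₂Hom_C, hT, hH,
    MvPolynomial.eval₂Hom_X', MvPolynomial.eval₂Hom_X']
  change mm t ε y w j / mm t ε y w (5, 2) =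
    PB t ε⁻¹ j.1 * PP2 t ε⁻¹ (t ^ 4 * y)⁻¹ (w / (t ^ 4 * y)) j.2
  rw [← MB_div he h, ← MP_div2 he ht hy h, mm, mm, mul_div_mul_comm]

lemma eval_P5 (hT : g T = t) (hH : g H = ε⁻¹) (he : ε ≠ 0) (hw : w ≠ 0)
    (h : ε ^ 2 + ε + t ^ 12 = 0)
    (j : Fin 9 × Fin 8) : mm t ε y w j / mm t ε y w (5, 5) =
      MvPolynomial.eval₂Hom g ![w⁻¹, t ^ 4 * y / w] (P5 T H j) := by
  rw [P5, map_mul, map_PB, map_PP5, MvPolynomial.eval₂Hom_C, MvPolynomial.eval₂Hom_C, hT, hH,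
    MvPolynomial.eval₂Hom_X', MvPolynomial.eval₂Hom_X']
  change mm t ε y w j / mm t ε y w (5, 5) = PB t ε⁻¹ j.1 * PP5 t ε⁻¹ w⁻¹ (t ^ 4 * y / w) j.2
  rw [← MB_div he h, ← MP_div5 he hw h, mm, mm, mul_div_mul_comm]

end poly

/-! ### The base ring over `ε ≠ 0` -/

section base

variable {S : Type} [CommRing S]

/-- the coordinate `η = 1/ε` -/
noncomputable abbrev bη (S : Type) [CommRing S] : AdjoinRoot (pB S) := AdjoinRoot.root (pB S)

/-- the coordinate `t` -/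
noncomputable abbrev bt (S : Type) [CommRing S] : AdjoinRoot (pB S) := AdjoinRoot.of (pB S) X

/-- the element `ε` -/
noncomputable def be (S : Type) [CommRing S] : AdjoinRoot (pB S) := -1 - bt S ^ 12 * bη S

lemma bη_rel : bt S ^ 12 * bη S ^ 2 + bη S + 1 = 0 := by
  have h := AdjoinRoot.mk_self (f := pB S)
  have h2 : AdjoinRoot.mk (pB S) (pB S) = bt S ^ 12 * bη S ^ 2 + bη S + 1 := by
    have h3 : AdjoinRoot.mk (pB S) (pB S) = AdjoinRoot.mk (pB S) (C (X ^ 12) * X ^ 2 + X + 1) := rfl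
    rw [h3]
    simp only [map_add, map_mul, map_pow, map_one]
    rfl
  rw [← h2, h]

lemma bη_mul_be : bη S * be S = 1 := by
  rw [be]
  linear_combination -(bη_rel (S := S))

end base

/-! ### The algebras of the charts -/

section charts

variable {S : Type} [CommRing S] {K : Type} [Field K] [Algebra S K] {l : S} {t ε y w : K}
  (h : GenPt S l K t ε y w) (Φ : AdjoinRoot (pB S) →ₐ[S] K) (ht : Φ (bt S) = t)
  (hη : Φ (bη S) = ε⁻¹)

include ht hη in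
lemma Φ_be (h : GenPt S l K t ε y w) : Φ (be S) = ε := by
  rw [be, map_sub, map_neg, map_one, map_mul, map_pow, ht, hη]
  exact e_eq (e_ne h) h.rel1

lemma ratio_mem (m : Fin 9 × Fin 8 → K) (i j : Fin 9 × Fin 8) : m j / m i ∈ chartAlg S m i :=
  Algebra.subset_adjoin ⟨j, rfl⟩

include h in
lemma mm_ne (hi : ∀ k : Fin 8, MP t ε y w k ≠ 0) (k : Fin 8) : mm t ε y w (5, k) ≠ 0 := by
  have : mm t ε y w (5, k) = ε * MP t ε y w k := rfl
  rw [this]
  exact mul_ne_zero (e_ne h) (hi k)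

include h in
lemma MP_ne (k : Fin 8) : MP t ε y w k ≠ 0 := by
  have h1 := t_ne h
  have h2 := e_ne h
  have h3 := e'_ne h
  have h4 := y_ne h
  have h5 := w_ne h
  fin_cases k <;> simp [MP, h1, h2, h3, h4, h5]

include h in
lemma t_mem (k : Fin 8) : t ∈ chartAlg S (mm t ε y w) (5, k) := by
  have h1 := ratio_mem (S := S) (mm t ε y w) (5, k) (7, k)
  have h2 : mm t ε y w (7, k) / mm t ε y w (5, k) = t := by
    have e1 : mm t ε y w (7, k) = t * ε * MP t ε y w k := rfl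
    have e2 : mm t ε y w (5, k) = ε * MP t ε y w k := rfl
    have h3 := MP_ne h k
    have h4 := e_ne h
    rw [e1, e2]
    field_simp
  rwa [h2] at h1

include h in
lemma η_mem (k : Fin 8) : ε⁻¹ ∈ chartAlg S (mm t ε y w) (5, k) := by
  have h1 := ratio_mem (S := S) (mm t ε y w) (5, k) (0, k)
  have h2 : mm t ε y w (0, k) / mm t ε y w (5, k) = ε⁻¹ := by
    have e1 : mm t ε y w (0, k) = 1 * MP t ε y w k := rfl
    have e2 : mm t ε y w (5, k) = ε * MP t ε y w k := rfl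
    have h3 := MP_ne h k
    have h4 := e_ne h
    rw [e1, e2]
    field_simp
  rwa [h2] at h1

include h in
lemma ε_mem (k : Fin 8) : ε ∈ chartAlg S (mm t ε y w) (5, k) := by
  have h1 : -1 - t ^ 12 * ε⁻¹ ∈ chartAlg S (mm t ε y w) (5, k) :=
    sub_mem (neg_mem (one_mem _)) (mul_mem (pow_mem (t_mem h k) _) (η_mem h k))
  rwa [e_eq (e_ne h) h.rel1] at h1

include h in
lemma ratio5_mem (k j : Fin 8) :
    MP t ε y w j / MP t ε y w k ∈ chartAlg S (mm t ε y w) (5, k) := by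
  have h1 := ratio_mem (S := S) (mm t ε y w) (5, k) (5, j)
  have h2 : mm t ε y w (5, j) / mm t ε y w (5, k) = MP t ε y w j / MP t ε y w k := by
    have e1 : mm t ε y w (5, j) = ε * MP t ε y w j := rfl
    have e2 : mm t ε y w (5, k) = ε * MP t ε y w k := rfl
    have h4 := e_ne h
    rw [e1, e2, mul_div_mul_left _ _ h4]
  rwa [h2] at h1

include h ht hη in
lemma chartAlg_50 : chartAlg S (mm t ε y w) (5, 0) =
    Φ.range ⊔ Algebra.adjoin S {t ^ 4 * y, w} := by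
  refine chartAlg_eq _ _ (pB S) Φ _ _ ?_ (ht.symm ▸ t_mem h 0) (hη.symm ▸ η_mem h 0) ?_ ?_
  · intro j
    rw [eval_P0 Φ.toRingHom (bt S) (bη S) ht hη (e_ne h) h.rel1]
    exact eval_mem _ _ _ _ _
  · have := ratio5_mem h 0 2
    have e1 : MP t ε y w 2 / MP t ε y w 0 = t ^ 4 * y := div_one _
    rwa [e1] at this
  · have := mul_mem (η_mem h 0) (ratio5_mem h 0 5)
    have e1 : ε⁻¹ * (MP t ε y w 5 / MP t ε y w 0) = w := by
      have h4 := e_ne h
      have e2 : MP t ε y w 5 = ε * w := rfl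
      have e3 : MP t ε y w 0 = 1 := rfl
      rw [e2, e3]
      field_simp
    rwa [e1] at this

include h ht hη in
lemma chartAlg_52 : chartAlg S (mm t ε y w) (5, 2) =
    Φ.range ⊔ Algebra.adjoin S {(t ^ 4 * y)⁻¹, w / (t ^ 4 * y)} := by
  refine chartAlg_eq _ _ (pB S) Φ _ _ ?_ (ht.symm ▸ t_mem h 2) (hη.symm ▸ η_mem h 2) ?_ ?_
  · intro j
    rw [eval_P2 Φ.toRingHom (bt S) (bη S) ht hη (e_ne h) (t_ne h) (y_ne h) h.rel1]
    exact eval_mem _ _ _ _ _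
  · have := ratio5_mem h 2 0
    have e1 : MP t ε y w 0 / MP t ε y w 2 = (t ^ 4 * y)⁻¹ := one_div _
    rwa [e1] at this
  · have := mul_mem (η_mem h 2) (ratio5_mem h 2 5)
    have e1 : ε⁻¹ * (MP t ε y w 5 / MP t ε y w 2) = w / (t ^ 4 * y) := by
      have h4 := e_ne h
      have h5 := t_ne h
      have h6 := y_ne h
      have e2 : MP t ε y w 5 = ε * w := rfl
      have e3 : MP t ε y w 2 = t ^ 4 * y := rfl
      rw [e2, e3]
      field_simp
    rwa [e1] at this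

include h ht hη in
lemma chartAlg_55 : chartAlg S (mm t ε y w) (5, 5) =
    Φ.range ⊔ Algebra.adjoin S {w⁻¹, t ^ 4 * y / w} := by
  refine chartAlg_eq _ _ (pB S) Φ _ _ ?_ (ht.symm ▸ t_mem h 5) (hη.symm ▸ η_mem h 5) ?_ ?_
  · intro j
    rw [eval_P5 Φ.toRingHom (bt S) (bη S) ht hη (e_ne h) (w_ne h) h.rel1]
    exact eval_mem _ _ _ _ _
  · have := mul_mem (ε_mem h 5) (ratio5_mem h 5 0)
    have e1 : ε * (MP t ε y w 0 / MP t ε y w 5) = w⁻¹ := by
      have h4 := e_ne h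
      have h5 := w_ne h
      have e2 : MP t ε y w 5 = ε * w := rfl
      have e3 : MP t ε y w 0 = 1 := rfl
      rw [e2, e3]
      field_simp
    rwa [e1] at this
  · have := mul_mem (ε_mem h 5) (ratio5_mem h 5 2)
    have e1 : ε * (MP t ε y w 2 / MP t ε y w 5) = t ^ 4 * y / w := by
      have h4 := e_ne h
      have h5 := w_ne h
      have e2 : MP t ε y w 5 = ε * w := rfl
      have e3 : MP t ε y w 2 = t ^ 4 * y := rfl
      rw [e2, e3]
      field_simp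
    rwa [e1] at this

/-- coordinates which are not algebraic over `S[t]` -/
lemma x0_transc (h : GenPt S l K t ε y w) :
    ¬ IsAlgebraic (Algebra.adjoin S {t}) (t ^ 4 * y) := by
  intro hx
  have : Nontrivial S := (algebraMap S K).domain_nontrivial
  apply y_transc h
  have ht : IsAlgebraic (Algebra.adjoin S {t}) t :=
    isAlgebraic_algebraMap (⟨t, Algebra.subset_adjoin rfl⟩ : Algebra.adjoin S {t})
  have h1 := (ht.pow 4).inv.mul hx
  rwa [inv_mul_cancel_left₀ (pow_ne_zero 4 (t_ne h))] at h1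

lemma x2_transc (h : GenPt S l K t ε y w) :
    ¬ IsAlgebraic (Algebra.adjoin S {t}) (t ^ 4 * y)⁻¹ := by
  intro hx
  apply x0_transc h
  have h1 := hx.inv
  rwa [inv_inv] at h1

lemma x5_transc (h : GenPt S l K t ε y w) :
    ¬ IsAlgebraic (Algebra.adjoin S {t}) w⁻¹ := by
  intro hx
  apply w_transc h
  have h1 := hx.inv
  rwa [inv_inv] at h1

include h ht hη in
lemma range_transc (z : K) (hz : ¬ IsAlgebraic (Algebra.adjoin S {t}) z) :
    Transcendental Φ.range z := by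
  refine transc_range (Algebra.adjoin S {t}) _ (range_alg _ _ _ ?_ ?_) z hz
  · rw [ht]
    exact isAlgebraic_algebraMap (⟨t, Algebra.subset_adjoin rfl⟩ : Algebra.adjoin S {t})
  · rw [hη]
    exact (e_alg h).inv

end charts

end ModX6


namespace ModX6

section rel

variable {K : Type} [Field K] {t ε y w m : K}

lemma rel_50 (he : ε ≠ 0) (h1 : ε ^ 2 + ε + t ^ 12 = 0)
    (h2 : 1 + (-1 - ε) * y ^ 3 + ε * w ^ 3 = 3 * m * t ^ 4 * y * w) :
    ε⁻¹ * (t ^ 4 * y) ^ 3 + ε * w ^ 3 + 1 = 3 * m * (t ^ 4 * y) * w := by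
  have h3 : (-1 - ε) = t ^ 12 * ε⁻¹ := by
    have := e_eq he h1
    linear_combination this
  rw [h3] at h2
  linear_combination h2

lemma rel_52 (he : ε ≠ 0) (ht : t ≠ 0) (hy : y ≠ 0) (h1 : ε ^ 2 + ε + t ^ 12 = 0)
    (h2 : 1 + (-1 - ε) * y ^ 3 + ε * w ^ 3 = 3 * m * t ^ 4 * y * w) :
    1 * ((t ^ 4 * y)⁻¹) ^ 3 + ε * (w / (t ^ 4 * y)) ^ 3 + ε⁻¹ =
      3 * m * (t ^ 4 * y)⁻¹ * (w / (t ^ 4 * y)) := by
  have h3 := rel_50 he h1 h2
  have h4 : t ^ 4 * y ≠ 0 := mul_ne_zero (pow_ne_zero 4 ht) hy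
  generalize t ^ 4 * y = u at h3 h4 ⊢
  field_simp
  field_simp at h3
  linear_combination h3

lemma rel_55 (he : ε ≠ 0) (hw : w ≠ 0) (h1 : ε ^ 2 + ε + t ^ 12 = 0)
    (h2 : 1 + (-1 - ε) * y ^ 3 + ε * w ^ 3 = 3 * m * t ^ 4 * y * w) :
    1 * (w⁻¹) ^ 3 + ε⁻¹ * (t ^ 4 * y / w) ^ 3 + ε = 3 * m * w⁻¹ * (t ^ 4 * y / w) := by
  have h3 := rel_50 he h1 h2
  generalize t ^ 4 * y = u at h3 ⊢
  field_simp
  field_simp at h3
  linear_combination h3

end rel

lemma bη_one_be {S : Type} [CommRing S] : (1 : AdjoinRoot (pB S)) * be S * bη S = 1 := by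
  linear_combination bη_mul_be (S := S)

lemma one_bη_be {S : Type} [CommRing S] : (1 : AdjoinRoot (pB S)) * bη S * be S = 1 := by
  linear_combination bη_mul_be (S := S)

lemma bη_be_one {S : Type} [CommRing S] : bη S * be S * 1 = 1 := by
  linear_combination bη_mul_be (S := S)

end ModX6

open ModX6

/-! ### The charts over `ε ≠ 0` -/

theorem chart_smooth_plus (S : Type) [CommRing S] [Algebra ℂ S] (l : S)
    (hl : IsUnit (l ^ 3 - 1)) (K : Type) [Field K] [Algebra S K]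
    (hinj : Function.Injective (algebraMap S K)) (t ε y w : K) (h : GenPt S l K t ε y w)
    (i : Fin 9 × Fin 8) (hi : i ∈ Iplus) :
    SmoothOfRelativeDimension 2
      (Spec.map (CommRingCat.ofHom (algebraMap S (chartAlg S (mm t ε y w) i)))) := by
  have hnt : Nontrivial S := (algebraMap S K).domain_nontrivial
  have hchar : CharZero S := charZero_of_injective_algebraMap (algebraMap ℂ S).injective
  obtain ⟨Φ, hΦ, ht, hη⟩ := pB_injective hinj t ε h.rel1 ((algInd_two _ _).1 h.indep).1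
  have hbe : Φ (be S) = ε := Φ_be Φ ht hη h
  have hm : IsUnit ((algebraMap S (AdjoinRoot (pB S)) l) ^ 3 - 1) := by
    have := hl.map (algebraMap S (AdjoinRoot (pB S)))
    simpa using this
  have hΦl : Φ (algebraMap S (AdjoinRoot (pB S)) l) = algebraMap S K l := AlgHom.commutes _ _
  rcases hi with rfl | rfl | hi
  · refine core_smooth (pB S) smooth_pB Φ hΦ (bη S) (be S) 1 (algebraMap S _ l) bη_be_one hm
      (t ^ 4 * y) w (range_transc h Φ ht hη _ (x0_transc h)) ?_ _ (chartAlg_50 h Φ ht hη)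
    rw [hbe, hΦl, map_one]
    have e1 : Φ (bη S) = ε⁻¹ := hη
    rw [e1]
    exact rel_50 (e_ne h) h.rel1 h.rel2
  · refine core_smooth (pB S) smooth_pB Φ hΦ 1 (be S) (bη S) (algebraMap S _ l) bη_one_be hm
      (t ^ 4 * y)⁻¹ (w / (t ^ 4 * y)) (range_transc h Φ ht hη _ (x2_transc h)) ?_ _
      (chartAlg_52 h Φ ht hη)
    rw [hbe, hΦl, map_one]
    have e1 : Φ (bη S) = ε⁻¹ := hη
    rw [e1]
    exact rel_52 (e_ne h) (t_ne h) (y_ne h) h.rel1 h.rel2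
  · rw [Set.mem_singleton_iff.1 hi]
    refine core_smooth (pB S) smooth_pB Φ hΦ 1 (bη S) (be S) (algebraMap S _ l) one_bη_be hm
      w⁻¹ (t ^ 4 * y / w) (range_transc h Φ ht hη _ (x5_transc h)) ?_ _
      (chartAlg_55 h Φ ht hη)
    rw [hbe, hΦl, map_one]
    have e1 : Φ (bη S) = ε⁻¹ := hη
    rw [e1]
    exact rel_55 (e_ne h) (w_ne h) h.rel1 h.rel2

theorem chart_spec_plus (S : Type) [CommRing S] [Algebra ℂ S] (l : S)
    (hl : IsUnit (l ^ 3 - 1)) (K : Type) [Field K] [Algebra S K]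
    (hinj : Function.Injective (algebraMap S K)) (t ε y w : K) (h : GenPt S l K t ε y w)
    (ψ : S →+* ℂ) (hψ : Function.Surjective ψ) (K₀ : Type) [Field K₀] [Algebra ℂ K₀]
    (t₀ ε₀ y₀ w₀ : K₀) (h₀ : GenPt ℂ (ψ l) K₀ t₀ ε₀ y₀ w₀)
    (i : Fin 9 × Fin 8) (hi : i ∈ Iplus) :
    ∃ φ : chartAlg S (mm t ε y w) i →+* K₀,
      (∀ r : S, φ (algebraMap S _ r) = algebraMap ℂ K₀ (ψ r)) ∧
      (∀ (j : Fin 9 × Fin 8) (hj : mm t ε y w j / mm t ε y w i ∈ chartAlg S (mm t ε y w) i),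
        φ ⟨mm t ε y w j / mm t ε y w i, hj⟩ = mm t₀ ε₀ y₀ w₀ j / mm t₀ ε₀ y₀ w₀ i) ∧
      RingHom.ker φ = (RingHom.ker ψ).map (algebraMap S (chartAlg S (mm t ε y w) i)) := by
  have hnt : Nontrivial S := (algebraMap S K).domain_nontrivial
  have hchar : CharZero S := charZero_of_injective_algebraMap (algebraMap ℂ S).injective
  obtain ⟨Φ, hΦ, ht, hη⟩ := pB_injective hinj t ε h.rel1 ((algInd_two _ _).1 h.indep).1
  obtain ⟨Φ₀, hΦ₀, ht₀, hη₀⟩ := pB_injective (algebraMap ℂ K₀).injective t₀ ε₀ h₀.rel1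
    ((algInd_two _ _).1 h₀.indep).1
  have hf₀ : pB ℂ = (pB S).map (mapRingHom ψ) := by
    simp [pB]
  obtain ⟨Ψ, _, hΨ, _⟩ := adjoinRoot_map_ker ψ hψ (pB S) (pB ℂ) hf₀
  have hbe : Φ (be S) = ε := Φ_be Φ ht hη h
  have hbe₀ : Φ₀ (be ℂ) = ε₀ := Φ_be Φ₀ ht₀ hη₀ h₀
  have hΨη : Ψ (bη S) = bη ℂ := by
    have := hΨ X
    rw [map_X] at this
    exact this
  have hΨt : Ψ (bt S) = bt ℂ := by
    have := hΨ (C X)
    rw [map_C, coe_mapRingHom, map_X] at this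
    exact this
  have hΨe : Ψ (be S) = be ℂ := by
    rw [be, be, map_sub, map_neg, map_one, map_mul, map_pow, hΨη, hΨt]
  have hΨl : Ψ (algebraMap S (AdjoinRoot (pB S)) l) = algebraMap ℂ (AdjoinRoot (pB ℂ)) (ψ l) := by
    have := hΨ (C (C l))
    rw [map_C, coe_mapRingHom, map_C] at this
    exact this
  have hntO : Nontrivial (AdjoinRoot (pB S)) := Φ.toRingHom.domain_nontrivial
  have hntO₀ : Nontrivial (AdjoinRoot (pB ℂ)) := Φ₀.toRingHom.domain_nontrivial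
  have hm : (algebraMap S (AdjoinRoot (pB S)) l) ^ 3 ≠ 1 := by
    intro h0
    have h1 := hl.map (algebraMap S (AdjoinRoot (pB S)))
    rw [map_sub, map_pow, map_one, h0, sub_self] at h1
    exact not_isUnit_zero h1
  have hm₀ : Ψ (algebraMap S (AdjoinRoot (pB S)) l) ^ 3 ≠ 1 := by
    intro h0
    have h1 := (hl.map ψ).map (algebraMap ℂ (AdjoinRoot (pB ℂ)))
    rw [map_sub, map_pow, map_one, map_sub, map_pow, map_one, ← hΨl, h0, sub_self] at h1
    exact not_isUnit_zero h1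
  have hΦl : Φ (algebraMap S (AdjoinRoot (pB S)) l) = algebraMap S K l := AlgHom.commutes _ _
  have hΦl₀ : Φ₀ (Ψ (algebraMap S (AdjoinRoot (pB S)) l)) = algebraMap ℂ K₀ (ψ l) := by
    rw [hΨl]; exact AlgHom.commutes _ _
  have e1 : Φ (bη S) = ε⁻¹ := hη
  have e2 : Φ₀ (bη ℂ) = ε₀⁻¹ := hη₀
  have g1 : (Φ₀.toRingHom.comp Ψ) (bt S) = t₀ := by
    rw [RingHom.comp_apply, hΨt]; exact ht₀
  have g2 : (Φ₀.toRingHom.comp Ψ) (bη S) = ε₀⁻¹ := by
    rw [RingHom.comp_apply, hΨη]; exact hη₀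
  rcases hi with rfl | rfl | hi
  · refine chart_spec_gen (mm t ε y w) (5, 0) (pB S) Φ hΦ (bη S) (be S) 1 (algebraMap S _ l)
      bη_be_one hm (t ^ 4 * y) w (range_transc h Φ ht hη _ (x0_transc h)) ?_
      (chartAlg_50 h Φ ht hη) ψ hψ (pB ℂ) hf₀ Ψ hΨ Φ₀ hΦ₀ (t₀ ^ 4 * y₀) w₀
      (range_transc h₀ Φ₀ ht₀ hη₀ _ (x0_transc h₀)) hm₀ ?_ (mm t₀ ε₀ y₀ w₀)
      (P0 (bt S) (bη S)) (fun j => eval_P0 _ _ _ ht hη (e_ne h) h.rel1 j)
      (fun j => eval_P0 _ _ _ g1 g2 (e_ne h₀) h₀.rel1 j)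
    · rw [hbe, hΦl, map_one, e1]
      exact rel_50 (e_ne h) h.rel1 h.rel2
    · rw [hΨe, hbe₀, hΦl₀, map_one, map_one, hΨη, e2]
      exact rel_50 (e_ne h₀) h₀.rel1 h₀.rel2
  · refine chart_spec_gen (mm t ε y w) (5, 2) (pB S) Φ hΦ 1 (be S) (bη S) (algebraMap S _ l)
      bη_one_be hm (t ^ 4 * y)⁻¹ (w / (t ^ 4 * y)) (range_transc h Φ ht hη _ (x2_transc h)) ?_
      (chartAlg_52 h Φ ht hη) ψ hψ (pB ℂ) hf₀ Ψ hΨ Φ₀ hΦ₀ (t₀ ^ 4 * y₀)⁻¹ (w₀ / (t₀ ^ 4 * y₀))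
      (range_transc h₀ Φ₀ ht₀ hη₀ _ (x2_transc h₀)) hm₀ ?_ (mm t₀ ε₀ y₀ w₀)
      (P2 (bt S) (bη S)) (fun j => eval_P2 _ _ _ ht hη (e_ne h) (t_ne h) (y_ne h) h.rel1 j)
      (fun j => eval_P2 _ _ _ g1 g2 (e_ne h₀) (t_ne h₀) (y_ne h₀) h₀.rel1 j)
    · rw [hbe, hΦl, map_one, e1]
      exact rel_52 (e_ne h) (t_ne h) (y_ne h) h.rel1 h.rel2
    · rw [hΨe, hbe₀, hΦl₀, map_one, map_one, hΨη, e2]
      exact rel_52 (e_ne h₀) (t_ne h₀) (y_ne h₀) h₀.rel1 h₀.rel2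
  · rw [Set.mem_singleton_iff.1 hi]
    refine chart_spec_gen (mm t ε y w) (5, 5) (pB S) Φ hΦ 1 (bη S) (be S) (algebraMap S _ l)
      one_bη_be hm w⁻¹ (t ^ 4 * y / w) (range_transc h Φ ht hη _ (x5_transc h)) ?_
      (chartAlg_55 h Φ ht hη) ψ hψ (pB ℂ) hf₀ Ψ hΨ Φ₀ hΦ₀ w₀⁻¹ (t₀ ^ 4 * y₀ / w₀)
      (range_transc h₀ Φ₀ ht₀ hη₀ _ (x5_transc h₀)) hm₀ ?_ (mm t₀ ε₀ y₀ w₀)
      (P5 (bt S) (bη S)) (fun j => eval_P5 _ _ _ ht hη (e_ne h) (w_ne h) h.rel1 j)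
      (fun j => eval_P5 _ _ _ g1 g2 (e_ne h₀) (w_ne h₀) h₀.rel1 j)
    · rw [hbe, hΦl, map_one, e1]
      exact rel_55 (e_ne h) (w_ne h) h.rel1 h.rel2
    · rw [hΨe, hbe₀, hΦl₀, map_one, map_one, hΨη, e2]
      exact rel_55 (e_ne h₀) (w_ne h₀) h₀.rel1 h₀.rel2


namespace ModX6

/-! ### The involution -/

/-- the permutation of the sections on the base -/
def sg : Fin 9 → Fin 9 := ![0, 1, 2, 4, 3, 6, 5, 8, 7]

/-- the permutation of the sections on the plane bundle -/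
def ta : Fin 8 → Fin 8 := ![0, 1, 3, 2, 5, 4, 7, 6]

/-- the permutation of all sections -/
def rh (j : Fin 9 × Fin 8) : Fin 9 × Fin 8 := (sg j.1, ta j.2)

lemma rh_rh (j : Fin 9 × Fin 8) : rh (rh j) = j := by
  revert j
  decide

lemma MB_flip {K : Type} [Field K] (t ε : K) (j : Fin 9) :
    MB t ε j = MB t (-1 - ε) (sg j) := by
  have h : -1 - (-1 - ε) = ε := by ring
  fin_cases j <;> simp [MB, sg]

lemma MP_flip {K : Type} [Field K] (t ε y w : K) (j : Fin 8) :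
    MP t ε y w j = MP t (-1 - ε) w y (ta j) := by
  have h : -1 - (-1 - ε) = ε := by ring
  fin_cases j <;> simp [MP, ta]

lemma mm_flip {K : Type} [Field K] (t ε y w : K) (j : Fin 9 × Fin 8) :
    mm t ε y w j = mm t (-1 - ε) w y (rh j) := by
  rw [mm, mm, MB_flip, MP_flip]
  rfl

lemma chartAlg_flip {S K : Type} [CommRing S] [Field K] [Algebra S K] (t ε y w : K)
    (i : Fin 9 × Fin 8) :
    chartAlg S (mm t ε y w) i = chartAlg S (mm t (-1 - ε) w y) (rh i) := by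
  unfold chartAlg
  congr 1
  ext z
  constructor
  · rintro ⟨j, rfl⟩
    refine ⟨rh j, ?_⟩
    dsimp only
    rw [← mm_flip, ← mm_flip]
  · rintro ⟨j, rfl⟩
    refine ⟨rh j, ?_⟩
    dsimp only
    rw [mm_flip t ε y w (rh j), mm_flip t ε y w i, rh_rh]

lemma rh_mem {i : Fin 9 × Fin 8} (hi : i ∈ Iminus) : rh i ∈ Iplus := by
  rcases hi with rfl | rfl | hi
  · left; decide
  · right; left; decide
  · rw [Set.mem_singleton_iff.1 hi]
    right; right
    rw [Set.mem_singleton_iff]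
    decide

end ModX6

open ModX6

/-! ### The charts over `ε' ≠ 0` -/

theorem chart_smooth_minus (S : Type) [CommRing S] [Algebra ℂ S] (l : S)
    (hl : IsUnit (l ^ 3 - 1)) (K : Type) [Field K] [Algebra S K]
    (hinj : Function.Injective (algebraMap S K)) (t ε y w : K) (h : GenPt S l K t ε y w)
    (i : Fin 9 × Fin 8) (hi : i ∈ Iminus) :
    SmoothOfRelativeDimension 2
      (Spec.map (CommRingCat.ofHom (algebraMap S (chartAlg S (mm t ε y w) i)))) := by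
  rw [chartAlg_flip]
  exact chart_smooth_plus S l hl K hinj t (-1 - ε) w y (flip h) (rh i) (rh_mem hi)

theorem chart_spec_minus (S : Type) [CommRing S] [Algebra ℂ S] (l : S)
    (hl : IsUnit (l ^ 3 - 1)) (K : Type) [Field K] [Algebra S K]
    (hinj : Function.Injective (algebraMap S K)) (t ε y w : K) (h : GenPt S l K t ε y w)
    (ψ : S →+* ℂ) (hψ : Function.Surjective ψ) (K₀ : Type) [Field K₀] [Algebra ℂ K₀]
    (t₀ ε₀ y₀ w₀ : K₀) (h₀ : GenPt ℂ (ψ l) K₀ t₀ ε₀ y₀ w₀)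
    (i : Fin 9 × Fin 8) (hi : i ∈ Iminus) :
    ∃ φ : chartAlg S (mm t ε y w) i →+* K₀,
      (∀ r : S, φ (algebraMap S _ r) = algebraMap ℂ K₀ (ψ r)) ∧
      (∀ (j : Fin 9 × Fin 8) (hj : mm t ε y w j / mm t ε y w i ∈ chartAlg S (mm t ε y w) i),
        φ ⟨mm t ε y w j / mm t ε y w i, hj⟩ = mm t₀ ε₀ y₀ w₀ j / mm t₀ ε₀ y₀ w₀ i) ∧
      RingHom.ker φ = (RingHom.ker ψ).map (algebraMap S (chartAlg S (mm t ε y w) i)) := by
  have key : ∀ A : Subalgebra S K, A = chartAlg S (mm t (-1 - ε) w y) (rh i) →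
      ∃ φ : A →+* K₀, (∀ r : S, φ (algebraMap S _ r) = algebraMap ℂ K₀ (ψ r)) ∧
      (∀ (j : Fin 9 × Fin 8) (hj : mm t ε y w j / mm t ε y w i ∈ A),
        φ ⟨mm t ε y w j / mm t ε y w i, hj⟩ = mm t₀ ε₀ y₀ w₀ j / mm t₀ ε₀ y₀ w₀ i) ∧
      RingHom.ker φ = (RingHom.ker ψ).map (algebraMap S A) := by
    rintro _ rfl
    obtain ⟨φ, h1, h2, h3⟩ := chart_spec_plus S l hl K hinj t (-1 - ε) w y (flip h) ψ hψ K₀
      t₀ (-1 - ε₀) w₀ y₀ (flip h₀) (rh i) (rh_mem hi)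
    refine ⟨φ, h1, ?_, h3⟩
    intro j hj
    have e1 : mm t ε y w j / mm t ε y w i =
        mm t (-1 - ε) w y (rh j) / mm t (-1 - ε) w y (rh i) := by
      rw [← mm_flip, ← mm_flip]
    have e2 : mm t₀ ε₀ y₀ w₀ j / mm t₀ ε₀ y₀ w₀ i =
        mm t₀ (-1 - ε₀) w₀ y₀ (rh j) / mm t₀ (-1 - ε₀) w₀ y₀ (rh i) := by
      rw [← mm_flip, ← mm_flip]
    have h4 := h2 (rh j) (e1 ▸ hj)
    rw [e2, ← h4]
    exact congrArg φ (Subtype.ext e1)
  exact key _ (chartAlg_flip t ε y w i)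

end Pool.Agent.H16
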