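import Pool.Agent.H16.Irr.ChartDefs

/-! Module X1: Jacobian criterion for plane curves. -/

open AlgebraicGeometry CategoryTheory CategoryTheory.Limits Polynomial

namespace Pool.Agent.H16.ModX1

open Polynomial.Bivariate

variable {S : Type*} [CommRing S]

/-- the quotient map `S[x, y] → S[x][y] / (f)` -/
noncomputable def qmap (f : S[X][X]) : MvPolynomial (Fin 2) S →ₐ[S] AdjoinRoot f :=
  ((AdjoinRoot.mkₐ f).restrictScalars S).comp (equivMvPolynomial S).symm.toAlgHom

lemma qmap_equiv (f p : S[X][X]) : qmap f (equivMvPolynomial S p) = AdjoinRoot.mk f p := by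
  simp [qmap]

lemma qmap_surjective (f : S[X][X]) : Function.Surjective (qmap f) := by
  intro z
  obtain ⟨p, rfl⟩ := AdjoinRoot.mk_surjective z
  exact ⟨_, qmap_equiv f p⟩

lemma ker_qmap (f : S[X][X]) :
    RingHom.ker (qmap f).toRingHom = Ideal.span {equivMvPolynomial S f} := by
  ext p
  obtain ⟨q, rfl⟩ := (equivMvPolynomial S).surjective p
  rw [RingHom.mem_ker, Ideal.mem_span_singleton]
  change qmap f _ = 0 ↔ _
  rw [qmap_equiv, AdjoinRoot.mk_eq_zero]
  exact (map_dvd_iff (equivMvPolynomial S)).symm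

/-- the presentation of `S[x][y] / (f)` -/
noncomputable def pres (f : S[X][X]) (i : Fin 2) :
    Algebra.PreSubmersivePresentation S (AdjoinRoot f) (Fin 2) Unit where
  __ := Algebra.Generators.ofAlgHom (qmap f) (qmap_surjective f)
  relation _ := equivMvPolynomial S f
  span_range_relation_eq_ker := by
    rw [Algebra.Generators.ker_ofAlgHom, ker_qmap]
    simp
  map _ := i
  map_inj _ _ _ := rfl

lemma pres_jacobian (f : S[X][X]) (i : Fin 2) :
    (pres f i).jacobian = qmap f ((equivMvPolynomial S f).pderiv i) := by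
  classical
  rw [Algebra.PreSubmersivePresentation.jacobian_eq_jacobiMatrix_det, Matrix.det_unique,
    Algebra.PreSubmersivePresentation.jacobiMatrix_apply, Algebra.Generators.algebraMap_apply]
  change MvPolynomial.aeval (qmap f ∘ MvPolynomial.X) _ = _
  rw [← MvPolynomial.aeval_unique (qmap f)]
  rfl

lemma std (f : S[X][X]) (i : Fin 2) (T : Type*) [CommRing T] [Algebra S T]
    [Algebra (AdjoinRoot f) T] [IsScalarTower S (AdjoinRoot f) T]
    [IsLocalization.Away (qmap f ((equivMvPolynomial S f).pderiv i)) T] :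
    Algebra.IsStandardSmoothOfRelativeDimension 1 S T := by
  have hjac : IsUnit ((Algebra.PreSubmersivePresentation.localizationAway T
      (qmap f ((equivMvPolynomial S f).pderiv i))).comp (pres f i)).jacobian := by
    rw [Algebra.PreSubmersivePresentation.comp_jacobian_eq_jacobian_smul_jacobian,
      Algebra.PreSubmersivePresentation.localizationAway_jacobian, pres_jacobian,
      Algebra.smul_def]
    exact (IsLocalization.Away.algebraMap_isUnit _).mul (IsLocalization.Away.algebraMap_isUnit _)
  let P : Algebra.SubmersivePresentation S T (Unit ⊕ Fin 2) (Unit ⊕ Unit) :=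
    { toPreSubmersivePresentation := (Algebra.PreSubmersivePresentation.localizationAway T
        (qmap f ((equivMvPolynomial S f).pderiv i))).comp (pres f i)
      jacobian_isUnit := hjac }
  exact P.isStandardSmoothOfRelativeDimension (by simp [Algebra.Presentation.dimension])

end ModX1

open ModX1 in
theorem smooth_adjoinRoot {S : Type} [CommRing S] (f g : S[X][X])
    (hg : ∀ n, g.coeff n = derivative (f.coeff n))
    (h : Ideal.span {AdjoinRoot.mk f (derivative f), AdjoinRoot.mk f g} = ⊤) :
    SmoothOfRelativeDimension 1 (Spec.map (CommRingCat.ofHom (algebraMap S (AdjoinRoot f)))) := by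
  have h1 : qmap f ((Polynomial.Bivariate.equivMvPolynomial S f).pderiv 1) =
      AdjoinRoot.mk f (derivative f) := by
    rw [Polynomial.Bivariate.pderiv_one_equivMvPolynomial, qmap_equiv]
  have h0 : qmap f ((Polynomial.Bivariate.equivMvPolynomial S f).pderiv 0) =
      AdjoinRoot.mk f g := by
    rw [Polynomial.Bivariate.pderiv_zero_equivMvPolynomial, qmap_equiv]
    congr 1
    ext1 n
    rw [hg]
    rfl
  rw [HasRingHomProperty.Spec_iff (P := @SmoothOfRelativeDimension 1)]
  refine ⟨_, h, ?_⟩
  intro t ht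
  have key : ∀ (i : Fin 2), t = qmap f ((Polynomial.Bivariate.equivMvPolynomial S f).pderiv i) →
      RingHom.IsStandardSmoothOfRelativeDimension 1
        ((algebraMap (AdjoinRoot f) (Localization.Away t)).comp (algebraMap S (AdjoinRoot f))) := by
    intro i hi
    subst hi
    rw [← IsScalarTower.algebraMap_eq,
      RingHom.isStandardSmoothOfRelativeDimension_algebraMap]
    exact std f i _
  rcases ht with ht | ht
  · exact key 1 (ht.trans h1.symm)
  · exact key 0 (ht.trans h0.symm)

namespace ModX1

lemma coeff_deriv_cub {S : Type*} [CommRing S] (u v w w' : S[X]) (v' : S[X]) (hu : derivative u = 0)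
    (hv : derivative v = v') (hw : derivative w = w') (n : ℕ) :
    (C w' - C v' * X : S[X][X]).coeff n = derivative ((C u * X ^ 3 - C v * X + C w).coeff n) := by
  subst hv hw
  simp only [coeff_add, coeff_sub, coeff_C_mul, coeff_X_pow, coeff_X, coeff_C]
  rcases n with _ | _ | _ | _ | n <;> simp [hu]

end ModX1

theorem smooth_cub {S : Type} [CommRing S] [Algebra ℂ S] (a b c m : S) (habc : a * b * c = 1)
    (hm : IsUnit (m ^ 3 - 1)) :
    SmoothOfRelativeDimension 1
      (Spec.map (CommRingCat.ofHom (algebraMap S (AdjoinRoot (cubPoly a b c m))))) := by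
  have h3 : IsUnit (3 : S) := by
    have : IsUnit ((3 : ℂ)) := by norm_num
    have := this.map (algebraMap ℂ S)
    rwa [map_ofNat] at this
  refine smooth_adjoinRoot (cubPoly a b c m)
    (C (C (3 * a) * X ^ 2) - C (C (3 * m)) * X) ?_ ?_
  · intro n
    refine ModX1.coeff_deriv_cub (C b) (C (3 * m) * X) (C a * X ^ 3 + C c) _ _ ?_ ?_ ?_ n
    · simp
    · simp
    · simp only [derivative_add, derivative_C_mul, derivative_X_pow, derivative_C]
      simp only [C_mul, map_ofNat, Nat.cast_ofNat]
      ring
  · set f := cubPoly a b c m with hf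
    set I : Ideal (AdjoinRoot f) := Ideal.span {AdjoinRoot.mk f (derivative f),
      AdjoinRoot.mk f (C (C (3 * a) * X ^ 2) - C (C (3 * m)) * X)} with hI
    let φ := algebraMap S (AdjoinRoot f)
    let x : AdjoinRoot f := AdjoinRoot.of f X
    let y : AdjoinRoot f := AdjoinRoot.root f
    have hC : ∀ r : S, AdjoinRoot.mk f (C (C r)) = φ r := fun r => rfl
    have hx : AdjoinRoot.mk f (C X) = x := rfl
    have hy : AdjoinRoot.mk f X = y := rfl
    have hrel : φ a * x ^ 3 + φ b * y ^ 3 + φ c = 3 * φ m * x * y := by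
      have h0 : AdjoinRoot.mk f (cubPoly a b c m) = 0 := AdjoinRoot.mk_self
      simp only [cubPoly, map_ofNat, map_add, map_sub, map_mul, map_pow, hC, hx, hy] at h0
      linear_combination h0
    have hP₁ : AdjoinRoot.mk f (derivative f) = 3 * (φ b * y ^ 2 - φ m * x) := by
      have hd : derivative f = 3 * (C (C b) * X ^ 2 - C (C m) * C X) := by
        rw [hf]
        simp only [cubPoly, derivative_add, derivative_sub, derivative_C_mul, derivative_C,
          derivative_X_pow, derivative_X]
        simp only [C_mul, map_ofNat, Nat.cast_ofNat]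
        ring
      rw [hd]
      simp only [map_sub, map_mul, map_pow, hC, hx, hy, map_ofNat]
    have hP₂ : AdjoinRoot.mk f (C (C (3 * a) * X ^ 2) - C (C (3 * m)) * X) =
        3 * (φ a * x ^ 2 - φ m * y) := by
      simp only [map_ofNat, map_sub, map_mul, map_pow, hC, hx, hy]
      ring
    have h3' : IsUnit (3 : AdjoinRoot f) := by
      have := h3.map (algebraMap S (AdjoinRoot f))
      rwa [map_ofNat] at this
    have hA₂ : φ b * y ^ 2 - φ m * x ∈ I := by
      rw [← Ideal.unit_mul_mem_iff_mem I h3', ← hP₁]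
      exact Ideal.subset_span (by simp)
    have hA₁ : φ a * x ^ 2 - φ m * y ∈ I := by
      rw [← Ideal.unit_mul_mem_iff_mem I h3', ← hP₂]
      exact Ideal.subset_span (by simp)
    have habc' : φ a * φ b * φ c = 1 := by
      rw [← map_mul, ← map_mul, habc, map_one]
    have hone : φ c ^ 2 * (φ m ^ 3 - 1) ∈ I := by
      have hcomb : φ c ^ 2 * (φ m ^ 3 - 1) =
          -((x * (φ a * x ^ 2 - φ m * y) + y * (φ b * y ^ 2 - φ m * x)) *
            (φ c * φ m ^ 3 - φ m * (x * y) - φ c) +
          φ c * φ m ^ 2 * ((φ a * x ^ 2 - φ m * y) * (φ b * y ^ 2 - φ m * x) +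
            φ m * x * (φ a * x ^ 2 - φ m * y) + φ m * y * (φ b * y ^ 2 - φ m * x))) := by
        linear_combination (φ c * φ m ^ 3 - φ m * (x * y) - φ c) * hrel +
          φ m ^ 2 * (x * y) ^ 2 * habc'
      rw [hcomb]
      refine I.neg_mem (I.add_mem (I.mul_mem_right _ (I.add_mem (I.mul_mem_left _ hA₁)
        (I.mul_mem_left _ hA₂))) (I.mul_mem_left _ (I.add_mem (I.add_mem (I.mul_mem_right _ hA₁)
        (I.mul_mem_left _ hA₁)) (I.mul_mem_left _ hA₂))))
    refine I.eq_top_of_isUnit_mem hone ?_
    refine (IsUnit.pow 2 (IsUnit.of_mul_eq_one (φ a * φ b) ?_)).mul ?_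
    · linear_combination habc'
    · simpa using hm.map φ

theorem smooth_pB {S : Type} [CommRing S] [Algebra ℂ S] :
    SmoothOfRelativeDimension 1
      (Spec.map (CommRingCat.ofHom (algebraMap S (AdjoinRoot (pB S))))) := by
  refine smooth_adjoinRoot (pB S) (C (12 * X ^ 11) * X ^ 2) ?_ ?_
  · intro n
    simp only [pB, coeff_add, coeff_C_mul, coeff_X_pow, coeff_X, coeff_one]
    rcases n with _ | _ | _ | n <;> simp
    simp only [map_ofNat]
    ring
  · set f := pB S with hf
    set I : Ideal (AdjoinRoot f) := Ideal.span {AdjoinRoot.mk f (derivative f),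
      AdjoinRoot.mk f (C (12 * X ^ 11) * X ^ 2)} with hI
    obtain ⟨x, hx⟩ : ∃ x, AdjoinRoot.mk f (C X) = x := ⟨_, rfl⟩
    obtain ⟨y, hy⟩ : ∃ y, AdjoinRoot.mk f X = y := ⟨_, rfl⟩
    have hrel : x ^ 12 * y ^ 2 + y + 1 = 0 := by
      have h0 : AdjoinRoot.mk f (pB S) = 0 := AdjoinRoot.mk_self
      simp only [pB, map_add, map_mul, map_pow, hx, hy, map_one] at h0
      linear_combination h0
    have hP₁ : AdjoinRoot.mk f (derivative f) = 2 * (x ^ 12 * y) + 1 := by
      have hd : derivative f = 2 * (C X ^ 12 * X) + 1 := by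
        rw [hf]
        simp only [pB, derivative_add, derivative_C_mul, derivative_X_pow, derivative_X,
          derivative_one]
        simp only [C_pow, map_ofNat, Nat.cast_ofNat]
        ring
      rw [hd]
      simp only [map_add, map_mul, map_pow, hx, hy, map_ofNat, map_one]
    have hP₂ : AdjoinRoot.mk f (C (12 * X ^ 11) * X ^ 2) = 12 * x ^ 11 * y ^ 2 := by
      simp only [map_ofNat, map_mul, map_pow, hx, hy]
    have h12 : IsUnit (12 : AdjoinRoot f) := by
      have : IsUnit ((12 : ℂ)) := by norm_num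
      have := (this.map (algebraMap ℂ S)).map (algebraMap S (AdjoinRoot f))
      rwa [map_ofNat, map_ofNat] at this
    have hA : 2 * (x ^ 12 * y) + 1 ∈ I := by
      rw [← hP₁]
      exact Ideal.subset_span (by simp)
    have hB : x ^ 12 * y ^ 2 ∈ I := by
      rw [← Ideal.unit_mul_mem_iff_mem I h12]
      have h : (12 * x ^ 11 * y ^ 2) * x ∈ I := by
        rw [← hP₂]
        exact I.mul_mem_right _ (Ideal.subset_span (by simp))
      have h' : 12 * (x ^ 12 * y ^ 2) = (12 * x ^ 11 * y ^ 2) * x := by ring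
      rw [h']
      exact h
    rw [Ideal.eq_top_iff_one]
    have h1 : (1 : AdjoinRoot f) = (2 * (x ^ 12 * y) + 1) +
        (x ^ 12 * y ^ 2) * (2 - 2 * x ^ 12 - 2 * (x ^ 24 * y ^ 2)) := by
      linear_combination (2 * x ^ 12 * (x ^ 12 * y ^ 2 - y)) * hrel
    rw [h1]
    exact I.add_mem hA (I.mul_mem_right _ hB)

theorem smooth_qB {S : Type} [CommRing S] [Algebra ℂ S] :
    SmoothOfRelativeDimension 1
      (Spec.map (CommRingCat.ofHom (algebraMap S (AdjoinRoot (qB S))))) := by
  refine smooth_adjoinRoot (qB S) (C (6 * X ^ 5) * X) ?_ ?_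
  · intro n
    simp only [qB, coeff_add, coeff_C_mul, coeff_X_pow, coeff_X, coeff_one]
    rcases n with _ | _ | _ | n <;> simp
    simp only [map_ofNat]
    ring
  · set f := qB S with hf
    set I : Ideal (AdjoinRoot f) := Ideal.span {AdjoinRoot.mk f (derivative f),
      AdjoinRoot.mk f (C (6 * X ^ 5) * X)} with hI
    obtain ⟨x, hx⟩ : ∃ x, AdjoinRoot.mk f (C X) = x := ⟨_, rfl⟩
    obtain ⟨y, hy⟩ : ∃ y, AdjoinRoot.mk f X = y := ⟨_, rfl⟩
    have hrel : y ^ 2 + x ^ 6 * y + 1 = 0 := by
      have h0 : AdjoinRoot.mk f (qB S) = 0 := AdjoinRoot.mk_self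
      simp only [qB, map_add, map_mul, map_pow, hx, hy, map_one] at h0
      linear_combination h0
    have hP₁ : AdjoinRoot.mk f (derivative f) = 2 * y + x ^ 6 := by
      have hd : derivative f = 2 * X + C X ^ 6 := by
        rw [hf]
        simp only [qB, derivative_add, derivative_C_mul, derivative_X_pow, derivative_X,
          derivative_one]
        simp only [C_pow, map_ofNat, Nat.cast_ofNat]
        ring
      rw [hd]
      simp only [map_add, map_mul, map_pow, hx, hy, map_ofNat]
    have hP₂ : AdjoinRoot.mk f (C (6 * X ^ 5) * X) = 6 * x ^ 5 * y := by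
      simp only [map_ofNat, map_mul, map_pow, hx, hy]
    have h6 : IsUnit (6 : AdjoinRoot f) := by
      have : IsUnit ((6 : ℂ)) := by norm_num
      have := (this.map (algebraMap ℂ S)).map (algebraMap S (AdjoinRoot f))
      rwa [map_ofNat, map_ofNat] at this
    have h2 : IsUnit (2 : AdjoinRoot f) := by
      have : IsUnit ((2 : ℂ)) := by norm_num
      have := (this.map (algebraMap ℂ S)).map (algebraMap S (AdjoinRoot f))
      rwa [map_ofNat, map_ofNat] at this
    have hA : 2 * y + x ^ 6 ∈ I := by
      rw [← hP₁]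
      exact Ideal.subset_span (by simp)
    have hB : x ^ 6 * y ∈ I := by
      rw [← Ideal.unit_mul_mem_iff_mem I h6]
      have h : (6 * x ^ 5 * y) * x ∈ I := by
        rw [← hP₂]
        exact I.mul_mem_right _ (Ideal.subset_span (by simp))
      have h' : 6 * (x ^ 6 * y) = (6 * x ^ 5 * y) * x := by ring
      rw [h']
      exact h
    rw [Ideal.eq_top_iff_one, ← Ideal.unit_mul_mem_iff_mem I h2]
    have h1 : (2 : AdjoinRoot f) * 1 = (2 * y + x ^ 6) * (-y) + (x ^ 6 * y) * (-1) := by
      linear_combination (2 : AdjoinRoot f) * hrel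
    rw [h1]
    exact I.add_mem (I.mul_mem_right _ hA) (I.mul_mem_right _ hB)

end Pool.Agent.H16
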