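import Pool.Agent.H16.Irr.ChartDefs
import Pool.Agent.H16.Irr.ModD

/-!
# The coordinate ring of the cubic embeds in the function field
-/

open Polynomial

namespace Pool.Agent.H16

namespace ModX3

open IntermediateField

/-- A nonzero polynomial of degree at most `2` over `k(x)` does not vanish at `y`. -/
theorem eq_zero_of_aeval {k K : Type*} [Field k] [Field K] [Algebra k K] (h3 : (3 : k) ≠ 0)
    (b c μ : k) (y w : K) (hb : b ≠ 0) (hc : c ≠ 0) (hμ : μ ^ 3 ≠ b * c)
    (hy : Transcendental k y)
    (h : 1 + algebraMap k K b * y ^ 3 + algebraMap k K c * w ^ 3 = 3 * algebraMap k K μ * y * w)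
    (r : k⟮y⟯[X]) (hr : r.degree < 3) (hr0 : aeval w r = 0) : r = 0 := by
  set y' : k⟮y⟯ := AdjoinSimple.gen k y with hy'
  have hy'' : algebraMap k⟮y⟯ K y' = y := rfl
  set e := RatFunc.algEquivOfTranscendental y hy with he
  have hsymm : e.symm y' = RatFunc.X := by
    rw [he, hy']
    exact RatFunc.algEquivOfTranscendental_symm_gen y hy
  set f : k⟮y⟯[X] := X ^ 3 + (C (algebraMap k k⟮y⟯ (c⁻¹) * (-(3 * algebraMap k k⟮y⟯ μ * y'))) * X +
    C (algebraMap k k⟮y⟯ (c⁻¹) * (1 + algebraMap k k⟮y⟯ b * y' ^ 3))) with hf
  have hfm : f.Monic := by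
    rw [hf]
    monicity!
  have hfd : f.natDegree = 3 := by
    rw [hf]
    compute_degree!
  have hcc : algebraMap k k⟮y⟯ c * algebraMap k k⟮y⟯ (c⁻¹) = 1 := by
    rw [← map_mul, mul_inv_cancel₀ hc, map_one]
  have hfirr : Irreducible f := by
    apply irreducible_of_degree_le_three_of_not_isRoot
    · rw [hfd]
      simp
    · intro W hW
      rw [IsRoot, hf] at hW
      simp only [eval_add, eval_mul, eval_pow, eval_X, eval_C] at hW
      have hW' : 1 + algebraMap k k⟮y⟯ b * y' ^ 3 + algebraMap k k⟮y⟯ c * W ^ 3 =
          3 * algebraMap k k⟮y⟯ μ * y' * W := by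
        linear_combination (algebraMap k k⟮y⟯ c) * hW -
          (-(3 * algebraMap k k⟮y⟯ μ * y') * W + (1 + algebraMap k k⟮y⟯ b * y' ^ 3)) * hcc
      have := congrArg e.symm hW'
      simp only [map_mul, map_add, map_one, map_pow, map_ofNat, AlgEquiv.commutes, hsymm] at this
      exact no_root_ratFunc h3 b c μ hb hc hμ (e.symm W) this
  have hroot : aeval w f = 0 := by
    have hcc' : algebraMap k K c * algebraMap k K (c⁻¹) = 1 := by
      rw [← map_mul, mul_inv_cancel₀ hc, map_one]
    have hc0 : algebraMap k K c ≠ 0 := by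
      rw [Ne, map_eq_zero]
      exact hc
    rw [hf]
    simp only [map_mul, map_add, map_one, map_pow, map_neg, map_ofNat, aeval_X, aeval_C, hy'',
      ← IsScalarTower.algebraMap_apply k k⟮y⟯ K]
    have : algebraMap k K c * (w ^ 3 + (algebraMap k K (c⁻¹) * (-(3 * algebraMap k K μ * y)) * w +
      algebraMap k K (c⁻¹) * (1 + algebraMap k K b * y ^ 3))) = 0 := by
      linear_combination h + ((-(3 * algebraMap k K μ * y)) * w + (1 + algebraMap k K b * y ^ 3)) * hcc'
    exact (mul_eq_zero.mp this).resolve_left hc0
  have hmin : minpoly k⟮y⟯ w = f := (minpoly.eq_of_irreducible_of_monic hfirr hroot hfm).symm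
  by_contra hne
  have h1 := minpoly.degree_le_of_ne_zero k⟮y⟯ w hne hr0
  rw [hmin, degree_eq_natDegree hfm.ne_zero, hfd] at h1
  exact absurd (lt_of_le_of_lt h1 hr) (lt_irrefl _)

end ModX3

theorem cub_injective {S : Type*} [CommRing S] [CharZero S] {K : Type*} [Field K]
    [Algebra S K] (hinj : Function.Injective (algebraMap S K)) (a b c m : S) (ha : a ≠ 0)
    (hb : IsUnit b) (hc : c ≠ 0) (hm : m ^ 3 ≠ a * b * c) (x y : K) (hx : Transcendental S x)
    (h : algebraMap S K a * x ^ 3 + algebraMap S K b * y ^ 3 + algebraMap S K c =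
      3 * algebraMap S K m * x * y) :
    ∃ Φ : AdjoinRoot (cubPoly a b c m) →ₐ[S] K, Function.Injective Φ ∧
      Φ (AdjoinRoot.of _ X) = x ∧ Φ (AdjoinRoot.root _) = y := by
  have : IsDomain S := hinj.isDomain (algebraMap S K)
  have : FaithfulSMul S K := (faithfulSMul_iff_algebraMap_injective S K).2 hinj
  let k := FractionRing S
  let _ : Algebra k K := FractionRing.liftAlgebra S K
  have : IsScalarTower S k K := FractionRing.isScalarTower_liftAlgebra S K
  have hSk : Function.Injective (algebraMap S k) := IsFractionRing.injective S k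
  have hxk : Transcendental k x := by
    rw [Transcendental, ← IsFractionRing.isAlgebraic_iff S k K]
    exact hx
  have : CharZero k := charZero_of_injective_algebraMap hSk
  -- the evaluation
  let ev : S[X] →+* K := (aeval x : S[X] →ₐ[S] K).toRingHom
  have hev : ∀ p : S[X], ev p = aeval x p := fun p => rfl
  have hroot : (cubPoly a b c m).eval₂ ev y = 0 := by
    simp only [cubPoly, eval₂_add, eval₂_sub, eval₂_mul, eval₂_C, eval₂_pow, eval₂_X, hev,
      map_add, map_mul, aeval_C, aeval_X, map_pow, map_ofNat, eval₂_ofNat]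
    linear_combination h
  let Φ₀ : AdjoinRoot (cubPoly a b c m) →+* K := AdjoinRoot.lift ev y hroot
  let Φ : AdjoinRoot (cubPoly a b c m) →ₐ[S] K :=
    { Φ₀ with
      commutes' := by
        intro r
        have : algebraMap S (AdjoinRoot (cubPoly a b c m)) r =
          AdjoinRoot.of (cubPoly a b c m) (C r) := rfl
        change Φ₀ _ = _
        rw [this, AdjoinRoot.lift_of, hev, aeval_C] }
  have hΦmk : ∀ p : S[X][X], Φ (AdjoinRoot.mk _ p) = p.eval₂ ev y :=
    fun p => AdjoinRoot.lift_mk hroot p
  refine ⟨Φ, ?_, ?_, ?_⟩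
  · rw [injective_iff_map_eq_zero]
    intro z hz
    obtain ⟨p, rfl⟩ := AdjoinRoot.mk_surjective z
    -- division with remainder
    obtain ⟨u, hu⟩ := hb
    let g : S[X][X] := X ^ 3 + (C (C ((u⁻¹ : Sˣ) : S) * (-(C (3 * m) * X))) * X +
      C (C ((u⁻¹ : Sˣ) : S) * (C a * X ^ 3 + C c)))
    have hgm : g.Monic := by
      simp only [g]
      monicity!
    have hgd : g.natDegree = 3 := by
      simp only [g]
      compute_degree!
    have hub : b * ((u⁻¹ : Sˣ) : S) = 1 := by
      rw [← hu]
      exact u.mul_inv
    have hub' : (C (C b) * C (C ((u⁻¹ : Sˣ) : S)) : S[X][X]) = 1 := by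
      rw [← map_mul, ← map_mul, hub, map_one, map_one]
    have hfg : cubPoly a b c m = C (C b) * g := by
      simp only [cubPoly, g, map_mul, map_neg, map_add]
      linear_combination (-(C (C 3) * C (C m) * C X) * X + (C (C a) * C (X ^ 3) + C (C c))) *
        (-hub')
    have hmkg : AdjoinRoot.mk (cubPoly a b c m) g = 0 := by
      have : g = cubPoly a b c m * C (C ((u⁻¹ : Sˣ) : S)) := by
        rw [hfg]
        linear_combination (-g) * hub'
      rw [this, map_mul, AdjoinRoot.mk_self, zero_mul]
    set r := p %ₘ g with hr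
    have hpr : AdjoinRoot.mk (cubPoly a b c m) p = AdjoinRoot.mk (cubPoly a b c m) r := by
      conv_lhs => rw [← modByMonic_add_div p g]
      rw [map_add, map_mul, hmkg, zero_mul, add_zero]
    have hrd : r.degree < 3 := by
      have := degree_modByMonic_lt p hgm
      rwa [degree_eq_natDegree hgm.ne_zero, hgd] at this
    rw [hpr, hΦmk] at hz
    rw [hpr]
    -- `r` as a polynomial over `k(x)`
    let ρ : S[X] →+* IntermediateField.adjoin k {x} :=
      eval₂RingHom ((algebraMap k (IntermediateField.adjoin k {x})).comp (algebraMap S k))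
        (IntermediateField.AdjoinSimple.gen k x)
    have hρ : ∀ q : S[X], algebraMap (IntermediateField.adjoin k {x}) K (ρ q) = ev q := by
      intro q
      have h1 : (algebraMap (IntermediateField.adjoin k {x}) K).comp
          ((algebraMap k (IntermediateField.adjoin k {x})).comp (algebraMap S k)) =
          algebraMap S K := by
        rw [← RingHom.comp_assoc, ← IsScalarTower.algebraMap_eq, ← IsScalarTower.algebraMap_eq]
      change algebraMap (IntermediateField.adjoin k {x}) K (eval₂ _ _ q) = aeval x q
      rw [hom_eval₂, h1]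
      rfl
    have hρinj : Function.Injective ρ := by
      rw [injective_iff_map_eq_zero]
      intro q hq
      have h1 := hρ q
      rw [hq, map_zero, hev] at h1
      exact (transcendental_iff.1 hx) q h1.symm
    have hr' : r.map ρ = 0 := by
      have hc' : algebraMap S k c ≠ 0 := fun h0 => hc (hSk (by rw [h0, map_zero]))
      have ha' : algebraMap S k a ≠ 0 := fun h0 => ha (hSk (by rw [h0, map_zero]))
      have hb' : algebraMap S k b ≠ 0 := fun h0 => by
        have : b = 0 := hSk (by rw [h0, map_zero])
        rw [this, zero_mul] at hub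
        exact zero_ne_one hub
      have hcK : algebraMap S K c ≠ 0 := fun h0 => hc (hinj (by rw [h0, map_zero]))
      refine ModX3.eq_zero_of_aeval (k := k) (K := K) (by exact_mod_cast (three_ne_zero : (3 : k) ≠ 0))
        (algebraMap S k a / algebraMap S k c) (algebraMap S k b / algebraMap S k c)
        (algebraMap S k m / algebraMap S k c) x y (div_ne_zero ha' hc') (div_ne_zero hb' hc')
        ?_ hxk ?_ _ (lt_of_le_of_lt degree_map_le hrd) ?_
      · intro h0
        apply hm
        apply hSk
        rw [div_pow, div_mul_div_comm, div_eq_div_iff (pow_ne_zero 3 hc') (mul_ne_zero hc' hc')] at h0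
        rw [map_pow, map_mul, map_mul]
        have h1 : (algebraMap S k c * algebraMap S k c) * ((algebraMap S k) m ^ 3 -
            (algebraMap S k) a * (algebraMap S k) b * (algebraMap S k) c) = 0 := by
          linear_combination h0
        rcases mul_eq_zero.1 h1 with h2 | h2
        · exact absurd h2 (mul_ne_zero hc' hc')
        · exact sub_eq_zero.1 h2
      · simp only [map_div₀, ← IsScalarTower.algebraMap_apply S k K]
        field_simp
        linear_combination h
      · rw [aeval_def, eval₂_map]
        rw [← hz]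
        congr 1
        ext q
        all_goals simp [← hρ]
    have hr0 : r = 0 := by
      rw [← Polynomial.map_zero ρ] at hr'
      exact Polynomial.map_injective ρ hρinj hr'
    rw [hr0, map_zero]
  · have : Φ (AdjoinRoot.of _ X) = ev X := AdjoinRoot.lift_of hroot
    rw [this, hev, aeval_X]
  · exact AdjoinRoot.lift_root hroot

end Pool.Agent.H16
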