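import Pool.Agent.H16.Irr.ModX1
import Pool.Agent.H16.Irr.ModX2
import Pool.Agent.H16.Irr.ModX3

/-!
# Core lemmas for a chart
-/

open AlgebraicGeometry CategoryTheory CategoryTheory.Limits Polynomial

namespace Pool.Agent.H16

namespace ModX5

theorem transcendental_of_range {O S K : Type*} [CommRing S] [CommRing O] [Algebra S O] [Field K]
    [Algebra S K] [Algebra O K] (Φ₁ : O →ₐ[S] K) (hΦ₁ : Function.Injective Φ₁)
    (halg : ∀ z : O, algebraMap O K z = Φ₁ z) (x : K)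
    (hx : Transcendental Φ₁.range x) : Transcendental O x := by
  rintro ⟨p, hp0, hp⟩
  apply hx
  refine ⟨p.map Φ₁.rangeRestrict.toRingHom, ?_, ?_⟩
  · intro h
    apply hp0
    have hinj : Function.Injective Φ₁.rangeRestrict.toRingHom := by
      intro u v huv
      exact hΦ₁ (congrArg Subtype.val huv)
    exact (Polynomial.map_eq_zero_iff hinj).mp h
  · rw [aeval_def, eval₂_map, ← hp, aeval_def]
    congr 1
    ext z
    exact (halg z).symm

/-- the subalgebra `O[x, y]` is isomorphic to the ring of the plane cubic over `O` -/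
theorem exists_equiv {S : Type} [CommRing S] [Algebra ℂ S] {K : Type} [Field K] [Algebra S K]
    (f₁ : S[X][X]) (Φ₁ : AdjoinRoot f₁ →ₐ[S] K) (hΦ₁ : Function.Injective Φ₁)
    (a b c m : AdjoinRoot f₁) (habc : a * b * c = 1) (hm : m ^ 3 ≠ 1) (x y : K)
    (hx : Transcendental Φ₁.range x)
    (hrel : Φ₁ a * x ^ 3 + Φ₁ b * y ^ 3 + Φ₁ c = 3 * Φ₁ m * x * y)
    (A : Subalgebra S K) (hA : A = Φ₁.range ⊔ Algebra.adjoin S {x, y}) :
    ∃ e : AdjoinRoot (cubPoly a b c m) ≃+* A,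
      (∀ z : AdjoinRoot f₁, ((e (algebraMap _ _ z) : A) : K) = Φ₁ z) ∧
      ((e (AdjoinRoot.of _ X) : A) : K) = x ∧ ((e (AdjoinRoot.root _) : A) : K) = y := by
  classical
  have hcharK : CharZero K := by
    have h1 : CharZero ℂ := inferInstance
    exact charZero_of_injective_ringHom (f := (algebraMap S K).comp (algebraMap ℂ S))
      (RingHom.injective _)
  have hcharO : CharZero (AdjoinRoot f₁) := by
    constructor
    intro p q hpq
    have := congrArg Φ₁ hpq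
    rw [map_natCast, map_natCast] at this
    exact Nat.cast_injective this
  have hdom : IsDomain (AdjoinRoot f₁) := hΦ₁.isDomain Φ₁.toRingHom
  let iK : Algebra (AdjoinRoot f₁) K := Φ₁.toRingHom.toAlgebra
  have hx' : Transcendental (AdjoinRoot f₁) x :=
    transcendental_of_range Φ₁ hΦ₁ (fun z => rfl) x hx
  have hab : IsUnit b := ⟨⟨b, a * c, by rw [← habc]; ring, by rw [← habc]; ring⟩, rfl⟩
  have ha0 : a ≠ 0 := by
    rintro rfl
    simp at habc
  have hc0 : c ≠ 0 := by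
    rintro rfl
    simp at habc
  obtain ⟨Φ, hΦ, hX, hY⟩ := cub_injective (S := AdjoinRoot f₁) (K := K) hΦ₁ a b c m ha0 hab hc0
    (by rw [habc]; exact hm) x y hx' hrel
  have htow : IsScalarTower S (AdjoinRoot f₁) K :=
    IsScalarTower.of_algebraMap_eq (fun s => (Φ₁.commutes s).symm)
  have hΦz : ∀ z : AdjoinRoot f₁, Φ (algebraMap _ _ z) = Φ₁ z := fun z => Φ.commutes z
  have hof : ∀ z : AdjoinRoot f₁, Φ (AdjoinRoot.of _ (C z)) = Φ₁ z := fun z => Φ.commutes z
  have h1 : Φ₁.range ≤ A := by rw [hA]; exact le_sup_left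
  have hxA : x ∈ A := by
    rw [hA]
    exact (le_sup_right : Algebra.adjoin S {x, y} ≤ _) (Algebra.subset_adjoin (by simp))
  have hyA : y ∈ A := by
    rw [hA]
    exact (le_sup_right : Algebra.adjoin S {x, y} ≤ _) (Algebra.subset_adjoin (by simp))
  have hmem : ∀ z, Φ z ∈ A := by
    intro z
    obtain ⟨p, rfl⟩ := AdjoinRoot.mk_surjective z
    induction p using Polynomial.induction_on' with
    | add p q hp hq => rw [map_add, map_add]; exact add_mem hp hq
    | monomial n q =>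
      rw [← C_mul_X_pow_eq_monomial, map_mul, map_mul, map_pow, map_pow, AdjoinRoot.mk_X, hY,
        AdjoinRoot.mk_C]
      refine mul_mem ?_ (pow_mem hyA n)
      induction q using Polynomial.induction_on' with
      | add p q hp hq => rw [map_add, map_add]; exact add_mem hp hq
      | monomial k z =>
        rw [← C_mul_X_pow_eq_monomial, map_mul, map_mul, map_pow, map_pow, hX, hof]
        exact mul_mem (h1 ⟨z, rfl⟩) (pow_mem hxA k)
  let g : AdjoinRoot (cubPoly a b c m) →+* A := (Φ : _ →+* K).codRestrict A hmem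
  have hg : ∀ z, ((g z : A) : K) = Φ z := fun z => rfl
  have hginj : Function.Injective g := by
    intro u v huv
    apply hΦ
    rw [← hg, ← hg, huv]
  have hgsurj : Function.Surjective g := by
    have hle : A ≤ (Φ.restrictScalars S).range := by
      rw [hA]
      refine sup_le ?_ (Algebra.adjoin_le ?_)
      · rintro _ ⟨z, rfl⟩
        exact ⟨algebraMap _ _ z, hΦz z⟩
      · intro u hu
        rcases hu with rfl | hu
        · exact ⟨_, hX⟩
        · rw [Set.mem_singleton_iff] at hu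
          rw [hu]
          exact ⟨_, hY⟩
    rintro ⟨u, hu⟩
    obtain ⟨z, hz⟩ := hle hu
    exact ⟨z, Subtype.ext hz⟩
  refine ⟨RingEquiv.ofBijective g ⟨hginj, hgsurj⟩, hΦz, hX, hY⟩

end ModX5

/-- A subalgebra `A = O[x, y]` of `K`, with `O` the image of `AdjoinRoot f₁` (a smooth curve over
`S`) and `(x, y)` a point of a smooth plane cubic over `O`, `x` transcendental over `O`. -/
theorem core_smooth {S : Type} [CommRing S] [Algebra ℂ S] {K : Type} [Field K] [Algebra S K]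
    (f₁ : S[X][X])
    (hf₁ : SmoothOfRelativeDimension 1
      (Spec.map (CommRingCat.ofHom (algebraMap S (AdjoinRoot f₁)))))
    (Φ₁ : AdjoinRoot f₁ →ₐ[S] K) (hΦ₁ : Function.Injective Φ₁)
    (a b c m : AdjoinRoot f₁) (habc : a * b * c = 1) (hm : IsUnit (m ^ 3 - 1)) (x y : K)
    (hx : Transcendental Φ₁.range x)
    (hrel : Φ₁ a * x ^ 3 + Φ₁ b * y ^ 3 + Φ₁ c = 3 * Φ₁ m * x * y)
    (A : Subalgebra S K) (hA : A = Φ₁.range ⊔ Algebra.adjoin S {x, y}) :
    SmoothOfRelativeDimension 2 (Spec.map (CommRingCat.ofHom (algebraMap S A))) := by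
  have hdom : IsDomain (AdjoinRoot f₁) := hΦ₁.isDomain Φ₁.toRingHom
  have hm1 : m ^ 3 ≠ 1 := by
    intro h
    rw [h, sub_self] at hm
    exact not_isUnit_zero hm
  obtain ⟨e, he, -, -⟩ := ModX5.exists_equiv f₁ Φ₁ hΦ₁ a b c m habc hm1 x y hx hrel A hA
  have h2 := smooth_cub (S := AdjoinRoot f₁) a b c m habc hm
  have h3 : SmoothOfRelativeDimension (1 + 1)
      (Spec.map (CommRingCat.ofHom (algebraMap (AdjoinRoot f₁)
        (AdjoinRoot (cubPoly a b c m)))) ≫
        Spec.map (CommRingCat.ofHom (algebraMap S (AdjoinRoot f₁)))) := inferInstance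
  have h4 : SmoothOfRelativeDimension (0 + (1 + 1))
      (Spec.map (CommRingCat.ofHom e.toRingHom) ≫
      (Spec.map (CommRingCat.ofHom (algebraMap (AdjoinRoot f₁)
        (AdjoinRoot (cubPoly a b c m)))) ≫
        Spec.map (CommRingCat.ofHom (algebraMap S (AdjoinRoot f₁))))) := by
    have : IsIso (CommRingCat.ofHom e.toRingHom) := e.toCommRingCatIso.isIso_hom
    infer_instance
  have h5 : algebraMap S A = (e.toRingHom.comp (algebraMap (AdjoinRoot f₁)
        (AdjoinRoot (cubPoly a b c m)))).comp (algebraMap S (AdjoinRoot f₁)) := by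
    ext s
    have h := he (algebraMap S _ s)
    rw [Φ₁.commutes] at h
    exact h.symm
  rw [h5]
  simpa using h4

theorem core_spec {S : Type} [CommRing S] [Algebra ℂ S] {K : Type} [Field K] [Algebra S K]
    (f₁ : S[X][X]) (Φ₁ : AdjoinRoot f₁ →ₐ[S] K) (hΦ₁ : Function.Injective Φ₁)
    (a b c m : AdjoinRoot f₁) (habc : a * b * c = 1) (hm : m ^ 3 ≠ 1) (x y : K)
    (hx : Transcendental Φ₁.range x)
    (hrel : Φ₁ a * x ^ 3 + Φ₁ b * y ^ 3 + Φ₁ c = 3 * Φ₁ m * x * y)
    (A : Subalgebra S K) (hA : A = Φ₁.range ⊔ Algebra.adjoin S {x, y})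
    (ψ : S →+* ℂ) (hψ : Function.Surjective ψ) (f₀ : ℂ[X][X]) (hf₀ : f₀ = f₁.map (mapRingHom ψ))
    (Ψ : AdjoinRoot f₁ →+* AdjoinRoot f₀)
    (hΨ : ∀ p : S[X][X], Ψ (AdjoinRoot.mk f₁ p) = AdjoinRoot.mk f₀ (p.map (mapRingHom ψ)))
    {K₀ : Type} [Field K₀] [Algebra ℂ K₀] (Φ₀ : AdjoinRoot f₀ →ₐ[ℂ] K₀)
    (hΦ₀ : Function.Injective Φ₀) (x₀ y₀ : K₀) (hx₀ : Transcendental Φ₀.range x₀)
    (hm₀ : Ψ m ^ 3 ≠ 1)
    (hrel₀ : Φ₀ (Ψ a) * x₀ ^ 3 + Φ₀ (Ψ b) * y₀ ^ 3 + Φ₀ (Ψ c) = 3 * Φ₀ (Ψ m) * x₀ * y₀) :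
    ∃ φ : A →+* K₀, (∀ (z : AdjoinRoot f₁) (hz : Φ₁ z ∈ A), φ ⟨Φ₁ z, hz⟩ = Φ₀ (Ψ z)) ∧
      (∀ hx : x ∈ A, φ ⟨x, hx⟩ = x₀) ∧ (∀ hy : y ∈ A, φ ⟨y, hy⟩ = y₀) ∧
      RingHom.ker φ = (RingHom.ker ψ).map (algebraMap S A) := by
  obtain ⟨e, he, heX, heY⟩ := ModX5.exists_equiv f₁ Φ₁ hΦ₁ a b c m habc hm x y hx hrel A hA
  obtain ⟨e₀, he₀, he₀X, he₀Y⟩ := ModX5.exists_equiv f₀ Φ₀ hΦ₀ (Ψ a) (Ψ b) (Ψ c) (Ψ m)
    (by rw [← map_mul, ← map_mul, habc, map_one]) hm₀ x₀ y₀ hx₀ hrel₀ _ rfl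
  have hΨsurj : Function.Surjective Ψ := by
    intro z
    obtain ⟨p', rfl⟩ := AdjoinRoot.mk_surjective z
    obtain ⟨p, rfl⟩ := Polynomial.map_surjective (mapRingHom ψ)
      (Polynomial.map_surjective ψ hψ) p'
    exact ⟨AdjoinRoot.mk f₁ p, hΨ p⟩
  -- the kernel of `Ψ`
  have hkerΨ : RingHom.ker Ψ = (RingHom.ker ψ).map (algebraMap S (AdjoinRoot f₁)) := by
    obtain ⟨Ψ', -, h2, h3⟩ := adjoinRoot_map_ker ψ hψ f₁ f₀ hf₀
    have : Ψ = Ψ' := by
      refine RingHom.ext fun z => ?_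
      obtain ⟨p, rfl⟩ := AdjoinRoot.mk_surjective z
      rw [hΨ, h2]
    rw [this, h3]
  obtain ⟨Θ, -, hΘ, hkerΘ⟩ := adjoinRoot_map_ker Ψ hΨsurj (cubPoly a b c m)
    (cubPoly (Ψ a) (Ψ b) (Ψ c) (Ψ m)) (by simp [cubPoly, map_ofNat Ψ 3])
  let φ : A →+* K₀ := (algebraMap _ K₀).comp ((e₀.toRingHom.comp Θ).comp e.symm.toRingHom)
  have hφ : ∀ (z : AdjoinRoot (cubPoly a b c m)) (u : A), e z = u →
      φ u = ((e₀ (Θ z) : _) : K₀) := by
    rintro z u rfl
    change ((e₀ (Θ (e.symm (e z))) : _) : K₀) = _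
    rw [e.symm_apply_apply]
  have h0 : ∀ z, Θ (algebraMap _ _ z) = algebraMap _ _ (Ψ z) := fun z => by
    have := hΘ (C (C z))
    rw [Polynomial.map_C, coe_mapRingHom, Polynomial.map_C] at this
    exact this
  have hX : Θ (AdjoinRoot.of _ X) = AdjoinRoot.of _ X := by
    have := hΘ (C X)
    rw [Polynomial.map_C, coe_mapRingHom, Polynomial.map_X] at this
    exact this
  have hY : Θ (AdjoinRoot.root _) = AdjoinRoot.root _ := by
    have := hΘ X
    rw [Polynomial.map_X] at this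
    exact this
  refine ⟨φ, fun z hz => ?_, fun hx => ?_, fun hy => ?_, ?_⟩
  · refine (hφ (algebraMap _ _ z) ⟨Φ₁ z, hz⟩ (Subtype.ext (he z))).trans ?_
    rw [h0]
    exact he₀ (Ψ z)
  · refine (hφ (AdjoinRoot.of _ X) ⟨x, hx⟩ (Subtype.ext heX)).trans ?_
    rw [hX]
    exact he₀X
  · refine (hφ (AdjoinRoot.root _) ⟨y, hy⟩ (Subtype.ext heY)).trans ?_
    rw [hY]
    exact he₀Y
  · have h1 : RingHom.ker φ = (RingHom.ker Θ).map e.toRingHom := by
      ext u
      rw [RingHom.mem_ker, hφ (e.symm u) u (e.apply_symm_apply u)]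
      constructor
      · intro h
        have h2 : e.symm u ∈ RingHom.ker Θ := by
          rw [RingHom.mem_ker]
          apply e₀.injective
          rw [map_zero]
          exact Subtype.ext h
        have h3 := Ideal.mem_map_of_mem e.toRingHom h2
        have h4 : e.toRingHom (e.symm u) = u := e.apply_symm_apply u
        rwa [h4] at h3
      · intro h
        obtain ⟨v, hv, hvu⟩ := (Ideal.mem_map_iff_of_surjective e.toRingHom e.surjective).mp h
        have h4 : e.symm u = v := by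
          rw [← hvu]
          exact e.symm_apply_apply v
        rw [h4, RingHom.mem_ker.mp hv, map_zero]
        rfl
    rw [h1, hkerΘ, hkerΨ, Ideal.map_map, Ideal.map_map]
    congr 1
    refine RingHom.ext fun s => Subtype.ext ?_
    have h := he (algebraMap S _ s)
    rw [Φ₁.commutes] at h
    exact h

end Pool.Agent.H16
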