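import Pool.Agent.H16.Irr.ChartDefs
import Pool.Agent.H16.Irr.ModX1
import Pool.Agent.H16.Irr.ModX2
import Pool.Agent.H16.Irr.ModX4
import Pool.Agent.H16.Irr.ModX5

/-!
# Module X7: the three charts at infinity
-/

open AlgebraicGeometry CategoryTheory CategoryTheory.Limits Polynomial

namespace Pool.Agent.H16

namespace ModX7

/-! ### Monomial expressions -/

/-- `MB j / t¹²` in terms of `s = 1/t` and `e = ε/t⁶`. -/
def NB {R : Type*} [CommRing R] (s e : R) : Fin 9 → R :=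
  ![s ^ 12, 1, s, e, -s ^ 6 - e, e * s ^ 6, (-s ^ 6 - e) * s ^ 6, e * s ^ 5,
    (-s ^ 6 - e) * s ^ 5]

/-- `MP j / MP (c k)` in terms of `s`, `e` and the two coordinates. -/
def NP (k : Fin 3) {R : Type*} [CommRing R] (s e x z : R) : Fin 8 → R :=
  match k with
  | 0 => ![s ^ 4, 1, s ^ 2 * x, s ^ 2 * z, (-s ^ 6 - e) * x, e * z, x, z]
  | 1 => ![s ^ 4 * x, x, s ^ 2, s ^ 2 * z, -s ^ 6 - e, e * z, 1, z]
  | 2 => ![s ^ 4 * x, x, s ^ 2 * z, s ^ 2, (-s ^ 6 - e) * z, e, z, 1]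

/-- The index of the chart. -/
def cc (k : Fin 3) : Fin 8 := match k with
  | 0 => 1
  | 1 => 6
  | 2 => 7

/-- First coordinate. -/
def xx (k : Fin 3) {K : Type*} [Field K] (t y w : K) : K := match k with
  | 0 => t ^ 2 * y
  | 1 => (t ^ 2 * y)⁻¹
  | 2 => (t ^ 2 * w)⁻¹

/-- Second coordinate. -/
def zz (k : Fin 3) {K : Type*} [Field K] (t y w : K) : K := match k with
  | 0 => t ^ 2 * w
  | 1 => w / y
  | 2 => y / w

theorem map_NB {R R' : Type*} [CommRing R] [CommRing R'] (φ : R →+* R') (s e : R) (j : Fin 9) :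
    φ (NB s e j) = NB (φ s) (φ e) j := by
  fin_cases j <;> simp [NB]

theorem map_NP {R R' : Type*} [CommRing R] [CommRing R'] (φ : R →+* R') (k : Fin 3)
    (s e x z : R) (j : Fin 8) :
    φ (NP k s e x z j) = NP k (φ s) (φ e) (φ x) (φ z) j := by
  fin_cases k <;> fin_cases j <;> simp [NP]

theorem MB_div {K : Type*} [Field K] (t ε : K) (ht : t ≠ 0) (j : Fin 9) :
    MB t ε j / MB t ε 1 = NB t⁻¹ (ε / t ^ 6) j := by
  fin_cases j <;> simp [NB, MB, ht] <;> (try field_simp)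

theorem MP_div {K : Type*} [Field K] (t ε y w : K) (ht : t ≠ 0) (hy : y ≠ 0) (hw : w ≠ 0)
    (k : Fin 3) (j : Fin 8) :
    MP t ε y w j / MP t ε y w (cc k) = NP k t⁻¹ (ε / t ^ 6) (xx k t y w) (zz k t y w) j := by
  fin_cases k <;> fin_cases j <;> simp [NP, MP, cc, xx, zz, ht, hy, hw] <;> (try field_simp)

theorem mm_div {K : Type*} [Field K] (t ε y w : K) (ht : t ≠ 0) (hy : y ≠ 0) (hw : w ≠ 0)
    (k : Fin 3) (j : Fin 9 × Fin 8) :
    mm t ε y w j / mm t ε y w (1, cc k) =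
      NB t⁻¹ (ε / t ^ 6) j.1 * NP k t⁻¹ (ε / t ^ 6) (xx k t y w) (zz k t y w) j.2 := by
  rw [← MB_div t ε ht, ← MP_div t ε y w ht hy hw]
  simp only [mm]
  rw [mul_div_mul_comm]

/-! ### The cubics -/

/-- First coefficient. -/
def ca (k : Fin 3) {R : Type*} [CommRing R] (s e : R) : R := match k with
  | 0 => -s ^ 6 - e
  | 1 => 1
  | 2 => 1

/-- Second coefficient. -/
def cb (k : Fin 3) {R : Type*} [CommRing R] (s e : R) : R := match k with
  | 0 => e
  | 1 => e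
  | 2 => -s ^ 6 - e

/-- Third coefficient. -/
def cd (k : Fin 3) {R : Type*} [CommRing R] (s e : R) : R := match k with
  | 0 => 1
  | 1 => -s ^ 6 - e
  | 2 => e

theorem map_ca {R R' : Type*} [CommRing R] [CommRing R'] (φ : R →+* R') (k : Fin 3) (s e : R) :
    φ (ca k s e) = ca k (φ s) (φ e) := by
  fin_cases k <;> simp [ca]

theorem map_cb {R R' : Type*} [CommRing R] [CommRing R'] (φ : R →+* R') (k : Fin 3) (s e : R) :
    φ (cb k s e) = cb k (φ s) (φ e) := by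
  fin_cases k <;> simp [cb]

theorem map_cd {R R' : Type*} [CommRing R] [CommRing R'] (φ : R →+* R') (k : Fin 3) (s e : R) :
    φ (cd k s e) = cd k (φ s) (φ e) := by
  fin_cases k <;> simp [cd]

theorem abc {R : Type*} [CommRing R] (s e : R) (h : e ^ 2 + s ^ 6 * e + 1 = 0) (k : Fin 3) :
    ca k s e * cb k s e * cd k s e = 1 := by
  fin_cases k <;> simp only [ca, cb, cd] <;> linear_combination -h

theorem cubic {K : Type*} [Field K] (t ε y w μ : K) (ht : t ≠ 0) (hy : y ≠ 0) (hw : w ≠ 0)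
    (h : 1 + (-1 - ε) * y ^ 3 + ε * w ^ 3 = 3 * μ * t ^ 4 * y * w) (k : Fin 3) :
    ca k t⁻¹ (ε / t ^ 6) * (xx k t y w) ^ 3 + cb k t⁻¹ (ε / t ^ 6) * (zz k t y w) ^ 3 +
      cd k t⁻¹ (ε / t ^ 6) = 3 * μ * xx k t y w * zz k t y w := by
  have h1 : -(t⁻¹) ^ 6 - ε / t ^ 6 = (-1 - ε) / t ^ 6 := by
    field_simp
  fin_cases k <;> simp only [ca, cb, cd, xx, zz] <;> (try rw [h1]) <;> field_simp <;>
    linear_combination h

/-! ### The base ring -/

/-- `s` -/
noncomputable def qs (S : Type*) [CommRing S] : AdjoinRoot (qB S) := AdjoinRoot.of _ X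

/-- `e` -/
noncomputable def qe (S : Type*) [CommRing S] : AdjoinRoot (qB S) := AdjoinRoot.root _

theorem q_rel (S : Type*) [CommRing S] : qe S ^ 2 + qs S ^ 6 * qe S + 1 = 0 := by
  have h : eval₂ (AdjoinRoot.of (qB S)) (AdjoinRoot.root (qB S))
      (X ^ 2 + C (X ^ 6) * X + 1) = 0 := AdjoinRoot.eval₂_root (qB S)
  rw [eval₂_add, eval₂_add, eval₂_pow, eval₂_X, eval₂_mul, eval₂_C, map_pow, eval₂_one,
    eval₂_X] at h
  exact h

theorem range_eq {S : Type*} [CommRing S] {K : Type*} [Field K] [Algebra S K]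
    (Φ : AdjoinRoot (qB S) →ₐ[S] K) : Φ.range = Algebra.adjoin S {Φ (qs S), Φ (qe S)} := by
  apply le_antisymm
  · rintro z ⟨g, rfl⟩
    obtain ⟨p, rfl⟩ := AdjoinRoot.mk_surjective g
    change Φ (AdjoinRoot.mk (qB S) p) ∈ _
    have hX : Φ (qs S) ∈ Algebra.adjoin S {Φ (qs S), Φ (qe S)} :=
      Algebra.subset_adjoin (by simp)
    have hY : Φ (qe S) ∈ Algebra.adjoin S {Φ (qs S), Φ (qe S)} :=
      Algebra.subset_adjoin (by simp)
    have hC : ∀ q : S[X], Φ (AdjoinRoot.mk (qB S) (C q)) ∈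
        Algebra.adjoin S {Φ (qs S), Φ (qe S)} := by
      intro q
      induction q using Polynomial.induction_on' with
      | add p q hp hq => rw [map_add, map_add, map_add]; exact add_mem hp hq
      | monomial n a =>
        rw [← C_mul_X_pow_eq_monomial, map_mul, map_pow, map_mul, map_pow, map_mul, map_pow]
        refine mul_mem ?_ (pow_mem hX n)
        have h1 : AdjoinRoot.mk (qB S) (C (C a)) = algebraMap S _ a := rfl
        rw [h1, AlgHom.commutes]
        exact Subalgebra.algebraMap_mem _ _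
    induction p using Polynomial.induction_on' with
    | add p q hp hq => rw [map_add, map_add]; exact add_mem hp hq
    | monomial n a =>
      rw [← C_mul_X_pow_eq_monomial, map_mul, map_pow, map_mul, map_pow]
      exact mul_mem (hC a) (pow_mem hY n)
  · rw [Algebra.adjoin_le_iff]
    rintro z (rfl | rfl)
    · exact ⟨_, rfl⟩
    · exact ⟨_, rfl⟩

/-! ### Transcendence -/

theorem isAlgebraic_trans {D K A : Type*} [CommRing D] [IsDomain D] [Field K] [Algebra D K]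
    [CommRing A] [Algebra A K] (hA : Function.Injective (algebraMap A K))
    (h : ∀ a : A, IsAlgebraic D (algebraMap A K a)) {x : K} (hx : IsAlgebraic A x) :
    IsAlgebraic D x := by
  let Q := Subalgebra.algebraicClosure D K
  let ι : A →+* Q := (algebraMap A K).codRestrict Q h
  have hι : Function.Injective ι := fun a b hab => hA (congrArg Subtype.val hab)
  have h1 : IsAlgebraic Q x := by
    obtain ⟨p, hp0, hp⟩ := hx
    refine ⟨p.map ι, (Polynomial.map_ne_zero_iff hι).2 hp0, ?_⟩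
    rw [aeval_def, eval₂_map]
    exact hp
  exact h1.restrictScalars D

section

variable {S : Type*} [CommRing S] {l : S} {K : Type*} [Field K] [Algebra S K]
    {t ε y w : K}

theorem y_transc (h : GenPt S l K t ε y w) : Transcendental (Algebra.adjoin S {t}) y := by
  have h1 := h.indep.transcendental_adjoin (s := {0}) (i := 1) (by simp)
  have h2 : (![t, y] '' {0}) = {t} := by simp
  rw [h2] at h1
  exact h1

theorem t_alg : IsAlgebraic (Algebra.adjoin S {t}) t :=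
  isAlgebraic_algebraMap (⟨t, Algebra.subset_adjoin rfl⟩ : Algebra.adjoin S {t})

theorem ε_alg (h : GenPt S l K t ε y w) : IsAlgebraic (Algebra.adjoin S {t}) ε := by
  let t' : Algebra.adjoin S {t} := ⟨t, Algebra.subset_adjoin rfl⟩
  refine ⟨X ^ 2 + X + C (t' ^ 12), ?_, ?_⟩
  · have : (X ^ 2 + X + C (t' ^ 12)).Monic := by monicity!
    exact this.ne_zero
  · simp only [map_add, map_pow, aeval_X, aeval_C]
    exact h.rel1

theorem nonzero (h : GenPt S l K t ε y w) :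
    t ≠ 0 ∧ y ≠ 0 ∧ w ≠ 0 := by
  have : Nontrivial S := (algebraMap S K).domain_nontrivial
  have ht : t ≠ 0 := by
    have := h.indep.ne_zero 0
    simpa using this
  have hy : y ≠ 0 := by
    have := h.indep.ne_zero 1
    simpa using this
  refine ⟨ht, hy, ?_⟩
  rintro rfl
  have h1 := h.rel2
  have h2 : y ^ 3 = (1 + ε)⁻¹ := by
    apply eq_inv_of_mul_eq_one_left
    linear_combination -h1
  have h3 : IsAlgebraic (Algebra.adjoin S {t}) (y ^ 3) := by
    rw [h2]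
    exact (isAlgebraic_one.add (ε_alg h)).inv
  exact y_transc h (h3.of_pow (by norm_num))

theorem transc (h : GenPt S l K t ε y w)
    (Φ : AdjoinRoot (qB S) →ₐ[S] K) (h1 : Φ (AdjoinRoot.of _ X) = t⁻¹)
    (h2 : Φ (AdjoinRoot.root _) = ε / t ^ 6) (k : Fin 3) :
    Transcendental Φ.range (xx k t y w) := by
  obtain ⟨ht, hy, hw⟩ := nonzero h
  intro hx
  have htA : IsAlgebraic (Algebra.adjoin S {t}) t := t_alg
  have hεA := ε_alg h
  have hx' : IsAlgebraic (Algebra.adjoin S {t}) (xx k t y w) := by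
    refine isAlgebraic_trans (A := Φ.range) Subtype.val_injective ?_ hx
    rintro ⟨a, ha⟩
    change IsAlgebraic _ a
    rw [range_eq] at ha
    have h3 : Algebra.adjoin S {Φ (qs S), Φ (qe S)} ≤
        (Subalgebra.algebraicClosure (Algebra.adjoin S {t}) K).restrictScalars S := by
      rw [Algebra.adjoin_le_iff]
      rintro z (rfl | rfl)
      · change IsAlgebraic _ _
        unfold qs
        rw [h1]
        exact htA.inv
      · change IsAlgebraic _ _
        unfold qe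
        rw [h2, div_eq_mul_inv]
        exact hεA.mul (htA.pow 6).inv
    exact h3 ha
  have key : ¬ IsAlgebraic (Algebra.adjoin S {t}) y := y_transc h
  match k with
  | 0 =>
    apply key
    have h3 : y = (t ^ 2)⁻¹ * (xx 0 t y w) := by
      simp only [xx]
      field_simp
    rw [h3]
    exact (htA.pow 2).inv.mul hx'
  | 1 =>
    apply key
    have h3 : y = (t ^ 2)⁻¹ * (xx 1 t y w)⁻¹ := by
      simp only [xx]
      field_simp
    rw [h3]
    exact (htA.pow 2).inv.mul hx'.inv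
  | 2 =>
    have h3 : w = (t ^ 2)⁻¹ * (xx 2 t y w)⁻¹ := by
      simp only [xx]
      field_simp
    have hwA : IsAlgebraic (Algebra.adjoin S {t}) w := by
      rw [h3]
      exact (htA.pow 2).inv.mul hx'.inv
    apply key
    let Q := Subalgebra.algebraicClosure (Algebra.adjoin S {t}) K
    let t' : Q := ⟨t, htA⟩
    let ε' : Q := ⟨ε, hεA⟩
    let w' : Q := ⟨w, hwA⟩
    let l' : Q := ⟨algebraMap S K l, by
      have : algebraMap S K l = algebraMap (Algebra.adjoin S {t}) K (algebraMap S _ l) := rfl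
      rw [this]
      exact isAlgebraic_algebraMap _⟩
    have hε0 : -1 - ε ≠ 0 := by
      intro h0
      have h4 := h.rel1
      have h5 : ε = -1 := by linear_combination -h0
      rw [h5] at h4
      have h6 : t ^ 12 = 0 := by linear_combination h4
      exact ht (pow_eq_zero_iff (by norm_num) |>.1 h6)
    have h4 : IsAlgebraic Q y := by
      refine ⟨C (-1 - ε') * X ^ 3 + C (- 3 * l' * t' ^ 4 * w') * X + C (1 + ε' * w' ^ 3), ?_, ?_⟩
      · intro h0
        have h5 := congrArg (fun p => coeff p 3) h0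
        simp only [coeff_add, coeff_C_mul, coeff_X_pow, coeff_X, coeff_C, coeff_zero] at h5
        norm_num at h5
        exact hε0 (congrArg Subtype.val h5)
      · simp only [map_add, map_mul, map_pow, aeval_X, aeval_C]
        change (-1 - ε) * y ^ 3 + (-3 * algebraMap S K l * t ^ 4 * w) * y + (1 + ε * w ^ 3) = 0
        linear_combination h.rel2
    exact h4.restrictScalars _

/-! ### The chart algebras -/

/-- The index giving the first coordinate. -/
def jx (k : Fin 3) : Fin 8 := match k with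
  | 0 => 6
  | 1 => 1
  | 2 => 1

/-- The index giving the second coordinate. -/
def jz (k : Fin 3) : Fin 8 := match k with
  | 0 => 7
  | 1 => 7
  | 2 => 6

theorem NP_cc {R : Type*} [CommRing R] (k : Fin 3) (s e x z : R) : NP k s e x z (cc k) = 1 := by
  fin_cases k <;> rfl

theorem NP_jx {R : Type*} [CommRing R] (k : Fin 3) (s e x z : R) : NP k s e x z (jx k) = x := by
  fin_cases k <;> rfl

theorem NP_jz {R : Type*} [CommRing R] (k : Fin 3) (s e x z : R) : NP k s e x z (jz k) = z := by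
  fin_cases k <;> rfl

theorem mm_s (h : GenPt S l K t ε y w) (k : Fin 3) :
    mm t ε y w (2, cc k) / mm t ε y w (1, cc k) = t⁻¹ := by
  obtain ⟨ht, hy, hw⟩ := nonzero h
  rw [mm_div t ε y w ht hy hw, NP_cc, mul_one]
  rfl

theorem mm_e (h : GenPt S l K t ε y w) (k : Fin 3) :
    mm t ε y w (3, cc k) / mm t ε y w (1, cc k) = ε / t ^ 6 := by
  obtain ⟨ht, hy, hw⟩ := nonzero h
  rw [mm_div t ε y w ht hy hw, NP_cc, mul_one]
  rfl

theorem mm_x (h : GenPt S l K t ε y w) (k : Fin 3) :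
    mm t ε y w (1, jx k) / mm t ε y w (1, cc k) = xx k t y w := by
  obtain ⟨ht, hy, hw⟩ := nonzero h
  rw [mm_div t ε y w ht hy hw, NP_jx]
  exact one_mul _

theorem mm_z (h : GenPt S l K t ε y w) (k : Fin 3) :
    mm t ε y w (1, jz k) / mm t ε y w (1, cc k) = zz k t y w := by
  obtain ⟨ht, hy, hw⟩ := nonzero h
  rw [mm_div t ε y w ht hy hw, NP_jz]
  exact one_mul _

end

section

variable {S : Type} [CommRing S] {l : S} {K : Type} [Field K] [Algebra S K]
    {t ε y w : K}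

theorem mem_s (h : GenPt S l K t ε y w) (k : Fin 3) :
    t⁻¹ ∈ chartAlg S (mm t ε y w) (1, cc k) :=
  Algebra.subset_adjoin ⟨(2, cc k), mm_s h k⟩

theorem mem_e (h : GenPt S l K t ε y w) (k : Fin 3) :
    ε / t ^ 6 ∈ chartAlg S (mm t ε y w) (1, cc k) :=
  Algebra.subset_adjoin ⟨(3, cc k), mm_e h k⟩

theorem mem_x (h : GenPt S l K t ε y w) (k : Fin 3) :
    xx k t y w ∈ chartAlg S (mm t ε y w) (1, cc k) :=
  Algebra.subset_adjoin ⟨(1, jx k), mm_x h k⟩

theorem mem_z (h : GenPt S l K t ε y w) (k : Fin 3) :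
    zz k t y w ∈ chartAlg S (mm t ε y w) (1, cc k) :=
  Algebra.subset_adjoin ⟨(1, jz k), mm_z h k⟩

theorem chart_eq (h : GenPt S l K t ε y w)
    (Φ : AdjoinRoot (qB S) →ₐ[S] K) (h1 : Φ (AdjoinRoot.of _ X) = t⁻¹)
    (h2 : Φ (AdjoinRoot.root _) = ε / t ^ 6) (k : Fin 3) :
    chartAlg S (mm t ε y w) (1, cc k) =
      Φ.range ⊔ Algebra.adjoin S {xx k t y w, zz k t y w} := by
  obtain ⟨ht, hy, hw⟩ := nonzero h
  apply le_antisymm
  · rw [Algebra.adjoin_le_iff]
    rintro _ ⟨j, rfl⟩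
    change mm t ε y w j / mm t ε y w (1, cc k) ∈ _
    rw [mm_div t ε y w ht hy hw]
    set A := Φ.range ⊔ Algebra.adjoin S {xx k t y w, zz k t y w} with hA
    have hs : t⁻¹ ∈ A := (le_sup_left : Φ.range ≤ A) ⟨_, h1⟩
    have he : ε / t ^ 6 ∈ A := (le_sup_left : Φ.range ≤ A) ⟨_, h2⟩
    have hx : xx k t y w ∈ A := (le_sup_right : _ ≤ A) (Algebra.subset_adjoin (by simp))
    have hz : zz k t y w ∈ A := (le_sup_right : _ ≤ A) (Algebra.subset_adjoin (by simp))
    have h3 := map_NB A.val.toRingHom ⟨_, hs⟩ ⟨_, he⟩ j.1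
    have h4 := map_NP A.val.toRingHom k ⟨_, hs⟩ ⟨_, he⟩ ⟨_, hx⟩ ⟨_, hz⟩ j.2
    refine mul_mem ?_ ?_
    · exact h3 ▸ Subtype.prop _
    · exact h4 ▸ Subtype.prop _
  · rw [sup_le_iff, range_eq, Algebra.adjoin_le_iff, Algebra.adjoin_le_iff]
    constructor
    · rintro z (rfl | rfl)
      · unfold qs
        rw [h1]
        exact mem_s h k
      · unfold qe
        rw [h2]
        exact mem_e h k
    · rintro z (rfl | rfl)
      · exact mem_x h k
      · exact mem_z h k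

theorem mm_sub (h : GenPt S l K t ε y w) (k : Fin 3) (j : Fin 9 × Fin 8)
    (hj : mm t ε y w j / mm t ε y w (1, cc k) ∈ chartAlg S (mm t ε y w) (1, cc k)) :
    (⟨mm t ε y w j / mm t ε y w (1, cc k), hj⟩ : chartAlg S (mm t ε y w) (1, cc k)) =
      NB ⟨_, mem_s h k⟩ ⟨_, mem_e h k⟩ j.1 *
        NP k ⟨_, mem_s h k⟩ ⟨_, mem_e h k⟩ ⟨_, mem_x h k⟩ ⟨_, mem_z h k⟩ j.2 := by
  obtain ⟨ht, hy, hw⟩ := nonzero h
  have h3 := map_NB (chartAlg S (mm t ε y w) (1, cc k)).val.toRingHom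
    ⟨_, mem_s h k⟩ ⟨_, mem_e h k⟩ j.1
  have h4 := map_NP (chartAlg S (mm t ε y w) (1, cc k)).val.toRingHom k
    ⟨_, mem_s h k⟩ ⟨_, mem_e h k⟩ ⟨_, mem_x h k⟩ ⟨_, mem_z h k⟩ j.2
  apply Subtype.ext
  change mm t ε y w j / mm t ε y w (1, cc k) =
    (chartAlg S (mm t ε y w) (1, cc k)).val.toRingHom _ *
      (chartAlg S (mm t ε y w) (1, cc k)).val.toRingHom _
  rw [h3, h4]
  exact mm_div t ε y w ht hy hw k j

end

theorem Iinf_cases {i : Fin 9 × Fin 8} (hi : i ∈ Iinf) : ∃ k, i = (1, cc k) := by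
  rcases hi with rfl | rfl | rfl
  · exact ⟨0, rfl⟩
  · exact ⟨1, rfl⟩
  · exact ⟨2, rfl⟩

theorem charZero (S : Type*) [CommRing S] [Algebra ℂ S] {K : Type*} [Field K] [Algebra S K] :
    CharZero S := by
  have : Nontrivial S := (algebraMap S K).domain_nontrivial
  exact charZero_of_injective_algebraMap (algebraMap ℂ S).injective

theorem t_transc {S : Type*} [CommRing S] {l : S} {K : Type*} [Field K] [Algebra S K]
    {t ε y w : K} (h : GenPt S l K t ε y w) : Transcendental S t :=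
  h.indep.transcendental 0

theorem hrel {S : Type*} [CommRing S] {l : S} {K : Type*} [Field K] [Algebra S K]
    {t ε y w : K} (h : GenPt S l K t ε y w)
    (Φ : AdjoinRoot (qB S) →ₐ[S] K) (h1 : Φ (AdjoinRoot.of _ X) = t⁻¹)
    (h2 : Φ (AdjoinRoot.root _) = ε / t ^ 6) (k : Fin 3) :
    Φ (ca k (qs S) (qe S)) * xx k t y w ^ 3 + Φ (cb k (qs S) (qe S)) * zz k t y w ^ 3 +
      Φ (cd k (qs S) (qe S)) = 3 * Φ (algebraMap S _ l) * xx k t y w * zz k t y w := by
  obtain ⟨ht, hy, hw⟩ := nonzero h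
  have ha := map_ca Φ.toRingHom k (qs S) (qe S)
  have hb := map_cb Φ.toRingHom k (qs S) (qe S)
  have hc := map_cd Φ.toRingHom k (qs S) (qe S)
  have hs : Φ.toRingHom (qs S) = t⁻¹ := h1
  have he : Φ.toRingHom (qe S) = ε / t ^ 6 := h2
  rw [hs, he] at ha hb hc
  have ha' : Φ (ca k (qs S) (qe S)) = ca k t⁻¹ (ε / t ^ 6) := ha
  have hb' : Φ (cb k (qs S) (qe S)) = cb k t⁻¹ (ε / t ^ 6) := hb
  have hc' : Φ (cd k (qs S) (qe S)) = cd k t⁻¹ (ε / t ^ 6) := hc
  rw [ha', hb', hc', AlgHom.commutes]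
  exact cubic t ε y w _ ht hy hw h.rel2 k

end ModX7

open ModX7

theorem chart_smooth_inf (S : Type) [CommRing S] [Algebra ℂ S] (l : S)
    (hl : IsUnit (l ^ 3 - 1)) (K : Type) [Field K] [Algebra S K]
    (hinj : Function.Injective (algebraMap S K)) (t ε y w : K) (h : GenPt S l K t ε y w)
    (i : Fin 9 × Fin 8) (hi : i ∈ Iinf) :
    SmoothOfRelativeDimension 2
      (Spec.map (CommRingCat.ofHom (algebraMap S (chartAlg S (mm t ε y w) i)))) := by
  obtain ⟨k, rfl⟩ := Iinf_cases hi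
  have : CharZero S := charZero S (K := K)
  obtain ⟨Φ, hΦ, h1, h2⟩ := qB_injective hinj t ε h.rel1 (t_transc h)
  refine core_smooth (qB S) smooth_qB Φ hΦ (ca k (qs S) (qe S)) (cb k (qs S) (qe S))
    (cd k (qs S) (qe S)) (algebraMap S _ l) (abc _ _ (q_rel S) k) ?_ (xx k t y w) (zz k t y w)
    (transc h Φ h1 h2 k) (hrel h Φ h1 h2 k) _ (chart_eq h Φ h1 h2 k)
  have := hl.map (algebraMap S (AdjoinRoot (qB S)))
  rwa [map_sub, map_pow, map_one] at this

theorem chart_spec_inf (S : Type) [CommRing S] [Algebra ℂ S] (l : S)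
    (hl : IsUnit (l ^ 3 - 1)) (K : Type) [Field K] [Algebra S K]
    (hinj : Function.Injective (algebraMap S K)) (t ε y w : K) (h : GenPt S l K t ε y w)
    (ψ : S →+* ℂ) (hψ : Function.Surjective ψ) (K₀ : Type) [Field K₀] [Algebra ℂ K₀]
    (t₀ ε₀ y₀ w₀ : K₀) (h₀ : GenPt ℂ (ψ l) K₀ t₀ ε₀ y₀ w₀)
    (i : Fin 9 × Fin 8) (hi : i ∈ Iinf) :
    ∃ φ : chartAlg S (mm t ε y w) i →+* K₀,
      (∀ r : S, φ (algebraMap S _ r) = algebraMap ℂ K₀ (ψ r)) ∧
      (∀ (j : Fin 9 × Fin 8) (hj : mm t ε y w j / mm t ε y w i ∈ chartAlg S (mm t ε y w) i),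
        φ ⟨mm t ε y w j / mm t ε y w i, hj⟩ = mm t₀ ε₀ y₀ w₀ j / mm t₀ ε₀ y₀ w₀ i) ∧
      RingHom.ker φ = (RingHom.ker ψ).map (algebraMap S (chartAlg S (mm t ε y w) i)) := by
  obtain ⟨k, rfl⟩ := Iinf_cases hi
  have : CharZero S := charZero S (K := K)
  obtain ⟨Φ, hΦ, h1, h2⟩ := qB_injective hinj t ε h.rel1 (t_transc h)
  obtain ⟨Φ₀, hΦ₀, h1₀, h2₀⟩ :=
    qB_injective (S := ℂ) (algebraMap ℂ K₀).injective t₀ ε₀ h₀.rel1 (t_transc h₀)
  have hf₀ : qB ℂ = (qB S).map (mapRingHom ψ) := by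
    simp [qB]
  obtain ⟨Ψ, -, hΨ, -⟩ := adjoinRoot_map_ker ψ hψ (qB S) (qB ℂ) hf₀
  have hΨs : Ψ (qs S) = qs ℂ := by
    have := hΨ (C X)
    simp only [Polynomial.map_C, coe_mapRingHom, Polynomial.map_X] at this
    exact this
  have hΨe : Ψ (qe S) = qe ℂ := by
    have := hΨ X
    simp only [Polynomial.map_X] at this
    exact this
  have hΨr : ∀ r : S, Ψ (algebraMap S _ r) = algebraMap ℂ _ (ψ r) := by
    intro r
    have := hΨ (C (C r))
    simp only [Polynomial.map_C, coe_mapRingHom] at this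
    exact this
  have hl3 : l ^ 3 - 1 ≠ 0 := hl.ne_zero
  have hl3₀ : ψ l ^ 3 - 1 ≠ 0 := by
    have := (hl.map ψ).ne_zero
    rwa [map_sub, map_pow, map_one] at this
  have hm : (algebraMap S (AdjoinRoot (qB S)) l) ^ 3 ≠ 1 := by
    intro h3
    have h4 := congrArg Φ h3
    rw [map_pow, AlgHom.commutes, map_one, ← map_pow] at h4
    apply hl3
    apply hinj
    rw [map_sub, h4, map_one, sub_self, map_zero]
  have hm₀ : (Ψ (algebraMap S (AdjoinRoot (qB S)) l)) ^ 3 ≠ 1 := by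
    intro h3
    rw [hΨr] at h3
    have h4 := congrArg Φ₀ h3
    rw [map_pow, AlgHom.commutes, map_one, ← map_pow] at h4
    apply hl3₀
    apply (algebraMap ℂ K₀).injective
    rw [map_sub, h4, map_one, sub_self, map_zero]
  have hrel₀ : Φ₀ (Ψ (ca k (qs S) (qe S))) * xx k t₀ y₀ w₀ ^ 3 +
      Φ₀ (Ψ (cb k (qs S) (qe S))) * zz k t₀ y₀ w₀ ^ 3 + Φ₀ (Ψ (cd k (qs S) (qe S))) =
      3 * Φ₀ (Ψ (algebraMap S _ l)) * xx k t₀ y₀ w₀ * zz k t₀ y₀ w₀ := by
    rw [map_ca, map_cb, map_cd, hΨs, hΨe, hΨr]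
    exact hrel h₀ Φ₀ h1₀ h2₀ k
  obtain ⟨φ, hφ1, hφ2, hφ3, hφ4⟩ := core_spec (qB S) Φ hΦ (ca k (qs S) (qe S))
    (cb k (qs S) (qe S)) (cd k (qs S) (qe S)) (algebraMap S _ l) (abc _ _ (q_rel S) k) hm
    (xx k t y w) (zz k t y w) (transc h Φ h1 h2 k) (hrel h Φ h1 h2 k) _ (chart_eq h Φ h1 h2 k)
    ψ hψ (qB ℂ) hf₀ Ψ hΨ Φ₀ hΦ₀ (xx k t₀ y₀ w₀) (zz k t₀ y₀ w₀) (transc h₀ Φ₀ h1₀ h2₀ k) hm₀
    hrel₀
  refine ⟨φ, ?_, ?_, hφ4⟩
  · intro r
    have h3 : Φ (algebraMap S _ r) ∈ chartAlg S (mm t ε y w) (1, cc k) := by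
      rw [AlgHom.commutes]
      exact Subalgebra.algebraMap_mem _ _
    have h4 := hφ1 (algebraMap S _ r) h3
    rw [hΨr] at h4
    refine Eq.trans ?_ (h4.trans (AlgHom.commutes _ _))
    congr 1
    apply Subtype.ext
    change algebraMap S K r = Φ (algebraMap S _ r)
    rw [AlgHom.commutes]
  · intro j hj
    obtain ⟨ht₀, hy₀, hw₀⟩ := nonzero h₀
    rw [mm_sub h k j hj, map_mul, map_NB, map_NP]
    have hφs : φ ⟨t⁻¹, mem_s h k⟩ = t₀⁻¹ := by
      have h6 := hφ1 (qs S) (by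
        change Φ (AdjoinRoot.of _ X) ∈ _
        rw [h1]; exact mem_s h k)
      rw [hΨs] at h6
      rw [← h1₀]
      refine Eq.trans ?_ h6
      congr 1
      apply Subtype.ext
      exact h1.symm
    have hφe : φ ⟨ε / t ^ 6, mem_e h k⟩ = ε₀ / t₀ ^ 6 := by
      have h6 := hφ1 (qe S) (by
        change Φ (AdjoinRoot.root _) ∈ _
        rw [h2]; exact mem_e h k)
      rw [hΨe] at h6
      rw [← h2₀]
      refine Eq.trans ?_ h6
      congr 1
      apply Subtype.ext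
      exact h2.symm
    rw [hφs, hφe, hφ2 (mem_x h k), hφ3 (mem_z h k)]
    exact (mm_div t₀ ε₀ y₀ w₀ ht₀ hy₀ hw₀ k j).symm

end Pool.Agent.H16
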