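import Pool.Agent.H16.Irr.ChartDefs

/-!
# The charts cover; existence of generic points
-/

open Polynomial

namespace Pool.Agent.H16

namespace ModX8

variable {K : Type*} [Field K]

theorem exists_max (V : ValuationSubring K) (z : Fin 3 → K) (hz : ∀ i, z i ≠ 0) :
    ∃ i, ∀ j, z j / z i ∈ V := by
  obtain ⟨i, hi⟩ := Finite.exists_max (fun i => V.valuation (z i))
  refine ⟨i, fun j => ?_⟩
  rw [← V.valuation_le_one_iff, map_div₀]
  have h0 : V.valuation (z i) ≠ 0 := (Valuation.ne_zero_iff _).2 (hz i)
  exact div_le_one_of_le₀ (hi j) zero_le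

theorem aux (V : ValuationSubring K) (A : Fin 9 → K) (B : Fin 8 → K) (i₁ : Fin 9)
    (hA : ∀ j, A j / A i₁ ∈ V) (z : Fin 3 → K) (hz : ∀ i, z i ≠ 0) (idx : Fin 3 → Fin 8)
    (u : Fin 3 → K) (hu : ∀ i, B (idx i) = u i * z i) (huV : ∀ i, (u i)⁻¹ ∈ V) (d : Fin 8 → K)
    (τ : Fin 8 → Fin 3) (hd : ∀ j, B j = d j * z (τ j)) (hdV : ∀ j, d j ∈ V) :
    ∃ i, ∀ j : Fin 9 × Fin 8, (A j.1 * B j.2) / (A i₁ * B (idx i)) ∈ V := by
  obtain ⟨i, hi⟩ := exists_max V z hz
  refine ⟨i, fun j => ?_⟩
  have : (A j.1 * B j.2) / (A i₁ * B (idx i)) =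
      (A j.1 / A i₁) * (d j.2 * (u i)⁻¹ * (z (τ j.2) / z i)) := by
    rw [hu i, hd j.2]
    simp only [div_eq_mul_inv, mul_inv]
    ring
  rw [this]
  exact V.mul_mem _ _ (hA _) (V.mul_mem _ _ (V.mul_mem _ _ (hdV _) (huV _)) (hi _))

end ModX8

open ModX8

theorem chart_cover {K : Type*} [Field K] (t ε y w : K) (ht : t ≠ 0) (hy : y ≠ 0) (hw : w ≠ 0)
    (hε : ε ^ 2 + ε + t ^ 12 = 0) (V : ValuationSubring K) :
    ∃ i ∈ I9, ∀ j, mm t ε y w j / mm t ε y w i ∈ V := by
  have hee : ε * (-1 - ε) = t ^ 12 := by linear_combination -hε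
  have ht12 : t ^ 12 ≠ 0 := pow_ne_zero _ ht
  have hε0 : ε ≠ 0 := by
    rintro rfl
    rw [zero_mul] at hee
    exact ht12 hee.symm
  have hε'0 : -1 - ε ≠ 0 := by
    intro h
    rw [h, mul_zero] at hee
    exact ht12 hee.symm
  have h1V : (1 : K) ∈ V := V.one_mem
  have h1V' : (-1 : K) ∈ V := V.neg_mem _ h1V
  by_cases htV : t ∈ V
  · have hp : ∀ n : ℕ, t ^ n ∈ V := fun n => pow_mem htV n
    have hεV : ε ∈ V := by
      rcases V.mem_or_inv_mem ε with h | h
      · exact h
      · have : ε = -1 - t ^ 12 * ε⁻¹ := by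
          field_simp
          linear_combination hε
        rw [this]
        exact sub_mem h1V' (V.mul_mem _ _ (hp _) h)
    have hε'V : -1 - ε ∈ V := sub_mem h1V' hεV
    have hor : ε⁻¹ ∈ V ∨ (-1 - ε)⁻¹ ∈ V := by
      by_contra hcon
      push Not at hcon
      obtain ⟨h1, h2⟩ := hcon
      rw [← V.valuation_le_one_iff, map_inv₀, not_le] at h1 h2
      have h3 : V.valuation ε < 1 := by
        rwa [one_lt_inv₀ (zero_lt_iff.2 ((Valuation.ne_zero_iff _).2 hε0))] at h1
      have h4 : V.valuation (-1 - ε) < 1 := by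
        rwa [one_lt_inv₀ (zero_lt_iff.2 ((Valuation.ne_zero_iff _).2 hε'0))] at h2
      have h5 := V.valuation.map_add_lt h3 h4
      rw [show ε + (-1 - ε) = -1 by ring, Valuation.map_neg, map_one] at h5
      exact lt_irrefl _ h5
    rcases hor with hi | hi
    · -- the charts over `ε ≠ 0`
      have hε' : -1 - ε = t ^ 12 * ε⁻¹ := by
        rw [← hee, mul_comm ε, mul_assoc, mul_inv_cancel₀ hε0, mul_one]
      obtain ⟨i, hi'⟩ := aux V (MB t ε) (MP t ε y w) 5 (by
          intro j
          fin_cases j
          · change 1 / ε ∈ V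
            rwa [one_div]
          · change t ^ 12 / ε ∈ V
            rw [div_eq_mul_inv]
            exact V.mul_mem _ _ (hp _) hi
          · change t ^ 11 / ε ∈ V
            rw [div_eq_mul_inv]
            exact V.mul_mem _ _ (hp _) hi
          · change ε * t ^ 6 / ε ∈ V
            rw [mul_div_cancel_left₀ _ hε0]
            exact hp _
          · change (-1 - ε) * t ^ 6 / ε ∈ V
            rw [div_eq_mul_inv]
            exact V.mul_mem _ _ (V.mul_mem _ _ hε'V (hp _)) hi
          · change ε / ε ∈ V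
            rw [div_self hε0]
            exact h1V
          · change (-1 - ε) / ε ∈ V
            rw [div_eq_mul_inv]
            exact V.mul_mem _ _ hε'V hi
          · change t * ε / ε ∈ V
            rw [mul_div_cancel_right₀ _ hε0]
            exact htV
          · change t * (-1 - ε) / ε ∈ V
            rw [div_eq_mul_inv]
            exact V.mul_mem _ _ (V.mul_mem _ _ htV hε'V) hi)
        ![1, t ^ 4 * y, w] (by
          intro i
          fin_cases i
          · exact one_ne_zero
          · exact mul_ne_zero (pow_ne_zero _ ht) hy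
          · exact hw)
        ![0, 2, 5] ![1, 1, ε] (by
          intro i
          fin_cases i
          · change (1 : K) = 1 * 1
            rw [one_mul]
          · change t ^ 4 * y = 1 * (t ^ 4 * y)
            rw [one_mul]
          · rfl) (by
          intro i
          fin_cases i
          · change (1 : K)⁻¹ ∈ V
            rwa [inv_one]
          · change (1 : K)⁻¹ ∈ V
            rwa [inv_one]
          · exact hi)
        ![1, t ^ 4, 1, t ^ 4, t ^ 8 * ε⁻¹, ε, t ^ 2, t ^ 6] ![0, 0, 1, 2, 1, 2, 1, 2] (by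
          intro j
          fin_cases j
          · change (1 : K) = 1 * 1
            ring
          · change t ^ 4 = t ^ 4 * 1
            ring
          · change t ^ 4 * y = 1 * (t ^ 4 * y)
            ring
          · change t ^ 4 * w = t ^ 4 * w
            ring
          · change (-1 - ε) * y = t ^ 8 * ε⁻¹ * (t ^ 4 * y)
            rw [hε']
            ring
          · change ε * w = ε * w
            ring
          · change t ^ 6 * y = t ^ 2 * (t ^ 4 * y)
            ring
          · change t ^ 6 * w = t ^ 6 * w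
            ring) (by
          intro j
          fin_cases j
          · exact h1V
          · exact hp _
          · exact h1V
          · exact hp _
          · exact V.mul_mem _ _ (hp _) hi
          · exact hεV
          · exact hp _
          · exact hp _)
      refine ⟨(5, ![0, 2, 5] i), Or.inl (Or.inl ?_), hi'⟩
      fin_cases i
      · exact Or.inl rfl
      · exact Or.inr (Or.inl rfl)
      · exact Or.inr (Or.inr rfl)
    · -- the charts over `ε' ≠ 0`
      have hε'' : ε = t ^ 12 * (-1 - ε)⁻¹ := by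
        rw [← hee, mul_assoc, mul_inv_cancel₀ hε'0, mul_one]
      obtain ⟨i, hi'⟩ := aux V (MB t ε) (MP t ε y w) 6 (by
          intro j
          fin_cases j
          · change 1 / (-1 - ε) ∈ V
            rwa [one_div]
          · change t ^ 12 / (-1 - ε) ∈ V
            rw [div_eq_mul_inv]
            exact V.mul_mem _ _ (hp _) hi
          · change t ^ 11 / (-1 - ε) ∈ V
            rw [div_eq_mul_inv]
            exact V.mul_mem _ _ (hp _) hi
          · change ε * t ^ 6 / (-1 - ε) ∈ V
            rw [div_eq_mul_inv]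
            exact V.mul_mem _ _ (V.mul_mem _ _ hεV (hp _)) hi
          · change (-1 - ε) * t ^ 6 / (-1 - ε) ∈ V
            rw [mul_div_cancel_left₀ _ hε'0]
            exact hp _
          · change ε / (-1 - ε) ∈ V
            rw [div_eq_mul_inv]
            exact V.mul_mem _ _ hεV hi
          · change (-1 - ε) / (-1 - ε) ∈ V
            rw [div_self hε'0]
            exact h1V
          · change t * ε / (-1 - ε) ∈ V
            rw [div_eq_mul_inv]
            exact V.mul_mem _ _ (V.mul_mem _ _ htV hεV) hi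
          · change t * (-1 - ε) / (-1 - ε) ∈ V
            rw [mul_div_cancel_right₀ _ hε'0]
            exact htV)
        ![1, y, t ^ 4 * w] (by
          intro i
          fin_cases i
          · exact one_ne_zero
          · exact hy
          · exact mul_ne_zero (pow_ne_zero _ ht) hw)
        ![0, 4, 3] ![1, -1 - ε, 1] (by
          intro i
          fin_cases i
          · change (1 : K) = 1 * 1
            rw [one_mul]
          · rfl
          · change t ^ 4 * w = 1 * (t ^ 4 * w)
            rw [one_mul]) (by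
          intro i
          fin_cases i
          · change (1 : K)⁻¹ ∈ V
            rwa [inv_one]
          · exact hi
          · change (1 : K)⁻¹ ∈ V
            rwa [inv_one])
        ![1, t ^ 4, t ^ 4, 1, -1 - ε, t ^ 8 * (-1 - ε)⁻¹, t ^ 6, t ^ 2] ![0, 0, 1, 2, 1, 2, 1, 2] (by
          intro j
          fin_cases j
          · change (1 : K) = 1 * 1
            ring
          · change t ^ 4 = t ^ 4 * 1
            ring
          · change t ^ 4 * y = t ^ 4 * y
            ring
          · change t ^ 4 * w = 1 * (t ^ 4 * w)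
            ring
          · change (-1 - ε) * y = (-1 - ε) * y
            ring
          · change ε * w = t ^ 8 * (-1 - ε)⁻¹ * (t ^ 4 * w)
            nth_rewrite 1 [hε'']
            ring
          · change t ^ 6 * y = t ^ 6 * y
            ring
          · change t ^ 6 * w = t ^ 2 * (t ^ 4 * w)
            ring) (by
          intro j
          fin_cases j
          · exact h1V
          · exact hp _
          · exact hp _
          · exact h1V
          · exact hε'V
          · exact V.mul_mem _ _ (hp _) hi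
          · exact hp _
          · exact hp _)
      refine ⟨(6, ![0, 4, 3] i), Or.inl (Or.inr ?_), hi'⟩
      fin_cases i
      · exact Or.inl rfl
      · exact Or.inr (Or.inr rfl)
      · exact Or.inr (Or.inl rfl)
  · -- the charts at infinity
    have hsV : t⁻¹ ∈ V := (V.mem_or_inv_mem t).resolve_left htV
    have hp : ∀ n : ℕ, t⁻¹ ^ n ∈ V := fun n => pow_mem hsV n
    have he0 : ε / t ^ 6 ≠ 0 := div_ne_zero hε0 (pow_ne_zero _ ht)
    have he : (ε / t ^ 6) ^ 2 + t⁻¹ ^ 6 * (ε / t ^ 6) + 1 = 0 := by
      field_simp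
      linear_combination hε
    have heV : ε / t ^ 6 ∈ V := by
      rcases V.mem_or_inv_mem (ε / t ^ 6) with h | h
      · exact h
      · have : ε / t ^ 6 = -(t⁻¹ ^ 6) - (ε / t ^ 6)⁻¹ := by
          have h2 : (ε / t ^ 6) * (ε / t ^ 6)⁻¹ = 1 := mul_inv_cancel₀ he0
          linear_combination (ε / t ^ 6)⁻¹ * he - (ε / t ^ 6 + t⁻¹ ^ 6) * h2
        rw [this]
        exact sub_mem (V.neg_mem _ (hp _)) h
    have he'V : (-1 - ε) / t ^ 6 ∈ V := by
      have : (-1 - ε) / t ^ 6 = -(t⁻¹ ^ 6) - ε / t ^ 6 := by
        field_simp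
      rw [this]
      exact sub_mem (V.neg_mem _ (hp _)) heV
    obtain ⟨i, hi'⟩ := aux V (MB t ε) (MP t ε y w) 1 (by
        intro j
        fin_cases j
        · change 1 / t ^ 12 ∈ V
          rw [show 1 / t ^ 12 = t⁻¹ ^ 12 by field_simp]
          exact hp _
        · change t ^ 12 / t ^ 12 ∈ V
          rw [div_self ht12]
          exact h1V
        · change t ^ 11 / t ^ 12 ∈ V
          rw [show t ^ 11 / t ^ 12 = t⁻¹ ^ 1 by field_simp]
          exact hp _
        · change ε * t ^ 6 / t ^ 12 ∈ V
          rw [show ε * t ^ 6 / t ^ 12 = ε / t ^ 6 by field_simp]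
          exact heV
        · change (-1 - ε) * t ^ 6 / t ^ 12 ∈ V
          rw [show (-1 - ε) * t ^ 6 / t ^ 12 = (-1 - ε) / t ^ 6 by field_simp]
          exact he'V
        · change ε / t ^ 12 ∈ V
          rw [show ε / t ^ 12 = ε / t ^ 6 * t⁻¹ ^ 6 by field_simp]
          exact V.mul_mem _ _ heV (hp _)
        · change (-1 - ε) / t ^ 12 ∈ V
          rw [show (-1 - ε) / t ^ 12 = (-1 - ε) / t ^ 6 * t⁻¹ ^ 6 by field_simp]
          exact V.mul_mem _ _ he'V (hp _)
        · change t * ε / t ^ 12 ∈ V
          rw [show t * ε / t ^ 12 = ε / t ^ 6 * t⁻¹ ^ 5 by field_simp]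
          exact V.mul_mem _ _ heV (hp _)
        · change t * (-1 - ε) / t ^ 12 ∈ V
          rw [show t * (-1 - ε) / t ^ 12 = (-1 - ε) / t ^ 6 * t⁻¹ ^ 5 by field_simp]
          exact V.mul_mem _ _ he'V (hp _))
      ![t ^ 4, t ^ 6 * y, t ^ 6 * w] (by
        intro i
        fin_cases i
        · exact pow_ne_zero _ ht
        · exact mul_ne_zero (pow_ne_zero _ ht) hy
        · exact mul_ne_zero (pow_ne_zero _ ht) hw)
      ![1, 6, 7] ![1, 1, 1] (by
        intro i
        fin_cases i
        · exact (one_mul _).symm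
        · exact (one_mul _).symm
        · exact (one_mul _).symm) (by
        intro i
        fin_cases i
        · change (1 : K)⁻¹ ∈ V
          rwa [inv_one]
        · change (1 : K)⁻¹ ∈ V
          rwa [inv_one]
        · change (1 : K)⁻¹ ∈ V
          rwa [inv_one])
      ![t⁻¹ ^ 4, 1, t⁻¹ ^ 2, t⁻¹ ^ 2, (-1 - ε) / t ^ 6, ε / t ^ 6, 1, 1] ![0, 0, 1, 2, 1, 2, 1, 2] (by
        intro j
        fin_cases j
        · change (1 : K) = t⁻¹ ^ 4 * t ^ 4
          field_simp
        · change t ^ 4 = 1 * t ^ 4
          ring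
        · change t ^ 4 * y = t⁻¹ ^ 2 * (t ^ 6 * y)
          field_simp
        · change t ^ 4 * w = t⁻¹ ^ 2 * (t ^ 6 * w)
          field_simp
        · change (-1 - ε) * y = (-1 - ε) / t ^ 6 * (t ^ 6 * y)
          field_simp
        · change ε * w = ε / t ^ 6 * (t ^ 6 * w)
          field_simp
        · change t ^ 6 * y = 1 * (t ^ 6 * y)
          ring
        · change t ^ 6 * w = 1 * (t ^ 6 * w)
          ring) (by
        intro j
        fin_cases j
        · exact hp _
        · exact h1V
        · exact hp _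
        · exact hp _
        · exact he'V
        · exact heV
        · exact h1V
        · exact h1V)
    refine ⟨(1, ![1, 6, 7] i), Or.inr ?_, hi'⟩
    fin_cases i
    · exact Or.inl rfl
    · exact Or.inr (Or.inl rfl)
    · exact Or.inr (Or.inr rfl)

theorem exists_genPt (S : Type) [CommRing S] [IsDomain S] (l : S) :
    ∃ (K : Type) (_ : Field K) (_ : Algebra S K) (t ε y w : K),
      Function.Injective (algebraMap S K) ∧ GenPt S l K t ε y w ∧
        Subfield.closure (Set.range (algebraMap S K) ∪ {t, ε, y, w}) = ⊤ := by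
  let P := MvPolynomial (Fin 2) S
  let F := FractionRing P
  let L := AlgebraicClosure F
  let ι : P →+* L := (algebraMap F L).comp (algebraMap P F)
  have hι : Function.Injective ι :=
    (algebraMap F L).injective.comp (IsFractionRing.injective P F)
  let j : S →+* L := ι.comp MvPolynomial.C
  have hj : Function.Injective j := hι.comp (MvPolynomial.C_injective (Fin 2) S)
  let t : L := ι (MvPolynomial.X 0)
  let y : L := ι (MvPolynomial.X 1)
  have ht : t ≠ 0 := fun h => MvPolynomial.X_ne_zero (R := S) (0 : Fin 2) (hι (by rw [map_zero]; exact h))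
  obtain ⟨ε, hε⟩ : ∃ ε : L, ε ^ 2 + ε + t ^ 12 = 0 := by
    obtain ⟨ε, hε⟩ := IsAlgClosed.exists_root (X ^ 2 + X + C (t ^ 12) : L[X]) (by
      have : (X ^ 2 + X + C (t ^ 12) : L[X]).degree = 2 := by
        compute_degree!
      rw [this]
      decide)
    refine ⟨ε, ?_⟩
    simpa [IsRoot] using hε
  have hε0 : ε ≠ 0 := by
    rintro rfl
    apply ht
    simpa using hε
  obtain ⟨w, hw⟩ : ∃ w : L, 1 + (-1 - ε) * y ^ 3 + ε * w ^ 3 = 3 * j l * t ^ 4 * y * w := by
    obtain ⟨w, hw⟩ := IsAlgClosed.exists_root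
      (C ε * X ^ 3 + C (-(3 * j l * t ^ 4 * y)) * X + C (1 + (-1 - ε) * y ^ 3) : L[X]) (by
      have : (C ε * X ^ 3 + C (-(3 * j l * t ^ 4 * y)) * X + C (1 + (-1 - ε) * y ^ 3) : L[X]).degree
          = 3 := by
        compute_degree!
      rw [this]
      decide)
    refine ⟨w, ?_⟩
    simp only [IsRoot, eval_add, eval_mul, eval_C, eval_pow, eval_X] at hw
    linear_combination hw
  let K : Subfield L := Subfield.closure (Set.range j ∪ {t, ε, y, w})
  have hKj : ∀ r : S, j r ∈ K := fun r => Subfield.subset_closure (Or.inl ⟨r, rfl⟩)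
  have hKt : t ∈ K := Subfield.subset_closure (Or.inr (Or.inl rfl))
  have hKε : ε ∈ K := Subfield.subset_closure (Or.inr (Or.inr (Or.inl rfl)))
  have hKy : y ∈ K := Subfield.subset_closure (Or.inr (Or.inr (Or.inr (Or.inl rfl))))
  have hKw : w ∈ K := Subfield.subset_closure (Or.inr (Or.inr (Or.inr (Or.inr rfl))))
  let jK : S →+* K := j.codRestrict K hKj
  let instK : Algebra S K := jK.toAlgebra
  have hjK : ∀ r : S, ((algebraMap S K r : K) : L) = j r := fun r => rfl
  refine ⟨K, inferInstance, instK, ⟨t, hKt⟩, ⟨ε, hKε⟩, ⟨y, hKy⟩, ⟨w, hKw⟩, ?_, ⟨?_, ?_, ?_⟩, ?_⟩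
  · intro a b hab
    apply hj
    rw [← hjK, ← hjK, hab]
  · apply Subtype.ext
    exact hε
  · apply Subtype.ext
    exact hw
  · rw [algebraicIndependent_iff_injective_aeval]
    have h1 : (K.subtype.comp ((MvPolynomial.aeval ![(⟨t, hKt⟩ : K), ⟨y, hKy⟩]).toRingHom)) = ι := by
      apply MvPolynomial.ringHom_ext
      · intro r
        change K.subtype (MvPolynomial.aeval ![(⟨t, hKt⟩ : K), ⟨y, hKy⟩] (MvPolynomial.C r)) = _
        rw [MvPolynomial.aeval_C]
        rfl
      · intro i
        change K.subtype (MvPolynomial.aeval ![(⟨t, hKt⟩ : K), ⟨y, hKy⟩] (MvPolynomial.X i)) = _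
        rw [MvPolynomial.aeval_X]
        fin_cases i <;> rfl
    intro a b hab
    apply hι
    rw [← h1]
    exact congrArg K.subtype hab
  · rw [eq_top_iff]
    intro z _
    have h1 : (Subfield.closure (Set.range (algebraMap S K) ∪
        {(⟨t, hKt⟩ : K), ⟨ε, hKε⟩, ⟨y, hKy⟩, ⟨w, hKw⟩})).map K.subtype = K := by
      rw [RingHom.map_field_closure, Set.image_union, ← Set.range_comp]
      have h2 : K.subtype '' {(⟨t, hKt⟩ : K), ⟨ε, hKε⟩, ⟨y, hKy⟩, ⟨w, hKw⟩} = {t, ε, y, w} := by
        simp only [Set.image_insert_eq, Set.image_singleton]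
        rfl
      rw [h2]
      rfl
    have h3 : (z : L) ∈ (Subfield.closure (Set.range (algebraMap S K) ∪
        {(⟨t, hKt⟩ : K), ⟨ε, hKε⟩, ⟨y, hKy⟩, ⟨w, hKw⟩})).map K.subtype := by
      rw [h1]
      exact z.2
    obtain ⟨z', hz', hzz⟩ := Subfield.mem_map.1 h3
    have : z' = z := Subtype.ext hzz
    rwa [← this]

end Pool.Agent.H16
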