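import Pool.Agent.H16.Irr.ModB
import Pool.Agent.H16.Irr.ModC
import Pool.Agent.H16.Irr.ModL
import Pool.Agent.H16.Irr.ModP
import Pool.Agent.H16.Irr.ModQ
import Pool.Agent.H16.Irr.ModS
import Pool.Agent.H16.Irr.ModX6
import Pool.Agent.H16.Irr.ModX7
import Pool.Agent.H16.Irr.ModX8

/-!
# Assembly
-/

open AlgebraicGeometry CategoryTheory CategoryTheory.Limits Polynomial

namespace Pool.Agent.H16

/-! ### The nine charts together -/

theorem chart_smooth (S : Type) [CommRing S] [Algebra ℂ S] (l : S)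
    (hl : IsUnit (l ^ 3 - 1)) (K : Type) [Field K] [Algebra S K]
    (hinj : Function.Injective (algebraMap S K)) (t ε y w : K) (h : GenPt S l K t ε y w)
    (i : Fin 9 × Fin 8) (hi : i ∈ I9) :
    SmoothOfRelativeDimension 2
      (Spec.map (CommRingCat.ofHom (algebraMap S (chartAlg S (mm t ε y w) i)))) := by
  rcases hi with (hi | hi) | hi
  · exact chart_smooth_plus S l hl K hinj t ε y w h i hi
  · exact chart_smooth_minus S l hl K hinj t ε y w h i hi
  · exact chart_smooth_inf S l hl K hinj t ε y w h i hi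

theorem chart_spec (S : Type) [CommRing S] [Algebra ℂ S] (l : S)
    (hl : IsUnit (l ^ 3 - 1)) (K : Type) [Field K] [Algebra S K]
    (hinj : Function.Injective (algebraMap S K)) (t ε y w : K) (h : GenPt S l K t ε y w)
    (ψ : S →+* ℂ) (hψ : Function.Surjective ψ) (K₀ : Type) [Field K₀] [Algebra ℂ K₀]
    (t₀ ε₀ y₀ w₀ : K₀) (h₀ : GenPt ℂ (ψ l) K₀ t₀ ε₀ y₀ w₀)
    (i : Fin 9 × Fin 8) (hi : i ∈ I9) :
    ∃ φ : chartAlg S (mm t ε y w) i →+* K₀,
      (∀ r : S, φ (algebraMap S _ r) = algebraMap ℂ K₀ (ψ r)) ∧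
      (∀ (j : Fin 9 × Fin 8) (hj : mm t ε y w j / mm t ε y w i ∈ chartAlg S (mm t ε y w) i),
        φ ⟨mm t ε y w j / mm t ε y w i, hj⟩ = mm t₀ ε₀ y₀ w₀ j / mm t₀ ε₀ y₀ w₀ i) ∧
      RingHom.ker φ = (RingHom.ker ψ).map (algebraMap S (chartAlg S (mm t ε y w) i)) := by
  rcases hi with (hi | hi) | hi
  · exact chart_spec_plus S l hl K hinj t ε y w h ψ hψ K₀ t₀ ε₀ y₀ w₀ h₀ i hi
  · exact chart_spec_minus S l hl K hinj t ε y w h ψ hψ K₀ t₀ ε₀ y₀ w₀ h₀ i hi
  · exact chart_spec_inf S l hl K hinj t ε y w h ψ hψ K₀ t₀ ε₀ y₀ w₀ h₀ i hi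

namespace Assembly

/-! ### Degrees of irrationality and isomorphisms -/

theorem finrank_adjoin_equiv {K K' : Type*} [Field K] [Field K'] [Algebra ℂ K] [Algebra ℂ K']
    (e : K ≃ₐ[ℂ] K') {n : ℕ} (x : Fin n → K) :
    Module.finrank (IntermediateField.adjoin ℂ (Set.range (e ∘ x))) K' =
      Module.finrank (IntermediateField.adjoin ℂ (Set.range x)) K := by
  have h : IntermediateField.adjoin ℂ (Set.range (e ∘ x)) =
      (IntermediateField.adjoin ℂ (Set.range x)).map e.toAlgHom := by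
    rw [IntermediateField.adjoin_map, Set.range_comp]
    rfl
  rw [h]
  symm
  refine Algebra.finrank_eq_of_equiv_equiv
    ((IntermediateField.adjoin ℂ (Set.range x)).equivMap e.toAlgHom).toRingEquiv e.toRingEquiv ?_
  ext z
  rfl

theorem irrLE_of_equiv {K K' : Type*} [Field K] [Field K'] [Algebra ℂ K] [Algebra ℂ K']
    (e : K ≃ₐ[ℂ] K') {k : ℕ} (h : IrrLE K k) : IrrLE K' k := by
  obtain ⟨n, x, hx, h1, h2⟩ := h
  refine ⟨n, e ∘ x, ?_, ?_, ?_⟩
  · exact hx.map' (f := e.toAlgHom) e.injective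
  · rw [finrank_adjoin_equiv]; exact h1
  · rw [finrank_adjoin_equiv]; exact h2

theorem irr_le_iff (X : Scheme.{0}) [IsIntegral X] (f : X ⟶ Spec (.of ℂ)) (K : Type) [Field K]
    [Algebra ℂ K] (he : letI := (constants X f).toAlgebra; Nonempty (X.functionField ≃ₐ[ℂ] K))
    (hfin : ∃ k, IrrLE K k) (k : ℕ) : irr X f ≤ k ↔ IrrLE K k := by
  let _ := (constants X f).toAlgebra
  obtain ⟨e⟩ := he
  constructor
  · intro h
    apply irrLE_of_equiv e
    have hne : {d | 0 < d ∧ ∃ (n : ℕ) (x : Fin n → X.functionField), AlgebraicIndependent ℂ x ∧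
        Module.finrank (IntermediateField.adjoin ℂ (Set.range x)) X.functionField = d}.Nonempty := by
      obtain ⟨k', hk'⟩ := hfin
      obtain ⟨n, x, hx, h1, h2⟩ := irrLE_of_equiv e.symm hk'
      exact ⟨_, h1, n, x, hx, rfl⟩
    have h3 := Nat.sInf_mem hne
    obtain ⟨h4, n, x, hx, h5⟩ := h3
    refine ⟨n, x, hx, ?_, ?_⟩
    · rw [h5]; exact h4
    · rw [h5]; exact h
  · intro h
    obtain ⟨n, x, hx, h1, h2⟩ := irrLE_of_equiv e.symm h
    refine le_trans (Nat.sInf_le ?_) h2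
    exact ⟨h1, n, x, hx, rfl⟩

/-! ### The generic point -/

section genPt

variable {S : Type*} [CommRing S] {l : S} {K : Type*} [Field K] [Algebra S K] {t ε y w : K}

theorem t_ne [Nontrivial S] (h : GenPt S l K t ε y w) : t ≠ 0 := by
  have := h.indep.ne_zero 0
  simpa using this

theorem y_ne [Nontrivial S] (h : GenPt S l K t ε y w) : y ≠ 0 := by
  have := h.indep.ne_zero 1
  simpa using this

theorem mul_eq (h : GenPt S l K t ε y w) : (-1 - ε) * ε = t ^ 12 := by linear_combination -h.rel1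

theorem ε_ne [Nontrivial S] (h : GenPt S l K t ε y w) : ε ≠ 0 := fun h0 =>
  pow_ne_zero 12 (t_ne h) (by rw [← mul_eq h, h0, mul_zero])

theorem ε'_ne [Nontrivial S] (h : GenPt S l K t ε y w) : -1 - ε ≠ 0 := fun h0 =>
  pow_ne_zero 12 (t_ne h) (by rw [← mul_eq h, h0, zero_mul])

theorem w_ne [Nontrivial S] (h : GenPt S l K t ε y w) : w ≠ 0 := by
  intro h0
  have h1 := h.rel2
  rw [h0] at h1
  have h2 : 1 - y ^ 3 + t ^ 12 * y ^ 6 = 0 := by
    linear_combination y ^ 6 * h.rel1 + (1 + ε * y ^ 3) * h1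
  let p : MvPolynomial (Fin 2) S :=
    1 - MvPolynomial.X 1 ^ 3 + MvPolynomial.X 0 ^ 12 * MvPolynomial.X 1 ^ 6
  have h3 : MvPolynomial.aeval ![t, y] p = 0 := by
    simp only [p, map_add, map_sub, map_one, map_mul, map_pow, MvPolynomial.aeval_X]
    exact h2
  have h4 := h.indep.eq_zero_of_aeval_eq_zero p h3
  have h5 := congrArg (MvPolynomial.aeval (0 : Fin 2 → S)) h4
  simp [p] at h5

theorem mm_ne [Nontrivial S] (h : GenPt S l K t ε y w) (j : Fin 9 × Fin 8) : mm t ε y w j ≠ 0 := by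
  have ht := t_ne h
  have hy := y_ne h
  have hw := w_ne h
  have hε := ε_ne h
  have hε' := ε'_ne h
  obtain ⟨i, j⟩ := j
  apply mul_ne_zero
  · fin_cases i <;> simp [MB, ht, hε, hε']
  · fin_cases j <;> simp [MP, ht, hε, hε', hy, hw]

end genPt

/-! ### The base -/

/-- The polynomial cutting out the singular members. -/
noncomputable def disc : ℂ[X] := X ^ 3 - 1

/-- The coordinate ring of the base. -/
abbrev BR : Type := Localization.Away disc

/-- The parameter. -/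
noncomputable def lam : BR := algebraMap ℂ[X] BR X

theorem disc_ne : disc ≠ 0 := by
  intro h
  have := congrArg (eval 0) h
  simp [disc] at this

instance : IsDomain BR :=
  IsLocalization.isDomain_localization (powers_le_nonZeroDivisors_of_noZeroDivisors disc_ne)

theorem lam_unit : IsUnit (lam ^ 3 - 1) := by
  have h := IsLocalization.Away.algebraMap_isUnit (S := BR) disc
  have h2 : algebraMap ℂ[X] BR disc = lam ^ 3 - 1 := by
    simp [disc, lam]
  rwa [h2] at h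

instance : Algebra.FiniteType ℂ BR := by
  have h1 : Algebra.FiniteType ℂ[X] BR := IsLocalization.finiteType_of_monoid_fg (.powers disc) BR
  exact Algebra.FiniteType.trans (S := ℂ[X]) inferInstance h1

/-- The point of the base with parameter `l`. -/
noncomputable def pt (l : ℂ) (hl : l ^ 3 ≠ 1) : BR →+* ℂ :=
  IsLocalization.Away.lift disc (g := evalRingHom l)
    (by simpa [disc, sub_eq_zero] using hl)

theorem pt_algebraMap (l : ℂ) (hl : l ^ 3 ≠ 1) (p : ℂ[X]) :
    pt l hl (algebraMap ℂ[X] BR p) = p.eval l := by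
  simp [pt]

theorem pt_lam (l : ℂ) (hl : l ^ 3 ≠ 1) : pt l hl lam = l := by
  rw [lam, pt_algebraMap, eval_X]

theorem pt_const (l : ℂ) (hl : l ^ 3 ≠ 1) (c : ℂ) : pt l hl (algebraMap ℂ BR c) = c := by
  rw [IsScalarTower.algebraMap_apply ℂ ℂ[X] BR, pt_algebraMap]
  simp

/-! ### The fibres -/

theorem rel_of_genPt {l : ℂ} {K : Type*} [Field K] [Algebra ℂ K] {t ε y w : K}
    (h : GenPt ℂ l K t ε y w)
    (hgen : Subfield.closure (Set.range (algebraMap ℂ K) ∪ {t, ε, y, w}) = ⊤) :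
    ModL.Rel l t ε y w := by
  refine ⟨h.rel1, h.rel2, ?_, h.indep⟩
  rw [eq_top_iff]
  intro z _
  have : z ∈ Subfield.closure (Set.range (algebraMap ℂ K) ∪ {t, ε, y, w}) := by
    rw [hgen]; trivial
  exact this

theorem exists_irrLE {l : ℂ} {K : Type*} [Field K] [Algebra ℂ K] {t ε y w : K}
    (h : ModL.Rel l t ε y w) : ∃ k, IrrLE K k := by
  have := h.finite (IntermediateField.adjoin ℂ (Set.range ![t, y]))
    (IntermediateField.subset_adjoin _ _ ⟨0, rfl⟩) (IntermediateField.subset_adjoin _ _ ⟨1, rfl⟩)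
  exact ⟨_, 2, ![t, y], h.hind, Module.finrank_pos, le_rfl⟩

theorem irrLE_iff {l : ℂ} (hl : l ^ 3 ≠ 1) {K : Type*} [Field K] [Algebra ℂ K] {t ε y w : K}
    (h : ModL.Rel l t ε y w) : IrrLE K 4 ↔ HasPt ℂ l := by
  constructor
  · exact hasPt_of_irrLE_four l hl t ε y w h.hε h.h h.hgen h.hind
  · intro hp
    obtain ⟨y₀, w₀, hy₀, hw₀, h₀⟩ := point_of_hasPt l t ε h.hε h.t_tr hp
    exact irrLE_four_of_point l hl t ε y w h.hε h.h h.hgen h.hind y₀ w₀ hy₀ hw₀ h₀

theorem gen_of_rel {l : ℂ} {K : Type*} [Field K] [Algebra ℂ K] {t ε y w : K}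
    (h : ModL.Rel l t ε y w) :
    IntermediateField.adjoin ℂ
      (Set.range fun j => mm t ε y w j / mm t ε y w ((5, 0) : Fin 9 × Fin 8)) = ⊤ := by
  rw [eq_top_iff, ← h.hgen, IntermediateField.adjoin_le_iff]
  set G := IntermediateField.adjoin ℂ
      (Set.range fun j => mm t ε y w j / mm t ε y w ((5, 0) : Fin 9 × Fin 8)) with hG
  have hmem : ∀ j, mm t ε y w j / mm t ε y w ((5, 0) : Fin 9 × Fin 8) ∈ G := fun j =>
    IntermediateField.subset_adjoin _ _ ⟨j, rfl⟩
  have ht := h.t_ne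
  have hε := h.ε_ne
  have h1 : ε ∈ G := by
    have := inv_mem (hmem (0, 0))
    simpa [mm, MB, MP] using this
  have h2 : t ∈ G := by
    have := hmem (7, 0)
    simp only [mm, MB, MP] at this
    simpa [hε] using this
  have h3 : y ∈ G := by
    have := hmem (5, 2)
    simp only [mm, MB, MP] at this
    have h4 : t ^ 4 * y ∈ G := by simpa [hε] using this
    have h5 := div_mem h4 (pow_mem h2 4)
    rwa [mul_div_cancel_left₀ _ (pow_ne_zero 4 ht)] at h5
  have h4 : w ∈ G := by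
    have := hmem (5, 3)
    simp only [mm, MB, MP] at this
    have h4 : t ^ 4 * w ∈ G := by simpa [hε] using this
    have h5 := div_mem h4 (pow_mem h2 4)
    rwa [mul_div_cancel_left₀ _ (pow_ne_zero 4 ht)] at h5
  rintro x (hx | hx | hx | hx)
  · rw [hx]; exact h2
  · rw [hx]; exact h1
  · rw [hx]; exact h3
  · rw [Set.mem_singleton_iff] at hx
    rw [hx]; exact h4

theorem fibre_irr {K : Type} [Field K] [Algebra BR K] (hinj : Function.Injective (algebraMap BR K))
    {t ε y w : K} (h : GenPt BR lam K t ε y w) (M : ProjModel BR (mm t ε y w) I9)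
    (ψ : BR →+* ℂ) (hψ : ∀ c, ψ (algebraMap ℂ BR c) = c) :
    ∃ _ : IsIntegral (pullback M.π (Spec.map (CommRingCat.ofHom ψ))),
      (irr (pullback M.π (Spec.map (CommRingCat.ofHom ψ)))
        (pullback.snd M.π (Spec.map (CommRingCat.ofHom ψ))) ≤ 4 ↔ HasPt ℂ (ψ lam)) := by
  have hl : (ψ lam) ^ 3 ≠ 1 := by
    intro h0
    have h1 := lam_unit.map ψ
    rw [map_sub, map_pow, map_one, h0, sub_self] at h1
    exact not_isUnit_zero h1
  have hsurj : Function.Surjective ψ := fun c => ⟨_, hψ c⟩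
  obtain ⟨K₀, _, _, t₀, ε₀, y₀, w₀, hinj₀, h₀, hgen₀⟩ := exists_genPt ℂ (ψ lam)
  have hrel := rel_of_genPt h₀ hgen₀
  choose φ hφ₁ hφ₂ hφ₃ using fun (i : Fin 9 × Fin 8) (hi : i ∈ I9) =>
    chart_spec BR lam lam_unit K hinj t ε y w h ψ hsurj K₀ t₀ ε₀ y₀ w₀ h₀ i hi
  obtain ⟨hint, he⟩ := ProjModel.fibre (mm_ne h) M (5, 0) (by simp [I9, Iplus]) ψ hsurj K₀
    (mm t₀ ε₀ y₀ w₀) (mm_ne h₀) (gen_of_rel hrel) φ hφ₁ hφ₂ hφ₃
  refine ⟨hint, ?_⟩
  rw [irr_le_iff _ _ K₀ he (exists_irrLE hrel) 4, irrLE_iff hl hrel]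

/-! ### The family -/

theorem exists_hom (t : Spec (.of ℂ) ⟶ Spec (.of BR))
    (ht : t ≫ Spec.map (CommRingCat.ofHom (algebraMap ℂ BR)) = 𝟙 _) :
    ∃ ψ : BR →+* ℂ, (∀ c, ψ (algebraMap ℂ BR c) = c) ∧ t = Spec.map (CommRingCat.ofHom ψ) := by
  obtain ⟨φ, rfl⟩ := Spec.map_surjective t
  refine ⟨φ.hom, ?_, rfl⟩
  intro c
  rw [← Spec.map_comp, ← Spec.map_id] at ht
  have h1 := Spec.map_injective ht
  have h2 := congrArg (fun f => f.hom c) h1
  exact h2

theorem pt_section (ψ : BR →+* ℂ) (hψ : ∀ c, ψ (algebraMap ℂ BR c) = c) :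
    Spec.map (CommRingCat.ofHom ψ) ≫ Spec.map (CommRingCat.ofHom (algebraMap ℂ BR)) = 𝟙 _ := by
  rw [← Spec.map_comp, ← Spec.map_id]
  congr 1
  ext c
  exact hψ c

theorem exists_family : ∃ F : SurfaceFamily, ∃ e : F.T ≅ Spec (.of BR),
    F.s = e.hom ≫ Spec.map (CommRingCat.ofHom (algebraMap ℂ BR)) ∧
    ∀ (t : F.Pt) (ψ : BR →+* ℂ), t.1 ≫ e.hom = Spec.map (CommRingCat.ofHom ψ) →
      (F.irrFibre t ≤ 4 ↔ HasPt ℂ (ψ lam)) := by
  obtain ⟨K, _, _, t, ε, y, w, hinj, h, -⟩ := exists_genPt BR lam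
  obtain ⟨M⟩ := nonempty_projModel BR (mm t ε y w) (mm_ne h) I9 (fun V _ =>
    chart_cover t ε y w (t_ne h) (y_ne h) (w_ne h) h.rel1 V)
  let F : SurfaceFamily :=
    { T := Spec (.of BR)
      X := M.X
      s := Spec.map (CommRingCat.ofHom (algebraMap ℂ BR))
      π := M.π
      isIntegral_T := inferInstance
      isSeparated_s := inferInstance
      locallyOfFiniteType_s := by
        rw [HasRingHomProperty.Spec_iff (P := @LocallyOfFiniteType)]
        exact (RingHom.finiteType_algebraMap).mpr inferInstance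
      quasiCompact_s := inferInstance
      isIntegral_X := M.isIntegral_X ⟨(5, 0), by simp [I9, Iplus]⟩
      isProjective_π := M.proj
      smooth_π := M.smooth_π 2 (chart_smooth BR lam lam_unit K hinj t ε y w h)
      isIntegral_fibre := by
        intro t ht
        obtain ⟨ψ, hψ, rfl⟩ := exists_hom t ht
        exact (fibre_irr hinj h M ψ hψ).1 }
  refine ⟨F, Iso.refl _, by simp [F], ?_⟩
  intro t' ψ ht'
  obtain ⟨t', ht⟩ := t'
  have h1 : t' = Spec.map (CommRingCat.ofHom ψ) := by simpa using ht'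
  subst h1
  have hψ : ∀ c, ψ (algebraMap ℂ BR c) = c := by
    obtain ⟨ψ', hψ', h2⟩ := exists_hom _ ht
    have h3 := Spec.map_injective h2
    have h4 : ψ = ψ' := congrArg (fun f => f.hom) h3
    rw [h4]; exact hψ'
  exact (fibre_irr hinj h M ψ hψ).2

/-- A closed subset of the base containing infinitely many closed points is everything. -/
theorem eq_univ_of_infinite (Z : Set (PrimeSpectrum BR)) (hZ : IsClosed Z)
    (hinf : Set.Infinite {l : ℂ | ∃ hl : l ^ 3 ≠ 1,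
      PrimeSpectrum.comap (pt l hl) (⊥ : PrimeSpectrum ℂ) ∈ Z}) : Z = Set.univ := by
  obtain ⟨s, rfl⟩ := (PrimeSpectrum.isClosed_iff_zeroLocus Z).mp hZ
  have hs : s ⊆ {0} := by
    intro f hf
    obtain ⟨n, p, hp⟩ := IsLocalization.Away.surj disc f
    have h1 : p = 0 := by
      apply Polynomial.eq_zero_of_infinite_isRoot
      apply hinf.mono
      rintro l ⟨hl, hlZ⟩
      have h2 : f ∈ (PrimeSpectrum.comap (pt l hl) (⊥ : PrimeSpectrum ℂ)).asIdeal := hlZ hf
      have h3 : pt l hl f = 0 := by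
        rw [PrimeSpectrum.comap_asIdeal, Ideal.mem_comap] at h2
        exact h2
      have h4 := congrArg (pt l hl) hp
      rw [map_mul, h3, zero_mul, pt_algebraMap] at h4
      exact h4.symm
    rw [h1, map_zero] at hp
    have h5 : algebraMap ℂ[X] BR disc ^ n ≠ 0 :=
      pow_ne_zero n (IsLocalization.Away.algebraMap_isUnit (S := BR) disc).ne_zero
    have h6 := (mul_eq_zero.mp hp).resolve_right h5
    exact h6
  rw [Set.eq_univ_iff_forall]
  intro x f hf
  have := hs hf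
  rw [Set.mem_singleton_iff] at this
  rw [this]
  exact x.asIdeal.zero_mem

theorem not_lowerSemicontinuous : ∃ F : SurfaceFamily, ¬ LowerSemicontinuous F.irrFibre := by
  obtain ⟨F, e, hs, hF⟩ := exists_family
  refine ⟨F, fun hlsc => ?_⟩
  have hcl : IsClosed {t : F.Pt | F.irrFibre t ≤ 4} := by
    rw [lowerSemicontinuous_iff_isClosed_preimage] at hlsc
    exact hlsc 4
  obtain ⟨Z, hZ, hZ'⟩ := isClosed_induced_iff.mp hcl
  have hPt : ∀ (l : ℂ) (hl : l ^ 3 ≠ 1),
      (Spec.map (CommRingCat.ofHom (pt l hl)) ≫ e.inv) ≫ F.s = 𝟙 _ := by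
    intro l hl
    rw [hs, Category.assoc, e.inv_hom_id_assoc, pt_section _ (pt_const l hl)]
  let P : ∀ (l : ℂ) (hl : l ^ 3 ≠ 1), F.Pt := fun l hl => ⟨_, hPt l hl⟩
  have hP : ∀ (l : ℂ) (hl : l ^ 3 ≠ 1), F.toPoint (P l hl) ∈ Z ↔ HasPt ℂ l := by
    intro l hl
    have h1 : P l hl ∈ F.toPoint ⁻¹' Z ↔ P l hl ∈ {t : F.Pt | F.irrFibre t ≤ 4} := by rw [hZ']
    have h2 := hF (P l hl) (pt l hl) (by simp [P])
    rw [pt_lam] at h2
    exact h1.trans h2
  have hZ2 : IsClosed (e.inv ⁻¹' Z) := hZ.preimage e.inv.continuous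
  have huniv : (e.inv ⁻¹' Z : Set (PrimeSpectrum BR)) = Set.univ := by
    apply eq_univ_of_infinite _ hZ2
    apply hasPt_infinite.mono
    rintro l ⟨hl, hp⟩
    refine ⟨hl, ?_⟩
    exact (hP l hl).mpr hp
  have h8 : (8 : ℂ) ^ 3 ≠ 1 := by norm_num
  apply not_hasPt_eight
  rw [← hP 8 h8]
  have : PrimeSpectrum.comap (pt 8 h8) (⊥ : PrimeSpectrum ℂ) ∈
      (e.inv ⁻¹' Z : Set (PrimeSpectrum BR)) := by rw [huniv]; trivial
  exact this

end Assembly

end Pool.Agent.H16
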