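import Pool.Agent.H16.Irr.SchemeDefs

/-!
# Charts of the family
-/

open AlgebraicGeometry CategoryTheory CategoryTheory.Limits Polynomial

namespace Pool.Agent.H16

/-! ## Projective models attached to finitely many elements of a field -/

/-- The `R`-subalgebra of `K` generated by the quotients `m j / m i`. -/
abbrev chartAlg (R : Type) [CommRing R] {K : Type} [Field K] [Algebra R K] {J : Type} (m : J → K)
    (i : J) : Subalgebra R K :=
  Algebra.adjoin R (Set.range fun j => m j / m i)

/-- A projective scheme over `R` with affine charts `Spec R[m j / m i : j]`. -/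
structure ProjModel (R : Type) [CommRing R] {K : Type} [Field K] [Algebra R K] {J : Type}
    (m : J → K) (I₀ : Set J) where
  /-- the scheme -/
  X : Scheme.{0}
  /-- the structure morphism -/
  π : X ⟶ Spec (.of R)
  /-- the charts -/
  ι : ∀ i : J, Spec (.of (chartAlg R m i)) ⟶ X
  proj : IsProjective π
  openImm : ∀ i, IsOpenImmersion (ι i)
  ι_π : ∀ i, ι i ≫ π = Spec.map (CommRingCat.ofHom (algebraMap R (chartAlg R m i)))
  cover : ∀ x : X, ∃ i ∈ I₀, x ∈ Set.range (ι i)
  compat : ∀ (i j : J) (B : Subalgebra R K) (hi : chartAlg R m i ≤ B) (hj : chartAlg R m j ≤ B),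
    Spec.map (CommRingCat.ofHom (Subalgebra.inclusion hi).toRingHom) ≫ ι i =
      Spec.map (CommRingCat.ofHom (Subalgebra.inclusion hj).toRingHom) ≫ ι j

/-! ## The two kinds of base rings and the plane cubics over them -/

/-- `1 + η + t¹² η²` over `S[t]`; here `η = 1/ε`. -/
noncomputable def pB (S : Type*) [CommRing S] : S[X][X] := C (X ^ 12) * X ^ 2 + X + 1

/-- `e² + s⁶ e + 1` over `S[s]`; here `s = 1/t`, `e = ε/t⁶`. -/
noncomputable def qB (S : Type*) [CommRing S] : S[X][X] := X ^ 2 + C (X ^ 6) * X + 1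

/-- `a x³ + b y³ + c - 3 m x y` over `S[x]`. -/
noncomputable def cubPoly {S : Type*} [CommRing S] (a b c m : S) : S[X][X] :=
  C (C b) * X ^ 3 - C (C (3 * m) * X) * X + C (C a * X ^ 3 + C c)

/-! ## The generic point of the family and the 72 sections -/

/-- `K ∋ t, ε, y, w` satisfy the equations of the family over `(S, l)` and `t, y` are algebraically
independent over `S`. -/
structure GenPt (S : Type*) [CommRing S] (l : S) (K : Type*) [Field K] [Algebra S K]
    (t ε y w : K) : Prop where
  rel1 : ε ^ 2 + ε + t ^ 12 = 0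
  rel2 : 1 + (-1 - ε) * y ^ 3 + ε * w ^ 3 = 3 * algebraMap S K l * t ^ 4 * y * w
  indep : AlgebraicIndependent S ![t, y]

/-- Sections on the base curve. -/
def MB {K : Type*} [Field K] (t ε : K) : Fin 9 → K :=
  ![1, t ^ 12, t ^ 11, ε * t ^ 6, (-1 - ε) * t ^ 6, ε, -1 - ε, t * ε, t * (-1 - ε)]

/-- Sections on the plane bundle. -/
def MP {K : Type*} [Field K] (t ε y w : K) : Fin 8 → K :=
  ![1, t ^ 4, t ^ 4 * y, t ^ 4 * w, (-1 - ε) * y, ε * w, t ^ 6 * y, t ^ 6 * w]

/-- All sections. -/
def mm {K : Type*} [Field K] (t ε y w : K) (j : Fin 9 × Fin 8) : K := MB t ε j.1 * MP t ε y w j.2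

/-- The indices of the three charts over `ε ≠ 0`. -/
def Iplus : Set (Fin 9 × Fin 8) := {(5, 0), (5, 2), (5, 5)}

/-- The indices of the three charts over `ε' ≠ 0`. -/
def Iminus : Set (Fin 9 × Fin 8) := {(6, 0), (6, 3), (6, 4)}

/-- The indices of the three charts over `t = ∞`. -/
def Iinf : Set (Fin 9 × Fin 8) := {(1, 1), (1, 6), (1, 7)}

/-- The indices of the nine charts. -/
def I9 : Set (Fin 9 × Fin 8) := Iplus ∪ Iminus ∪ Iinf

end Pool.Agent.H16
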