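import Mathlib

/-!
# Definitions for the family of elliptic surfaces over the curve `ε² + ε + t¹² = 0`
-/

namespace Pool.Agent.H16

open Polynomial

/-! ## The degree of irrationality of a field over `ℂ` -/

/-- `K` has a purely transcendental subfield `ℂ(x₁,…,xₙ)` over which it is finite of degree `≤ k`. -/
def IrrLE (K : Type*) [Field K] [Algebra ℂ K] (k : ℕ) : Prop :=
  ∃ (n : ℕ) (x : Fin n → K), AlgebraicIndependent ℂ x ∧
    0 < Module.finrank (IntermediateField.adjoin ℂ (Set.range x)) K ∧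
    Module.finrank (IntermediateField.adjoin ℂ (Set.range x)) K ≤ k

/-! ## The affine curve `ε² + ε + t¹² = 0` -/

/-- The polynomial `Y² + Y + T¹²` over `S[T]`. -/
noncomputable def hB (S : Type*) [CommRing S] : S[X][X] := X ^ 2 + X + C (X ^ 12)

/-- The ring `S[t, ε] / (ε² + ε + t¹²)`. -/
abbrev OB (S : Type*) [CommRing S] : Type _ := AdjoinRoot (hB S)

/-- The element `t` of `OB S`. -/
noncomputable def tt (S : Type*) [CommRing S] : OB S := AdjoinRoot.of (hB S) X

/-- The element `ε` of `OB S`. -/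
noncomputable def ee (S : Type*) [CommRing S] : OB S := AdjoinRoot.root (hB S)

/-- The constants `S → OB S`. -/
noncomputable def cst {S : Type*} [CommRing S] (r : S) : OB S := AdjoinRoot.of (hB S) (C r)

/-- The plane cubic `X³ + ε' Y³ + ε Z³ = 3 l t⁴ X Y Z`, `ε' = -1 - ε`, has a point with nonzero
coordinates in `S[t, ε]`. -/
def HasPt (S : Type*) [CommRing S] (l : S) : Prop :=
  ∃ X Y Z : OB S, X ≠ 0 ∧ Y ≠ 0 ∧ Z ≠ 0 ∧
    X ^ 3 + (-1 - ee S) * Y ^ 3 + ee S * Z ^ 3 = 3 * cst l * tt S ^ 4 * X * Y * Z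

/-! ## Regular 1-forms -/

open KaehlerDifferential in
/-- The forms `∑ aᵢ d bᵢ` with `aᵢ, bᵢ` in the subring `A`. -/
noncomputable def FormsOn {K : Type*} [Field K] [Algebra ℂ K] (A : Subring K) : AddSubmonoid Ω[K⁄ℂ] :=
  AddSubmonoid.closure {x | ∃ a ∈ A, ∃ b ∈ A, x = a • D ℂ K b}

open KaehlerDifferential in
/-- A 1-form is regular if it is a combination `∑ aᵢ d bᵢ` with `aᵢ, bᵢ ∈ V` for every valuation
ring `V ⊇ ℂ` of `K`. -/
def Regular {K : Type*} [Field K] [Algebra ℂ K] (ω : Ω[K⁄ℂ]) : Prop :=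
  ∀ V : ValuationSubring K, (∀ c : ℂ, algebraMap ℂ K c ∈ V) → ω ∈ FormsOn V.toSubring

end Pool.Agent.H16
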