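import Pool.Agent.H16.Irr.Defs

/-!
# Module A: arithmetic of `κ[t, ε] / (ε² + ε + t¹²)`
-/

namespace Pool.Agent.H16

open Polynomial

namespace ModA

section general

variable (S : Type*) [CommRing S]

lemma rel : ee S ^ 2 + ee S + tt S ^ 12 = 0 := by
  have h : eval₂ (AdjoinRoot.of (hB S)) (AdjoinRoot.root (hB S))
      (X ^ 2 + X + C (X ^ 12)) = 0 := AdjoinRoot.eval₂_root (hB S)
  rw [eval₂_add, eval₂_add, eval₂_pow, eval₂_X, eval₂_C, map_pow] at h
  exact h

lemma sg_aux : eval₂ (AdjoinRoot.of (hB S)) (-1 - ee S) (hB S) = 0 := by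
  have h := rel S
  have h1 : eval₂ (AdjoinRoot.of (hB S)) (-1 - ee S) (X ^ 2 + X + C (X ^ 12)) = 0 := by
    rw [eval₂_add, eval₂_add, eval₂_pow, eval₂_X, eval₂_C, map_pow]
    change (-1 - ee S) ^ 2 + (-1 - ee S) + tt S ^ 12 = 0
    linear_combination h
  exact h1

/-- the conjugation `ε ↦ -1 - ε` -/
noncomputable def sg : OB S →+* OB S :=
  AdjoinRoot.lift (AdjoinRoot.of (hB S)) (-1 - ee S) (sg_aux S)

lemma sg_of (p : S[X]) : sg S (AdjoinRoot.of (hB S) p) = AdjoinRoot.of (hB S) p := by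
  exact AdjoinRoot.lift_of (sg_aux S)

lemma sg_ee : sg S (ee S) = -1 - ee S := by
  exact AdjoinRoot.lift_root (sg_aux S)

lemma hB_monic [Nontrivial S] : (hB S).Monic := by
  unfold hB
  monicity!

lemma hB_natDegree [Nontrivial S] : (hB S).natDegree = 2 := by
  unfold hB
  compute_degree!

lemma exists_el [Nontrivial S] (a : OB S) :
    ∃ p q : S[X], a = AdjoinRoot.of (hB S) p + AdjoinRoot.of (hB S) q * ee S := by
  obtain ⟨g, rfl⟩ := AdjoinRoot.mk_surjective a
  have h1 : AdjoinRoot.mk (hB S) g = AdjoinRoot.mk (hB S) (g %ₘ hB S) := by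
    conv_lhs => rw [← modByMonic_add_div g (hB S)]
    rw [map_add, map_mul, AdjoinRoot.mk_self, zero_mul, add_zero]
  have h2 : (g %ₘ hB S).natDegree < 2 := by
    have := natDegree_modByMonic_lt g (hB_monic S) (by
      intro h
      have := hB_natDegree S
      rw [h] at this
      simp at this)
    rwa [hB_natDegree] at this
  have h3 : g %ₘ hB S = C ((g %ₘ hB S).coeff 1) * X + C ((g %ₘ hB S).coeff 0) :=
    eq_X_add_C_of_natDegree_le_one (by omega)
  refine ⟨(g %ₘ hB S).coeff 0, (g %ₘ hB S).coeff 1, ?_⟩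
  rw [h1]
  conv_lhs => rw [h3]
  rw [map_add, map_mul, AdjoinRoot.mk_C, AdjoinRoot.mk_C, AdjoinRoot.mk_X]
  rw [add_comm]
  rfl

lemma el_eq_zero [Nontrivial S] {p q : S[X]}
    (h : AdjoinRoot.of (hB S) p + AdjoinRoot.of (hB S) q * ee S = 0) : p = 0 ∧ q = 0 := by
  have h1 : AdjoinRoot.mk (hB S) (C q * X + C p) = 0 := by
    rw [map_add, map_mul, AdjoinRoot.mk_C, AdjoinRoot.mk_C, AdjoinRoot.mk_X, add_comm]
    exact h
  rw [AdjoinRoot.mk_eq_zero] at h1
  have h2 : C q * X + C p = 0 := by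
    by_contra hne
    refine (hB_monic S).not_dvd_of_natDegree_lt hne ?_ h1
    rw [hB_natDegree]
    exact lt_of_le_of_lt (natDegree_linear_le) (by norm_num)
  have h3 := congrArg (fun g => coeff g 0) h2
  have h4 := congrArg (fun g => coeff g 1) h2
  simp only [coeff_add, coeff_C_mul, coeff_X_zero, mul_zero, coeff_C_zero, zero_add,
    coeff_zero] at h3
  simp only [coeff_add, coeff_C_mul, coeff_X_one, mul_one, coeff_C_succ, add_zero,
    coeff_zero] at h4
  exact ⟨h3, h4⟩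

lemma of_injective [Nontrivial S] : Function.Injective (AdjoinRoot.of (hB S)) := by
  rw [injective_iff_map_eq_zero]
  intro p hp
  refine (el_eq_zero S (p := p) (q := 0) ?_).1
  rw [hp, map_zero]; ring

lemma sg_sg [Nontrivial S] (a : OB S) : sg S (sg S a) = a := by
  obtain ⟨p, q, rfl⟩ := exists_el S a
  simp only [map_add, map_mul, sg_of, sg_ee, map_sub, map_neg, map_one]
  ring

lemma tt_eq : tt S = AdjoinRoot.of (hB S) X := rfl

lemma conj_mul (p q : S[X]) : (AdjoinRoot.of (hB S) p + AdjoinRoot.of (hB S) q * ee S) *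
    sg S (AdjoinRoot.of (hB S) p + AdjoinRoot.of (hB S) q * ee S) =
    AdjoinRoot.of (hB S) (p ^ 2 - p * q + q ^ 2 * X ^ 12) := by
  have h := rel S
  rw [tt_eq] at h
  simp only [map_add, map_sub, map_mul, map_pow, sg_of, sg_ee]
  linear_combination (- (AdjoinRoot.of (hB S) q) ^ 2) * h

lemma conj_add (p q : S[X]) : (AdjoinRoot.of (hB S) p + AdjoinRoot.of (hB S) q * ee S) +
    sg S (AdjoinRoot.of (hB S) p + AdjoinRoot.of (hB S) q * ee S) =
    AdjoinRoot.of (hB S) (2 * p - q) := by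
  simp only [map_add, map_sub, map_mul, sg_of, sg_ee, map_ofNat]
  ring

end general

section field

variable (κ : Type*) [Field κ]

lemma no_root (r : κ[X]) : r * (r + 1) ≠ - X ^ 12 := by
  intro h
  have hX : Prime (X : κ[X]) := prime_X
  -- a unit cannot be a factor
  have hunit : ∀ s : κ[X], IsUnit s → s * (s + 1) ≠ - X ^ 12 ∧ (s - 1) * s ≠ - X ^ 12 := by
    intro s hs
    obtain ⟨a, -, rfl⟩ := Polynomial.isUnit_iff.1 hs
    constructor <;> intro h1
    · have h2 := congrArg natDegree h1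
      have h3 : C a * (C a + 1) = C (a * (a + 1)) := by simp
      rw [h3, natDegree_C, natDegree_neg, natDegree_X_pow] at h2
      omega
    · have h2 := congrArg natDegree h1
      have h3 : (C a - 1) * C a = C ((a - 1) * a) := by simp
      rw [h3, natDegree_C, natDegree_neg, natDegree_X_pow] at h2
      omega
  have hX12 : (X : κ[X]) ^ 12 ≠ 0 := pow_ne_zero _ X_ne_zero
  by_cases h0 : X ∣ r
  · have h1 : ¬ X ∣ (r + 1) := by
      intro h2
      have h3 : (X : κ[X]) ∣ 1 := (dvd_add_right h0).1 h2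
      exact hX.not_isUnit (isUnit_of_dvd_one h3)
    have h2 : (X : κ[X]) ^ 12 ∣ r * (r + 1) := by rw [h]; exact (dvd_neg).2 dvd_rfl
    have h3 := hX.pow_dvd_of_dvd_mul_right 12 h1 h2
    obtain ⟨g, hg⟩ := h3
    have h4 : g * (r + 1) = -1 := by
      apply mul_left_cancel₀ hX12
      rw [← mul_assoc, ← hg, h]; ring
    have h5 : IsUnit (r + 1) := by
      refine IsUnit.of_mul_eq_one (-g) ?_
      linear_combination -h4
    exact (hunit _ h5).2 (by rw [← h]; ring)
  · have h2 : (X : κ[X]) ^ 12 ∣ r * (r + 1) := by rw [h]; exact (dvd_neg).2 dvd_rfl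
    have h3 := hX.pow_dvd_of_dvd_mul_left 12 h0 h2
    obtain ⟨g, hg⟩ := h3
    have h4 : r * g = -1 := by
      apply mul_left_cancel₀ hX12
      linear_combination h - r * hg
    have h5 : IsUnit r := by
      refine IsUnit.of_mul_eq_one (-g) ?_
      linear_combination -h4
    exact (hunit _ h5).1 h

end field

end ModA

open ModA

theorem OB_isDomain (κ : Type*) [Field κ] (_h2 : (2 : κ) ≠ 0) : IsDomain (OB κ) := by
  have hirr : Irreducible (hB κ) := by
    rw [(hB_monic κ).irreducible_iff_roots_eq_zero_of_degree_le_three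
      (by rw [hB_natDegree]) (by rw [hB_natDegree]; norm_num)]
    rw [Multiset.eq_zero_iff_forall_notMem]
    intro r hr
    have h1 := isRoot_of_mem_roots hr
    simp only [hB, IsRoot, eval_add, eval_pow, eval_X, eval_C] at h1
    exact no_root κ r (by linear_combination h1)
  exact AdjoinRoot.isDomain_of_prime hirr.prime

namespace ModA

lemma tt_ne_zero (κ : Type*) [Field κ] : tt κ ≠ 0 := by
  intro h
  rw [tt_eq] at h
  exact X_ne_zero (of_injective κ (by rw [h, map_zero]))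

lemma ee_ne_zero (κ : Type*) [Field κ] : ee κ ≠ 0 := by
  intro h
  have h1 := rel κ
  rw [h, tt_eq, ← map_pow] at h1
  have h2 : AdjoinRoot.of (hB κ) (X ^ 12) = 0 := by linear_combination h1
  exact pow_ne_zero 12 (X_ne_zero (R := κ)) (of_injective κ (by rw [h2, map_zero]))

lemma dvd_of_cubic_aux {R F : Type*} [CommRing R] [IsDomain R] [IsIntegrallyClosed R] [Field F]
    [Algebra R F] [IsFractionRing R F] (n T a b : R) (hn : n ≠ 0)
    (h : T ^ 3 = a * n ^ 2 * T + b * n ^ 3) : n ∣ T := by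
  have hn' : algebraMap R F n ≠ 0 := by
    rw [Ne, map_eq_zero_iff _ (IsFractionRing.injective R F)]; exact hn
  have hint : IsIntegral R (algebraMap R F T / algebraMap R F n) := by
    refine ⟨X ^ 3 - C a * X - C b, ?_, ?_⟩
    · monicity!
    · simp only [eval₂_sub, eval₂_mul, eval₂_pow, eval₂_X, eval₂_C]
      have h5 := congrArg (algebraMap R F) h
      simp only [map_pow, map_add, map_mul] at h5 ⊢
      field_simp
      linear_combination h5
  obtain ⟨x, hx⟩ := IsIntegrallyClosed.isIntegral_iff.1 hint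
  refine ⟨x, ?_⟩
  apply IsFractionRing.injective R F
  rw [map_mul, hx]
  field_simp

lemma dvd_of_cubic {R : Type*} [CommRing R] [IsDomain R] [IsIntegrallyClosed R] (n T a b : R)
    (hn : n ≠ 0) (h : T ^ 3 = a * n ^ 2 * T + b * n ^ 3) : n ∣ T :=
  dvd_of_cubic_aux (F := FractionRing R) n T a b hn h

/-- the rational function part of the cube argument -/
lemma poly_contra (κ : Type*) [Field κ] (h3 : (3 : κ) ≠ 0) (n M T : κ[X]) (hn : n ≠ 0)
    (hM : M ^ 3 = (X ^ 4 * n ^ 2) ^ 3) (hT : T ^ 3 = - n ^ 3 + 3 * M * T) : False := by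
  have hR : X ^ 4 * n ^ 2 ≠ 0 := mul_ne_zero (pow_ne_zero _ X_ne_zero) (pow_ne_zero _ hn)
  have hdvd : X ^ 4 * n ^ 2 ∣ M := by
    rw [← IsIntegrallyClosed.pow_dvd_pow_iff (n := 3) (by norm_num)]
    exact ⟨1, by rw [hM, mul_one]⟩
  obtain ⟨z, hz⟩ := hdvd
  have hz3 : z ^ 3 = 1 := by
    apply mul_left_cancel₀ (pow_ne_zero 3 hR)
    rw [mul_one, ← mul_pow, ← hz, hM]
  have hzu : IsUnit z := IsUnit.of_mul_eq_one (z ^ 2) (by rw [← hz3]; ring)
  obtain ⟨ζ, hζ, rfl⟩ := Polynomial.isUnit_iff.1 hzu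
  -- `n ∣ T`
  have hTn : n ∣ T := by
    refine dvd_of_cubic n T (3 * C ζ * X ^ 4) (-1) hn ?_
    rw [hz] at hT
    linear_combination hT
  obtain ⟨x, rfl⟩ := hTn
  have hx : x * (3 * C ζ * X ^ 4 - x ^ 2) = 1 := by
    apply mul_left_cancel₀ (pow_ne_zero 3 hn)
    rw [hz] at hT
    linear_combination -hT
  have hxu : IsUnit x := IsUnit.of_mul_eq_one _ hx
  obtain ⟨w, hw, rfl⟩ := Polynomial.isUnit_iff.1 hxu
  have hcoef := congrArg (fun g => coeff g 4) hx
  have h6 : C w * (3 * C ζ * X ^ 4 - C w ^ 2) = C (3 * w * ζ) * X ^ 4 - C (w ^ 3) := by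
    simp only [map_mul, map_pow, map_ofNat]
    ring
  rw [h6] at hcoef
  simp only [coeff_sub, coeff_C_mul, coeff_X_pow, if_true, mul_one, coeff_C_succ, sub_zero,
    coeff_one] at hcoef
  rw [if_neg (by norm_num)] at hcoef
  exact mul_ne_zero (mul_ne_zero h3 hw.ne_zero) hζ.ne_zero hcoef

/-- anisotropy, in the cubic extension -/
lemma aniso_ext {F E : Type*} [Field F] [Field E] (h7 : (7 : E) = 0) (h2 : (2 : F) ≠ 0)
    (e e' t : F) (he' : e' ≠ 0) (hee : e * e' = t ^ 12) (ht : t ≠ 0) (j : F →+* E) (γ : E)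
    (hγ : γ ^ 3 = j e') (hlin : ∀ a b c : F, j a + j b * γ + j c * γ ^ 2 = 0 →
      a = 0 ∧ b = 0 ∧ c = 0) (X Y Z : F)
    (h : X ^ 3 + e' * Y ^ 3 + e * Z ^ 3 = 3 * t ^ 4 * X * Y * Z) :
    X = 0 ∧ Y = 0 ∧ Z = 0 := by
  have hj : Function.Injective j := j.injective
  have hje : j e' ≠ 0 := by rw [Ne, map_eq_zero_iff _ hj]; exact he'
  set δ : E := j (t ^ 4 / e') * γ ^ 2 with hδ
  have hδ3 : δ ^ 3 = j e := by
    have h5 : (t ^ 4 / e') ^ 3 * e' ^ 2 = e := by
      field_simp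
      linear_combination -hee
    rw [hδ, mul_pow, ← pow_mul, mul_comm 2 3, pow_mul, hγ, ← map_pow, ← map_pow, ← map_mul, h5]
  have hγδ : γ * δ = j t ^ 4 := by
    have h5 : t ^ 4 / e' * e' = t ^ 4 := by field_simp
    have h6 : γ * δ = j (t ^ 4 / e') * γ ^ 3 := by rw [hδ]; ring
    rw [h6, hγ, ← map_mul, h5, map_pow]
  set x : E := j X with hx
  set y : E := j Y with hy
  set z : E := j Z with hz
  have heq : x ^ 3 + γ ^ 3 * y ^ 3 + δ ^ 3 * z ^ 3 = 3 * (γ * δ) * x * y * z := by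
    have h5 := congrArg j h
    simp only [map_add, map_mul, map_pow, map_ofNat] at h5
    rw [hγ, hδ3, hγδ]
    exact h5
  have hprod : (x + γ * y + δ * z) * (x + 2 * (γ * y) + 4 * (δ * z)) *
      (x + 4 * (γ * y) + 2 * (δ * z)) = 0 := by
    linear_combination heq + (x ^ 2 * (γ * y) + x ^ 2 * (δ * z) + 2 * x * (γ * y) ^ 2
      + 2 * x * (δ * z) ^ 2 + 5 * x * (γ * y) * (δ * z) + (γ * y) ^ 3 + (δ * z) ^ 3
      + 4 * (γ * y) ^ 2 * (δ * z) + 4 * (γ * y) * (δ * z) ^ 2) * h7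
  have h4F : (4 : F) ≠ 0 := by
    have : (4 : F) = 2 * 2 := by norm_num
    rw [this]; exact mul_ne_zero h2 h2
  have hconc : ∀ a b : F, a ≠ 0 → b ≠ 0 → x + j a * (γ * y) + j b * (δ * z) = 0 →
      X = 0 ∧ Y = 0 ∧ Z = 0 := by
    intro a b ha hb hab
    have h5 : j X + j (a * Y) * γ + j (b * (t ^ 4 / e') * Z) * γ ^ 2 = 0 := by
      rw [hδ, hx, hy, hz] at hab
      simp only [map_mul] at hab ⊢
      linear_combination hab
    obtain ⟨hX, hY, hZ⟩ := hlin _ _ _ h5
    refine ⟨hX, (mul_eq_zero.1 hY).resolve_left ha, (mul_eq_zero.1 hZ).resolve_left ?_⟩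
    exact mul_ne_zero hb (div_ne_zero (pow_ne_zero _ ht) he')
  rcases mul_eq_zero.1 hprod with h5 | h5
  · rcases mul_eq_zero.1 h5 with h6 | h6
    · exact hconc 1 1 one_ne_zero one_ne_zero (by rw [map_one]; linear_combination h6)
    · exact hconc 2 4 h2 h4F (by rw [map_ofNat, map_ofNat]; linear_combination h6)
  · exact hconc 4 2 h4F h2 (by rw [map_ofNat, map_ofNat]; linear_combination h5)

/-- anisotropy over a field -/
lemma aniso_field {F : Type*} [Field F] (h7 : (7 : F) = 0) (h2 : (2 : F) ≠ 0)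
    (e e' t : F) (he' : e' ≠ 0) (hee : e * e' = t ^ 12) (ht : t ≠ 0)
    (hcube : ∀ r : F, r ^ 3 ≠ e') (X Y Z : F)
    (h : X ^ 3 + e' * Y ^ 3 + e * Z ^ 3 = 3 * t ^ 4 * X * Y * Z) :
    X = 0 ∧ Y = 0 ∧ Z = 0 := by
  set f : F[X] := Polynomial.X ^ 3 - C e' with hfdef
  have hfdeg : f.natDegree = 3 := natDegree_X_pow_sub_C
  have hfmonic : f.Monic := monic_X_pow_sub_C _ (by norm_num)
  have hf : Irreducible f := by
    rw [hfmonic.irreducible_iff_roots_eq_zero_of_degree_le_three (by rw [hfdeg]; norm_num)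
      (by rw [hfdeg])]
    rw [Multiset.eq_zero_iff_forall_notMem]
    intro r hr
    have h5 := isRoot_of_mem_roots hr
    simp only [hfdef, IsRoot, eval_sub, eval_pow, eval_X, eval_C] at h5
    exact hcube r (sub_eq_zero.1 h5)
  have : Fact (Irreducible f) := ⟨hf⟩
  have hγ : (AdjoinRoot.root f) ^ 3 = AdjoinRoot.of f e' := by
    have h5 : eval₂ (AdjoinRoot.of f) (AdjoinRoot.root f) (Polynomial.X ^ 3 - C e') = 0 :=
      AdjoinRoot.eval₂_root f
    rw [eval₂_sub, eval₂_pow, eval₂_X, eval₂_C] at h5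
    exact sub_eq_zero.1 h5
  refine aniso_ext (E := AdjoinRoot f) ?_ h2 e e' t he' hee ht (AdjoinRoot.of f)
    (AdjoinRoot.root f) hγ ?_ X Y Z h
  · have h5 := congrArg (AdjoinRoot.of f) h7
    rw [map_ofNat, map_zero] at h5
    exact h5
  · intro a b c habc
    have h5 : AdjoinRoot.mk f (C c * Polynomial.X ^ 2 + C b * Polynomial.X + C a) = 0 := by
      rw [map_add, map_add, map_mul, map_mul, map_pow, AdjoinRoot.mk_C, AdjoinRoot.mk_C,
        AdjoinRoot.mk_C, AdjoinRoot.mk_X]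
      linear_combination habc
    rw [AdjoinRoot.mk_eq_zero] at h5
    have h6 : C c * Polynomial.X ^ 2 + C b * Polynomial.X + C a = 0 := by
      by_contra hne
      refine hfmonic.not_dvd_of_natDegree_lt hne ?_ h5
      rw [hfdeg]
      exact lt_of_le_of_lt natDegree_quadratic_le (by norm_num)
    have ha := congrArg (fun g => coeff g 0) h6
    have hb := congrArg (fun g => coeff g 1) h6
    have hc := congrArg (fun g => coeff g 2) h6
    simp only [coeff_add, coeff_C_mul, coeff_X_pow, coeff_X, coeff_C, coeff_zero] at ha hb hc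
    norm_num at ha hb hc
    exact ⟨ha, hb, hc⟩

end ModA

/-- `ε` is not a cube in `Frac (OB κ)`. -/
theorem ee_not_cube (κ : Type*) [Field κ] (h2 : (2 : κ) ≠ 0) (h3 : (3 : κ) ≠ 0)
    (X Y : OB κ) (h : X ^ 3 = ee κ * Y ^ 3) : Y = 0 := by
  have hdom := OB_isDomain κ h2
  by_contra hY
  have hrel := rel κ
  obtain ⟨c, d, hcd⟩ := exists_el κ Y
  obtain ⟨p, q, hpq⟩ := exists_el κ (X * sg κ Y)
  set n : κ[X] := c ^ 2 - c * d + d ^ 2 * Polynomial.X ^ 12 with hn
  have hnY : AdjoinRoot.of (hB κ) n = Y * sg κ Y := by rw [hn, ← conj_mul, ← hcd]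
  have hsY : sg κ Y ≠ 0 := by
    intro h0
    apply hY
    rw [← sg_sg κ Y, h0, map_zero]
  have hn0 : n ≠ 0 := by
    intro h0
    rw [h0, map_zero] at hnY
    exact mul_ne_zero hY hsY hnY.symm
  set P : OB κ := X * sg κ Y with hP
  have hP3 : P ^ 3 = ee κ * AdjoinRoot.of (hB κ) n ^ 3 := by
    rw [hP, hnY, mul_pow, h]; ring
  have hP3' : sg κ P ^ 3 = (-1 - ee κ) * AdjoinRoot.of (hB κ) n ^ 3 := by
    rw [← map_pow, hP3, map_mul, map_pow, sg_ee, sg_of]
  have hM : P * sg κ P = AdjoinRoot.of (hB κ) (p ^ 2 - p * q + q ^ 2 * Polynomial.X ^ 12) := by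
    rw [hpq, conj_mul]
  have hT : P + sg κ P = AdjoinRoot.of (hB κ) (2 * p - q) := by
    rw [hpq, conj_add]
  refine poly_contra κ h3 n (p ^ 2 - p * q + q ^ 2 * Polynomial.X ^ 12) (2 * p - q) hn0 ?_ ?_
  · apply of_injective κ
    rw [map_pow, ← hM, mul_pow, hP3, hP3']
    simp only [map_pow, map_mul]
    rw [← tt_eq]
    linear_combination (- AdjoinRoot.of (hB κ) n ^ 6) * hrel
  · apply of_injective κ
    rw [map_add, map_mul, map_mul, map_pow, ← hM, ← hT, map_neg, map_pow, map_ofNat]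
    linear_combination hP3 + hP3'

theorem ee'_not_cube (κ : Type*) [Field κ] (h2 : (2 : κ) ≠ 0) (h3 : (3 : κ) ≠ 0)
    (X Y : OB κ) (h : X ^ 3 = (-1 - ee κ) * Y ^ 3) : Y = 0 := by
  have h1 := congrArg (sg κ) h
  rw [map_pow, map_mul, map_pow, map_sub, map_neg, map_one, sg_ee] at h1
  have h4 := ee_not_cube κ h2 h3 (sg κ X) (sg κ Y) (by rw [h1]; ring)
  rw [← sg_sg κ Y, h4, map_zero]

theorem coords_ne_zero (κ : Type*) [Field κ] (h2 : (2 : κ) ≠ 0) (h3 : (3 : κ) ≠ 0)
    (μ X Y Z : OB κ) (h : X ^ 3 + (-1 - ee κ) * Y ^ 3 + ee κ * Z ^ 3 = μ * X * Y * Z)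
    (hne : X ≠ 0 ∨ Y ≠ 0 ∨ Z ≠ 0) : X ≠ 0 ∧ Y ≠ 0 ∧ Z ≠ 0 := by
  have hdom := OB_isDomain κ h2
  have hrel := rel κ
  have ht := tt_ne_zero κ
  have he := ee_ne_zero κ
  refine ⟨?_, ?_, ?_⟩ <;> rintro rfl
  · have h4 := ee_not_cube κ h2 h3 (- ee κ * Z) (tt κ ^ 4 * Y)
      (by linear_combination (-(ee κ) ^ 2) * h - (ee κ * Y ^ 3) * hrel)
    have hY : Y = 0 := (mul_eq_zero.1 h4).resolve_left (pow_ne_zero _ ht)
    subst hY
    have hZ : ee κ * Z ^ 3 = 0 := by linear_combination h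
    have hZ' : Z = 0 := by
      rcases mul_eq_zero.1 hZ with h5 | h5
      · exact absurd h5 he
      · exact (pow_eq_zero_iff (by norm_num)).1 h5
    simp [hZ'] at hne
  · have h4 := ee_not_cube κ h2 h3 X (- Z) (by linear_combination h)
    have hZ : Z = 0 := neg_eq_zero.1 h4
    subst hZ
    have hX : X ^ 3 = 0 := by linear_combination h
    have hX' : X = 0 := (pow_eq_zero_iff (by norm_num)).1 hX
    simp [hX'] at hne
  · have h4 := ee'_not_cube κ h2 h3 X (- Y) (by linear_combination h)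
    have hY : Y = 0 := neg_eq_zero.1 h4
    subst hY
    have hX : X ^ 3 = 0 := by linear_combination h
    have hX' : X = 0 := (pow_eq_zero_iff (by norm_num)).1 hX
    simp [hX'] at hne

namespace ModA

lemma aniso_aux {κ F : Type*} [Field κ] [Field F] (h2 : (2 : κ) ≠ 0) (h3 : (3 : κ) ≠ 0)
    (h7 : (7 : κ) = 0) [IsDomain (OB κ)] [Algebra (OB κ) F] [IsFractionRing (OB κ) F]
    (X Y Z : OB κ)
    (h : X ^ 3 + (-1 - ee κ) * Y ^ 3 + ee κ * Z ^ 3 = 3 * tt κ ^ 4 * X * Y * Z) :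
    X = 0 ∧ Y = 0 ∧ Z = 0 := by
  have hrel := rel κ
  have ht := tt_ne_zero κ
  have hi : Function.Injective (algebraMap (OB κ) F) := IsFractionRing.injective (OB κ) F
  have he'0 : -1 - ee κ ≠ 0 := by
    intro h0
    apply ee_ne_zero κ
    have h5 := congrArg (sg κ) h0
    rw [map_sub, map_neg, map_one, sg_ee, map_zero] at h5
    linear_combination h5
  have hC : ∀ m : ℕ, (m : κ) = 0 ↔ (m : F) = 0 := by
    intro m
    have h5 : (m : F) = algebraMap (OB κ) F (AdjoinRoot.of (hB κ) (C (m : κ))) := by simp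
    rw [h5, map_eq_zero_iff _ hi, map_eq_zero_iff _ (of_injective κ), C_eq_zero]
  have key := aniso_field (F := F) (by exact_mod_cast (hC 7).1 (by exact_mod_cast h7))
    (fun h0 => h2 (by exact_mod_cast (hC 2).2 (by exact_mod_cast h0)))
    (algebraMap (OB κ) F (ee κ)) (algebraMap (OB κ) F (-1 - ee κ)) (algebraMap (OB κ) F (tt κ))
    (by rw [Ne, map_eq_zero_iff _ hi]; exact he'0)
    (by
      rw [← map_mul, ← map_pow]
      exact congrArg (algebraMap (OB κ) F) (by linear_combination -hrel))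
    (by rw [Ne, map_eq_zero_iff _ hi]; exact ht)
    (by
      intro r hr
      obtain ⟨a, b, hb, rfl⟩ := IsFractionRing.div_surjective (A := OB κ) r
      have hb0 : b ≠ 0 := nonZeroDivisors.ne_zero hb
      have hib : algebraMap (OB κ) F b ≠ 0 := by rw [Ne, map_eq_zero_iff _ hi]; exact hb0
      apply hb0
      apply ee'_not_cube κ h2 h3 a b
      apply hi
      rw [map_pow, map_mul, map_pow]
      rw [div_pow, div_eq_iff (pow_ne_zero _ hib)] at hr
      exact hr)
    (algebraMap (OB κ) F X) (algebraMap (OB κ) F Y) (algebraMap (OB κ) F Z)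
    (by
      have h5 := congrArg (algebraMap (OB κ) F) h
      simp only [map_add, map_mul, map_pow, map_ofNat] at h5
      exact h5)
  rwa [map_eq_zero_iff _ hi, map_eq_zero_iff _ hi, map_eq_zero_iff _ hi] at key

end ModA

/-- Anisotropy of the norm form (uses: `2` is a primitive cube root of unity in char 7). -/
theorem anisotropic_of_char_seven (κ : Type*) [Field κ] [CharP κ 7]
    (X Y Z : OB κ)
    (h : X ^ 3 + (-1 - ee κ) * Y ^ 3 + ee κ * Z ^ 3 = 3 * tt κ ^ 4 * X * Y * Z) :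
    X = 0 ∧ Y = 0 ∧ Z = 0 := by
  have h2 : (2 : κ) ≠ 0 := by
    intro h0
    have : ((2 : ℕ) : κ) = 0 := by exact_mod_cast h0
    rw [CharP.cast_eq_zero_iff κ 7] at this
    omega
  have h3 : (3 : κ) ≠ 0 := by
    intro h0
    have : ((3 : ℕ) : κ) = 0 := by exact_mod_cast h0
    rw [CharP.cast_eq_zero_iff κ 7] at this
    omega
  have h7 : (7 : κ) = 0 := by
    have := CharP.cast_eq_zero κ 7
    exact_mod_cast this
  have hdom := OB_isDomain κ h2
  exact aniso_aux (F := FractionRing (OB κ)) h2 h3 h7 X Y Z h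

end Pool.Agent.H16
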