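import Pool.Agent.H16.Irr.ModA

namespace Pool.Agent.H16

open Polynomial

namespace ModB

/-- The cubic form with coefficient `l` at the level of polynomials. -/
noncomputable def cub (S : Type*) [CommRing S] (l : S) (P Q R : S[X][X]) : S[X][X] :=
  P ^ 3 + (-1 - X) * Q ^ 3 + X * R ^ 3 - 3 * C (C l) * C X ^ 4 * P * Q * R

theorem mk_cub (S : Type*) [CommRing S] (l : S) (P Q R : S[X][X]) :
    AdjoinRoot.mk (hB S) (cub S l P Q R) =
      AdjoinRoot.mk (hB S) P ^ 3 + (-1 - ee S) * AdjoinRoot.mk (hB S) Q ^ 3 +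
        ee S * AdjoinRoot.mk (hB S) R ^ 3 - 3 * cst l * tt S ^ 4 * AdjoinRoot.mk (hB S) P *
          AdjoinRoot.mk (hB S) Q * AdjoinRoot.mk (hB S) R := by
  have h3 : AdjoinRoot.mk (hB S) 3 = 3 := map_ofNat _ 3
  simp [cub, ee, tt, cst, h3]

theorem map_cub {S T : Type*} [CommRing S] [CommRing T] (f : S →+* T) (l : S) (P Q R : S[X][X]) :
    (cub S l P Q R).map (mapRingHom f) =
      cub T (f l) (P.map (mapRingHom f)) (Q.map (mapRingHom f)) (R.map (mapRingHom f)) := by
  simp [cub]

theorem map_hB {S T : Type*} [CommRing S] [CommRing T] (f : S →+* T) :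
    (hB S).map (mapRingHom f) = hB T := by
  simp [hB]

theorem hB_monic (S : Type*) [CommRing S] : (hB S).Monic := by
  unfold hB
  monicity!

theorem hB_natDegree (S : Type*) [CommRing S] [Nontrivial S] : (hB S).natDegree = 2 := by
  unfold hB
  compute_degree!

theorem exists_rep (S : Type*) [CommRing S] [Nontrivial S] (x : OB S) :
    ∃ P : S[X][X], P.natDegree < 2 ∧ AdjoinRoot.mk (hB S) P = x := by
  obtain ⟨P, rfl⟩ := AdjoinRoot.mk_surjective x
  refine ⟨P %ₘ hB S, ?_, ?_⟩
  · have := natDegree_modByMonic_lt P (hB_monic S) (by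
      intro h
      have := hB_natDegree S
      rw [h] at this
      simp at this)
    rwa [hB_natDegree] at this
  · rw [AdjoinRoot.mk_eq_mk]
    have := modByMonic_add_div P (hB S)
    exact ⟨-(P /ₘ hB S), by linear_combination this⟩

theorem eq_zero_of_mk (S : Type*) [CommRing S] [Nontrivial S] (P : S[X][X])
    (hP : P.natDegree < 2) (h : AdjoinRoot.mk (hB S) P = 0) : P = 0 := by
  rw [AdjoinRoot.mk_eq_zero] at h
  by_contra hne
  have h1 := (hB_monic S).not_dvd_of_natDegree_lt hne (by rwa [hB_natDegree])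
  exact h1 h

/-- a valuation ring above 7 -/
theorem exists_valuationSubring_seven :
    ∃ V : ValuationSubring ℂ, (7 : ℂ) ∈ V.nonunits := by
  have hI : (Ideal.span {(7 : (Int.castRingHom ℂ).range)}) ≠ ⊤ := by
    intro h
    rw [Ideal.span_singleton_eq_top] at h
    obtain ⟨u, hu⟩ := h
    obtain ⟨b, hb⟩ := u.isUnit.exists_right_inv
    rw [hu] at hb
    obtain ⟨b, m, rfl⟩ := b
    have h1 := congrArg Subtype.val hb
    have h7 : ((7 : (Int.castRingHom ℂ).range) : ℂ) = 7 := rfl
    have h2 : ((7 : ℤ) : ℂ) * (m : ℂ) = ((1 : ℤ) : ℂ) := by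
      simpa [h7] using h1
    have h3 : (7 : ℤ) * m = 1 := by exact_mod_cast h2
    omega
  obtain ⟨V, -, hV⟩ := Ideal.image_subset_nonunits_valuationSubring _ hI
  exact ⟨V, hV ⟨7, Ideal.subset_span rfl, rfl⟩⟩

/-- scaling a finite family of polynomials into the valuation ring -/
theorem exists_scale (V : ValuationSubring ℂ) (P : Fin 3 → ℂ[X][X]) (hP : ∃ i, P i ≠ 0) :
    ∃ (c : ℂ) (Q : Fin 3 → V[X][X]), c ≠ 0 ∧
      (∀ i, (Q i).map (mapRingHom (algebraMap V ℂ)) = C (C c) * P i) ∧
      (∀ i, (Q i).natDegree ≤ (P i).natDegree) ∧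
      ∃ i j k, ((Q i).coeff j).coeff k = 1 := by
  classical
  -- the finite set of all coefficients
  set T : Finset ℂ := Finset.univ.biUnion fun i : Fin 3 =>
    (P i).support.biUnion fun j => ((P i).coeff j).support.image fun k =>
      ((P i).coeff j).coeff k with hT
  have hmemT : ∀ i j k, ((P i).coeff j).coeff k ≠ 0 → ((P i).coeff j).coeff k ∈ T := by
    intro i j k hne
    simp only [hT, Finset.mem_biUnion, Finset.mem_image, Finset.mem_univ, true_and]
    refine ⟨i, j, ?_, k, ?_, rfl⟩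
    · rw [mem_support_iff]
      intro h0
      rw [h0] at hne
      simp at hne
    · rw [mem_support_iff]
      exact hne
  have hTne : T.Nonempty := by
    obtain ⟨i, hi⟩ := hP
    obtain ⟨j, hj⟩ : ∃ j, (P i).coeff j ≠ 0 := by
      by_contra hcon
      push Not at hcon
      exact hi (Polynomial.ext (by simpa using hcon))
    obtain ⟨k, hk⟩ : ∃ k, ((P i).coeff j).coeff k ≠ 0 := by
      by_contra hcon
      push Not at hcon
      exact hj (Polynomial.ext (by simpa using hcon))
    exact ⟨_, hmemT i j k hk⟩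
  obtain ⟨m, hmT, hmax⟩ := T.exists_max_image V.valuation hTne
  have hm : ∃ i j k, ((P i).coeff j).coeff k = m ∧ m ≠ 0 := by
    simp only [hT, Finset.mem_biUnion, Finset.mem_image, Finset.mem_univ, true_and] at hmT
    obtain ⟨i, j, hj, k, hk, rfl⟩ := hmT
    exact ⟨i, j, k, rfl, by rwa [mem_support_iff] at hk⟩
  obtain ⟨i₀, j₀, k₀, hm0, hmne⟩ := hm
  have hV : ∀ i j k, m⁻¹ * ((P i).coeff j).coeff k ∈ V := by
    intro i j k
    by_cases h0 : ((P i).coeff j).coeff k = 0
    · rw [h0, mul_zero]; exact V.zero_mem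
    · rw [← V.valuation_le_one_iff, map_mul, map_inv₀]
      have h1 := hmax _ (hmemT i j k h0)
      have h2 : V.valuation m ≠ 0 := by simpa using hmne
      calc (V.valuation m)⁻¹ * V.valuation (((P i).coeff j).coeff k)
          ≤ (V.valuation m)⁻¹ * V.valuation m := by gcongr
        _ = 1 := inv_mul_cancel₀ h2
  have hlift : ∀ i, ∃ Q : V[X][X], Q.map (mapRingHom (algebraMap V ℂ)) = C (C m⁻¹) * P i ∧
      Q.natDegree ≤ (P i).natDegree := by
    intro i
    have hinner : ∀ j, ∃ q : V[X], q.map (algebraMap V ℂ) = C m⁻¹ * (P i).coeff j := by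
      intro j
      have : C m⁻¹ * (P i).coeff j ∈ Polynomial.lifts (algebraMap V ℂ) := by
        rw [Polynomial.lifts_iff_coeff_lifts]
        intro k
        rw [coeff_C_mul]
        exact ⟨⟨_, hV i j k⟩, rfl⟩
      rwa [Polynomial.mem_lifts] at this
    have : C (C m⁻¹) * P i ∈ Polynomial.lifts (mapRingHom (algebraMap V ℂ)) := by
      rw [Polynomial.lifts_iff_coeff_lifts]
      intro j
      rw [coeff_C_mul]
      obtain ⟨q, hq⟩ := hinner j
      exact ⟨q, hq⟩
    obtain ⟨Q, hQ, hdeg⟩ := Polynomial.exists_natDegree_eq_of_mem_lifts this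
    refine ⟨Q, hQ, ?_⟩
    rw [hdeg]
    exact natDegree_C_mul_le _ _
  choose Q hQ hQdeg using hlift
  refine ⟨m⁻¹, Q, inv_ne_zero hmne, hQ, hQdeg, i₀, j₀, k₀, ?_⟩
  have h1 := congrArg (fun p => (p.coeff j₀).coeff k₀) (hQ i₀)
  simp only [coeff_map, coe_mapRingHom, coeff_C_mul, hm0] at h1
  rw [inv_mul_cancel₀ hmne] at h1
  exact IsFractionRing.injective V ℂ (by rw [h1, map_one])

end ModB

theorem not_hasPt_eight : ¬ HasPt ℂ 8 := by
  rintro ⟨x, y, z, hx, -, -, h⟩
  obtain ⟨P, hP, rfl⟩ := ModB.exists_rep ℂ x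
  obtain ⟨Q, hQ, rfl⟩ := ModB.exists_rep ℂ y
  obtain ⟨R, hR, rfl⟩ := ModB.exists_rep ℂ z
  obtain ⟨V, hV⟩ := ModB.exists_valuationSubring_seven
  have hP0 : P ≠ 0 := by
    rintro rfl
    simp at hx
  obtain ⟨c, F, hc, hF, hdeg, i, j, k, hijk⟩ := ModB.exists_scale V ![P, Q, R] ⟨0, hP0⟩
  have h7 : (7 : IsLocalRing.ResidueField V) = 0 := by
    have h1 : IsLocalRing.residue V (7 : V) = 0 := by
      rw [IsLocalRing.residue_eq_zero_iff]
      have h7' : ((7 : V) : ℂ) = 7 := rfl
      exact (ValuationSubring.coe_mem_nonunits_iff (A := V) (a := 7)).mp (by rwa [h7'])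
    rwa [map_ofNat] at h1
  have : CharP (IsLocalRing.ResidueField V) 7 := by
    have hp : Nat.Prime 7 := by norm_num
    exact (CharP.charP_iff_prime_eq_zero hp).mpr (by exact_mod_cast h7)
  -- the equation over `ℂ`
  have e1 : hB ℂ ∣ ModB.cub ℂ 8 (C (C c) * P) (C (C c) * Q) (C (C c) * R) := by
    rw [← AdjoinRoot.mk_eq_zero, ModB.mk_cub]
    simp only [map_mul]
    linear_combination (AdjoinRoot.mk (hB ℂ) (C (C c))) ^ 3 * h
  have e2 : (ModB.cub V 8 (F 0) (F 1) (F 2)).map (mapRingHom (algebraMap V ℂ)) =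
      ModB.cub ℂ 8 (C (C c) * P) (C (C c) * Q) (C (C c) * R) := by
    rw [ModB.map_cub, hF 0, hF 1, hF 2, map_ofNat]
    rfl
  have e3 : hB V ∣ ModB.cub V 8 (F 0) (F 1) (F 2) := by
    rw [← e2, ← ModB.map_hB (algebraMap V ℂ)] at e1
    refine (Polynomial.map_dvd_map (mapRingHom (algebraMap V ℂ)) ?_ (ModB.hB_monic V)).mp e1
    exact Polynomial.map_injective _ (IsFractionRing.injective V ℂ)
  have e4 := Polynomial.map_dvd (mapRingHom (IsLocalRing.residue V)) e3
  rw [ModB.map_hB, ModB.map_cub, ← AdjoinRoot.mk_eq_zero, ModB.mk_cub] at e4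
  have h8 : (IsLocalRing.residue V) 8 = 1 := by
    have : (IsLocalRing.residue V) 8 = (8 : IsLocalRing.ResidueField V) := map_ofNat _ 8
    rw [this]
    linear_combination h7
  rw [h8] at e4
  have hc1 : (cst (1 : IsLocalRing.ResidueField V) : OB (IsLocalRing.ResidueField V)) = 1 := by
    simp [cst]
  rw [hc1] at e4
  have e5 := anisotropic_of_char_seven (IsLocalRing.ResidueField V)
    (AdjoinRoot.mk _ ((F 0).map (mapRingHom (IsLocalRing.residue V))))
    (AdjoinRoot.mk _ ((F 1).map (mapRingHom (IsLocalRing.residue V))))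
    (AdjoinRoot.mk _ ((F 2).map (mapRingHom (IsLocalRing.residue V))))
    (by linear_combination e4)
  have key : ∀ i, (F i).map (mapRingHom (IsLocalRing.residue V)) = 0 := by
    intro i
    apply ModB.eq_zero_of_mk
    · refine lt_of_le_of_lt (natDegree_map_le) (lt_of_le_of_lt (hdeg i) ?_)
      fin_cases i
      · exact hP
      · exact hQ
      · exact hR
    · fin_cases i
      · exact e5.1
      · exact e5.2.1
      · exact e5.2.2
  have k1 := key i
  have k2 : (((F i).map (mapRingHom (IsLocalRing.residue V))).coeff j).coeff k = 1 := by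
    rw [coeff_map, coe_mapRingHom, coeff_map, hijk, map_one]
  rw [k1] at k2
  simp at k2

end Pool.Agent.H16
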