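import Pool.Agent.H16.Irr.Defs

namespace Pool.Agent.H16.ModG

section NonComm

variable {M N : Type*} [Ring M] [AddCommGroup N]

theorem tr_commutator_mul (tr : M →+ N) (htr : ∀ a b : M, tr (a * b) = tr (b * a)) {A P : M}
    (h : A * P = P * A) (X : M) : tr ((X * A - A * X) * P) = 0 := by
  rw [sub_mul, map_sub, mul_assoc, mul_assoc, htr A, mul_assoc, h, sub_self]

theorem step1 (tr : M →+ N) (htr : ∀ a b : M, tr (a * b) = tr (b * a)) (A B C A1 B2 X Y : M)
    (hAC : A * C = C * A) (hBC : B * C = C * B)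
    (h1 : (A1 + (X * A - A * X)) * B = B * (A1 + (X * A - A * X)))
    (h2 : (B2 + (Y * B - B * Y)) * A = A * (B2 + (Y * B - B * Y))) :
    tr (C * ((A1 + (X * A - A * X)) * (B2 + (Y * B - B * Y)))) =
      tr (C * (A1 * B2)) + tr (Y * C * ((X * A - A * X) * B - B * (X * A - A * X))) := by
  have e1 : tr (C * ((X * A - A * X) * (B2 + (Y * B - B * Y)))) = 0 := by
    rw [htr, mul_assoc]
    apply tr_commutator_mul tr htr
    rw [← mul_assoc, ← h2, mul_assoc, hAC, mul_assoc]
  have e2 : (X * A - A * X) * B - B * (X * A - A * X) = B * A1 - A1 * B := by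
    have := h1
    rw [add_mul, mul_add] at this
    have h3 := sub_eq_zero.mpr this
    rw [← sub_eq_zero, ← h3]
    abel
  have e3 : tr (C * (A1 * (Y * B - B * Y))) = tr (Y * C * (B * A1 - A1 * B)) := by
    have e4 : tr (C * (A1 * (Y * B))) = tr (Y * C * (B * A1)) := by
      rw [← mul_assoc C, htr, mul_assoc Y B, ← mul_assoc B C, hBC, ← mul_assoc, ← mul_assoc,
        ← mul_assoc]
    have e5 : tr (C * (A1 * (B * Y))) = tr (Y * C * (A1 * B)) := by
      rw [← mul_assoc A1, ← mul_assoc C, htr, ← mul_assoc]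
    rw [mul_sub, mul_sub, map_sub, mul_sub, map_sub, e4, e5]
  rw [add_mul, mul_add, map_add, e1, add_zero, mul_add, mul_add, map_add, e3, e2]

theorem step2 (tr : M →+ N) (htr : ∀ a b : M, tr (a * b) = tr (b * a)) (A B C C1 B2 X Y : M)
    (h1 : (C1 + (X * C - C * X)) * A = A * (C1 + (X * C - C * X)))
    (h2 : (B2 + (Y * B - B * Y)) * A = A * (B2 + (Y * B - B * Y))) :
    tr (C1 * (A * B2 - B2 * A)) =
      - tr ((X * C - C * X) * ((Y * B - B * Y) * A - A * (Y * B - B * Y))) := by
  have e2 : A * B2 - B2 * A = (Y * B - B * Y) * A - A * (Y * B - B * Y) := by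
    have := h2
    rw [add_mul, mul_add] at this
    have h3 := sub_eq_zero.mpr this
    rw [← sub_eq_zero, ← neg_eq_zero, ← h3]
    abel
  have e3 : tr ((C1 + (X * C - C * X)) * ((Y * B - B * Y) * A - A * (Y * B - B * Y))) = 0 := by
    rw [htr]
    exact tr_commutator_mul tr htr h1.symm _
  rw [e2]
  rw [add_mul, map_add] at e3
  rw [← sub_eq_zero, ← e3]
  abel

theorem step3 (tr : M →+ N) (htr : ∀ a b : M, tr (a * b) = tr (b * a)) (A B C X Y : M)
    (hBA : B * A = A * B) (hCA : C * A = A * C) (hCB : C * B = B * C) :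
    (tr (Y * C * ((X * A - A * X) * B - B * (X * A - A * X))) -
      tr (X * C * ((Y * A - A * Y) * B - B * (Y * A - A * Y)))) =
    - tr ((X * C - C * X) * ((Y * B - B * Y) * A - A * (Y * B - B * Y))) := by
  have hBA' : ∀ z, B * (A * z) = A * (B * z) := fun z => by rw [← mul_assoc, hBA, mul_assoc]
  have hCA' : ∀ z, C * (A * z) = A * (C * z) := fun z => by rw [← mul_assoc, hCA, mul_assoc]
  have hCB' : ∀ z, C * (B * z) = B * (C * z) := fun z => by rw [← mul_assoc, hCB, mul_assoc]
  have c4 : ∀ a b c d, tr (a * (b * (c * (d * Y)))) = tr (Y * (a * (b * (c * d)))) :=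
    fun a b c d => by
    rw [← mul_assoc, ← mul_assoc, ← mul_assoc, htr, mul_assoc, mul_assoc]
  have d2 : ∀ a b z, tr (a * (b * (Y * z))) = tr (Y * (z * (a * b))) := fun a b z => by
    rw [← mul_assoc, htr, mul_assoc]
  have d3 : ∀ a b c z, tr (a * (b * (c * (Y * z)))) = tr (Y * (z * (a * (b * c)))) :=
    fun a b c z => by
    rw [← mul_assoc, ← mul_assoc, htr, mul_assoc, mul_assoc]
  simp only [mul_sub, sub_mul, mul_assoc, map_sub, c4, d2, d3, hBA, hBA', hCA', hCB']
  abel

end NonComm


section Basis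

variable {R L K : Type*} [CommRing R] [IsDomain R] [IsPrincipalIdealRing R]
    [Field L] [Field K] [Algebra R L] [IsFractionRing R L] [Algebra L K] [Algebra R K]
    [IsScalarTower R L K] [FiniteDimensional L K] [CharZero L]

variable (R L K) in
theorem exists_basis : ∃ (n : ℕ)
    (e : Module.Basis (Fin n) L K), (∀ i, IsIntegral R (e i)) ∧
    ∀ x : K, IsIntegral R x → ∀ i, ∃ r : R, e.repr x i = algebraMap R L r := by
  classical
  have hLK : Function.Injective (algebraMap L K) := (algebraMap L K).injective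
  have : FaithfulSMul R L := inferInstance
  have : FaithfulSMul R K := by
    rw [faithfulSMul_iff_algebraMap_injective, IsScalarTower.algebraMap_eq R L K]
    exact hLK.comp (IsFractionRing.injective R L)
  have : Module.IsTorsionFree R K := .trans_faithfulSMul R L K
  have : Module.Free R (integralClosure R K) :=
    IsIntegralClosure.module_free R L K (integralClosure R K)
  have : Module.Finite R (integralClosure R K) :=
    IsIntegralClosure.finite R L K (integralClosure R K)
  have : IsLocalization (Algebra.algebraMapSubmonoid (integralClosure R K) (nonZeroDivisors R)) K :=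
    IsIntegralClosure.isLocalization R L K (integralClosure R K)
  let b := Module.finBasis R (integralClosure R K)
  refine ⟨Module.finrank R (integralClosure R K),
    b.localizationLocalization L (nonZeroDivisors R) K, fun i => ?_, fun x hx i => ?_⟩
  · rw [Module.Basis.localizationLocalization_apply]
    exact (b i).2
  · exact ⟨b.repr ⟨x, hx⟩ i, Module.Basis.localizationLocalization_repr_algebraMap L
      (nonZeroDivisors R) K b ⟨x, hx⟩ i⟩

omit [IsPrincipalIdealRing R] [FiniteDimensional L K] [CharZero L] in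
/-- A derivation of `K` preserving `R` restricts to `L`. -/
theorem exists_restrict (δ : Derivation ℤ K K)
    (hδ : ∀ r : R, ∃ s : R, δ (algebraMap R K r) = algebraMap R K s) (l : L) :
    ∃ l' : L, δ (algebraMap L K l) = algebraMap L K l' := by
  obtain ⟨r, s, hs, rfl⟩ := IsFractionRing.div_surjective (A := R) l
  have hs0 : algebraMap R L s ≠ 0 := by
    rw [Ne, map_eq_zero_iff _ (IsFractionRing.injective R L)]
    exact nonZeroDivisors.ne_zero hs
  obtain ⟨r', hr'⟩ := hδ r
  obtain ⟨s', hs'⟩ := hδ s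
  rw [IsScalarTower.algebraMap_apply R L K, IsScalarTower.algebraMap_apply R L K] at hr' hs'
  refine ⟨(algebraMap R L r' * algebraMap R L s - algebraMap R L r * algebraMap R L s') /
    algebraMap R L s ^ 2, ?_⟩
  have hs1 : algebraMap L K (algebraMap R L s) ≠ 0 := by
    rw [Ne, map_eq_zero]; exact hs0
  have key : δ (algebraMap L K (algebraMap R L r)) =
      algebraMap L K (algebraMap R L r / algebraMap R L s) * δ (algebraMap L K (algebraMap R L s)) +
      algebraMap L K (algebraMap R L s) *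
        δ (algebraMap L K (algebraMap R L r / algebraMap R L s)) := by
    have h1 : algebraMap L K (algebraMap R L r) =
      algebraMap L K (algebraMap R L r / algebraMap R L s) *
        algebraMap L K (algebraMap R L s) := by
      rw [← map_mul, div_mul_cancel₀ _ hs0]
    conv_lhs => rw [h1, Derivation.leibniz]
    simp only [smul_eq_mul]
  rw [hr', hs'] at key
  have h2 : δ (algebraMap L K (algebraMap R L r / algebraMap R L s)) =
    (algebraMap L K (algebraMap R L r') - algebraMap L K (algebraMap R L r / algebraMap R L s) *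
      algebraMap L K (algebraMap R L s')) / algebraMap L K (algebraMap R L s) := by
    rw [eq_div_iff hs1, key]; ring
  rw [h2]
  simp only [map_div₀, map_sub, map_mul, map_pow]
  field_simp

/-- The restriction of a derivation to `L`. -/
noncomputable def restr (δ : Derivation ℤ K K)
    (hδ : ∀ r : R, ∃ s : R, δ (algebraMap R K r) = algebraMap R K s) (l : L) : L :=
  (exists_restrict δ hδ l).choose

omit [IsPrincipalIdealRing R] [FiniteDimensional L K] [CharZero L] in
theorem restr_spec (δ : Derivation ℤ K K)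
    (hδ : ∀ r : R, ∃ s : R, δ (algebraMap R K r) = algebraMap R K s) (l : L) :
    δ (algebraMap L K l) = algebraMap L K (restr δ hδ l) := (exists_restrict δ hδ l).choose_spec

omit [IsPrincipalIdealRing R] [FiniteDimensional L K] [CharZero L] in
theorem restr_mem (δ : Derivation ℤ K K)
    (hδ : ∀ r : R, ∃ s : R, δ (algebraMap R K r) = algebraMap R K s) (r : R) :
    ∃ s : R, restr δ hδ (algebraMap R L r) = algebraMap R L s := by
  obtain ⟨s, hs⟩ := hδ r
  refine ⟨s, (algebraMap L K).injective ?_⟩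
  rw [← restr_spec, ← IsScalarTower.algebraMap_apply, ← IsScalarTower.algebraMap_apply, hs]

variable {ι : Type*} [Fintype ι] [DecidableEq ι]

/-- The connection matrix of a derivation in a basis. -/
noncomputable def conn (e : Module.Basis ι L K) (δ : Derivation ℤ K K) : Matrix ι ι L :=
  Matrix.of fun i j => e.repr (δ (e j)) i

omit [IsPrincipalIdealRing R] [FiniteDimensional L K] [CharZero L] in
theorem leftMul_der (e : Module.Basis ι L K) (δ : Derivation ℤ K K)
    (hδ : ∀ r : R, ∃ s : R, δ (algebraMap R K r) = algebraMap R K s) (x : K) :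
    Algebra.leftMulMatrix e (δ x) = (Algebra.leftMulMatrix e x).map (restr δ hδ) +
      (conn e δ * Algebra.leftMulMatrix e x - Algebra.leftMulMatrix e x * conn e δ) := by
  ext k j
  have h1 : ∀ y : K, y = ∑ i, algebraMap L K (e.repr y i) * e i := fun y => by
    conv_lhs => rw [← e.sum_repr y]
    simp only [Algebra.smul_def]
  -- differentiate `x e_j`
  have h2 : δ x * e j = (∑ i, algebraMap L K (restr δ hδ (e.repr (x * e j) i)) * e i) +
      (∑ i, algebraMap L K (e.repr (x * e j) i) * δ (e i)) - x * δ (e j) := by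
    have h3 : δ (x * e j) = ∑ i, (algebraMap L K (restr δ hδ (e.repr (x * e j) i)) * e i +
      algebraMap L K (e.repr (x * e j) i) * δ (e i)) := by
      conv_lhs => rw [h1 (x * e j)]
      rw [map_sum]
      refine Finset.sum_congr rfl fun i _ => ?_
      rw [Derivation.leibniz, restr_spec δ hδ]
      simp only [smul_eq_mul]
      ring
    rw [Derivation.leibniz] at h3
    simp only [smul_eq_mul] at h3
    rw [Finset.sum_add_distrib] at h3
    rw [← h3]
    ring
  have h4 : x * δ (e j) = ∑ i, algebraMap L K (e.repr (δ (e j)) i) * (x * e i) := by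
    conv_lhs => rw [h1 (δ (e j)), Finset.mul_sum]
    exact Finset.sum_congr rfl fun i _ => by ring
  rw [Algebra.leftMulMatrix_eq_repr_mul, h2, h4]
  simp only [Matrix.add_apply, Matrix.sub_apply, Matrix.map_apply, Matrix.mul_apply,
    Algebra.leftMulMatrix_eq_repr_mul, conn, Matrix.of_apply, map_add, map_sub, map_sum,
    ← Algebra.smul_def, map_smul, Finsupp.add_apply, Finsupp.sub_apply, Finsupp.smul_apply,
    Finsupp.finsetSum_apply, smul_eq_mul, Module.Basis.repr_self]
  have h5 : ∑ i, restr δ hδ (e.repr (x * e j) i) * (Finsupp.single i (1 : L)) k =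
      restr δ hδ (e.repr (x * e j) k) := by
    rw [Finset.sum_eq_single k]
    · simp
    · intro i _ hik
      rw [Finsupp.single_eq_of_ne hik.symm, mul_zero]
    · simp
  rw [h5]
  have h6 : ∑ i, e.repr (x * e j) i * e.repr (δ (e i)) k =
    ∑ i, e.repr (δ (e i)) k * e.repr (x * e j) i := Finset.sum_congr rfl fun i _ => mul_comm _ _
  have h7 : ∑ i, e.repr (δ (e j)) i * e.repr (x * e i) k =
    ∑ i, e.repr (x * e i) k * e.repr (δ (e j)) i := Finset.sum_congr rfl fun i _ => mul_comm _ _
  rw [h6, h7]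
  ring

end Basis


section Entries

variable {R L : Type*} [CommRing R] [Field L] [Algebra R L] {ι : Type*} [Fintype ι]

/-- Matrices with entries in the image of `R`. -/
def Ent (R : Type*) {L : Type*} [CommRing R] [Field L] [Algebra R L] {ι : Type*}
    (A : Matrix ι ι L) : Prop := ∀ i j, A i j ∈ (algebraMap R L).range

theorem Ent.mul {A B : Matrix ι ι L} (hA : Ent R A) (hB : Ent R B) : Ent R (A * B) := by
  intro i j
  rw [Matrix.mul_apply]
  exact Subring.sum_mem _ fun k _ => Subring.mul_mem _ (hA i k) (hB k j)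

omit [Fintype ι] in
theorem Ent.sub {A B : Matrix ι ι L} (hA : Ent R A) (hB : Ent R B) : Ent R (A - B) :=
  fun i j => Subring.sub_mem _ (hA i j) (hB i j)

theorem Ent.trace {A : Matrix ι ι L} (hA : Ent R A) : A.trace ∈ (algebraMap R L).range :=
  Subring.sum_mem _ fun k _ => hA k k

end Entries

section Main

variable {R L K : Type*} [CommRing R] [IsDomain R] [IsPrincipalIdealRing R]
    [Field L] [Field K] [Algebra R L] [IsFractionRing R L] [Algebra L K] [Algebra R K]
    [IsScalarTower R L K] [FiniteDimensional L K] [CharZero L]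

omit [IsDomain R] [IsPrincipalIdealRing R] [IsFractionRing R L] [IsScalarTower R L K]
  [FiniteDimensional L K] [CharZero L] in
theorem ent_leftMul {n : ℕ} (e : Module.Basis (Fin n) L K) (he : ∀ i, IsIntegral R (e i))
    (he' : ∀ x : K, IsIntegral R x → ∀ i, ∃ r : R, e.repr x i = algebraMap R L r)
    (a : K) (ha : IsIntegral R a) : Ent R (Algebra.leftMulMatrix e a) := by
  intro i j
  rw [Algebra.leftMulMatrix_eq_repr_mul]
  obtain ⟨r, hr⟩ := he' (a * e j) (ha.mul (he j)) i
  exact ⟨r, hr.symm⟩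

omit [IsPrincipalIdealRing R] [FiniteDimensional L K] [CharZero L] in
theorem ent_restr {n : ℕ} (δ : Derivation ℤ K K)
    (hδ : ∀ r : R, ∃ s : R, δ (algebraMap R K r) = algebraMap R K s)
    (A : Matrix (Fin n) (Fin n) L) (hA : Ent R A) : Ent R (A.map (restr δ hδ)) := by
  intro i j
  obtain ⟨r, hr⟩ := hA i j
  rw [Matrix.map_apply, ← hr]
  obtain ⟨s, hs⟩ := restr_mem (L := L) δ hδ r
  exact ⟨s, hs.symm⟩

end Main

end ModG

theorem trace_mul_der_mem {R L K : Type*} [CommRing R] [IsDomain R] [IsPrincipalIdealRing R]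
    [Field L] [Field K] [Algebra R L] [IsFractionRing R L] [Algebra L K] [Algebra R K]
    [IsScalarTower R L K] [FiniteDimensional L K] [CharZero L] (δ : Derivation ℤ K K)
    (hδ : ∀ r : R, ∃ s : R, δ (algebraMap R K r) = algebraMap R K s) (a b : K)
    (ha : IsIntegral R a) (hb : IsIntegral R b) :
    ∃ s : R, Algebra.trace L K (a * δ b) = algebraMap R L s := by
  obtain ⟨n, e, he, he'⟩ := ModG.exists_basis R L K
  have hA := ModG.ent_leftMul e he he' a ha
  have hB := ModG.ent_leftMul e he he' b hb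
  have hB' := ModG.ent_restr δ hδ _ hB
  obtain ⟨s, hs⟩ := (hA.mul hB').trace
  refine ⟨s, ?_⟩
  rw [hs, Algebra.trace_eq_matrix_trace e, map_mul, ModG.leftMul_der e δ hδ b, mul_add,
    Matrix.trace_add, add_eq_left]
  have hcomm : Algebra.leftMulMatrix e a * Algebra.leftMulMatrix e b =
      Algebra.leftMulMatrix e b * Algebra.leftMulMatrix e a := by
    rw [← map_mul, ← map_mul, mul_comm]
  rw [mul_sub, Matrix.trace_sub, ← mul_assoc _ (Algebra.leftMulMatrix e b), hcomm,
    ← mul_assoc, Matrix.trace_mul_comm, ← mul_assoc, sub_self]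

set_option linter.unusedVariables false in
theorem trace_mul_der_der_mem {R L K : Type*} [CommRing R] [IsDomain R] [IsPrincipalIdealRing R]
    [Field L] [Field K] [Algebra R L] [IsFractionRing R L] [Algebra L K] [Algebra R K]
    [IsScalarTower R L K] [FiniteDimensional L K] [CharZero L] (h2 : IsUnit (2 : R))
    (δ₁ δ₂ : Derivation ℤ K K)
    (hδ₁ : ∀ r : R, ∃ s : R, δ₁ (algebraMap R K r) = algebraMap R K s)
    (hδ₂ : ∀ r : R, ∃ s : R, δ₂ (algebraMap R K r) = algebraMap R K s) (a b c : K)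
    (ha : IsIntegral R a) (hb : IsIntegral R b) (hc : IsIntegral R c) :
    ∃ s : R, Algebra.trace L K (c * (δ₁ a * δ₂ b - δ₂ a * δ₁ b)) = algebraMap R L s := by
  obtain ⟨n, e, he, he'⟩ := ModG.exists_basis R L K
  set ρ := Algebra.leftMulMatrix e with hρ
  have hA := ModG.ent_leftMul e he he' a ha
  have hB := ModG.ent_leftMul e he he' b hb
  have hC := ModG.ent_leftMul e he he' c hc
  have hA1 := ModG.ent_restr δ₁ hδ₁ _ hA
  have hA2 := ModG.ent_restr δ₂ hδ₂ _ hA
  have hB1 := ModG.ent_restr δ₁ hδ₁ _ hB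
  have hB2 := ModG.ent_restr δ₂ hδ₂ _ hB
  have hC1 := ModG.ent_restr δ₁ hδ₁ _ hC
  have hcomm : ∀ x y : K, ρ x * ρ y = ρ y * ρ x := fun x y => by
    rw [← map_mul, ← map_mul, mul_comm]
  have hcomm' : ∀ (δ : Derivation ℤ K K)
      (hδ : ∀ r : R, ∃ s : R, δ (algebraMap R K r) = algebraMap R K s) (x y : K),
      ((ρ x).map (ModG.restr δ hδ) + (ModG.conn e δ * ρ x - ρ x * ModG.conn e δ)) * ρ y =
        ρ y * ((ρ x).map (ModG.restr δ hδ) + (ModG.conn e δ * ρ x - ρ x * ModG.conn e δ)) := by
    intro δ hδ x y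
    rw [← ModG.leftMul_der e δ hδ x]
    exact hcomm _ _
  set A1 := (ρ a).map (ModG.restr (L := L) δ₁ hδ₁)
  set A2 := (ρ a).map (ModG.restr (L := L) δ₂ hδ₂)
  set B1 := (ρ b).map (ModG.restr (L := L) δ₁ hδ₁)
  set B2 := (ρ b).map (ModG.restr (L := L) δ₂ hδ₂)
  set C1 := (ρ c).map (ModG.restr (L := L) δ₁ hδ₁)
  have hent : ModG.Ent R (ρ c * (A1 * B2) - ρ c * (A2 * B1) + C1 * (ρ a * B2 - B2 * ρ a)) := by
    have h1 := (hC.mul (hA1.mul hB2)).sub (hC.mul (hA2.mul hB1))
    have h3 := hC1.mul ((hA.mul hB2).sub (hB2.mul hA))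
    exact fun i j => Subring.add_mem _ (h1 i j) (h3 i j)
  obtain ⟨s, hs⟩ := hent.trace
  refine ⟨s, ?_⟩
  have htr : ∀ M N : Matrix (Fin n) (Fin n) L,
    Matrix.traceAddMonoidHom (Fin n) L (M * N) = Matrix.traceAddMonoidHom (Fin n) L (N * M) :=
    fun M N => Matrix.trace_mul_comm M N
  have hs1 := ModG.step1 (Matrix.traceAddMonoidHom (Fin n) L) htr (ρ a) (ρ b) (ρ c) A1 B2
    (ModG.conn e δ₁) (ModG.conn e δ₂) (hcomm _ _) (hcomm _ _) (hcomm' δ₁ hδ₁ a b)
    (hcomm' δ₂ hδ₂ b a)
  have hs2 := ModG.step1 (Matrix.traceAddMonoidHom (Fin n) L) htr (ρ a) (ρ b) (ρ c) A2 B1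
    (ModG.conn e δ₂) (ModG.conn e δ₁) (hcomm _ _) (hcomm _ _) (hcomm' δ₂ hδ₂ a b)
    (hcomm' δ₁ hδ₁ b a)
  have hs3 := ModG.step2 (Matrix.traceAddMonoidHom (Fin n) L) htr (ρ a) (ρ b) (ρ c) C1 B2
    (ModG.conn e δ₁) (ModG.conn e δ₂) (hcomm' δ₁ hδ₁ c a) (hcomm' δ₂ hδ₂ b a)
  have hs4 := ModG.step3 (Matrix.traceAddMonoidHom (Fin n) L) htr (ρ a) (ρ b) (ρ c)
    (ModG.conn e δ₁) (ModG.conn e δ₂) (hcomm _ _) (hcomm _ _) (hcomm _ _)
  rw [hs, Algebra.trace_eq_matrix_trace e, map_mul, map_sub, map_mul, map_mul,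
    ModG.leftMul_der e δ₁ hδ₁ a, ModG.leftMul_der e δ₂ hδ₂ a,
    ModG.leftMul_der e δ₁ hδ₁ b, ModG.leftMul_der e δ₂ hδ₂ b, mul_sub]
  simp only [Matrix.traceAddMonoidHom_apply] at hs1 hs2 hs3 hs4
  rw [Matrix.trace_sub, hs1, hs2, Matrix.trace_add, Matrix.trace_sub, hs3, ← hs4]
  ring

end Pool.Agent.H16
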