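import Pool.Agent.H16.Irr.Defs

/-! Module H: regular forms on Dedekind subrings. -/

set_option autoImplicit false

namespace Pool.Agent.H16

open Polynomial KaehlerDifferential

namespace ModH

/-- a valuation ring of `K` dominating the localization at a maximal ideal -/
theorem exists_valuationSubring {K : Type*} [Field K] (A : Subring K) [IsDedekindDomain A]
    [IsFractionRing A K] (m : Ideal A) (hm : m.IsMaximal) :
    ∃ V : ValuationSubring K, (∀ a : A, (a : K) ∈ V) ∧
      ∀ x ∈ V, ∃ n d : A, d ∉ m ∧ x * (d : K) = (n : K) := by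
  by_cases h0 : m = ⊥
  · refine ⟨⊤, fun a => ValuationSubring.mem_top _, fun x _ => ?_⟩
    obtain ⟨n, d, hd, hx⟩ := IsFractionRing.div_surjective (A := A) x
    refine ⟨n, d, ?_, ?_⟩
    · rw [h0]
      simpa using nonZeroDivisors.ne_zero hd
    · have hd0 : (d : K) ≠ 0 := by
        have := nonZeroDivisors.ne_zero hd
        intro h
        exact this (Subtype.ext h)
      rw [← hx]
      change (n : K) / (d : K) * (d : K) = (n : K)
      field_simp
  · let v : IsDedekindDomain.HeightOneSpectrum A := ⟨m, hm.isPrime, h0⟩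
    refine ⟨(v.valuation K).valuationSubring, fun a => ?_, fun x hx => ?_⟩
    · exact v.valuation_le_one (K := K) a
    · obtain ⟨n, d, h⟩ := v.exists_primeCompl_mul_eq_of_integer x hx
      exact ⟨n, d.1, d.2, h⟩

theorem smul_mem {K : Type*} [Field K] [Algebra ℂ K] (A : Subring K) (s : K) (hs : s ∈ A)
    {x : Ω[K⁄ℂ]} (hx : x ∈ FormsOn A) : s • x ∈ FormsOn A := by
  unfold FormsOn at hx ⊢
  induction hx using AddSubmonoid.closure_induction with
  | mem x hx =>
    obtain ⟨a, ha, b, hb, rfl⟩ := hx
    exact AddSubmonoid.subset_closure ⟨s * a, A.mul_mem hs ha, b, hb, by rw [mul_smul]⟩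
  | zero => rw [smul_zero]; exact AddSubmonoid.zero_mem _
  | add x y _ _ hx hy => rw [smul_add]; exact AddSubmonoid.add_mem _ hx hy

theorem gen_mem {K : Type*} [Field K] [Algebra ℂ K] (A : Subring K) (a b : K) (ha : a ∈ A)
    (hb : b ∈ A) : a • D ℂ K b ∈ FormsOn A :=
  AddSubmonoid.subset_closure ⟨a, ha, b, hb, rfl⟩

/-- clearing denominators -/
theorem exists_clear {K : Type*} [Field K] [Algebra ℂ K] (A : Subring K) (m : Ideal A)
    (hm : m.IsPrime) (V : Subring K)
    (hV : ∀ x ∈ V, ∃ n d : A, d ∉ m ∧ x * (d : K) = (n : K))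
    {ω : Ω[K⁄ℂ]} (hω : ω ∈ FormsOn V) : ∃ s : A, s ∉ m ∧ (s : K) • ω ∈ FormsOn A := by
  unfold FormsOn at hω
  induction hω using AddSubmonoid.closure_induction with
  | mem x hx =>
    obtain ⟨a, ha, b, hb, rfl⟩ := hx
    obtain ⟨p, q, hq, hpq⟩ := hV a ha
    obtain ⟨p', q', hq', hpq'⟩ := hV b hb
    refine ⟨q * (q' * q'), fun h => ?_, ?_⟩
    · rcases hm.mem_or_mem h with h | h
      · exact hq h
      · rcases hm.mem_or_mem h with h | h <;> exact hq' h
    · -- q' D b = D p' - b D q'
      have hD : (q' : K) • D ℂ K b = D ℂ K (p' : K) - b • D ℂ K (q' : K) := by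
        rw [← hpq', (D ℂ K).leibniz]
        abel
      have e : ((q * (q' * q') : A) : K) • a • D ℂ K b
          = ((p : K) * (q' : K)) • D ℂ K (p' : K) + (-((p : K) * (p' : K))) • D ℂ K (q' : K) := by
        have e1 : ((q * (q' * q') : A) : K) • a • D ℂ K b
            = ((a * (q : K)) * (q' : K)) • ((q' : K) • D ℂ K b) := by
          rw [smul_smul, smul_smul]
          congr 1
          push_cast
          ring
        rw [e1, hD, smul_sub, smul_smul, hpq]
        rw [sub_eq_add_neg, ← neg_smul]
        congr 3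
        rw [← hpq']
        ring
      rw [e]
      exact AddSubmonoid.add_mem _
        (gen_mem A _ _ (A.mul_mem p.2 q'.2) p'.2)
        (gen_mem A _ _ (A.neg_mem (A.mul_mem p.2 p'.2)) q'.2)
  | zero =>
    refine ⟨1, fun h => hm.ne_top ((Ideal.eq_top_iff_one _).2 h), ?_⟩
    rw [smul_zero]; exact AddSubmonoid.zero_mem _
  | add x y _ _ hx hy =>
    obtain ⟨s, hs, hs'⟩ := hx
    obtain ⟨s', hs1, hs1'⟩ := hy
    refine ⟨s * s', fun h => ?_, ?_⟩
    · rcases hm.mem_or_mem h with h | h
      · exact hs h
      · exact hs1 h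
    · rw [smul_add]
      refine AddSubmonoid.add_mem _ ?_ ?_
      · have e : ((s * s' : A) : K) • x = (s' : K) • (s : K) • x := by
          rw [smul_smul]; congr 1; push_cast; ring
        rw [e]
        exact smul_mem A _ s'.2 hs'
      · have e : ((s * s' : A) : K) • y = (s : K) • (s' : K) • y := by
          rw [smul_smul]; congr 1
        rw [e]
        exact smul_mem A _ s.2 hs1'

end ModH

/-! ### Module H (regular forms on Dedekind subrings) -/

theorem regular_mem_formsOn {K : Type*} [Field K] [Algebra ℂ K] (A : Subring K)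
    (hC : ∀ c : ℂ, algebraMap ℂ K c ∈ A) [IsDedekindDomain A] [IsFractionRing A K]
    (ω : Ω[K⁄ℂ]) (hω : Regular ω) : ω ∈ FormsOn A := by
  let I : Ideal A :=
    { carrier := {s : A | (s : K) • ω ∈ FormsOn A}
      add_mem' := by
        intro a b ha hb
        change ((a + b : A) : K) • ω ∈ FormsOn A
        push_cast
        rw [add_smul]
        exact AddSubmonoid.add_mem _ ha hb
      zero_mem' := by
        change ((0 : A) : K) • ω ∈ FormsOn A
        push_cast
        rw [zero_smul]
        exact AddSubmonoid.zero_mem _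
      smul_mem' := by
        intro c x hx
        change ((c * x : A) : K) • ω ∈ FormsOn A
        push_cast
        rw [mul_smul]
        exact ModH.smul_mem A _ c.2 hx }
  by_cases hI : I = ⊤
  · have h1 : (1 : A) ∈ I := by rw [hI]; trivial
    have h2 : ((1 : A) : K) • ω ∈ FormsOn A := h1
    simpa using h2
  · exfalso
    obtain ⟨m, hm, hIm⟩ := Ideal.exists_le_maximal I hI
    obtain ⟨V, hV1, hV2⟩ := ModH.exists_valuationSubring (K := K) A m hm
    have h1 := hω V (fun c => hV1 ⟨_, hC c⟩)
    obtain ⟨s, hs, hs'⟩ := ModH.exists_clear A m hm.isPrime V.toSubring hV2 h1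
    exact hs (hIm hs')

end Pool.Agent.H16
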