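import Pool.Agent.H16.Irr.Defs
import Pool.Agent.H16.Irr.ModG
import Pool.Agent.H16.Irr.ModH

/-! Module I: traces of regular forms to `ℂ(u, v)` vanish. -/

set_option autoImplicit false

namespace Pool.Agent.H16

open Polynomial KaehlerDifferential

namespace ModI

open TensorProduct in
/-- extension of derivations along a formally étale map -/
theorem exists_derivation_of_etale {S K : Type*} [CommRing S] [Field K] [Algebra ℂ S]
    [Algebra ℂ K] [Algebra S K] [IsScalarTower ℂ S K] [Algebra.FormallyEtale S K]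
    (d : Derivation ℂ S K) : ∃ δ : Derivation ℂ K K, ∀ s, δ (algebraMap S K s) = d s := by
  let e := tensorKaehlerEquivOfFormallyEtale ℂ S K
  let g : K ⊗[S] Ω[S⁄ℂ] →ₗ[K] K := d.liftKaehlerDifferential.liftBaseChange K
  refine ⟨(g.comp e.symm.toLinearMap).compDer (D ℂ K), fun s => ?_⟩
  have h1 : e.symm (D ℂ K (algebraMap S K s)) = 1 ⊗ₜ D ℂ S s :=
    tensorKaehlerEquivOfFormallyEtale_symm_D_algebraMap ℂ S K s
  have h2 : ((g.comp e.symm.toLinearMap).compDer (D ℂ K)) (algebraMap S K s) =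
      g (e.symm (D ℂ K (algebraMap S K s))) := rfl
  rw [h2, h1]
  simp only [g, LinearMap.liftBaseChange_tmul, one_smul]
  exact d.liftKaehlerDifferential_comp_D s

open scoped IntermediateField.algebraAdjoinAdjoin in
/-- extension of derivations from `Algebra.adjoin` of algebraically independent elements -/
theorem exists_derivation {K : Type*} [Field K] [Algebra ℂ K] {n : ℕ} (x : Fin n → K)
    (hx : AlgebraicIndependent ℂ x)
    (hfin : FiniteDimensional (IntermediateField.adjoin ℂ (Set.range x)) K) (f : Fin n → K) :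
    ∃ δ : Derivation ℂ K K, ∀ i, δ (x i) = f i := by
  classical
  have : CharZero K := charZero_of_injective_algebraMap (algebraMap ℂ K).injective
  have e1 : Algebra.FormallyEtale (Algebra.adjoin ℂ (Set.range x))
      (IntermediateField.adjoin ℂ (Set.range x)) :=
    Algebra.FormallyEtale.of_isLocalization
      (nonZeroDivisors (Algebra.adjoin ℂ (Set.range x)))
  have e2 : Algebra.FormallyEtale (IntermediateField.adjoin ℂ (Set.range x)) K :=
    Algebra.FormallyEtale.of_isSeparable _ K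
  have e3 : Algebra.FormallyEtale (Algebra.adjoin ℂ (Set.range x)) K :=
    Algebra.FormallyEtale.comp _ (IntermediateField.adjoin ℂ (Set.range x)) _
  let : Algebra (MvPolynomial (Fin n) ℂ) (Algebra.adjoin ℂ (Set.range x)) :=
    hx.aevalEquiv.toRingHom.toAlgebra
  let : Algebra (MvPolynomial (Fin n) ℂ) K := (MvPolynomial.aeval x).toRingHom.toAlgebra
  have t1 : IsScalarTower (MvPolynomial (Fin n) ℂ) (Algebra.adjoin ℂ (Set.range x)) K :=
    IsScalarTower.of_algebraMap_eq' rfl
  have t2 : IsScalarTower ℂ (MvPolynomial (Fin n) ℂ) K :=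
    IsScalarTower.of_algebraMap_eq' (by
      ext c
      change algebraMap ℂ K c = MvPolynomial.aeval x (MvPolynomial.C c)
      simp)
  have e4 : Algebra.FormallyEtale (MvPolynomial (Fin n) ℂ) (Algebra.adjoin ℂ (Set.range x)) :=
    Algebra.FormallyEtale.of_equiv (R := MvPolynomial (Fin n) ℂ) (A := MvPolynomial (Fin n) ℂ)
      (AlgEquiv.ofRingEquiv (f := hx.aevalEquiv.toRingEquiv) (fun r => rfl))
  have e5 : Algebra.FormallyEtale (MvPolynomial (Fin n) ℂ) K :=
    Algebra.FormallyEtale.comp _ (Algebra.adjoin ℂ (Set.range x)) _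
  obtain ⟨δ, hδ⟩ := exists_derivation_of_etale (S := MvPolynomial (Fin n) ℂ) (K := K)
    (MvPolynomial.mkDerivation ℂ f)
  refine ⟨δ, fun i => ?_⟩
  have := hδ (MvPolynomial.X i)
  rw [MvPolynomial.mkDerivation_X] at this
  rw [← this]
  congr 1
  change x i = MvPolynomial.aeval x (MvPolynomial.X i)
  simp

theorem range_pair {K : Type*} (u v : K) : Set.range ![u, v] = {u, v} := by
  ext z
  simp [eq_comm, or_comm]

end ModI

theorem exists_derivations {K : Type*} [Field K] [Algebra ℂ K] (u v : K)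
    (huv : AlgebraicIndependent ℂ ![u, v]) (L : IntermediateField ℂ K)
    (hL : L = IntermediateField.adjoin ℂ {u, v}) [FiniteDimensional L K] :
    ∃ δ₁ δ₂ : Derivation ℂ K K, δ₁ u = 1 ∧ δ₁ v = 0 ∧ δ₂ u = 0 ∧ δ₂ v = 1 := by
  have hL' : L = IntermediateField.adjoin ℂ (Set.range ![u, v]) := by
    rw [hL, ModI.range_pair]
  subst hL'
  obtain ⟨δ₁, h₁⟩ := ModI.exists_derivation ![u, v] huv inferInstance ![1, 0]
  obtain ⟨δ₂, h₂⟩ := ModI.exists_derivation ![u, v] huv inferInstance ![0, 1]
  exact ⟨δ₁, δ₂, by simpa using h₁ 0, by simpa using h₁ 1, by simpa using h₂ 0,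
    by simpa using h₂ 1⟩

theorem derivation_eq_of_eqOn {K : Type*} [Field K] [Algebra ℂ K] (L : IntermediateField ℂ K)
    [FiniteDimensional L K] (D₁ D₂ : Derivation ℂ K K) (h : ∀ x ∈ L, D₁ x = D₂ x) : D₁ = D₂ := by
  have : CharZero K := charZero_of_injective_algebraMap (algebraMap ℂ K).injective
  let E : Derivation L K K :=
    Derivation.mk'
      { toFun := fun x => D₁ x - D₂ x
        map_add' := fun x y => by simp only [map_add]; ring
        map_smul' := fun l x => by
          simp only [RingHom.id_apply, Algebra.smul_def, Derivation.leibniz]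
          have := h l l.2
          change (l : K) * D₁ x + x * D₁ (l : K) - ((l : K) * D₂ x + x * D₂ (l : K)) =
            (l : K) * (D₁ x - D₂ x)
          rw [this]; ring }
      (fun a b => by
        simp only [LinearMap.coe_mk, AddHom.coe_mk, Derivation.leibniz, smul_eq_mul]
        ring)
  have h0 : ∀ x, E x = 0 := by
    intro x
    have hx : IsIntegral L x := IsIntegral.of_finite L x
    have h1 := E.map_aeval (minpoly L x) x
    rw [minpoly.aeval, map_zero] at h1
    have h2 : aeval x (derivative (minpoly L x)) ≠ 0 :=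
      (Algebra.IsSeparable.isSeparable L x).aeval_derivative_ne_zero (minpoly.aeval L x)
    rw [smul_eq_mul] at h1
    exact (mul_eq_zero.mp h1.symm).resolve_left h2
  ext x
  exact sub_eq_zero.mp (h0 x)


namespace ModI

/-- the ring map `k[X] → L` sending `X` to `s` -/
noncomputable def ev {K : Type*} [Field K] [Algebra ℂ K] (k L : IntermediateField ℂ K) (s : K)
    (hkL : k ≤ L) (hsL : s ∈ L) : k[X] →+* L :=
  eval₂RingHom (IntermediateField.inclusion hkL).toRingHom ⟨s, hsL⟩

theorem ev_coe {K : Type*} [Field K] [Algebra ℂ K] (k L : IntermediateField ℂ K) (s : K)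
    (hkL : k ≤ L) (hsL : s ∈ L) (p : k[X]) : ((ev k L s hkL hsL p : L) : K) = aeval s p := by
  have h : (algebraMap L K).comp (ev k L s hkL hsL) = (aeval s : k[X] →ₐ[k] K).toRingHom := by
    apply Polynomial.ringHom_ext
    · intro a
      simp [ev]
    · simp [ev]
  exact congrArg (fun f => f p) h

theorem setup {K : Type*} [Field K] [Algebra ℂ K] (k L : IntermediateField ℂ K)
    [FiniteDimensional L K] (s : K) (hkL : k ≤ L) (hsL : s ∈ L) (hs : Transcendental k s)
    (hgen : ∀ z ∈ L, ∃ p q : k[X], z = aeval s p / aeval s q) :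
    ∃ A : Subring K, (∀ ω : Ω[K⁄ℂ], Regular ω → ω ∈ FormsOn A) ∧
      (∀ δ : Derivation ℤ K K, (∀ p : k[X], ∃ q : k[X], δ (aeval s p) = aeval s q) →
        ∀ a ∈ A, ∀ b ∈ A, ∃ q : k[X], Algebra.trace L K (a * δ b) = ev k L s hkL hsL q) ∧
      (∀ δ₁ δ₂ : Derivation ℤ K K, (∀ p : k[X], ∃ q : k[X], δ₁ (aeval s p) = aeval s q) →
        (∀ p : k[X], ∃ q : k[X], δ₂ (aeval s p) = aeval s q) →
        ∀ a ∈ A, ∀ b ∈ A, ∀ c ∈ A, ∃ q : k[X],
          Algebra.trace L K (c * (δ₁ a * δ₂ b - δ₂ a * δ₁ b)) = ev k L s hkL hsL q) := by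
  classical
  have hchar : CharZero K := charZero_of_injective_algebraMap (algebraMap ℂ K).injective
  let i1 : Algebra k[X] L := (ev k L s hkL hsL).toAlgebra
  let i2 : Algebra k[X] K := (aeval s : k[X] →ₐ[k] K).toRingHom.toAlgebra
  have i3 : IsScalarTower k[X] L K := IsScalarTower.of_algebraMap_eq (fun p =>
    (ev_coe k L s hkL hsL p).symm)
  have hinjK : Function.Injective (algebraMap k[X] K) :=
    transcendental_iff_injective.mp hs
  have hinjL : Function.Injective (algebraMap k[X] L) := by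
    intro p q hpq
    apply hinjK
    rw [IsScalarTower.algebraMap_apply k[X] L K, IsScalarTower.algebraMap_apply k[X] L K, hpq]
  have i4 : FaithfulSMul k[X] L := (faithfulSMul_iff_algebraMap_injective _ _).mpr hinjL
  have i5 : IsFractionRing k[X] L := by
    apply IsFractionRing.of_field
    rintro ⟨z, hz⟩
    obtain ⟨p, q, h⟩ := hgen z hz
    refine ⟨p, q, Subtype.ext ?_⟩
    rw [IntermediateField.coe_div]
    change z = ((ev k L s hkL hsL p : L) : K) / ((ev k L s hkL hsL q : L) : K)
    rw [ev_coe, ev_coe, h]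
  have i6 : IsDedekindDomain (integralClosure k[X] K) :=
    integralClosure.isDedekindDomain k[X] L K
  have i7 : IsFractionRing (integralClosure k[X] K) K :=
    integralClosure.isFractionRing_of_finite_extension L K
  refine ⟨(integralClosure k[X] K).toSubring, fun ω hω => ?_, fun δ hδ a ha b hb => ?_,
    fun δ₁ δ₂ h₁ h₂ a ha b hb c hc => ?_⟩
  · have i6' : IsDedekindDomain (integralClosure k[X] K).toSubring := i6
    have i7' : IsFractionRing (integralClosure k[X] K).toSubring K := i7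
    refine regular_mem_formsOn _ (fun c => ?_) ω hω
    change algebraMap ℂ K c ∈ integralClosure k[X] K
    have : algebraMap ℂ K c = algebraMap k[X] K (C (algebraMap ℂ k c)) := by
      change _ = aeval s (C (algebraMap ℂ k c))
      rw [aeval_C]
      rfl
    rw [this]
    exact Subalgebra.algebraMap_mem _ _
  · exact trace_mul_der_mem (R := k[X]) (L := L) (K := K) δ hδ a b ha hb
  · refine trace_mul_der_der_mem (R := k[X]) (L := L) (K := K) ?_ δ₁ δ₂ h₁ h₂ a b c ha hb hc
    have h2 : (2 : k[X]) = C (2 : k) := (map_ofNat (C : k →+* k[X]) 2).symm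
    rw [h2]
    exact Polynomial.isUnit_C.mpr (IsUnit.mk0 _ (by norm_num))

theorem der_poly {K : Type*} [Field K] [Algebra ℂ K] (k : IntermediateField ℂ K) (s : K)
    (δ : Derivation ℤ K K) (hk : ∀ x ∈ k, δ x ∈ k) (hs : ∃ q : k[X], δ s = aeval s q)
    (p : k[X]) : ∃ q : k[X], δ (aeval s p) = aeval s q := by
  obtain ⟨r, hr⟩ := hs
  induction p using Polynomial.induction_on' with
  | add p q hp hq =>
    obtain ⟨p', hp'⟩ := hp
    obtain ⟨q', hq'⟩ := hq
    exact ⟨p' + q', by rw [map_add, map_add, map_add, hp', hq']⟩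
  | monomial n a =>
    refine ⟨C ⟨δ a, hk a a.2⟩ * X ^ n + C a * (n : k[X]) * X ^ (n - 1) * r, ?_⟩
    rw [aeval_monomial]
    simp only [Derivation.leibniz, Derivation.leibniz_pow, smul_eq_mul, map_add, map_mul, aeval_C,
      map_pow, aeval_X, map_natCast, ← hr, nsmul_eq_mul]
    change (a : K) * (n * (s ^ (n - 1) * δ s)) + s ^ n * δ (a : K) =
      (δ (a : K)) * s ^ n + (a : K) * n * s ^ (n - 1) * δ s
    ring

/-- a polynomial in `s` that is `s⁻²` times a polynomial in `s⁻¹` vanishes -/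
theorem poly_eq_zero {k K : Type*} [Field k] [Field K] [Algebra k K] (s : K)
    (hs : Transcendental k s) (f g : k[X]) (h : s ^ 2 * aeval s f = aeval s⁻¹ g) : f = 0 := by
  have hs0 : s ≠ 0 := by
    rintro rfl
    exact hs isAlgebraic_zero
  have hinj : Function.Injective (aeval s : k[X] →ₐ[k] K) := transcendental_iff_injective.mp hs
  have h1 : s ^ g.natDegree * aeval s⁻¹ g = aeval s g.reverse := by
    let : Invertible s⁻¹ := invertibleOfNonzero (inv_ne_zero hs0)
    have h := eval₂_reverse_mul_pow (algebraMap k K) s⁻¹ g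
    rw [invOf_eq_inv, inv_inv] at h
    rw [aeval_def, aeval_def, ← h, mul_comm, mul_assoc, ← mul_pow, inv_mul_cancel₀ hs0, one_pow,
      mul_one]
  have h2 : X ^ (g.natDegree + 2) * f = g.reverse := by
    apply hinj
    rw [map_mul, map_pow, aeval_X, ← h1, ← h]
    ring
  by_contra hf
  have h3 : (X ^ (g.natDegree + 2) * f).natDegree = g.natDegree + 2 + f.natDegree := by
    rw [natDegree_mul (pow_ne_zero _ X_ne_zero) hf, natDegree_X_pow]
  have h4 := reverse_natDegree_le g
  rw [h2] at h3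
  omega

theorem one_mem_range {K : Type*} [Field K] [Algebra ℂ K] (k L : IntermediateField ℂ K)
    [FiniteDimensional L K] (s : K) (hkL : k ≤ L) (hsL : s ∈ L) (hs : Transcendental k s)
    (hgen : ∀ z ∈ L, ∃ p q : k[X], z = aeval s p / aeval s q)
    (c : K) (δ : Derivation ℂ K K) (hk : ∀ x ∈ k, c * δ x ∈ k)
    (hs' : ∃ q : k[X], c * δ s = aeval s q) (ω : Ω[K⁄ℂ]) (hω : Regular ω) :
    ∃ q : k[X], ((Algebra.trace L K (c * δ.liftKaehlerDifferential ω) : L) : K) = aeval s q := by
  obtain ⟨A, hA, h1, -⟩ := setup k L s hkL hsL hs hgen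
  let δ' : Derivation ℤ K K := c • δ.restrictScalars ℤ
  have hδ' : ∀ x, δ' x = c * δ x := fun x => rfl
  have hpoly : ∀ p : k[X], ∃ q : k[X], δ' (aeval s p) = aeval s q :=
    der_poly k s δ' hk hs'
  suffices h : ∀ ω ∈ FormsOn A, ∃ q : k[X],
      Algebra.trace L K (c * δ.liftKaehlerDifferential ω) = ev k L s hkL hsL q by
    obtain ⟨q, hq⟩ := h ω (hA ω hω)
    exact ⟨q, by rw [hq, ev_coe]⟩
  intro ω hω
  unfold FormsOn at hω
  induction hω using AddSubmonoid.closure_induction with
  | mem x hx =>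
    obtain ⟨a, ha, b, hb, rfl⟩ := hx
    obtain ⟨q, hq⟩ := h1 δ' hpoly a ha b hb
    refine ⟨q, ?_⟩
    rw [← hq, hδ', map_smul, Derivation.liftKaehlerDifferential_comp_D, smul_eq_mul]
    congr 1
    ring
  | zero => exact ⟨0, by rw [map_zero, mul_zero, map_zero, map_zero]⟩
  | add x y _ _ hx hy =>
    obtain ⟨p, hp⟩ := hx
    obtain ⟨q, hq⟩ := hy
    exact ⟨p + q, by rw [map_add, mul_add, map_add, hp, hq, map_add]⟩

theorem two_mem_range {K : Type*} [Field K] [Algebra ℂ K] (k L : IntermediateField ℂ K)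
    [FiniteDimensional L K] (s : K) (hkL : k ≤ L) (hsL : s ∈ L) (hs : Transcendental k s)
    (hgen : ∀ z ∈ L, ∃ p q : k[X], z = aeval s p / aeval s q)
    (c : K) (δ₁ δ₂ : Derivation ℂ K K) (hk : ∀ x ∈ k, c * δ₁ x ∈ k)
    (hs' : ∃ q : k[X], c * δ₁ s = aeval s q) (hk₂ : ∀ x ∈ k, δ₂ x ∈ k)
    (hs₂ : ∃ q : k[X], δ₂ s = aeval s q) (θ ω : Ω[K⁄ℂ]) (hθ : Regular θ) (hω : Regular ω) :
    ∃ q : k[X], ((Algebra.trace L K (c * (δ₁.liftKaehlerDifferential θ *
      δ₂.liftKaehlerDifferential ω - δ₂.liftKaehlerDifferential θ *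
      δ₁.liftKaehlerDifferential ω)) : L) : K) = aeval s q := by
  obtain ⟨A, hA, -, h1⟩ := setup k L s hkL hsL hs hgen
  let δ' : Derivation ℤ K K := c • δ₁.restrictScalars ℤ
  have hδ' : ∀ x, δ' x = c * δ₁ x := fun x => rfl
  let δ'' : Derivation ℤ K K := δ₂.restrictScalars ℤ
  have hδ'' : ∀ x, δ'' x = δ₂ x := fun x => rfl
  have hpoly : ∀ p : k[X], ∃ q : k[X], δ' (aeval s p) = aeval s q :=
    der_poly k s δ' hk hs'
  have hpoly' : ∀ p : k[X], ∃ q : k[X], δ'' (aeval s p) = aeval s q :=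
    der_poly k s δ'' hk₂ hs₂
  suffices h : ∀ θ ∈ FormsOn A, ∀ ω ∈ FormsOn A, ∃ q : k[X],
      Algebra.trace L K (c * (δ₁.liftKaehlerDifferential θ *
      δ₂.liftKaehlerDifferential ω - δ₂.liftKaehlerDifferential θ *
      δ₁.liftKaehlerDifferential ω)) = ev k L s hkL hsL q by
    obtain ⟨q, hq⟩ := h θ (hA θ hθ) ω (hA ω hω)
    exact ⟨q, by rw [hq, ev_coe]⟩
  intro θ hθ
  unfold FormsOn at hθ
  induction hθ using AddSubmonoid.closure_induction with
  | mem x hx =>
    obtain ⟨a, ha, b, hb, rfl⟩ := hx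
    intro ω hω
    unfold FormsOn at hω
    induction hω using AddSubmonoid.closure_induction with
    | mem x hx =>
      obtain ⟨a', ha', b', hb', rfl⟩ := hx
      obtain ⟨q, hq⟩ := h1 δ' δ'' hpoly hpoly' b hb b' hb' (a * a') (A.mul_mem ha ha')
      refine ⟨q, ?_⟩
      rw [← hq]
      simp only [hδ', hδ'', map_smul, Derivation.liftKaehlerDifferential_comp_D, smul_eq_mul]
      congr 1
      ring
    | zero => exact ⟨0, by simp only [map_zero, mul_zero, sub_zero]⟩
    | add x y _ _ hx hy =>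
      obtain ⟨p, hp⟩ := hx
      obtain ⟨q, hq⟩ := hy
      refine ⟨p + q, ?_⟩
      rw [map_add (ev k L s hkL hsL), ← hp, ← hq, ← map_add]
      congr 1
      simp only [map_add]
      ring
  | zero => intro ω hω; exact ⟨0, by simp only [map_zero, zero_mul, mul_zero, sub_zero]⟩
  | add x y _ _ hx hy =>
    intro ω hω
    obtain ⟨p, hp⟩ := hx ω hω
    obtain ⟨q, hq⟩ := hy ω hω
    refine ⟨p + q, ?_⟩
    rw [map_add (ev k L s hkL hsL), ← hp, ← hq, ← map_add]
    congr 1
    simp only [map_add]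
    ring

theorem transcendental_inv {k K : Type*} [Field k] [Field K] [Algebra k K] {s : K}
    (hs : Transcendental k s) : Transcendental k s⁻¹ := by
  intro h
  exact hs (by simpa using h.inv)

theorem mem_range_div {K : Type*} [Field K] [Algebra ℂ K] (u v s : K)
    (hs : IntermediateField.adjoin (IntermediateField.adjoin ℂ {v}) {s} =
      IntermediateField.adjoin (IntermediateField.adjoin ℂ {v}) {u}) :
    ∀ z ∈ IntermediateField.adjoin ℂ {u, v},
      ∃ p q : (IntermediateField.adjoin ℂ {v})[X], z = aeval s p / aeval s q := by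
  intro z hz
  rw [← IntermediateField.mem_adjoin_simple_iff, hs]
  have h := IntermediateField.adjoin_adjoin_left ℂ ({v} : Set K) ({u} : Set K)
  have h2 : ({v} ∪ {u} : Set K) = {u, v} := by
    ext x; simp
  rw [h2] at h
  rw [← h] at hz
  exact hz

theorem adjoin_inv {k K : Type*} [Field k] [Field K] [Algebra k K] (s : K) :
    IntermediateField.adjoin k {s⁻¹} = IntermediateField.adjoin k {s} := by
  apply le_antisymm
  · rw [IntermediateField.adjoin_simple_le_iff]
    exact inv_mem (IntermediateField.mem_adjoin_simple_self k s)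
  · rw [IntermediateField.adjoin_simple_le_iff]
    have := inv_mem (IntermediateField.mem_adjoin_simple_self k s⁻¹)
    rwa [inv_inv] at this

theorem transcendental_of_indep {K : Type*} [Field K] [Algebra ℂ K] (u v : K)
    (huv : AlgebraicIndependent ℂ ![u, v]) :
    Transcendental (IntermediateField.adjoin ℂ {v}) u := by
  rw [IntermediateField.transcendental_adjoin_iff]
  have h := huv.transcendental_adjoin (s := {1}) (i := 0) (by simp)
  have h2 : (![u, v] '' {1} : Set K) = {v} := by simp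
  rw [h2] at h
  simpa using h

/-- a derivation maps `ℂ(v)` to itself if it maps `v` to it -/
theorem der_adjoin {K : Type*} [Field K] [Algebra ℂ K] (v : K) (δ : Derivation ℂ K K)
    (hv : δ v ∈ IntermediateField.adjoin ℂ {v}) :
    ∀ x ∈ IntermediateField.adjoin ℂ {v}, δ x ∈ IntermediateField.adjoin ℂ {v} := by
  intro x hx
  induction hx using IntermediateField.adjoin_induction with
  | mem x hx => rw [Set.mem_singleton_iff] at hx; rw [hx]; exact hv
  | algebraMap c => rw [Derivation.map_algebraMap]; exact zero_mem _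
  | add x y _ _ hx hy => rw [map_add]; exact add_mem hx hy
  | inv x hx' hx =>
    rw [Derivation.leibniz_inv]
    exact mul_mem (neg_mem (pow_mem (inv_mem hx') _)) hx
  | mul x y hx' hy' hx hy =>
    rw [Derivation.leibniz]
    exact add_mem (mul_mem hx' hy) (mul_mem hy' hx)

theorem der_adjoin_zero {K : Type*} [Field K] [Algebra ℂ K] (v : K) (δ : Derivation ℂ K K)
    (hv : δ v = 0) : ∀ x ∈ IntermediateField.adjoin ℂ {v}, δ x = 0 := by
  intro x hx
  induction hx using IntermediateField.adjoin_induction with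
  | mem x hx => rw [Set.mem_singleton_iff] at hx; rw [hx]; exact hv
  | algebraMap c => rw [Derivation.map_algebraMap]
  | add x y _ _ hx hy => rw [map_add, hx, hy, add_zero]
  | inv x hx' hx => rw [Derivation.leibniz_inv, hx, smul_zero]
  | mul x y hx' hy' hx hy => rw [Derivation.leibniz, hx, hy, smul_zero, smul_zero, add_zero]

end ModI

theorem trace_form_one {K : Type*} [Field K] [Algebra ℂ K] (u v : K)
    (huv : AlgebraicIndependent ℂ ![u, v]) (L : IntermediateField ℂ K)
    (hL : L = IntermediateField.adjoin ℂ {u, v}) [FiniteDimensional L K]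
    (δ : Derivation ℂ K K) (hu : δ u = 1) (hv : δ v = 0) (ω : Ω[K⁄ℂ]) (hω : Regular ω) :
    Algebra.trace L K (δ.liftKaehlerDifferential ω) = 0 := by
  have hu0 : u ≠ 0 := by
    rintro rfl
    rw [map_zero] at hu
    exact zero_ne_one hu
  have hkL : IntermediateField.adjoin ℂ {v} ≤ L := by
    rw [hL]; exact IntermediateField.adjoin.mono ℂ _ _ (by simp)
  have huL : u ∈ L := by
    rw [hL]; exact IntermediateField.subset_adjoin ℂ _ (by simp)
  have ht := ModI.transcendental_of_indep u v huv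
  have hz := ModI.der_adjoin_zero v δ hv
  obtain ⟨f, hf⟩ := ModI.one_mem_range (IntermediateField.adjoin ℂ {v}) L u hkL huL ht
    (hL ▸ ModI.mem_range_div u v u rfl) 1 δ (fun x hx => by
      rw [hz x hx, mul_zero]; exact zero_mem _) ⟨1, by rw [hu, map_one, mul_one]⟩ ω hω
  obtain ⟨g, hg⟩ := ModI.one_mem_range (IntermediateField.adjoin ℂ {v}) L u⁻¹ hkL (inv_mem huL)
    (ModI.transcendental_inv ht)
    (hL ▸ ModI.mem_range_div u v u⁻¹ (ModI.adjoin_inv u)) (-u ^ 2) δ (fun x hx => by
      rw [hz x hx, mul_zero]; exact zero_mem _)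
      ⟨1, by rw [Derivation.leibniz_inv, hu, map_one, smul_eq_mul]; field_simp⟩ ω hω
  rw [one_mul] at hf
  have h1 : Algebra.trace L K (-u ^ 2 * δ.liftKaehlerDifferential ω) =
      (-(⟨u, huL⟩ : L) ^ 2) * Algebra.trace L K (δ.liftKaehlerDifferential ω) := by
    rw [← smul_eq_mul (a := -(⟨u, huL⟩ : L) ^ 2), ← map_smul]
    rfl
  rw [h1] at hg
  have h2 : u ^ 2 * aeval u f = aeval u⁻¹ (-g) := by
    rw [map_neg, ← hg, ← hf]
    push_cast
    ring
  have h3 := ModI.poly_eq_zero u ht f (-g) h2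
  rw [h3, map_zero] at hf
  exact_mod_cast hf

theorem trace_form_two {K : Type*} [Field K] [Algebra ℂ K] (u v : K)
    (huv : AlgebraicIndependent ℂ ![u, v]) (L : IntermediateField ℂ K)
    (hL : L = IntermediateField.adjoin ℂ {u, v}) [FiniteDimensional L K]
    (δ₁ δ₂ : Derivation ℂ K K) (hu₁ : δ₁ u = 1) (hv₁ : δ₁ v = 0) (hu₂ : δ₂ u = 0) (hv₂ : δ₂ v = 1)
    (θ ω : Ω[K⁄ℂ]) (hθ : Regular θ) (hω : Regular ω) :
    Algebra.trace L K (δ₁.liftKaehlerDifferential θ * δ₂.liftKaehlerDifferential ω -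
      δ₂.liftKaehlerDifferential θ * δ₁.liftKaehlerDifferential ω) = 0 := by
  have hu0 : u ≠ 0 := by
    rintro rfl
    rw [map_zero] at hu₁
    exact zero_ne_one hu₁
  have hkL : IntermediateField.adjoin ℂ {v} ≤ L := by
    rw [hL]; exact IntermediateField.adjoin.mono ℂ _ _ (by simp)
  have huL : u ∈ L := by
    rw [hL]; exact IntermediateField.subset_adjoin ℂ _ (by simp)
  have ht := ModI.transcendental_of_indep u v huv
  have hz := ModI.der_adjoin_zero v δ₁ hv₁
  have hz₂ := ModI.der_adjoin v δ₂ (by rw [hv₂]; exact one_mem _)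
  obtain ⟨f, hf⟩ := ModI.two_mem_range (IntermediateField.adjoin ℂ {v}) L u hkL huL ht
    (hL ▸ ModI.mem_range_div u v u rfl) 1 δ₁ δ₂ (fun x hx => by
      rw [hz x hx, mul_zero]; exact zero_mem _) ⟨1, by rw [hu₁, map_one, mul_one]⟩ hz₂
      ⟨0, by rw [hu₂, map_zero]⟩ θ ω hθ hω
  obtain ⟨g, hg⟩ := ModI.two_mem_range (IntermediateField.adjoin ℂ {v}) L u⁻¹ hkL (inv_mem huL)
    (ModI.transcendental_inv ht)
    (hL ▸ ModI.mem_range_div u v u⁻¹ (ModI.adjoin_inv u)) (-u ^ 2) δ₁ δ₂ (fun x hx => by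
      rw [hz x hx, mul_zero]; exact zero_mem _)
      ⟨1, by rw [Derivation.leibniz_inv, hu₁, map_one, smul_eq_mul]; field_simp⟩ hz₂
      ⟨0, by rw [Derivation.leibniz_inv, hu₂, smul_zero, map_zero]⟩ θ ω hθ hω
  rw [one_mul] at hf
  set T := δ₁.liftKaehlerDifferential θ * δ₂.liftKaehlerDifferential ω -
      δ₂.liftKaehlerDifferential θ * δ₁.liftKaehlerDifferential ω with hT
  have h1 : Algebra.trace L K (-u ^ 2 * T) =
      (-(⟨u, huL⟩ : L) ^ 2) * Algebra.trace L K T := by
    rw [← smul_eq_mul (a := -(⟨u, huL⟩ : L) ^ 2), ← map_smul]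
    rfl
  rw [h1] at hg
  have h2 : u ^ 2 * aeval u f = aeval u⁻¹ (-g) := by
    rw [map_neg, ← hg, ← hf]
    push_cast
    ring
  have h3 := ModI.poly_eq_zero u ht f (-g) h2
  rw [h3, map_zero] at hf
  exact_mod_cast hf

end Pool.Agent.H16
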