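import Pool.Agent.H16.Irr.Defs

/-!
# Smooth families of surfaces and the degree of irrationality of their fibres
-/

open AlgebraicGeometry CategoryTheory CategoryTheory.Limits

namespace Pool.Agent.H16

/-- Projective `n`-space over `ℤ`. -/
noncomputable def PP (n : ℕ) : Scheme.{0} :=
  letI := MvPolynomial.gradedAlgebra (σ := Fin (n + 1)) (R := ℤ)
  Proj (MvPolynomial.homogeneousSubmodule (Fin (n + 1)) ℤ)

/-- `f : X ⟶ T` is projective: it is the composite of a closed immersion `X ⟶ T × ℙⁿ` and the
projection to `T`. -/
def IsProjective {X T : Scheme.{0}} (f : X ⟶ T) : Prop :=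
  ∃ (n : ℕ) (i : X ⟶ pullback (terminal.from T) (terminal.from (PP n))),
    IsClosedImmersion i ∧ i ≫ pullback.fst _ _ = f

/-- The inclusion of the constants into the function field of an integral scheme over `ℂ`. -/
noncomputable def constants (X : Scheme.{0}) [IsIntegral X] (f : X ⟶ Spec (.of ℂ)) :
    ℂ →+* X.functionField :=
  ((Scheme.ΓSpecIso (.of ℂ)).inv ≫ f.appTop ≫ X.presheaf.germ ⊤ (genericPoint X) trivial).hom

/-- The degree of irrationality of an integral scheme `X` over `ℂ`: the smallest degree
`[ℂ(X) : ℂ(x₁, …, xₙ)]`, where `x₁, …, xₙ` are algebraically independent rational functions such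
that this degree is finite (finite degree corresponds to `finrank > 0`). Such a tuple is the same
thing as a dominant rational map from `X` to `ℙⁿ`, `n = dim X`, of this degree. -/
noncomputable def irr (X : Scheme.{0}) [IsIntegral X] (f : X ⟶ Spec (.of ℂ)) : ℕ :=
  letI := (constants X f).toAlgebra
  sInf {d | 0 < d ∧ ∃ (n : ℕ) (x : Fin n → X.functionField), AlgebraicIndependent ℂ x ∧
    Module.finrank (IntermediateField.adjoin ℂ (Set.range x)) X.functionField = d}

/-- A smooth family of complex surfaces: a smooth projective morphism `π : X ⟶ T` of complex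
varieties of relative dimension `2`, all of whose fibres over closed points of `T` are
irreducible. -/
structure SurfaceFamily where
  /-- the base -/
  T : Scheme.{0}
  /-- the total space -/
  X : Scheme.{0}
  /-- the structure morphism of the base -/
  s : T ⟶ Spec (.of ℂ)
  /-- the family -/
  π : X ⟶ T
  isIntegral_T : IsIntegral T
  isSeparated_s : IsSeparated s
  locallyOfFiniteType_s : LocallyOfFiniteType s
  quasiCompact_s : QuasiCompact s
  isIntegral_X : IsIntegral X
  isProjective_π : IsProjective π
  smooth_π : SmoothOfRelativeDimension 2 π
  isIntegral_fibre : ∀ t : Spec (.of ℂ) ⟶ T, t ≫ s = 𝟙 _ → IsIntegral (pullback π t)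

namespace SurfaceFamily

variable (F : SurfaceFamily)

/-- The closed points of the base, that is, its `ℂ`-points. -/
def Pt : Type := {t : Spec (.of ℂ) ⟶ F.T // t ≫ F.s = 𝟙 _}

/-- The point of the underlying space of the base given by a `ℂ`-point. -/
noncomputable def toPoint (t : F.Pt) : F.T := t.1 default

/-- The Zariski topology on the set of closed points of the base. -/
noncomputable instance : TopologicalSpace F.Pt := TopologicalSpace.induced F.toPoint inferInstance

/-- The degree of irrationality of the fibre over a closed point. -/
noncomputable def irrFibre (t : F.Pt) : ℕ :=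
  letI := F.isIntegral_fibre t.1 t.2
  irr (pullback F.π t.1) (pullback.snd F.π t.1)

end SurfaceFamily

end Pool.Agent.H16
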